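import Pool.Agent.Work.MP_f4b644_ag.Big.Band

/-!
The block theorem of type U (two bands and a final strip without tangents).

`blkU_par` (pure arithmetic): μ = (4 s + 3 J - 1) / (3 J) (ceiling of 4 s / (3 J); μ ≥ 2 as J ≤ s,
4 s ≤ 3 J μ, 3 J μ < 4 s + 3 J, so 3 J (μ + 1) ≤ 10 s and 610 (μ + 1) ≤ I by c5), h = K / (3 (μ + 1))
(so 3 (μ + 1) h ≤ K < 3 (μ + 1) (h + 1), h ≥ 99 by c6: 300 (μ + 1) J ≤ 1000 s ≤ K J). H2 ∈ [h, h + μ) with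
H2 ≡ s mod μ (H2 = h + (s + μ * h - h) % μ works since μ h ≥ h), H1 = (s - (μ + 1) H2) / μ, exact division
because s - (μ + 1) H2 ≡ s - H2 ≡ 0. h ≤ H1 because (2 μ + 1) h ≤ 2 K / 3 ≤ 2 s / 3 and
μ (μ + 1) ≤ s / 3 (μ J ≤ 7 s / 3, 610 (μ + 1) ≤ I ≤ J). μ (H1 + H2) ≤ s gives 4 (H1 + H2) ≤ 3 J.
Condition hb of `band` for μ (then also μ + 1): with K < 3 (μ + 1) (h + 1) ≤ 3 (μ + 1) h * 100 / 99 it is
enough that 300 (μ + 1) m' ≤ 99 (t + μ m'), i.e. (201 μ + 300) m' ≤ 99 t, which follows from c7 and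
3 J μ ≤ 4 s + 3 J. Condition hc for μ + 1: 297 (μ + 1) ≤ K and c8.
`blkU`: `band` for μ, H1 and for μ + 1, H2 with TL = 51 s. E1 + E2 ≤ 8 s because
(E1 + E2) h ≤ (H1 + H2) K ≤ (H1 + H2) 4 (μ + 1) h and μ (H1 + H2) ≤ s, μ + 1 ≤ 2 μ. Put J0 = J - H1 - H2
(4 J0 ≥ J), TT0 = TT - E1 - E2 ≥ 51 s, X0 = X - X1 - X2: from c2,
X K ≥ (X1 + X2) K + J0 t + (TT - 18 s) ≥ (X1 + X2 + 60) K since J0 t ≥ 60 K by c7, c4; from c1,
X0 K ≤ J0 t + TT0, so 5 X0 ≤ 3 I J0 + 5 J0 (c8, c3, c6). `St_final` with R = I - 3 - (X0 - 1) / J0.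
-/

set_option autoImplicit false

namespace Pool.Agent.Work.MP_f4b644_ag.Big

open Multiset Gad

theorem BlkU_ceil (J s : ℕ) (hJ : 1 ≤ J) :
    ∃ μ : ℕ, 4 * s ≤ 3 * J * μ ∧ 3 * J * μ ≤ 4 * s + 3 * J := by
  refine ⟨(4 * s + 3 * J - 1) / (3 * J), ?_, ?_⟩
  · have h1 := Nat.div_add_mod (4 * s + 3 * J - 1) (3 * J)
    have h2 := Nat.mod_lt (4 * s + 3 * J - 1) (show 0 < 3 * J by omega)
    omega
  · have h1 := Nat.mul_div_le (4 * s + 3 * J - 1) (3 * J)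
    omega

theorem BlkU_floor (K n : ℕ) (hn : 1 ≤ n) : ∃ h : ℕ, n * h ≤ K ∧ K < n * (h + 1) := by
  refine ⟨K / n, Nat.mul_div_le K n, ?_⟩
  have h1 := Nat.div_add_mod K n
  have h2 := Nat.mod_lt K hn
  rw [mul_add]
  omega

theorem BlkU_split (s μ h : ℕ) (hμ : 1 ≤ μ) (hs : (2 * μ + 1) * h + (μ + 1) * μ ≤ s) :
    ∃ H1 H2 : ℕ, h ≤ H1 ∧ h ≤ H2 ∧ μ * H1 + (μ + 1) * H2 = s := by
  obtain ⟨a, rfl⟩ := Nat.exists_eq_add_of_le
    (le_trans (Nat.le_add_right ((2 * μ + 1) * h) ((μ + 1) * μ)) hs)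
  have h0 : (μ + 1) * μ ≤ a := by omega
  have h1 := Nat.div_add_mod a μ
  have h2 := Nat.mod_lt a hμ
  have h3 : a % μ ≤ a / μ := by
    refine le_trans h2.le ((Nat.le_div_iff_mul_le hμ).2 ?_)
    nlinarith
  obtain ⟨c, hc⟩ := Nat.exists_eq_add_of_le h3
  refine ⟨h + c, h + a % μ, Nat.le_add_right _ _, Nat.le_add_right _ _, ?_⟩
  rw [hc] at h1
  generalize a % μ = r at h1 ⊢
  rw [← h1]
  ring

theorem BlkU_hb (I J K t s m' μ h : ℕ) (hJ : 1 ≤ J) (hm : m' ≤ I) (hh : 99 ≤ h)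
    (h1 : 3 * J * μ ≤ 4 * s + 3 * J) (h2 : K < 3 * (μ + 1) * (h + 1))
    (c7 : 3 * s * I + 6 * J * I ≤ t * J) : m' * K ≤ h * (t + μ * m') := by
  have a1 : (201 * μ + 300) * J ≤ 268 * s + 501 * J := by nlinarith
  have a2 : (201 * μ + 300) * J * m' ≤ (268 * s + 501 * J) * I := Nat.mul_le_mul a1 hm
  have a3 : (201 * μ + 300) * m' ≤ 99 * t := by
    refine Nat.le_of_mul_le_mul_right ?_ hJ
    nlinarith
  have a4 : 99 * K ≤ 300 * (μ + 1) * h := by nlinarith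
  have a5 : m' * (99 * K) ≤ m' * (300 * (μ + 1) * h) := Nat.mul_le_mul_left _ a4
  have a6 : h * ((201 * μ + 300) * m') ≤ h * (99 * t) := Nat.mul_le_mul_left _ a3
  nlinarith

theorem blkU_par (I J K t s m' : ℕ) (hm : m' + 62 = I) (hI : 10000 ≤ I) (hIJ : I ≤ J)
    (c4 : K ≤ s) (c4'' : J ≤ s) (c5 : 2100 * s ≤ I * J) (c6 : 1000 * s ≤ K * J)
    (c7 : 3 * s * I + 6 * J * I ≤ t * J) (c8 : 5 * t ≤ 3 * I * K) :
    ∃ μ h H1 H2 : ℕ, 1 ≤ μ ∧ 99 ≤ h ∧ h ≤ H1 ∧ h ≤ H2 ∧ μ * H1 + (μ + 1) * H2 = s ∧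
      4 * (H1 + H2) ≤ 3 * J ∧ 3 * (μ + 1) * h ≤ K ∧ K ≤ 4 * (μ + 1) * h ∧
      m' * K ≤ h * (t + μ * m') ∧ 10 * (t + (μ + 1) * I + K) ≤ 7 * I * K ∧ 610 * (μ + 1) ≤ I := by
  have hJ : 1 ≤ J := by omega
  obtain ⟨μ, a1, a2⟩ := BlkU_ceil J s hJ
  have hμ : 1 ≤ μ := by
    rcases Nat.eq_zero_or_pos μ with rfl | h0
    · omega
    · exact h0
  have a3 : 3 * J * (μ + 1) ≤ 10 * s := by rw [mul_add]; omega
  have a4 : 610 * (μ + 1) ≤ I := by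
    refine Nat.le_of_mul_le_mul_right ?_ hJ
    nlinarith
  have a5 : 300 * (μ + 1) ≤ K := by
    refine Nat.le_of_mul_le_mul_right ?_ hJ
    nlinarith
  obtain ⟨h, b1, b2⟩ := BlkU_floor K (3 * (μ + 1)) (by omega)
  have hh : 99 ≤ h := by
    by_contra h0
    have : 3 * (μ + 1) * (h + 1) ≤ 3 * (μ + 1) * 99 := Nat.mul_le_mul_left _ (by omega)
    omega
  have b3 : (2 * μ + 1) * h + (μ + 1) * μ ≤ s := by
    have e1 : 610 * μ * (μ + 1) ≤ J * (μ + 1) := Nat.mul_le_mul_right _ (by omega)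
    nlinarith
  obtain ⟨H1, H2, d1, d2, d3⟩ := BlkU_split s μ h hμ b3
  refine ⟨μ, h, H1, H2, hμ, hh, d1, d2, d3, ?_, b1, ?_,
    BlkU_hb I J K t s m' μ h hJ (by omega) hh a2 b2 c7, ?_, a4⟩
  · refine Nat.le_of_mul_le_mul_right ?_ hμ
    nlinarith
  · have : 3 * (μ + 1) * (h + 1) ≤ (μ + 1) * (4 * h) := by
      rw [mul_comm 3, mul_assoc]
      exact Nat.mul_le_mul_left _ (by omega)
    nlinarith
  · have e1 : 300 * (μ + 1) * I ≤ K * I := Nat.mul_le_mul_right _ a5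
    have e2 : 10000 * K ≤ I * K := Nat.mul_le_mul_right _ hI
    nlinarith

theorem BlkU_final (I J K t s G J0 X0 TT0 : ℕ) (hI : 10000 ≤ I) (hK : 1 ≤ K) (hJ0 : 1 ≤ J0)
    (hJ : J ≤ 4 * J0) (hX : 60 ≤ X0) (h1 : X0 * K ≤ J0 * t + TT0) (hT : TT0 ≤ 61 * s)
    (c6 : 1000 * s ≤ K * J) (c8 : 5 * t ≤ 3 * I * K) (c9 : 100 * G ≤ I * J) :
    St I K (K + t) 60 J0 X0 0 TT0 G := by
  have a1 : 5 * X0 ≤ (3 * I + 5) * J0 := by
    refine Nat.le_of_mul_le_mul_right ?_ hK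
    have e1 : J0 * (5 * t) ≤ J0 * (3 * I * K) := Nat.mul_le_mul_left _ c8
    have e2 : K * J ≤ K * (4 * J0) := Nat.mul_le_mul_left _ hJ
    nlinarith
  have a2 : 5 * ((X0 - 1) / J0) ≤ 3 * I + 5 := by
    refine Nat.le_of_mul_le_mul_right ?_ hJ0
    have := Nat.div_mul_le_self (X0 - 1) J0
    rw [mul_assoc]
    omega
  have a3 : 25 * G ≤ I * J0 := by
    have e2 : I * J ≤ I * (4 * J0) := Nat.mul_le_mul_left _ hJ
    nlinarith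
  refine St_final (I - 3 - (X0 - 1) / J0) hJ0 hX (by nlinarith) (by omega) (by omega) ?_ ?_
  · have e1 : I * J0 ≤ 25 * (I - 3 - (X0 - 1) / J0) * J0 := Nat.mul_le_mul_right _ (by omega)
    rw [mul_assoc] at e1
    omega
  · have e1 : 10000 * J0 ≤ I * J0 := Nat.mul_le_mul_right _ hI
    nlinarith

theorem blkU (I J K t X s TT G m' : ℕ) (hm : m' + 62 = I) (hI : 10000 ≤ I) (hIJ : I ≤ J)
    (c1 : X * K ≤ J * t + s * m' + TT) (c2 : J * t + s * m' + TT ≤ X * K + 10 * s)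
    (c3 : 59 * s ≤ TT) (c3' : TT ≤ 61 * s) (c4 : K ≤ s) (c4' : K + t ≤ 3 * s) (c4'' : J ≤ s)
    (c4s : s ≤ K + t) (c5 : 2100 * s ≤ I * J) (c6 : 1000 * s ≤ K * J)
    (c7 : 3 * s * I + 6 * J * I ≤ t * J) (c8 : 5 * t ≤ 3 * I * K) (c9 : 100 * G ≤ I * J) :
    St I K (K + t) 60 J X s TT G := by
  obtain ⟨μ, h, H1, H2, hμ, hh, d1, d2, d3, d4, d5, d6, d7, d8, d9⟩ :=
    blkU_par I J K t s m' hm hI hIJ c4 c4'' c5 c6 c7 c8
  have he : 9 * (K + t) + 120 * K ≤ 3 * (51 * s) := by omega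
  obtain ⟨X1, E1, p1, q1, r1⟩ := band I K t m' μ h (51 * s) hm (by omega) (by omega) hμ
    (by nlinarith) d7 (by nlinarith) (by omega) he H1 d1
  obtain ⟨X2, E2, p2, q2, r2⟩ := band I K t m' (μ + 1) h (51 * s) hm (by omega) (by omega)
    (by omega) d5 (le_trans d7 (Nat.mul_le_mul_left _ (by nlinarith))) d8 d9 he H2 d2
  have hK : 1 ≤ K := by
    have : 1 ≤ 3 * (μ + 1) * h := Nat.mul_pos (by omega) (by omega)
    omega
  have a1 : E1 + E2 ≤ 8 * s := by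
    have e1 : E1 + E2 ≤ (H1 + H2) * (4 * (μ + 1)) := by
      refine Nat.le_of_mul_le_mul_right ?_ (show 0 < h by omega)
      have e2 : (H1 + H2) * K ≤ (H1 + H2) * (4 * (μ + 1) * h) := Nat.mul_le_mul_left _ d6
      nlinarith
    have e3 : (H1 + H2) * (4 * (μ + 1)) ≤ (H1 + H2) * (8 * μ) := Nat.mul_le_mul_left _ (by omega)
    nlinarith
  obtain ⟨J0, hJ0⟩ : ∃ J0, J = H1 + (H2 + J0) := ⟨J - H1 - H2, by omega⟩
  obtain ⟨TT0, hT0⟩ : ∃ TT0, TT = E1 + (E2 + TT0) := ⟨TT - E1 - E2, by omega⟩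
  have a2 : (X1 + X2) * K + J0 * t + TT0 = J * t + s * m' + TT := by
    rw [add_mul, p1, p2, hJ0, hT0, ← d3]
    ring
  have a3 : X1 + X2 + 60 ≤ X := by
    refine Nat.le_of_mul_le_mul_right ?_ hK
    have e1 : t * J ≤ t * (4 * J0) := Nat.mul_le_mul_left _ (by omega)
    have e2 : s * 10000 ≤ s * I := Nat.mul_le_mul_left _ hI
    have e3 : 60 * K ≤ J0 * t := by nlinarith
    rw [add_mul]
    omega
  obtain ⟨X0, hX0⟩ : ∃ X0, X = X1 + (X2 + X0) := ⟨X - X1 - X2, by omega⟩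
  have a4 : X0 * K ≤ J0 * t + TT0 := by
    have e1 : X * K = (X1 + X2) * K + X0 * K := by rw [hX0]; ring
    omega
  have b0 := BlkU_final I J K t s G J0 X0 TT0 hI hK (by omega) (by omega) (by omega) a4 (by omega)
    c6 c8 c9
  have b2 := r2 _ _ _ _ _ b0 (by omega) (by omega)
  have b1 := r1 _ _ _ _ _ b2 (by omega) (by omega)
  rw [add_zero, d3, ← hJ0, ← hX0, ← hT0] at b1
  exact b1

/-- multiset form: `s0` plain tangents, `u` tangents with one mate, `b0` B-fibres, `e` B-fibres with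
a token, `G` pairs and `F` single C-fibres. Use TT = 60 s0 + 59 u + e, s = s0 + u and `S_of_St`. -/
theorem S_blkU (I J K t v s0 u b0 e G F : ℕ) (hI : 10000 ≤ I) (hIJ : I ≤ J)
    (hB : s0 + u + b0 + e = K + t) (hv : v + F + s0 + 2 * u + 2 * G = I * J) (hJv : J ≤ v)
    (c1 : v * K + u ≤ J * (K + t) + (I - 2) * (s0 + u) + e)
    (c2 : J * (K + t) + (I - 2) * (s0 + u) + e ≤ v * K + u + 10 * (s0 + u))
    (c3 : e ≤ s0 + u) (c4 : K ≤ s0 + u) (c4' : K + t ≤ 3 * (s0 + u)) (c4'' : J ≤ s0 + u)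
    (c5 : 2100 * (s0 + u) ≤ I * J) (c6 : 1000 * (s0 + u) ≤ K * J)
    (c7 : 3 * (s0 + u) * I + 6 * J * I ≤ t * J) (c8 : 5 * t ≤ 3 * I * K) (c9 : 100 * G ≤ I * J) :
    S I J K (replicate s0 (T 0 0) + replicate u (T 1 0) + replicate b0 (BP 0) +
      replicate e (BP 1) + replicate G (CP 2) + replicate F (CP 1)) := by
  obtain ⟨X, rfl⟩ := Nat.exists_eq_add_of_le hJv
  obtain ⟨m', rfl⟩ : ∃ m', I = m' + 62 := ⟨I - 62, by omega⟩
  have e0 : m' + 62 - 2 = m' + 60 := rfl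
  rw [e0] at c1 c2
  refine S_of_St (y := 60) (X := X) (TT := 60 * s0 + 59 * u + e) s0 u b0 _ F
    (blkU _ J K t X (s0 + u) _ G m' rfl hI hIJ (by nlinarith) (by nlinarith) (by omega) (by omega)
      c4 c4' c4'' (by omega) c5 c6 c7 c8 c9) (by omega) hB le_rfl (by omega)

end Pool.Agent.Work.MP_f4b644_ag.Big
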