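import Pool.Agent.Work.MP_f4b644_ag.Big.OptA
import Pool.Agent.Work.MP_f4b644_ag.Big.BlkU

/-!
Blocks for excess ω ≥ I - 21 when 10^6 v ≤ I J. Notation m + 2 = I, τ = J + m, v = τ + ω, B = K + t.

Basic facts: ω ≤ t ≤ 2 ω, v ≤ B ≤ 2 v, t τ ≤ (ω + 1) K, 10^6 B ≤ I K + 10^6 (from B τ < v K + τ and
10^6 v ≤ I J ≤ I τ), hence 100 * 9102 * B ≤ I K.
`optA_choose`. Let P n mean n (m - 9100) K + 9102 B ≤ (m + ω) K.
Case P 3: y = 9100, x = m - y, n maximal with P n, x0 = m + ω - n x. Then x0 ≥ 9102, (n - 1) x ≤ ω,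
100 x0 < 100 x + I, 100 ω ≤ 100 n x + I. hnB: if ω < 20 I then n ≤ 21, t ≤ 40 I, B ≥ I; if J < 10 I then
n x ≤ v, 10^5 v ≤ I², so n (t + x) x ≤ 3 v² ≤ x² B. hA: Δ = (n - 1) τ - ω ≥ 0.33 n J, τ Tk ≥ Δ K - τ;
multiply hA by τ and bound τ t ≤ (ω + 1) K ≤ 1.01 n I K, B ≤ 2 v ≤ 2 I J / 10^6, n ≤ 1.01 J / 10^6, τ ≤ K:
0.148 n I² J K + 10^(-5) n I² J K + n I² K ≤ 0.999 I² (0.33 n J K - K).
Case ¬ P 3: n = 2, y = 50, x = m - 50, x0 = ω - m + 100, Tk = K - t. From ¬ P 3: 100 ω < 201 I, and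
(ω - 2 m + 18198) τ < 9102 (ω + 1), which forces ω + 9000 ≤ τ (τ ≥ 2 m + 2). h0: with w = ω - (m - 19),
x0 = 81 + w and 52 τ + 52 (ω + 1) ≤ (78 + w) τ. hA multiplied by τ: τ (K - t) ≥ (Δ - 1) K with Δ = τ - ω;
left side ≤ K (816 v (ω + 1) + 6 I (ω + 1) + 2 I²); if J ≤ 2 I use v ≤ 5.01 I, Δ ≥ 9000, otherwise
v ≤ 2.51 J, Δ - 1 ≥ 0.49 J.
`blkA`: `optA_choose`, `optA`, `S_of_St` with s0 = B, u = b0 = e = 0, or `S_blkU` with s0 = B and
u = b0 = e = G = 0, F = r - B when ω ≥ 20 I and J ≥ 10 I (c7: 3 t I ≤ 0.3 t J, K ≤ 2.2 J, t ≥ 20 I).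
-/

set_option autoImplicit false

namespace Pool.Agent.Work.MP_f4b644_ag.Big

open Multiset Gad

theorem ABlk_basic (I J m τ ω v K t : ℕ) (hI : 10 ^ 8 ≤ I) (hIJ : I ≤ J) (hm : m + 2 = I)
    (hτ : τ = J + m) (hv : v = τ + ω) (hL : 10 ^ 6 * v ≤ I * J)
    (hK1 : τ ≤ K) (hK2 : K < 2 * τ) (ht1 : ω * K ≤ t * τ) (ht2 : t * τ < ω * K + τ) :
    ω ≤ t ∧ t ≤ 2 * ω ∧ t * τ ≤ (ω + 1) * K ∧ 910200 * (K + t) ≤ I * K := by
  have hτ0 : 0 < τ := by omega
  have h1 : ω ≤ t := by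
    have : ω * τ ≤ t * τ := (Nat.mul_le_mul_left ω hK1).trans ht1
    exact Nat.le_of_mul_le_mul_right this hτ0
  have h2 : t ≤ 2 * ω := by
    have e1 : ω * K ≤ ω * (2 * τ) := Nat.mul_le_mul_left ω hK2.le
    have : t * τ < (2 * ω + 1) * τ := by nlinarith
    have := Nat.lt_of_mul_lt_mul_right this
    omega
  have h3 : t * τ ≤ (ω + 1) * K := by nlinarith
  refine ⟨h1, h2, h3, ?_⟩
  have h4 : (K + t) * τ < v * K + τ := by rw [hv]; nlinarith
  have h5 : 10 ^ 6 * v * K ≤ I * τ * K :=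
    Nat.mul_le_mul_right K (hL.trans (Nat.mul_le_mul_left I (by omega)))
  have h6 : 10 ^ 6 * (K + t) * τ < (I * K + 10 ^ 6) * τ := by nlinarith
  have h7 := Nat.lt_of_mul_lt_mul_right h6
  have h8 : 10 ^ 8 * 1 ≤ I * K := Nat.mul_le_mul hI (by omega)
  omega

theorem ABlk_hA3 (I J K τ t B n x Tk : ℝ) (hI : 10 ^ 8 ≤ I) (hIJ : I ≤ J) (hτ : 0 < τ)
    (hK : τ ≤ K) (ht : t * τ ≤ 1.01 * n * I * K) (ht0 : 0 ≤ t) (hB : 10 ^ 6 * B ≤ 2 * (I * J))
    (hn : 3 ≤ n) (hnJ : 10 ^ 6 * n ≤ 1.01 * J) (hx1 : 0.999 * I ≤ x) (hx2 : x ≤ I)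
    (hT : (0.33 * n * J - 1) * K ≤ τ * Tk) :
    8 * (9100 + 1) * B * t + 3 * n * t * I + I * x * n ≤ I * x * Tk := by
  have hI0 : 0 < I := by linarith [show (0 : ℝ) < 10 ^ 8 by norm_num]
  have hK0 : 0 < K := by linarith
  have hJ0 : 0 < J := by linarith
  have hn0 : 0 < n := by linarith
  have hx0 : 0 < x := by linarith
  have hIJ0 : 0 < I * J := mul_pos hI0 hJ0
  have e1 : 72808 * B + 3 * n * I ≤ 0.146 * (I * J) := by
    have : n * I ≤ 1.01 * J / 10 ^ 6 * I := by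
      apply mul_le_mul_of_nonneg_right _ hI0.le
      rw [le_div_iff₀ (by norm_num)]; linarith
    nlinarith
  have htτ : 0 ≤ t * τ := mul_nonneg ht0 hτ.le
  have e2 : (72808 * B + 3 * n * I) * (t * τ) ≤ 0.146 * (I * J) * (1.01 * n * I * K) :=
    mul_le_mul e1 ht htτ (by positivity)
  have e3 : I * x * n * τ ≤ I * I * n * K := by gcongr
  have hnJ' : 3 * 10 ^ 8 ≤ n * J := by nlinarith
  have e4 : 0 ≤ (0.33 * n * J - 1) * K := mul_nonneg (by nlinarith) hK0.le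
  have e5 : I * (0.999 * I) * ((0.33 * n * J - 1) * K) ≤ I * x * (τ * Tk) := by
    apply mul_le_mul _ hT e4 (by positivity)
    gcongr
  have e6 : 0 ≤ 0.999 * (0.33 * n * J - 1) - 0.14746 * (n * J) - n := by nlinarith
  have e7 : 0 ≤ I * I * K * (0.999 * (0.33 * n * J - 1) - 0.14746 * (n * J) - n) := by positivity
  apply le_of_mul_le_mul_right _ hτ
  nlinarith

theorem ABlk_hA2 (I J K τ ω t v x : ℝ) (hI : 10 ^ 8 ≤ I) (hIJ : I ≤ J) (hτ : τ = J + I - 2)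
    (hv : v = τ + ω) (hK : τ ≤ K) (ht : t * τ ≤ (ω + 1) * K) (ht0 : 0 ≤ t) (hω0 : 0 ≤ ω)
    (hB : K + t ≤ 2 * v) (hω : 100 * ω ≤ 201 * I) (hΔ : ω + 9000 ≤ τ)
    (hx1 : 0.999 * I ≤ x) (hx2 : x ≤ I) :
    8 * (50 + 1) * (K + t) * t + 3 * 2 * t * I + I * x * 2 ≤ I * x * (K - t) := by
  have hI0 : 0 < I := by linarith [show (0 : ℝ) < 10 ^ 8 by norm_num]
  have hτ0 : 0 < τ := by linarith
  have hK0 : 0 < K := by linarith
  have hJ0 : 0 < J := by linarith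
  have hx0 : 0 < x := by linarith
  have hv0 : 0 < v := by linarith
  have htτ : 0 ≤ t * τ := mul_nonneg ht0 hτ0.le
  have hω1 : ω + 1 ≤ 2.011 * I := by linarith
  have ht' : t * τ ≤ 2.011 * I * K := ht.trans (by gcongr)
  have e2 : (408 * (K + t) + 6 * I) * (t * τ) ≤ (816 * v + 6 * I) * (2.011 * I * K) :=
    mul_le_mul (by linarith) ht' htτ (by positivity)
  have e3 : I * x * 2 * τ ≤ I * I * 2 * K := by gcongr
  have e4 : (τ - ω - 1) * K ≤ τ * (K - t) := by nlinarith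
  have e5 : I * (0.999 * I) * ((τ - ω - 1) * K) ≤ I * x * (τ * (K - t)) := by
    apply mul_le_mul _ e4 (mul_nonneg (by linarith) hK0.le) (by positivity)
    gcongr
  have e6 : (816 * v + 6 * I) * 2.011 + 2 * I ≤ 0.999 * I * (τ - ω - 1) := by
    rcases le_total J (2 * I) with h | h
    · have : I * 8999 ≤ I * (τ - ω - 1) := by gcongr; linarith
      nlinarith
    · have h1 : 0.49 * J ≤ τ - ω - 1 := by linarith
      have h2 : 10 ^ 8 * (0.49 * J) ≤ I * (τ - ω - 1) := by gcongr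
      nlinarith
  have e7 : I * K * ((816 * v + 6 * I) * 2.011 + 2 * I) ≤ I * K * (0.999 * I * (τ - ω - 1)) := by
    gcongr
  apply le_of_mul_le_mul_right _ hτ0
  nlinarith

theorem ABlk_hnB (I J m ω v K t n x : ℕ) (hI : 10 ^ 8 ≤ I) (hm : m + 2 = I)
    (hx : x + 9100 = m) (hv : m + ω ≤ v) (hL : 10 ^ 6 * v ≤ I * J) (hIK : I ≤ K)
    (hvB : v ≤ K + t) (ht : t ≤ 2 * ω) (hnx : n * x ≤ m + ω) (hnx' : (n - 1) * x ≤ ω)
    (hcase : ω < 20 * I ∨ J < 10 * I) : n * (t + x) ≤ x * (K + t) := by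
  rcases hcase with h | h
  · have hn : n ≤ 21 := by
      by_contra hc
      have : 21 * x ≤ (n - 1) * x := Nat.mul_le_mul_right x (by omega)
      omega
    calc n * (t + x) ≤ 21 * (41 * I) := Nat.mul_le_mul hn (by omega)
      _ = 861 * I := by ring
      _ ≤ x * (K + t) := Nat.mul_le_mul (by omega) (by omega)
  · have hx0 : 0 < x := by omega
    have h1 : I * J ≤ I * (10 * I) := Nat.mul_le_mul_left I h.le
    have h2 : I * I ≤ (2 * x) * (2 * x) := Nat.mul_le_mul (by omega) (by omega)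
    have h3 : 3 * v ≤ x * x := by nlinarith
    have h4 : n * x * (t + x) ≤ v * (3 * v) := Nat.mul_le_mul (by omega) (by omega)
    have h5 : v * (3 * v) ≤ (K + t) * (x * x) := Nat.mul_le_mul hvB h3
    apply Nat.le_of_mul_le_mul_right _ hx0
    nlinarith

theorem ABlk_case3 (I J m τ ω v K t x : ℕ) (hI : 10 ^ 8 ≤ I) (hIJ : I ≤ J) (hm : m + 2 = I)
    (hτ : τ = J + m) (hv : v = τ + ω) (hL : 10 ^ 6 * v ≤ I * J)
    (hK1 : τ ≤ K) (hK2 : K < 2 * τ) (ht1 : ω * K ≤ t * τ) (ht2 : t * τ < ω * K + τ)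
    (hcase : ω < 20 * I ∨ J < 10 * I) (hx : x + 9100 = m)
    (hP : 3 * (x * K) + 9102 * (K + t) ≤ (m + ω) * K) :
    ∃ n x y x0 Tk : ℕ, n * x + x0 = m + ω ∧ x + y + 2 = I ∧ 2 ≤ y ∧ 10 * y ≤ I ∧ 2 ≤ n ∧
      Tk + t + K = n * K ∧ (n - 1) * x ≤ t ∧ (y + 2) * (K + t) ≤ x0 * K ∧ x0 + 12 ≤ 2 * I ∧
      n * (t + x) ≤ x * (K + t) ∧
      8 * (y + 1) * (K + t) * t + 3 * n * t * I + I * x * n ≤ I * x * Tk := by
  obtain ⟨f1, f2, f3, f4⟩ := ABlk_basic I J m τ ω v K t hI hIJ hm hτ hv hL hK1 hK2 ht1 ht2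
  have hK0 : 0 < K := by omega
  have hxK : 0 < x * K := Nat.mul_pos (by omega) hK0
  obtain ⟨D, hD⟩ : ∃ D, D + 9102 * (K + t) = (m + ω) * K := ⟨(m + ω) * K - 9102 * (K + t), by omega⟩
  obtain ⟨n, ρ, hn, hρ⟩ : ∃ n ρ, n * (x * K) + ρ = D ∧ ρ < x * K :=
    ⟨D / (x * K), D % (x * K), Nat.div_add_mod' _ _, Nat.mod_lt _ hxK⟩
  have hn3 : 3 ≤ n := by
    by_contra hc
    have : n * (x * K) ≤ 2 * (x * K) := Nat.mul_le_mul_right _ (by omega)
    omega
  have hnx : n * x ≤ m + ω := by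
    apply Nat.le_of_mul_le_mul_right _ hK0
    rw [mul_assoc]; omega
  obtain ⟨x0, hx0⟩ : ∃ x0, n * x + x0 = m + ω := ⟨m + ω - n * x, by omega⟩
  have hx0K : x0 * K = ρ + 9102 * (K + t) := by
    have : (m + ω) * K = n * (x * K) + x0 * K := by rw [← hx0]; ring
    omega
  have g1 : 9102 ≤ x0 := by
    apply Nat.le_of_mul_le_mul_right _ hK0
    omega
  have g2 : 100 * x0 < 100 * x + I := by
    apply Nat.lt_of_mul_lt_mul_right (a := K)
    have e1 : 100 * x0 * K = 100 * (x0 * K) := by ring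
    have e2 : (100 * x + I) * K = 100 * (x * K) + I * K := by ring
    omega
  obtain ⟨p, rfl⟩ : ∃ p, n = p + 1 := ⟨n - 1, by omega⟩
  have e0 : (p + 1) * x = p * x + x := by ring
  have g3 : p * x ≤ ω := by omega
  have g4 : 100 * (ω + 1) + 33 * ((p + 1) * J) ≤ 100 * (p * τ) + 100 := by
    have e1 : p * τ = p * J + p * x + p * 9100 := by rw [hτ, ← hx]; ring
    have e2 : (p + 1) * J = p * J + J := by ring
    have e3 : 2 * J ≤ p * J := Nat.mul_le_mul_right J (by omega)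
    omega
  have g4' : 3 * J ≤ (p + 1) * J := Nat.mul_le_mul_right J hn3
  have g5 : t ≤ p * K := by
    apply Nat.le_of_mul_le_mul_right _ (show 0 < τ by omega)
    calc t * τ ≤ (ω + 1) * K := f3
      _ ≤ p * τ * K := Nat.mul_le_mul_right K (by omega)
      _ = p * K * τ := by ring
  obtain ⟨Tk, hTk⟩ : ∃ Tk, Tk + t = p * K := ⟨p * K - t, by omega⟩
  refine ⟨p + 1, x, 9100, x0, Tk, hx0, by omega, by omega, by omega, by omega, ?_, ?_, by omega,
    by omega, ?_, ?_⟩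
  · rw [hTk]; ring
  · rw [Nat.add_sub_cancel]; omega
  · exact ABlk_hnB I J m ω v K t (p + 1) x hI hm hx (by omega) hL (by omega) (by omega) f2 hnx
      (by rw [Nat.add_sub_cancel]; exact g3) hcase
  · have g6 : 100 * (ω + 1) ≤ 101 * ((p + 1) * I) := by
      have e1 : (p + 1) * x ≤ (p + 1) * I := Nat.mul_le_mul_left _ (by omega)
      have e2 : 3 * I ≤ (p + 1) * I := Nat.mul_le_mul_right _ hn3
      omega
    have g7 : 10 ^ 8 * (p + 1) ≤ 101 * J := by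
      apply Nat.le_of_mul_le_mul_right _ (show 0 < I by omega)
      have e1 : (p + 1) * (100 * I) ≤ (p + 1) * (101 * x) := Nat.mul_le_mul_left _ (by omega)
      have e2 : 10 ^ 8 * (p + 1) * I = 10 ^ 6 * ((p + 1) * (100 * I)) := by ring
      have e3 : (p + 1) * (101 * x) = 101 * ((p + 1) * x) := by ring
      have e4 : 101 * J * I = 101 * (I * J) := by ring
      omega
    have g8 : 10 ^ 6 * (K + t) ≤ 2 * (I * J) := by omega
    have g9 : 999 * I ≤ 1000 * x := by omega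
    have g10 : x ≤ I := by omega
    have g11 : 0 < τ := by omega
    have hKr : (0 : ℝ) ≤ K := Nat.cast_nonneg K
    have r3 : (t : ℝ) * τ ≤ (ω + 1) * K := by exact_mod_cast f3
    have r4 : (100 : ℝ) * (ω + 1) + 33 * ((p + 1) * J) ≤ 100 * (p * τ) + 100 := by
      exact_mod_cast g4
    have r6 : (100 : ℝ) * (ω + 1) ≤ 101 * ((p + 1) * I) := by exact_mod_cast g6
    have r7 : (10 : ℝ) ^ 8 * (p + 1) ≤ 101 * J := by exact_mod_cast g7
    have r9 : (999 : ℝ) * I ≤ 1000 * x := by exact_mod_cast g9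
    have rT : (Tk : ℝ) + t = p * K := by exact_mod_cast hTk
    have key := ABlk_hA3 I J K τ t (K + t) (p + 1) x Tk (by exact_mod_cast hI)
      (by exact_mod_cast hIJ) (by exact_mod_cast g11) (by exact_mod_cast hK1)
      (r3.trans (mul_le_mul_of_nonneg_right (by linarith) hKr)) (Nat.cast_nonneg t)
      (by exact_mod_cast g8) (by exact_mod_cast hn3) (by linarith) (by linarith)
      (by exact_mod_cast g10) (by
        have e1 : (0.33 * (p + 1) * J - 1 : ℝ) * K ≤ (p * τ - (ω + 1)) * K :=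
          mul_le_mul_of_nonneg_right (by linarith) hKr
        have e2 : (Tk : ℝ) = p * K - t := by linarith
        rw [e2]; linarith)
    exact_mod_cast key

theorem ABlk_case2 (I J m τ ω v K t x : ℕ) (hI : 10 ^ 8 ≤ I) (hIJ : I ≤ J) (hm : m + 2 = I)
    (hτ : τ = J + m) (hv : v = τ + ω) (hω : I ≤ ω + 21) (hL : 10 ^ 6 * v ≤ I * J)
    (hK1 : τ ≤ K) (hK2 : K < 2 * τ) (ht1 : ω * K ≤ t * τ) (ht2 : t * τ < ω * K + τ)
    (hx : x + 9100 = m) (hP : (m + ω) * K < 3 * (x * K) + 9102 * (K + t)) :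
    ∃ n x y x0 Tk : ℕ, n * x + x0 = m + ω ∧ x + y + 2 = I ∧ 2 ≤ y ∧ 10 * y ≤ I ∧ 2 ≤ n ∧
      Tk + t + K = n * K ∧ (n - 1) * x ≤ t ∧ (y + 2) * (K + t) ≤ x0 * K ∧ x0 + 12 ≤ 2 * I ∧
      n * (t + x) ≤ x * (K + t) ∧
      8 * (y + 1) * (K + t) * t + 3 * n * t * I + I * x * n ≤ I * x * Tk := by
  obtain ⟨f1, f2, f3, f4⟩ := ABlk_basic I J m τ ω v K t hI hIJ hm hτ hv hL hK1 hK2 ht1 ht2
  have hK0 : 0 < K := by omega
  have hτ0 : 0 < τ := by omega
  have e0 : (m + ω) * K = x * K + 9100 * K + ω * K := by rw [← hx]; ring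
  have g1 : 100 * ω < 201 * I := by
    apply Nat.lt_of_mul_lt_mul_right (a := K)
    have e1 : 100 * ω * K = 100 * (ω * K) := by ring
    have e2 : 201 * I * K = 201 * (I * K) := by ring
    have e3 : x * K ≤ I * K := Nat.mul_le_mul_right K (by omega)
    omega
  have g2 : ω + 9000 ≤ τ := by
    by_contra hc
    obtain ⟨e, he⟩ : ∃ e, ω + 8999 = τ + e := ⟨ω + 8999 - τ, by omega⟩
    have e1 : (2 * x + 9201 + e) * K ≤ (ω - 2) * K := Nat.mul_le_mul_right K (by omega)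
    have e2 : (ω - 2) * K + 2 * K = ω * K := by
      rw [← add_mul]; congr 1; omega
    have e3 : (2 * x + 9201 + e) * K = 2 * (x * K) + (9201 + e) * K := by ring
    have e4 : (9201 + e) * K ≤ 9102 * t := by omega
    have e5 : (9201 + e) * K * τ ≤ 9102 * t * τ := Nat.mul_le_mul_right τ e4
    have e6 : (9201 + e) * τ * K ≤ 9102 * (ω + 1) * K := by nlinarith
    have e7 := Nat.le_of_mul_le_mul_right e6 hK0
    have e8 : e * 9102 ≤ e * τ := Nat.mul_le_mul_left e (by omega)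
    have e9 : (9201 + e) * τ = 9201 * τ + e * τ := by ring
    omega
  have g3 : t ≤ K := by
    apply Nat.le_of_mul_le_mul_right _ hτ0
    calc t * τ ≤ (ω + 1) * K := f3
      _ ≤ τ * K := Nat.mul_le_mul_right K (by omega)
      _ = K * τ := by ring
  obtain ⟨Tk, hTk⟩ : ∃ Tk, Tk + t = K := ⟨K - t, by omega⟩
  obtain ⟨z, hz⟩ : ∃ z, z + 50 = m := ⟨m - 50, by omega⟩
  obtain ⟨w, hw⟩ : ∃ w, w + m = ω + 19 := ⟨ω + 19 - m, by omega⟩
  refine ⟨2, z, 50, 81 + w, Tk, by omega, by omega, by omega, by omega, by omega, by omega,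
    by omega, ?_, by omega, ?_, ?_⟩
  · apply Nat.le_of_mul_le_mul_right _ hτ0
    have e1 : w * 52 ≤ w * τ := Nat.mul_le_mul_left w (by omega)
    have e2 : 52 * τ + 52 * (ω + 1) ≤ (81 + w) * τ := by
      have : (81 + w) * τ = 81 * τ + w * τ := by ring
      omega
    have e3 := Nat.mul_le_mul_right K e2
    nlinarith
  · calc 2 * (t + z) ≤ 2 * (K + t) := by omega
      _ ≤ z * (K + t) := Nat.mul_le_mul_right _ (by omega)
  · have rT : (Tk : ℝ) = K - t := by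
      have : (Tk : ℝ) + t = K := by exact_mod_cast hTk
      linarith
    have r1 : (τ : ℝ) = J + I - 2 := by
      have : (τ : ℝ) + 2 = J + I := by exact_mod_cast (show τ + 2 = J + I by omega)
      linarith
    have r9 : (999 : ℝ) * I ≤ 1000 * z := by exact_mod_cast (show 999 * I ≤ 1000 * z by omega)
    have key := ABlk_hA2 I J K τ ω t v z (by exact_mod_cast hI) (by exact_mod_cast hIJ) r1
      (by exact_mod_cast hv) (by exact_mod_cast hK1) (by exact_mod_cast f3) (Nat.cast_nonneg t)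
      (Nat.cast_nonneg ω) (by exact_mod_cast (show K + t ≤ 2 * v by omega))
      (by exact_mod_cast g1.le) (by exact_mod_cast g2) (by linarith)
      (by exact_mod_cast (show z ≤ I by omega))
    rw [← rT] at key
    exact_mod_cast key

theorem optA_choose (I J m τ ω v K t : ℕ) (hI : 10 ^ 8 ≤ I) (hIJ : I ≤ J) (hm : m + 2 = I)
    (hτ : τ = J + m) (hv : v = τ + ω) (hω : I ≤ ω + 21) (hL : 10 ^ 6 * v ≤ I * J)
    (hK1 : τ ≤ K) (hK2 : K < 2 * τ) (ht1 : ω * K ≤ t * τ) (ht2 : t * τ < ω * K + τ)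
    (hcase : ω < 20 * I ∨ J < 10 * I) :
    ∃ n x y x0 Tk : ℕ, n * x + x0 = m + ω ∧ x + y + 2 = I ∧ 2 ≤ y ∧ 10 * y ≤ I ∧ 2 ≤ n ∧
      Tk + t + K = n * K ∧ (n - 1) * x ≤ t ∧ (y + 2) * (K + t) ≤ x0 * K ∧ x0 + 12 ≤ 2 * I ∧
      n * (t + x) ≤ x * (K + t) ∧
      8 * (y + 1) * (K + t) * t + 3 * n * t * I + I * x * n ≤ I * x * Tk := by
  obtain ⟨x, hx⟩ : ∃ x, x + 9100 = m := ⟨m - 9100, by omega⟩
  rcases le_or_gt (3 * (x * K) + 9102 * (K + t)) ((m + ω) * K) with hP | hP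
  · exact ABlk_case3 I J m τ ω v K t x hI hIJ hm hτ hv hL hK1 hK2 ht1 ht2 hcase hx hP
  · exact ABlk_case2 I J m τ ω v K t x hI hIJ hm hτ hv hω hL hK1 hK2 ht1 ht2 hx hP

theorem blkA (I J r m τ ω v K t : ℕ) (hI : 10 ^ 8 ≤ I) (hIJ : I ≤ J) (hm : m + 2 = I)
    (hτ : τ = J + m) (hv : v = τ + ω) (hr : r + v = I * J) (hω : I ≤ ω + 21)
    (hL : 10 ^ 6 * v ≤ I * J) (hK1 : τ ≤ K) (hK2 : K < 2 * τ) (ht1 : ω * K ≤ t * τ)
    (ht2 : t * τ < ω * K + τ) : Blk I J r K (K + t) := by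
  obtain ⟨f1, f2, f3, f4⟩ := ABlk_basic I J m τ ω v K t hI hIJ hm hτ hv hL hK1 hK2 ht1 ht2
  have hBr : K + t ≤ r := by omega
  refine ⟨hBr, ?_⟩
  by_cases hcase : ω < 20 * I ∨ J < 10 * I
  · obtain ⟨n, x, y, x0, Tk, a1, a2, a3, a4, a5, a6, a7, a8, a9, a10, a11⟩ :=
      optA_choose I J m τ ω v K t hI hIJ hm hτ hv hω hL hK1 hK2 ht1 ht2 hcase
    have hc : (n * x + x0) * K ≤ J * t + (x + y) * (K + t) := by
      rw [a1, show x + y = m by omega]
      rw [hτ] at ht1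
      nlinarith
    have H := optA I J K t n x y x0 Tk (by omega) a2 a3 a4 a5 (by omega) a6 hc a7 a8 a9 a10 a11
    have H' := S_of_St (K + t) 0 0 0 (r - (K + t)) H (by omega) rfl (by omega) (by omega)
    simpa using H'
  · have h1 : 20 * I ≤ ω := by omega
    have h2 : 10 * I ≤ J := by omega
    have e1 : J * (K + t) + (I - 2) * (K + t + 0) = K * τ + t * τ := by
      rw [hτ, show I - 2 = m by omega]; ring
    have e2 : v * K = K * τ + ω * K := by rw [hv]; ring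
    have e3 : I * J ≤ K * J := Nat.mul_le_mul_right J (by omega)
    have e4 : I * J ≤ I * K := Nat.mul_le_mul_left I (by omega)
    have c7 : 3 * (K + t + 0) * I + 6 * J * I ≤ t * J := by
      have d1 : t * (10 * I) ≤ t * J := Nat.mul_le_mul_left t h2
      have d2 : 10 * K * I ≤ 22 * J * I := Nat.mul_le_mul_right I (by omega)
      have d3 : 20 * I * J ≤ t * J := Nat.mul_le_mul_right J (by omega)
      nlinarith
    have c8 : 5 * t ≤ 3 * I * K := by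
      have : 3 * I * K = 3 * (I * K) := by ring
      omega
    have H := S_blkU I J K t v (K + t) 0 0 0 0 (r - (K + t)) (by omega) hIJ rfl (by omega)
      (by omega) (by omega) (by omega) (by omega) (by omega) (by omega) (by omega) (by omega)
      (by omega) c7 c8 (by omega)
    simpa using H

end Pool.Agent.Work.MP_f4b644_ag.Big
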