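import Pool.Agent.Work.MP_f4b644_ag.Big.VF

/-!
Parameters for the three-strip design and the resulting block theorem.

`vf_par`: j0 = 6 J / I + 2 (so 6 J + I < I j0, j0 ≥ 8, I j0 ≤ 6 J + 2 I), js = J - 1 - j0,
s2 = t (js + ω + 1) / ω, v1 = s2 ω / t - 1, j1 = v1 - ω, j2 = J - 1 - j1, s1 = B - s2, μ2 = s2 ω - t v1 ∈ [t, 2 t),
μ1 = s1 ω - t (j2 + I - 3) (truncated). Basic facts: ω + j0 + 2 ≤ J (if J < 2 I then j0 ≤ 13);
j1 ≤ js; t (js - 1) < t j1 + ω, i.e. t j2 < t (j0 + 1) + ω; with v2 = j2 + I - 3, v1 + v2 + 2 = v one has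
s1 ω ≤ t v2 + 2 t - μ2 ≤ t v2 + t and s1 ω + ω > t v2 + 2 t - μ2 > t v2 (which gives t ≤ s1 as v2 ≥ ω);
μ2 ≤ s2 from μ2 (ω - 1) ≤ (2 t - 1) (ω - 1) ≤ t v1 (t j1 ≥ t ω - ω); s2 ≤ js + ω + 1 ≤ 2 J; s2 ≥ t.
Cases. If 2 t ≤ ω then s1 ≤ j1: it is enough that t² A + ω² + t ω (j0 + 3) ≤ t ω J with A = j0 + I;
use (t - 1) (ω - 2 t) ≥ 0 (so 2 t² + ω ≤ t ω + 2 t), which reduces it to t = 1, that is
A + ω² + ω (j0 + 3) ≤ ω J and 2 A + ω A + 2 ω (j0 + 3) ≤ 2 ω J for 2 ≤ ω ≤ I - 22 (distinguish J < 2 I, where j0 ≤ 13,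
and J ≥ 2 I, where I j0 ≤ 7 J). If ω < 2 t then j2 ≤ j0 + 2 and s1 ≤ j2 + I - 2; either I + 2 j2 ≤ J + 1
(then s1 ≤ j1) or J ≤ I + 18, j0 = 8, j2 ≤ 10, s1 ≤ I + 8, j1 ≥ I - 11; then the second alternative if
ω ≥ 20 and the third one if ω < 20.
`blkVF`: `S_vf`. First two alternatives: π = 0, R1 = I - 3 - (ω - 1) / j1 ≥ d (and ≥ d + 1 in the second
alternative), `grOK_std` with g = 0; R2 = I / 2 - 3; hW2 from `S_gpl`. Third alternative: π = 20,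
ε = 20 (ω + 1), N1 = t ε - 40 ω, j' = j2 - 1, `S_vfP`, f2 = f' + (I - ε). F = r - B.
-/

set_option autoImplicit false

namespace Pool.Agent.Work.MP_f4b644_ag.Big

open Multiset Gad

theorem VFBlk_j0 (I J : ℕ) (hI : 100000 ≤ I) (hIJ : I ≤ J) :
    ∃ j0, 6 * J + I ≤ I * j0 ∧ 8 ≤ j0 ∧ (j0 ≤ 13 ∨ (2 * I ≤ J ∧ 10 * j0 ≤ J)) ∧
      (J ≤ I + 30 → j0 ≤ 8) := by
  have h1 := Nat.div_add_mod (6 * J) I
  have h2 := Nat.mod_lt (6 * J) (show 0 < I by omega)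
  generalize 6 * J / I = q at h1
  generalize 6 * J % I = ρ at h1 h2
  refine ⟨q + 2, by rw [mul_add]; omega, ?_, ?_, fun h => ?_⟩
  · by_contra h
    have := Nat.mul_le_mul_left I (show q ≤ 5 by omega)
    omega
  · rcases le_or_gt (2 * I) J with h | h
    · have := Nat.mul_le_mul_right q hI
      exact Or.inr ⟨h, by omega⟩
    · by_contra h3
      have := Nat.mul_le_mul_left I (show 12 ≤ q by omega)
      omega
  · by_contra h3
    have := Nat.mul_le_mul_left I (show 7 ≤ q by omega)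
    omega

theorem VFBlk_s2 (ω t js : ℕ) (ht : 1 ≤ t) (htω : t ≤ ω) (hjs : ω + 1 ≤ js) :
    ∃ j1 a s2 μ2, j1 + a = js ∧ 1 ≤ j1 ∧ t * a < t + ω ∧ s2 * ω = t * (j1 + ω) + μ2 ∧ t ≤ μ2 ∧
      μ2 < 2 * t ∧ s2 ≤ js + ω + 1 ∧ t ≤ s2 ∧ μ2 ≤ s2 := by
  have h1 := Nat.div_add_mod (t * (js + ω + 1)) ω
  have h2 := Nat.mod_lt (t * (js + ω + 1)) (show 0 < ω by omega)
  generalize t * (js + ω + 1) / ω = s2 at h1
  generalize t * (js + ω + 1) % ω = ρ at h1 h2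
  have h3 := Nat.div_add_mod (ω * s2) t
  have h4 := Nat.mod_lt (ω * s2) (show 0 < t by omega)
  generalize ω * s2 / t = q at h3
  generalize ω * s2 % t = σ at h3 h4
  have h5 : q ≤ js + ω + 1 := Nat.le_of_mul_le_mul_left (c := t) (by omega) ht
  have h6 : ω + 2 ≤ q := by
    by_contra h
    have h6 := Nat.mul_le_mul_left t (show q + 1 + ω ≤ js + ω + 1 by omega)
    have h7 := Nat.mul_le_mul_right ω ht
    rw [mul_add, mul_add] at h6
    omega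
  obtain ⟨j1, rfl⟩ : ∃ j1, q = j1 + ω + 1 := ⟨q - ω - 1, by omega⟩
  obtain ⟨a, rfl⟩ : ∃ a, js = j1 + a := ⟨js - j1, by omega⟩
  have h7 : t * a < t + ω := by linarith
  have h8 : s2 * ω = t * (j1 + ω) + (t + σ) := by linarith
  refine ⟨j1, a, s2, t + σ, rfl, by omega, h7, h8, by omega, by omega, ?_, ?_, ?_⟩
  · have := Nat.mul_le_mul_right (j1 + a + ω + 1) htω
    exact Nat.le_of_mul_le_mul_left (c := ω) (by omega) (by omega)
  · exact Nat.le_of_mul_le_mul_right (c := ω) (by rw [h8, mul_add]; omega) (by omega)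
  · obtain ⟨w, rfl⟩ : ∃ w, ω = w + 1 := ⟨ω - 1, by omega⟩
    have h9 := Nat.mul_le_mul_left t hjs
    have h10 := Nat.mul_le_mul_right w (show t + σ + 1 ≤ 2 * t by omega)
    exact Nat.le_of_mul_le_mul_right (c := w + 1) (by linarith) (by omega)

theorem VFBlk_caseA (I J ω t j0 j1 a s1 X : ℕ) (hI : 100000 ≤ I) (hIJ : I ≤ J) (hω : ω + 22 ≤ I)
    (ht : 1 ≤ t) (h2t : 2 * t ≤ ω) (hj0 : j0 ≤ 13 ∨ (2 * I ≤ J ∧ 10 * j0 ≤ J))
    (hJ : j1 + (j0 + a) + 1 = J) (ha : t * a < t + ω) (hX : X + 2 = j0 + a + I)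
    (hs : s1 * ω ≤ t * X) : s1 ≤ j1 := by
  by_contra h
  have h1 := Nat.mul_le_mul_right ω (show j1 + 1 ≤ s1 by omega)
  rcases lt_or_ge (4 * a) (I + 4) with h2 | h2
  · have h3 := Nat.mul_le_mul_right X h2t
    have h4 := Nat.mul_le_mul_left ω (show X + 1 ≤ 2 * (j1 + 1) by omega)
    linarith
  · obtain ⟨b, rfl⟩ : ∃ b, a = b + 1 := ⟨a - 1, by omega⟩
    have h3 := Nat.mul_le_mul_right b ht
    have h4 := Nat.mul_le_mul_left t (show I ≤ 4 * b by omega)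
    rw [mul_add] at ha
    have h5 : 4 * X ≤ I * (j1 + 1) := by
      rcases hj0 with h5 | h5
      · have := Nat.mul_le_mul_left I (show 8 ≤ j1 + 1 by omega)
        omega
      · have := Nat.mul_le_mul_right (j1 + 1) hI
        omega
    have h6 := Nat.mul_le_mul_left t h5
    have h7 := Nat.mul_le_mul_right (j1 + 1) (show t * I + 1 ≤ 4 * ω by linarith)
    linarith

theorem vf_par (I J ω d t v B : ℕ) (hI : 100000 ≤ I) (hIJ : I ≤ J) (hd : d + ω + 2 = I)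
    (hω : 1 ≤ ω) (hd20 : 20 ≤ d) (hv : v + 2 = J + I + ω) (ht : 1 ≤ t) (htω : t ≤ ω)
    (hB1 : B * ω ≤ t * v) (hB2 : t * v < B * ω + ω) :
    ∃ j1 j2 s1 s2 μ1 μ2 : ℕ, j1 + j2 + 1 = J ∧ s1 + s2 = B ∧ 1 ≤ j1 ∧ t ≤ s1 ∧ t ≤ s2 ∧ μ1 ≤ t ∧
      μ2 ≤ s2 ∧ μ1 + μ2 ≤ 2 * t ∧ s2 * ω ≤ t * (j1 + ω) + μ2 ∧ s1 * ω ≤ t * (j2 + I - 3) + μ1 ∧
      6 * J + I ≤ I * j2 ∧ s2 ≤ 2 * J ∧ 8 ≤ j2 ∧
      (s1 ≤ j1 ∨ (2 ≤ ω ∧ 2 ≤ j1 ∧ s1 * d + ω ≤ (I - 3) * j1 ∧ s1 * (d + 1) + ω + j1 ≤ I * j1) ∨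
        (s1 ≤ j1 + 20 ∧ ω < 20 ∧ J ≤ I + 30 ∧ ω < 2 * t ∧ I ≤ 3 * s1 ∧ j2 ≤ 20)) := by
  obtain ⟨j0, hj1, hj2, hj3, hj4⟩ := VFBlk_j0 I J hI hIJ
  obtain ⟨j1, a, s2, μ2, h1, h2, h3, h4, h5, h6, h7, h8, h9⟩ :=
    VFBlk_s2 ω t (J - 1 - j0) ht htω (by omega)
  obtain ⟨v2, hv2⟩ : ∃ v2, v2 + 3 = j0 + a + I := ⟨j0 + a + I - 3, by omega⟩
  have hv' : t * v = t * (j1 + ω) + t * v2 + 2 * t := by
    rw [show v = j1 + ω + v2 + 2 by omega]
    ring
  obtain ⟨s1, rfl⟩ : ∃ s1, B = s1 + s2 := by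
    refine ⟨B - s2, ?_⟩
    have : s2 < B + 1 := Nat.lt_of_mul_lt_mul_right (a := ω) (by rw [add_mul]; omega)
    omega
  rw [add_mul] at hB1 hB2
  have h10 : t < s1 + 1 := by
    have := Nat.mul_le_mul_left t (show ω ≤ v2 by omega)
    exact Nat.lt_of_mul_lt_mul_right (a := ω) (by rw [add_mul]; omega)
  have h11 : s1 * ω ≤ t * (v2 + 1) := by rw [mul_add]; omega
  refine ⟨j1, j0 + a, s1, s2, s1 * ω - t * v2, μ2, by omega, rfl, h2, by omega, h8, by omega, h9,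
    by omega, h4.le, ?_, ?_, by omega, by omega, ?_⟩
  · rw [show j0 + a + I - 3 = v2 by omega]
    omega
  · rw [mul_add]
    omega
  rcases le_or_gt (2 * t) ω with h12 | h12
  · exact Or.inl (VFBlk_caseA I J ω t j0 j1 a s1 (v2 + 1) hI hIJ (by omega) ht h12 hj3 (by omega) h3
      (by omega) h11)
  have h13 : a < 3 := Nat.lt_of_mul_lt_mul_left (a := t) (by omega)
  have h14 : s1 ≤ v2 + 1 := by
    have := Nat.mul_le_mul_right (v2 + 1) htω
    exact Nat.le_of_mul_le_mul_right (c := ω) (by rw [mul_comm (v2 + 1)]; omega) hω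
  rcases le_or_gt s1 j1 with h15 | h15
  · exact Or.inl h15
  have h16 : j0 ≤ 8 := hj4 (by omega)
  rcases le_or_gt 20 ω with h17 | h17
  · obtain ⟨m, rfl⟩ : ∃ m, I = m + 11 := ⟨I - 11, by omega⟩
    have h18 := Nat.mul_le_mul_right d (show s1 ≤ m + 19 by omega)
    have h19 := Nat.mul_le_mul_left (m + 8) (show m ≤ j1 by omega)
    have h20 := Nat.mul_le_mul_left (m + 18) h17
    have h21 : (m + 19) * (d + ω) = (m + 19) * (m + 9) := by rw [show d + ω = m + 9 by omega]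
    refine Or.inr (Or.inl ⟨by omega, by omega, ?_, ?_⟩)
    · rw [show m + 11 - 3 = m + 8 by omega]
      linarith
    · linarith [show s1 ≤ m + 19 by omega, show m ≤ j1 by omega]
  · have h18 : v2 < 2 * (s1 + 1) := by
      have := Nat.mul_le_mul_right v2 h12.le
      exact Nat.lt_of_mul_lt_mul_left (a := ω) (by linarith)
    exact Or.inr (Or.inr ⟨by omega, h17, by omega, h12, by omega, by omega⟩)

theorem VFBlk_gr1 (I j ω d s : ℕ) (hd : d + ω + 2 = I) (hω : 1 ≤ ω) (hd2 : 2 ≤ d) (hj : 1 ≤ j)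
    (h : s ≤ j ∨ (2 ≤ ω ∧ 2 ≤ j ∧ s * d + ω ≤ (I - 3) * j ∧ s * (d + 1) + ω + j ≤ I * j)) :
    ∃ f, s * (d + 1) + f + ω + j = I * j ∧ GrOK I j ω (replicate s (d + 1) + replicate f 1) := by
  have h1 : s * (d + 1) + ω + j ≤ I * j := by
    rcases h with h | h
    · have h1 := Nat.mul_le_mul_right (d + 1) h
      have h2 := Nat.mul_le_mul_left ω hj
      subst hd
      linarith
    · exact h.2.2.2
  obtain ⟨f, hf⟩ := Nat.exists_eq_add_of_le h1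
  refine ⟨f, by omega, ?_⟩
  rcases h with h | ⟨h2, h3, h4, -⟩
  · have h2 := Nat.div_le_self (ω - 1) j
    simpa using grOK_std I j ω s (d + 1) 0 f d hj (by omega) hd2 (by omega) (by omega)
      (Or.inr ⟨rfl, h⟩) (by simpa [mul_comm] using Nat.mul_le_mul_left d h)
  · have h5 : (ω - 1) / j ≤ (ω - 1) / 2 := Nat.div_le_div_left h3 (by omega)
    have h6 := Nat.div_mul_le_self (ω - 1) j
    simpa using grOK_std I j ω s (d + 1) 0 f (I - 3 - (ω - 1) / j) hj (by omega) (by omega)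
      (by omega) (by omega) (Or.inl (by omega)) (by rw [Nat.sub_mul, Nat.add_sub_cancel]; omega)

theorem VFBlk_gr2 (I j x g f : ℕ) (hI : 100 ≤ I) (hj : 2 ≤ j) (hx : x ≤ I)
    (h : 2 * g + f + x + j = I * j) (hg : 3 * g ≤ I * j) :
    GrOK I j x (replicate g 2 + replicate f 1) := by
  have h1 : (x - 1) / j ≤ (x - 1) / 2 := Nat.div_le_div_left hj (by omega)
  have h2 := Nat.mul_le_mul_right j (show I ≤ 3 * (I / 2 - 3) by omega)
  rw [mul_assoc] at h2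
  simpa using grOK_std I j x 0 1 g f (I / 2 - 3) (by omega) (by omega) (by omega) (by omega) le_rfl
    (Or.inl (by omega)) (by omega)

theorem VFBlk_cnt (d s π : ℕ) (hd : 1 ≤ d) (hs : 2 * π ≤ s) :
    π * (d - 1) + (s - 2 * π) * d + s = (s - π) * (d + 1) := by
  obtain ⟨e, rfl⟩ := Nat.exists_eq_add_of_le' hd
  obtain ⟨n, rfl⟩ := Nat.exists_eq_add_of_le hs
  rw [Nat.add_sub_cancel, Nat.add_sub_cancel_left, show 2 * π + n - π = π + n by omega]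
  ring

theorem blkVF (I J r ω d t v K : ℕ) (hI : 100000 ≤ I) (hIJ : I ≤ J) (hd : d + ω + 2 = I)
    (hω : 1 ≤ ω) (hd20 : 20 ≤ d) (hv : v + 2 = J + I + ω) (hr : r + v = I * J) (ht : 1 ≤ t)
    (htω : t ≤ ω) (hB1 : (K + t) * ω ≤ t * v) (hB2 : t * v < (K + t) * ω + ω) :
    Blk I J r K (K + t) := by
  obtain ⟨j1, j2, s1, s2, μ1, μ2, h1, h2, h3, h4, h5, h6, h7, h8, h9, h10, h11, h12, h13, h14⟩ :=
    vf_par I J ω d t v (K + t) hI hIJ hd hω hd20 hv ht htω hB1 hB2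
  obtain ⟨f2, hf2⟩ := Nat.exists_eq_add_of_le (show 2 * s2 + (I - 3) + j2 ≤ I * j2 by omega)
  have hG2 := VFBlk_gr2 I j2 (I - 3) s2 f2 (by omega) (by omega) (by omega) (by omega) (by omega)
  have hIJ' : I * J = I * j1 + I * j2 + I := by rw [← h1]; ring
  have key : ∀ π f1, 2 * π + μ1 ≤ s1 → π ≤ K → (s1 - π) * (d + 1) + f1 + ω + j1 = I * j1 →
      GrOK I j1 ω (replicate (s1 - π) (d + 1) + replicate f1 1) →
      S I j2 (s1 - t) (replicate π (PB (d - 1) false) + replicate μ1 (BP d) +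
        replicate (s1 - 2 * π - μ1) (BP (d - 1)) + (replicate s2 2 + replicate f2 1).map CP) →
      Blk I J r K (K + t) := by
    intro π f1 hπ1 hπ2 hf1 hG1 hW
    have h15 := VFBlk_cnt d s1 π (by omega) (by omega)
    exact ⟨by omega, S_vf I J K t ω d j1 j2 s1 s2 μ1 μ2 π f1 f2 _ (by omega) hd hω (by omega) h1 h2
      h4 h5 hπ1 h7 h8 hπ2 h9 hG1 hG2 hW (by omega)⟩
  rw [← or_assoc] at h14
  rcases h14 with h14 | ⟨h14, h15, h16, h17, h18, h19⟩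
  · obtain ⟨f1, hf1, hG1⟩ := VFBlk_gr1 I j1 ω d s1 hd hω (by omega) h3 h14
    refine key 0 f1 (by omega) (Nat.zero_le _) hf1 hG1 (S.of_eq (by simp) (S_gpl hG2 (s1 - t)
      (replicate μ1 d + replicate (s1 - μ1) (d - 1)) (fun e he => ?_) ?_))
    · rcases mem_add.1 he with he | he <;> have := eq_of_mem_replicate he <;> omega
    · obtain ⟨e, rfl⟩ : ∃ e, d = e + 1 := ⟨d - 1, by omega⟩
      obtain ⟨k, rfl⟩ := Nat.exists_eq_add_of_le h4
      obtain ⟨n, hn⟩ := Nat.exists_eq_add_of_le (show μ1 ≤ t + k by omega)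
      rw [show j2 + I - 3 = j2 + (e + ω) by omega] at h10
      rw [show I - 3 = e + ω by omega, Nat.add_sub_cancel_left, Nat.add_sub_cancel,
        show t + k - μ1 = n by omega, card_add, card_replicate, card_replicate, sum_add,
        sum_replicate, sum_replicate, smul_eq_mul, smul_eq_mul, ← hn]
      have h15 : (t + k) * e = (μ1 + n) * e := by rw [hn]
      linarith
  · obtain ⟨f1, hf1, hG1⟩ := VFBlk_gr1 I j1 ω d (s1 - 20) hd hω (by omega) h3 (Or.inl (by omega))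
    obtain ⟨j', rfl⟩ : ∃ j', j2 = 1 + j' := ⟨j2 - 1, by omega⟩
    have h20 := Nat.mul_le_mul_left I (show 7 ≤ j' by omega)
    rw [mul_add, mul_one] at hf2
    have h21 : 2 ≤ t ∨ ω = 1 := by omega
    have h22 : 2 * 20 * ω ≤ t * (20 * (ω + 1)) := by
      rcases h21 with h21 | h21
      · have := Nat.mul_le_mul_right (20 * (ω + 1)) h21
        omega
      · subst h21
        omega
    have h23 := Nat.mul_le_mul (show t ≤ 20 by omega) (show 20 * (ω + 1) ≤ 400 by omega)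
    obtain ⟨f', rfl⟩ : ∃ f', f2 = f' + (I - 20 * (ω + 1)) := ⟨f2 - (I - 20 * (ω + 1)), by omega⟩
    refine key 20 f1 (by omega) (by omega) hf1 hG1 (S_vfP I (s1 - t) t ω d j' 20 (20 * (ω + 1)) μ1
      (s1 - 2 * 20 - μ1) (t * (20 * (ω + 1)) - 2 * 20 * ω) s2 f' hd hω (by omega) rfl (by omega) ht
      h21 (by omega) (by omega) (by omega) (by omega) ?_ (VFBlk_gr2 I j' _ s2 f' (by omega)
      (by omega) (by omega) (by omega) (by omega)))
    rw [Nat.sub_add_cancel h4, show j' + I - 2 = 1 + j' + I - 3 by omega]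
    exact h10

/-- excess zero: every tangent fills a column (`S_peel` with u = 1, b = 0, k = 0, `S_col`) -/
theorem blk0 (I J r K : ℕ) (hI : 2 ≤ I) (hJ : 1 ≤ J) (hr : r + (J + I - 2) = I * J) (hK : K ≤ r) :
    Blk I J r K K := by
  refine ⟨hK, ?_⟩
  have h := S_peel I J 0 1 0 0 K 0 0 (replicate (r - K) 1) (fun h1 => S.of_eq (by simp)
    (S_col I J 0 (by omega) hJ (replicate (K - 1) 1 + replicate (r - K) 1) (fun z hz => ?_) ?_))
    (S_zeroC _ _ _)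
  · simpa using h
  · rcases mem_add.1 hz with hz | hz <;> have := eq_of_mem_replicate hz <;> omega
  · obtain ⟨i, rfl⟩ : ∃ i, I = i + 1 := ⟨I - 1, by omega⟩
    obtain ⟨j, rfl⟩ : ∃ j, J = j + 1 := ⟨J - 1, by omega⟩
    have h2 : (i + 1) * (j + 1) = i * j + i + j + 1 := by ring
    simp only [sum_add, sum_replicate, smul_eq_mul, mul_one, Nat.add_sub_cancel]
    omega

end Pool.Agent.Work.MP_f4b644_ag.Big
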