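import Pool.Agent.Work.MP_f4b644_ag.Big.U1
import Pool.Agent.Work.MP_f4b644_ag.Big.ABlk
import Pool.Agent.Work.MP_f4b644_ag.Big.VFBlk
import Pool.Agent.Work.MP_f4b644_ag.MainA

/-!
The top level. m = I - 2, τ = J + m, N = τ + K, r N ≥ I J K > r N - N, v = I J - r, ω = v - τ.

`S_L` (10^6 v ≤ I J). v K ≤ r τ gives nothing on K from below, so τ ≤ K is a hypothesis.
If ω = 0: `blk0` (τ K ≤ r τ), `Blk.toS`. If 1 ≤ ω, ω + 22 ≤ I: K = a τ + K0 with K0 < τ; exact blocks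
`blkVF` with t = ω, K = τ; if K0 = 0 use `Blk.zero`, otherwise t0 = ceiling of ω K0 / τ ∈ [1, ω],
K' = t0 v / ω - t0 ≥ K0, `blkVF`, `Blk.drop (K' - K0)`; a v + K0 + t0 ≤ r because
(a v + K0 + t0) τ < v K + τ ≤ r τ + τ; `Blk.mul`, `Blk.toS`. If I ≤ ω + 21: K = a τ + K' with
τ ≤ K' < 2 τ, t = ceiling of ω K' / τ, `blkA` for (τ, ω) and for (K', t).
`dense_big`: if 16 (I + J) (I + J + K)^2 ≤ (I J)^2 use `denseA`. Otherwise r ≤ I J - τ: from K + τ + 1 ≤ I J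
(balanced) and (r - 1) N < I J K; if r ≥ I J - τ + 1 then (I J - τ) N ≤ (r - 1) N < I J K, i.e.
I J τ < τ N, contradiction. v N ≤ I J τ and v N + N > I J τ. If 10^6 v ≤ I J then (v + 1) N > 10^6 v τ gives
τ ≤ K (v ≥ τ ≥ 1), use `S_L`. Otherwise N < 10^6 τ, so K ≤ 2 * 10^6 J, and
I² J² < 32 J (2 * 10^6 J + 2)² gives 2000 I ≤ J; use `S_u1`.
-/

set_option autoImplicit false

namespace Pool.Agent.Work.MP_f4b644_ag.Big

open Multiset Gad

theorem Top_fin (a τ ω K0 t0 v K r : ℕ) (hτ : 0 < τ) (hv : v = τ + ω) (hK : K = a * τ + K0)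
    (ht : t0 * τ < ω * K0 + τ) (h1 : v * K ≤ r * τ) : a * (τ + ω) + (K0 + t0) ≤ r := by
  subst hv hK
  have h2 : (a * (τ + ω) + (K0 + t0)) * τ < (r + 1) * τ := by nlinarith
  have h3 := Nat.lt_of_mul_lt_mul_right h2
  omega

theorem Top_ceil (x τ : ℕ) (hτ : 0 < τ) : ∃ t, x ≤ t * τ ∧ t * τ < x + τ := by
  refine ⟨(x + τ - 1) / τ, ?_, ?_⟩
  · have h1 := Nat.div_add_mod (x + τ - 1) τ
    have h2 := Nat.mod_lt (x + τ - 1) hτ
    rw [mul_comm] at h1
    omega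
  · have h1 := Nat.div_mul_le_self (x + τ - 1) τ
    omega

theorem Top_floor (x ω b : ℕ) (hω : 0 < ω) (hb : b * ω ≤ x) :
    ∃ n, (b + n) * ω ≤ x ∧ x < (b + n) * ω + ω := by
  have h0 : b ≤ x / ω := (Nat.le_div_iff_mul_le hω).2 hb
  refine ⟨x / ω - b, ?_, ?_⟩
  · rw [Nat.add_sub_cancel' h0]
    exact Nat.div_mul_le_self x ω
  · rw [Nat.add_sub_cancel' h0]
    have h1 := Nat.div_add_mod x ω
    have h2 := Nat.mod_lt x hω
    rw [mul_comm] at h1
    omega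

theorem S_L (I J K r m τ ω v : ℕ) (hI : 10 ^ 8 ≤ I) (hIJ : I ≤ J) (hm : m + 2 = I)
    (hτ : τ = J + m) (hv : v = τ + ω) (hr : r + v = I * J) (hL : 10 ^ 6 * v ≤ I * J)
    (hK : τ ≤ K) (h1 : v * K ≤ r * τ) : S I J K (replicate r (T 0 0)) := by
  have hτ0 : 0 < τ := by omega
  rcases Nat.eq_zero_or_pos ω with h0 | hω
  · subst h0
    have hvτ : v = τ := by omega
    have hKr : K ≤ r := by
      rw [hvτ, mul_comm r τ] at h1
      exact Nat.le_of_mul_le_mul_left h1 hτ0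
    exact (blk0 I J r K (by omega) (by omega) (by omega) hKr).toS
  by_cases hc : ω + 22 ≤ I
  · obtain ⟨d, hd⟩ : ∃ d, d + ω + 2 = I := ⟨I - ω - 2, by omega⟩
    have E : Blk I J r τ (τ + ω) :=
      blkVF I J r ω d ω v τ (by omega) hIJ hd hω (by omega) (by omega) hr hω le_rfl
        (by rw [hv, mul_comm]) (by rw [hv, mul_comm ω (τ + ω)]; omega)
    obtain ⟨a, K0, hK0, hKe⟩ : ∃ a K0, K0 < τ ∧ K = a * τ + K0 :=
      ⟨K / τ, K % τ, Nat.mod_lt _ hτ0, by rw [mul_comm]; exact (Nat.div_add_mod K τ).symm⟩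
    rcases Nat.eq_zero_or_pos K0 with hz | hp
    · subst hz
      have hf := Top_fin a τ ω 0 0 v K r hτ0 hv hKe (by omega) h1
      have H := Blk.mul a hf E (Blk.zero I J r)
      rw [← hKe] at H
      exact H.toS
    · obtain ⟨t0, ht1, ht2⟩ := Top_ceil (ω * K0) τ hτ0
      have hpos : 0 < ω * K0 := Nat.mul_pos hω hp
      have ht0 : 1 ≤ t0 := by
        rcases Nat.eq_zero_or_pos t0 with h | h
        · subst h
          omega
        · exact h
      have htω : t0 ≤ ω := by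
        have h2 : t0 * τ < (ω + 1) * τ := by nlinarith
        have h3 := Nat.lt_of_mul_lt_mul_right h2
        omega
      obtain ⟨n, hn1, hn2⟩ := Top_floor (t0 * v) ω (K0 + t0) hω (by rw [hv]; nlinarith)
      have e : K0 + t0 + n = K0 + n + t0 := by ring
      have B : Blk I J r (K0 + n) (K0 + n + t0) :=
        blkVF I J r ω d t0 v (K0 + n) (by omega) hIJ hd hω (by omega) (by omega) hr ht0 htω
          (by rw [← e]; exact hn1) (by rw [← e]; exact hn2)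
      rw [← e] at B
      have hf := Top_fin a τ ω K0 t0 v K r hτ0 hv hKe ht2 h1
      have H := Blk.mul a hf E (Blk.drop n B)
      rw [← hKe] at H
      exact H.toS
  · have E : Blk I J r τ (τ + ω) :=
      blkA I J r m τ ω v τ ω hI hIJ hm hτ hv hr (by omega) hL le_rfl (by omega) le_rfl (by omega)
    obtain ⟨a, K0, hK0, hK1, hKe⟩ : ∃ a K0, τ ≤ K0 ∧ K0 < 2 * τ ∧ K = a * τ + K0 := by
      refine ⟨(K - τ) / τ, (K - τ) % τ + τ, by omega, ?_, ?_⟩
      · have := Nat.mod_lt (K - τ) hτ0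
        omega
      · have h2 := Nat.div_add_mod (K - τ) τ
        rw [mul_comm] at h2
        omega
    obtain ⟨t0, ht1, ht2⟩ := Top_ceil (ω * K0) τ hτ0
    have B : Blk I J r K0 (K0 + t0) :=
      blkA I J r m τ ω v K0 t0 hI hIJ hm hτ hv hr (by omega) hL hK0 hK1 ht1 ht2
    have hf := Top_fin a τ ω K0 t0 v K r hτ0 hv hKe ht2 h1
    have H := Blk.mul a hf E B
    rw [← hKe] at H
    exact H.toS

theorem Top_big (I J K : ℕ) (hI : 10 ^ 18 ≤ I) (hIJ : I ≤ J) (hK : K ≤ 2 * 10 ^ 6 * J)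
    (h : (I * J) ^ 2 < 16 * (I + J) * (I + J + K) ^ 2) : 2000 * I ≤ J := by
  by_contra hc
  have hJ : J ≤ 2000 * I := by omega
  have h1 : 16 * (I + J) * (I + J + K) ^ 2 ≤ 16 * (2 * J) * (2000002 * J) ^ 2 := by
    gcongr <;> omega
  have h2 : J ^ 2 * I ^ 2 < J ^ 2 * (32 * 2000002 ^ 2 * J) := by
    calc J ^ 2 * I ^ 2 = (I * J) ^ 2 := by ring
      _ < 16 * (2 * J) * (2000002 * J) ^ 2 := lt_of_lt_of_le h h1
      _ = J ^ 2 * (32 * 2000002 ^ 2 * J) := by ring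
  have h3 : I ^ 2 < 32 * 2000002 ^ 2 * J := Nat.lt_of_mul_lt_mul_left h2
  have h4 : I * I < I * (32 * 2000002 ^ 2 * 2000) := by
    calc I * I = I ^ 2 := by ring
      _ < 32 * 2000002 ^ 2 * J := h3
      _ ≤ 32 * 2000002 ^ 2 * (2000 * I) := by gcongr
      _ = I * (32 * 2000002 ^ 2 * 2000) := by ring
  have h5 := Nat.lt_of_mul_lt_mul_left h4
  norm_num at h5 hI
  omega

theorem Top_le (P τ K s : ℕ) (hb : K + τ + 1 ≤ P) (h2 : s * (τ + K) < P * K + (τ + K)) :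
    s + τ ≤ P := by
  by_contra hc
  obtain ⟨u, hu⟩ : ∃ u, P = τ + u := ⟨P - τ, by omega⟩
  have hs : u + 1 ≤ s := by omega
  have h3 : (u + 1) * (τ + K) ≤ s * (τ + K) := Nat.mul_le_mul_right _ hs
  have h4 : τ * K ≤ u * τ := by
    rw [mul_comm u τ]
    exact Nat.mul_le_mul_left _ (by omega)
  subst hu
  nlinarith

theorem dense_big {I J K : ℕ} (hI : 10 ^ 18 ≤ I) (hIJ : I ≤ J) (hJK : J ≤ K)
    (hK : K ≤ (I - 1) * (J - 1)) (s : ℕ) (h1 : I * J * K + 2 * s ≤ s * (I + J + K))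
    (h2 : s * (I + J + K) + 2 < I * J * K + 2 * s + (I + J + K)) : Dense (RankSet I J K s) := by
  by_cases hA : 16 * (I + J) * (I + J + K) ^ 2 ≤ (I * J) ^ 2
  · exact denseA (by omega) hIJ hJK hA s h1 h2
  refine dense_of_S ?_
  obtain ⟨m, hm⟩ : ∃ m, m + 2 = I := ⟨I - 2, by omega⟩
  obtain ⟨τ, hτ⟩ : ∃ τ, τ = J + m := ⟨_, rfl⟩
  have eN : I + J + K = τ + K + 2 := by omega
  have hb : K + τ + 1 ≤ I * J := by
    obtain ⟨j, hj⟩ : ∃ j, J = j + 1 := ⟨J - 1, by omega⟩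
    have e1 : I - 1 = m + 1 := by omega
    have e2 : J - 1 = j := by omega
    rw [e1, e2] at hK
    rw [hτ, ← hm, hj]
    nlinarith
  rw [eN] at h1 h2
  have g1 : I * J * K ≤ s * (τ + K) := by nlinarith
  have g2 : s * (τ + K) < I * J * K + (τ + K) := by nlinarith
  have hs := Top_le (I * J) τ K s hb g2
  obtain ⟨ω, hω⟩ : ∃ ω, s + (τ + ω) = I * J := ⟨I * J - (s + τ), by omega⟩
  obtain ⟨v, hv⟩ : ∃ v, v = τ + ω := ⟨_, rfl⟩
  rw [← hv] at hω
  rw [← hω] at g1 g2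
  have k1 : v * K ≤ s * τ := by nlinarith
  have k2 : s * τ < v * K + (τ + K) := by nlinarith
  have hτ0 : 0 < τ := by omega
  have hv0 : 0 < v := by omega
  by_cases hL : 10 ^ 6 * v ≤ I * J
  · have hτK : τ ≤ K := by
      by_contra hc
      have hKτ : K ≤ τ := by omega
      have k3 : v * K ≤ v * τ := Nat.mul_le_mul_left _ hKτ
      have k4 : s * τ < (v + 2) * τ := by nlinarith
      have k5 := Nat.lt_of_mul_lt_mul_right k4
      omega
    exact S_L I J K s m τ ω v (le_trans (by norm_num) hI) hIJ hm hτ hv hω hL hτK k1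
  · have k3 : s ≤ 10 ^ 6 * v := by omega
    have k4 : v * K ≤ v * (10 ^ 6 * τ) := by
      calc v * K ≤ s * τ := k1
        _ ≤ 10 ^ 6 * v * τ := Nat.mul_le_mul_right _ k3
        _ = v * (10 ^ 6 * τ) := by ring
    have k5 : K ≤ 10 ^ 6 * τ := Nat.le_of_mul_le_mul_left k4 hv0
    have k6 : K ≤ 2 * 10 ^ 6 * J := by omega
    have hJ := Top_big I J K hI hIJ k6 (not_le.1 hA)
    exact S_u1 I J K v s m (le_trans (by norm_num) hI) hm hJ hJK k6 hω (by rw [← hτ]; exact k1)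
      (by rw [← hτ]; exact k2.le)

end Pool.Agent.Work.MP_f4b644_ag.Big
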