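import Mathlib

/-!
Valuations at t → 0+, the tropical kernel lemma and the window arithmetic.

`tk`: for a row i let B_i be the set of the l with Bc i l. The linear map
(B_i → ℂ) → (Fin nB → ℂ), w ↦ (g ↦ ∑ l ∈ B_i, xL l ^ g * w l) is injective (Vandermonde, #B_i ≤ nB, e.g.
`Matrix.eq_zero_of_forall_pow_sum_mul_pow_eq_zero` or `Lagrange`/`Matrix.det_vandermonde_ne_zero_iff`),
hence antilipschitz (`LinearMap.exists_antilipschitzWith`). So there is a constant C (uniform in the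
finitely many rows and columns) such that a row w with all power sums zero satisfies
‖w l‖ ≤ C * M for l ∈ B_i whenever ‖w l'‖ ≤ M for all l' ∉ B_i; the same for columns.
Put w' i l = t ^ (-ρ i) * w i l, v' i l = t ^ (θ l) * v i l (these still satisfy the row, resp. column
equations). On a B-cell v' = - w' * t ^ (θ + ρ) * D' / D and the factor tends to 0; on a C-cell
w' = - v' * t ^ (-θ - ρ) * D / D' and the factor tends to 0. Eventually all these factors have norm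
≤ ε with (C ε)^2 < 1 (take ε = 1 / (C + 1)). With Mw = max of ‖w'‖ over B-cells and Mv = max of ‖v'‖ over
C-cells: Mw ≤ C ε Mv and Mv ≤ C ε Mw, so both vanish, and then everything vanishes.

`window`: if p + X < j take θ = 4 (p + X) - 2, η = 8 j + 1, η' = - (8 p + 4 X - 3); otherwise
θ = 4 (p + X - j) - 2, η = 4 p + θ - 1, η' = 1. Then `omega` after splitting the minima.
-/

set_option autoImplicit false

namespace Pool.Agent.Work.MP_f4b644_ag.Big

open Filter Topology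

/-- `f t` is asymptotic to a nonzero constant times `t ^ n` as `t → 0+` -/
def Val (f : ℝ → ℂ) (n : ℤ) : Prop :=
  ∃ c : ℂ, c ≠ 0 ∧ Tendsto (fun t : ℝ => f t / (t : ℂ) ^ n) (𝓝[>] 0) (𝓝 c)

theorem Trop_ne : ∀ᶠ t : ℝ in 𝓝[>] 0, (t : ℂ) ≠ 0 :=
  eventually_mem_nhdsWithin.mono fun _ ht => Complex.ofReal_ne_zero.2 (ne_of_gt ht)

theorem Trop_pow {k : ℤ} (hk : 0 < k) :
    Tendsto (fun t : ℝ => (t : ℂ) ^ k) (𝓝[>] 0) (𝓝 0) := by
  obtain ⟨n, rfl⟩ := Int.eq_ofNat_of_zero_le hk.le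
  have hn : n ≠ 0 := by omega
  have h : Continuous fun t : ℝ => (t : ℂ) ^ n := by fun_prop
  have h2 := (h.tendsto 0).mono_left (nhdsWithin_le_nhds (s := Set.Ioi 0))
  simpa [hn] using h2

theorem Val.zpow (n : ℤ) : Val (fun t => (t : ℂ) ^ n) n :=
  ⟨1, one_ne_zero, tendsto_const_nhds.congr' (Trop_ne.mono fun _ ht =>
    (div_self (zpow_ne_zero n ht)).symm)⟩

theorem Val.const {c : ℂ} (hc : c ≠ 0) : Val (fun _ => c) 0 :=
  ⟨c, hc, by simp⟩

theorem Val.mul {f g : ℝ → ℂ} {n n' : ℤ} (hf : Val f n) (hg : Val g n') :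
    Val (fun t => f t * g t) (n + n') := by
  obtain ⟨c, hc, h1⟩ := hf
  obtain ⟨c', hc', h2⟩ := hg
  refine ⟨c * c', mul_ne_zero hc hc', (h1.mul h2).congr' (Trop_ne.mono fun t ht => ?_)⟩
  simp only [zpow_add₀ ht, div_mul_div_comm]

theorem Val.const_mul {f : ℝ → ℂ} {n : ℤ} {c : ℂ} (hc : c ≠ 0) (hf : Val f n) :
    Val (fun t => c * f t) n := by
  simpa using (Val.const hc).mul hf

theorem Val.neg {f : ℝ → ℂ} {n : ℤ} (hf : Val f n) : Val (fun t => - f t) n := by
  simpa using hf.const_mul (c := -1) (by simp)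

theorem Val.add_lt {f g : ℝ → ℂ} {n n' : ℤ} (hf : Val f n) (hg : Val g n') (h : n < n') :
    Val (fun t => f t + g t) n := by
  obtain ⟨c, hc, h1⟩ := hf
  obtain ⟨c', -, h2⟩ := hg
  have h3 := h1.add (h2.mul (Trop_pow (sub_pos.2 h)))
  rw [mul_zero, add_zero] at h3
  refine ⟨c, hc, h3.congr' (Trop_ne.mono fun t ht => ?_)⟩
  have := zpow_ne_zero n ht
  have := zpow_ne_zero n' ht
  simp only [zpow_sub₀ ht]
  field_simp

theorem Val.add_ne {f g : ℝ → ℂ} {n n' : ℤ} (hf : Val f n) (hg : Val g n') (h : n ≠ n') :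
    Val (fun t => f t + g t) (min n n') := by
  rcases lt_or_gt_of_ne h with h | h
  · rw [min_eq_left h.le]
    exact hf.add_lt hg h
  · rw [min_eq_right h.le]
    simpa only [add_comm] using hg.add_lt hf h

theorem Val.sub_ne {f g : ℝ → ℂ} {n n' : ℤ} (hf : Val f n) (hg : Val g n') (h : n ≠ n') :
    Val (fun t => f t - g t) (min n n') := by
  simpa only [sub_eq_add_neg] using hf.add_ne hg.neg h

theorem Val.congr {f g : ℝ → ℂ} {n : ℤ} (hf : Val f n) (h : ∀ t, 0 < t → f t = g t) : Val g n := by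
  obtain ⟨c, hc, h1⟩ := hf
  exact ⟨c, hc, h1.congr' (eventually_mem_nhdsWithin.mono fun t ht => by
    simp only [h t ht])⟩

theorem Val.ne_zero {f : ℝ → ℂ} {n : ℤ} (hf : Val f n) : ∀ᶠ t in 𝓝[>] (0 : ℝ), f t ≠ 0 := by
  obtain ⟨c, hc, h1⟩ := hf
  exact (h1.eventually_ne hc).mono fun t ht e => ht (by rw [e, zero_div])

theorem Trop_small {f g : ℝ → ℂ} {n m : ℤ} (hf : Val f n) (hg : Val g m) (h : m < n) {ε : ℝ}
    (hε : 0 < ε) : ∀ᶠ t in 𝓝[>] (0 : ℝ), ‖f t‖ ≤ ε * ‖g t‖ := by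
  have hg0 := hg.ne_zero
  obtain ⟨c, -, h1⟩ := hf
  obtain ⟨c', hc', h2⟩ := hg
  have h3 := ((h1.div h2 hc').mul (Trop_pow (sub_pos.2 h))).norm
  rw [mul_zero, norm_zero] at h3
  filter_upwards [h3.eventually (gt_mem_nhds hε), hg0, Trop_ne] with t h4 h5 h6
  have e : f t / (t : ℂ) ^ n / (g t / (t : ℂ) ^ m) * (t : ℂ) ^ (n - m) = f t / g t := by
    rw [zpow_sub₀ h6]
    have := zpow_ne_zero n h6
    have := zpow_ne_zero m h6
    field_simp
  rw [Pi.div_apply, e, norm_div, div_lt_iff₀ (norm_pos_iff.2 h5)] at h4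
  exact h4.le

theorem Trop_van {L : Type} [Fintype L] (n : ℕ) (x : L → ℂ) (hx : Function.Injective x)
    (B : L → Prop) (hB : {l | B l}.ncard ≤ n) (l : L) :
    ∃ C : ℝ, 0 ≤ C ∧ (B l → ∀ w : L → ℂ, (∀ g < n, ∑ k, x k ^ g * w k = 0) → ∀ M : ℝ, 0 ≤ M →
      (∀ k, ¬ B k → ‖w k‖ ≤ M) → ‖w l‖ ≤ C * M) := by
  classical
  let s : Finset L := (Finset.univ.filter B).erase l
  let P : Polynomial ℂ := ∏ k ∈ s, (Polynomial.X - Polynomial.C (x k))
  have hPl : P.eval (x l) ≠ 0 := by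
    rw [Polynomial.eval_prod]
    refine Finset.prod_ne_zero_iff.2 fun k hk => ?_
    simpa [sub_eq_zero] using fun e => (Finset.mem_erase.1 hk).1 (hx e).symm
  have hPk : ∀ k ∈ s, P.eval (x k) = 0 := fun k hk => by
    rw [Polynomial.eval_prod]
    exact Finset.prod_eq_zero hk (by simp)
  refine ⟨(∑ k, ‖P.eval (x k)‖) / ‖P.eval (x l)‖, by positivity, fun hl w hw M hM hk => ?_⟩
  have hd : P.natDegree < n := by
    have h1 : P.natDegree = s.card := Polynomial.natDegree_finsetProd_X_sub_C_eq_card s x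
    have h2 : {l | B l}.ncard = (Finset.univ.filter B).card := by
      rw [← Set.ncard_coe_finset]
      congr 1
      ext k
      simp
    have h3 := Finset.card_erase_lt_of_mem (s := Finset.univ.filter B) (a := l) (by simpa using hl)
    change s.card < _ at h3
    omega
  have h0 : ∑ k, P.eval (x k) * w k = 0 := by
    simp only [Polynomial.eval_eq_sum_range' hd, Finset.sum_mul]
    rw [Finset.sum_comm]
    refine Finset.sum_eq_zero fun g hg => ?_
    simp only [mul_assoc]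
    rw [← Finset.mul_sum, hw g (Finset.mem_range.1 hg), mul_zero]
  rw [← Finset.add_sum_erase _ _ (Finset.mem_univ l), add_eq_zero_iff_eq_neg] at h0
  have h4 : ‖P.eval (x l)‖ * ‖w l‖ ≤ (∑ k, ‖P.eval (x k)‖) * M := by
    rw [← norm_mul, h0, norm_neg, Finset.sum_mul]
    refine (norm_sum_le _ _).trans ((Finset.sum_le_sum fun k hkl => ?_).trans
      (Finset.sum_le_sum_of_subset_of_nonneg (Finset.erase_subset l _) fun k _ _ => by positivity))
    rw [norm_mul]
    by_cases hb : B k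
    · rw [hPk k (Finset.mem_erase.2 ⟨(Finset.mem_erase.1 hkl).1, by simpa using hb⟩)]
      simp
    · exact mul_le_mul_of_nonneg_left (hk k hb) (norm_nonneg _)
  rw [div_mul_eq_mul_div, le_div_iff₀ (norm_pos_iff.2 hPl), mul_comm]
  exact h4

theorem Trop_core {R L : Type} [Fintype R] [Fintype L] (Bc Cc : R → L → Prop) (v w : R → L → ℂ)
    {C ε : ℝ} (hε : 0 ≤ ε) (hC : C * ε < 1)
    (h1 : ∀ i l, Bc i l → ‖v i l‖ ≤ ε * ‖w i l‖) (h2 : ∀ i l, Cc i l → ‖w i l‖ ≤ ε * ‖v i l‖)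
    (h3 : ∀ i l, ¬ Bc i l → ¬ Cc i l → v i l = 0 ∧ w i l = 0)
    (h4 : ∀ i l, Bc i l → ∀ M : ℝ, 0 ≤ M → (∀ k, ¬ Bc i k → ‖w i k‖ ≤ M) → ‖w i l‖ ≤ C * M)
    (h5 : ∀ i l, Cc i l → ∀ M : ℝ, 0 ≤ M → (∀ k, ¬ Cc k l → ‖v k l‖ ≤ M) → ‖v i l‖ ≤ C * M)
    (hC0 : 0 ≤ C) : ∀ i l, v i l = 0 ∧ w i l = 0 := by
  classical
  let u : R × L → ℂ := fun q => if Bc q.1 q.2 then w q.1 q.2 else v q.1 q.2
  have hM : 0 ≤ ε * ‖u‖ := mul_nonneg hε (norm_nonneg _)
  have a1 : ∀ i l, Bc i l → ‖w i l‖ ≤ ‖u‖ := fun i l h => by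
    simpa [u, h] using norm_le_pi_norm u (i, l)
  have a2 : ∀ i l, ¬ Bc i l → ‖v i l‖ ≤ ‖u‖ := fun i l h => by
    simpa [u, h] using norm_le_pi_norm u (i, l)
  have a3 : ‖u‖ ≤ C * (ε * ‖u‖) := by
    refine (pi_norm_le_iff_of_nonneg (mul_nonneg hC0 hM)).2 fun ⟨i, l⟩ => ?_
    by_cases hb : Bc i l
    · have := h4 i l hb _ hM fun k hk => by
        by_cases hc : Cc i k
        · exact (h2 i k hc).trans (mul_le_mul_of_nonneg_left (a2 i k hk) hε)
        · rw [(h3 i k hk hc).2, norm_zero]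
          exact hM
      simpa [u, hb] using this
    · by_cases hc : Cc i l
      · have := h5 i l hc _ hM fun k hk => by
          by_cases hb' : Bc k l
          · exact (h1 k l hb').trans (mul_le_mul_of_nonneg_left (a1 k l hb') hε)
          · rw [(h3 k l hb' hk).1, norm_zero]
            exact hM
        simpa [u, hb] using this
      · have : ‖v i l‖ ≤ C * (ε * ‖u‖) := by
          rw [(h3 i l hb hc).1, norm_zero]
          exact mul_nonneg hC0 hM
        simpa [u, hb] using this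
  have a4 : ‖u‖ ≤ 0 := by
    by_contra hn
    push Not at hn
    nlinarith
  intro i l
  by_cases hb : Bc i l
  · have hw : w i l = 0 := norm_le_zero_iff.1 ((a1 i l hb).trans a4)
    refine ⟨norm_le_zero_iff.1 ?_, hw⟩
    simpa [hw] using h1 i l hb
  · have hv : v i l = 0 := norm_le_zero_iff.1 ((a2 i l hb).trans a4)
    by_cases hc : Cc i l
    · refine ⟨hv, norm_le_zero_iff.1 ?_⟩
      simpa [hv] using h2 i l hc
    · exact h3 i l hb hc

theorem tk {R L : Type} [Fintype R] [Fintype L] (nB nC : ℕ) (xR : R → ℂ)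
    (hxR : Function.Injective xR) (xL : L → ℂ) (hxL : Function.Injective xL)
    (Bc Cc : R → L → Prop) (hB : ∀ i, {l | Bc i l}.ncard ≤ nB) (hC : ∀ l, {i | Cc i l}.ncard ≤ nC)
    (D D' : R → L → ℝ → ℂ) (d d' : R → L → ℤ)
    (hD : ∀ i l, Bc i l ∨ Cc i l → Val (D i l) (d i l) ∧ Val (D' i l) (d' i l))
    (ρ : R → ℤ) (θ : L → ℤ) (hsB : ∀ i l, Bc i l → 0 < θ l + ρ i + d' i l - d i l)
    (hsC : ∀ i l, Cc i l → θ l + ρ i + d' i l - d i l < 0) :
    ∀ᶠ t in 𝓝[>] (0 : ℝ), ∀ v w : R → L → ℂ,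
      (∀ i l, Bc i l ∨ Cc i l → v i l * D i l t + w i l * D' i l t = 0) →
      (∀ i l, ¬ Bc i l → ¬ Cc i l → v i l = 0 ∧ w i l = 0) →
      (∀ i, ∀ g < nB, ∑ l, xL l ^ g * w i l = 0) →
      (∀ l, ∀ g < nC, ∑ i, xR i ^ g * v i l = 0) → ∀ i l, v i l = 0 ∧ w i l = 0 := by
  choose C1 c1 H1 using fun i l => Trop_van nB xL hxL (Bc i) (hB i) l
  choose C2 c2 H2 using fun l i => Trop_van nC xR hxR (fun i => Cc i l) (hC l) i
  obtain ⟨K1, k1⟩ := Finite.exists_le fun q : R × L => C1 q.1 q.2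
  obtain ⟨K2, k2⟩ := Finite.exists_le fun q : R × L => C2 q.2 q.1
  let C : ℝ := max 0 (max K1 K2)
  have hC0 : 0 ≤ C := le_max_left _ _
  have e1 : ∀ i l, C1 i l ≤ C := fun i l =>
    (k1 (i, l)).trans ((le_max_left _ _).trans (le_max_right _ _))
  have e2 : ∀ i l, C2 l i ≤ C := fun i l =>
    (k2 (i, l)).trans ((le_max_right _ _).trans (le_max_right _ _))
  have hε : 0 < 1 / (C + 1) := by positivity
  have hCε : C * (1 / (C + 1)) < 1 := by
    rw [mul_one_div, div_lt_one (by positivity)]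
    linarith
  have hE : ∀ i l, Bc i l ∨ Cc i l →
      Val (fun t => (t : ℂ) ^ (θ l + ρ i) * D' i l t) (θ l + ρ i + d' i l) := fun i l h =>
    (Val.zpow _).mul (hD i l h).2
  have ev1 : ∀ᶠ t in 𝓝[>] (0 : ℝ), ∀ i l, Bc i l → D i l t ≠ 0 ∧
      ‖(t : ℂ) ^ (θ l + ρ i) * D' i l t‖ ≤ 1 / (C + 1) * ‖D i l t‖ := by
    refine eventually_all.2 fun i => eventually_all.2 fun l => ?_
    by_cases h : Bc i l
    · have := hsB i l h
      exact ((hD i l (.inl h)).1.ne_zero.and (Trop_small (hE i l (.inl h)) (hD i l (.inl h)).1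
        (by omega) hε)).mono fun t ht _ => ht
    · exact Eventually.of_forall fun t h' => absurd h' h
  have ev2 : ∀ᶠ t : ℝ in 𝓝[>] 0, ∀ i l, Cc i l → (t : ℂ) ^ (θ l + ρ i) * D' i l t ≠ 0 ∧
      ‖D i l t‖ ≤ 1 / (C + 1) * ‖(t : ℂ) ^ (θ l + ρ i) * D' i l t‖ := by
    refine eventually_all.2 fun i => eventually_all.2 fun l => ?_
    by_cases h : Cc i l
    · have := hsC i l h
      exact ((hE i l (.inr h)).ne_zero.and (Trop_small (hD i l (.inr h)).1 (hE i l (.inr h))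
        (by omega) hε)).mono fun t ht _ => ht
    · exact Eventually.of_forall fun t h' => absurd h' h
  filter_upwards [ev1, ev2, Trop_ne] with t t1 t2 ht v w g1 g2 g3 g4
  have key : ∀ i l, Bc i l ∨ Cc i l → ‖(t : ℂ) ^ θ l * v i l‖ * ‖D i l t‖ =
      ‖(t : ℂ) ^ (-ρ i) * w i l‖ * ‖(t : ℂ) ^ (θ l + ρ i) * D' i l t‖ := fun i l h => by
    rw [← norm_mul, ← norm_mul, ← norm_neg]
    congr 1
    have := zpow_ne_zero (ρ i) ht
    rw [zpow_add₀ ht, zpow_neg]
    field_simp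
    linear_combination (-1 : ℂ) * g1 i l h
  have main := Trop_core Bc Cc (fun i l => (t : ℂ) ^ θ l * v i l)
    (fun i l => (t : ℂ) ^ (-ρ i) * w i l) hε.le hCε
    (fun i l h => by
      refine le_of_mul_le_mul_right ?_ (norm_pos_iff.2 (t1 i l h).1)
      rw [key i l (.inl h), mul_comm (1 / (C + 1)), mul_assoc]
      exact mul_le_mul_of_nonneg_left (t1 i l h).2 (norm_nonneg _))
    (fun i l h => by
      refine le_of_mul_le_mul_right ?_ (norm_pos_iff.2 (t2 i l h).1)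
      rw [← key i l (.inr h), mul_comm (1 / (C + 1)), mul_assoc]
      exact mul_le_mul_of_nonneg_left (t2 i l h).2 (norm_nonneg _))
    (fun i l h h' => by simp only [(g2 i l h h').1, (g2 i l h h').2, mul_zero, and_self])
    (fun i l h M hM hk => (H1 i l h _ (fun g hg => by
      simp only [mul_left_comm _ ((t : ℂ) ^ (-ρ i))]
      rw [← Finset.mul_sum, g3 i g hg, mul_zero]) M hM hk).trans
        (mul_le_mul_of_nonneg_right (e1 i l) hM))
    (fun i l h M hM hk => (H2 l i h _ (fun g hg => by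
      simp only [mul_left_comm _ ((t : ℂ) ^ (θ l))]
      rw [← Finset.mul_sum, g4 l g hg, mul_zero]) M hM hk).trans
        (mul_le_mul_of_nonneg_right (e2 i l) hM)) hC0
  intro i l
  exact ⟨(mul_eq_zero.1 (main i l).1).resolve_left (zpow_ne_zero _ ht),
    (mul_eq_zero.1 (main i l).2).resolve_left (zpow_ne_zero _ ht)⟩

/-- `i` lies in the cyclic window of length `X` starting at `p` in `ℤ / j` -/
def InW (j p X i : ℕ) : Prop := (p ≤ i ∧ i < p + X) ∨ i + j < p + X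

theorem window (j p X : ℕ) (hp : p < j) (hX : X ≤ j) :
    ∃ θ η η' : ℤ, η % 2 = 1 ∧ η' % 2 = 1 ∧
      (∀ i : ℕ, i < j → InW j p X i →
        0 < θ + 12 * i + min (-8 * (i : ℤ)) η' - min (8 * (i : ℤ)) η) ∧
      (∀ i : ℕ, i < j → ¬ InW j p X i →
        θ + 12 * i + min (-8 * (i : ℤ)) η' - min (8 * (i : ℤ)) η < 0) ∧
      (∀ l : ℕ, l < j → X < j → (p + X = l ∨ p + X = l + j) →
        8 * (l : ℤ) < η ∧ -8 * (l : ℤ) < η') := by
  unfold InW
  by_cases h : p + X < j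
  · refine ⟨4 * (p + X) - 2, 8 * j + 1, -(8 * p + 4 * X - 3), by omega, by omega,
      fun i h1 h2 => by omega, fun i h1 h2 => by omega, fun l h1 h2 h3 => by omega⟩
  · refine ⟨4 * (p + X - j) - 2, 4 * p + (4 * (p + X - j) - 2) - 1, 1, by omega, by omega,
      fun i h1 h2 => by omega, fun i h1 h2 => by omega, fun l h1 h2 h3 => by omega⟩

theorem ncard_InW (j p X : ℕ) (hp : p < j) (hX : X ≤ j) :
    {i : Fin j | InW j p X i}.ncard = X := by
  rw [← Set.ncard_image_of_injective _ Fin.val_injective]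
  have e : Fin.val '' {i : Fin j | InW j p X i} =
      ↑(Finset.Ico p (min (p + X) j) ∪ Finset.range (p + X - j)) := by
    ext k
    simp only [Set.mem_image, Set.mem_ofPred_eq, InW, Finset.coe_union, Finset.coe_Ico,
      Finset.coe_range, Set.mem_union, Set.mem_Ico, Set.mem_Iio]
    constructor
    · rintro ⟨i, hi, rfl⟩
      have := i.2
      omega
    · intro hk
      exact ⟨⟨k, by omega⟩, by simp only; omega, rfl⟩
  rw [e, Set.ncard_coe_finset, Finset.card_union_of_disjoint, Nat.card_Ico, Finset.card_range]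
  · omega
  · refine Finset.disjoint_left.2 fun k h1 h2 => ?_
    rw [Finset.mem_Ico] at h1
    rw [Finset.mem_range] at h2
    omega

theorem ncard_not_InW (j p X : ℕ) (hp : p < j) (hX : X ≤ j) :
    {i : Fin j | ¬ InW j p X i}.ncard = j - X := by
  have h1 := Set.ncard_add_ncard_compl {i : Fin j | InW j p X i}
  rw [ncard_InW j p X hp hX, Nat.card_eq_fintype_card, Fintype.card_fin] at h1
  exact Nat.eq_sub_of_add_eq' h1

end Pool.Agent.Work.MP_f4b644_ag.Big
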