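import Pool.Agent.Work.MP_f4b644_ag.Big.Basic
import Pool.Agent.Work.MP_f4b644_ag.Big.Trop

/-!
The pure core: dimension 3 in the first factor, B-fibres, C-fibres and free points.

If j = 0 or k = 0 use `S_zeroB`, `S_zeroC`. Otherwise index the family by
Fin k ⊕ Fin nB ⊕ Fin j ⊕ Fin (j - X) ⊕ Fin N (gadgets BP 0, BP 0, CP 1, CP 1, PT; `S_of_fam`,
`map_univ_sum`, `map_univ_const`, 2 j - X = j + (j - X)). All vectors depend only on the family index.
For a column l put p l = (l * X) % j and take θ l, η l, η' l from `window j (p l) X`. For a cell (i, l)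
in the window (InW j (p l) X i) let u (i, l) = l * X + (i + j - p l) % j; then u % j = i,
l * X ≤ u < (l + 1) * X. Cells: Bc i l = InW ∧ u < j * nB, Cc i l = ¬ InW, the other cells are dead.
Row count: l ↦ u / j is injective on {l | Bc i l} with values < nB. Column count: `ncard_not_InW`.
For t > 0 let x i = t ^ (8 i), x' i = t ^ (-8 i), z l = t ^ (η l), z' l = t ^ (η' l) (integer powers),
D i l = x i - z l, D' i l = x' i - z' l (`Val.sub_ne`, parity gives the exponents differ),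
d = min (8 i) η, d' = min (-8 i) η', ρ i = 12 i. Take t from `tk` (nodes xR i = i, xL l = l) together
with D' i l t ≠ 0 for all cells (`Val.ne_zero`, `Filter.eventually_all`, `Eventually.exists`).
Parameters: column point l: a = ![1, z l, z' l], c = Pi.single l 1. B-slot g: a = ![0, 0, 1],
c l = l ^ g. Row point i: a = ![1, x i, x' i], b = Pi.single i 1. C-slot g: a = ![0, 1, 0], b i = i ^ g.
Free point n: with u = j * nB + n, a = ![0, 1, 0], b = Pi.single (u % j) 1, c l = if l = u / X then 1 else 0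
(as naturals). Use `top_of_ann`: for Φ annihilating the span put v i l = Φ (1, i, l), w i l = Φ (2, i, l).
Row and column points give Φ0 + v x + w x' = 0 = Φ0 + v z + w z', so v D + w D' = 0 in every cell. A dead
cell has j * nB ≤ u < k * X ≤ j * nB + N, so the free point n = u - j * nB gives v = 0, then w = 0 as
D' ≠ 0. The slots give the power sum equations. `tk` gives v = w = 0, then Φ0 = 0.
A useful first lemma: ∑ n, Φ n * tp a b c n = ∑ i, ∑ l, b i * c l * (∑ s, Φ (s, i, l) * a s).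
-/

set_option autoImplicit false

namespace Pool.Agent.Work.MP_f4b644_ag.Big

open Multiset Gad

theorem PureCore_sum {j k : ℕ} (Φ : Fin 3 × Fin j × Fin k → ℂ) (a : Fin 3 → ℂ) (b : Fin j → ℂ)
    (c : Fin k → ℂ) :
    ∑ n, Φ n * tp a b c n =
      ∑ i, ∑ l, b i * c l * (Φ (0, i, l) * a 0 + Φ (1, i, l) * a 1 + Φ (2, i, l) * a 2) := by
  rw [Fintype.sum_prod_type, Fin.sum_univ_three]
  simp only [Fintype.sum_prod_type, ← Finset.sum_add_distrib, tp]
  refine Finset.sum_congr rfl fun i _ => Finset.sum_congr rfl fun l _ => ?_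
  ring

theorem PureCore_cell {j k : ℕ} (Φ : Fin 3 × Fin j × Fin k → ℂ) (a : Fin 3 → ℂ) (i : Fin j)
    (l : Fin k) :
    ∑ n, Φ n * tp a (Pi.single i 1) (Pi.single l 1) n =
      Φ (0, i, l) * a 0 + Φ (1, i, l) * a 1 + Φ (2, i, l) * a 2 := by
  rw [PureCore_sum]
  simp [Pi.single_apply, ite_mul, Finset.sum_ite_eq']

theorem PureCore_row {j k : ℕ} (Φ : Fin 3 × Fin j × Fin k → ℂ) (a : Fin 3 → ℂ) (i : Fin j)
    (c : Fin k → ℂ) :
    ∑ n, Φ n * tp a (Pi.single i 1) c n =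
      ∑ l, c l * (Φ (0, i, l) * a 0 + Φ (1, i, l) * a 1 + Φ (2, i, l) * a 2) := by
  rw [PureCore_sum, Finset.sum_eq_single i]
  · simp
  · intro i' _ hi
    simp [Pi.single_apply, hi]
  · simp

theorem PureCore_col {j k : ℕ} (Φ : Fin 3 × Fin j × Fin k → ℂ) (a : Fin 3 → ℂ) (b : Fin j → ℂ)
    (l : Fin k) :
    ∑ n, Φ n * tp a b (Pi.single l 1) n =
      ∑ i, b i * (Φ (0, i, l) * a 0 + Φ (1, i, l) * a 1 + Φ (2, i, l) * a 2) := by
  rw [PureCore_sum]
  refine Finset.sum_congr rfl fun i _ => ?_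
  rw [Finset.sum_eq_single l]
  · simp
  · intro l' _ hl
    simp [Pi.single_apply, hl]
  · simp

/-- the running number of a cell in the window of its column -/
def PureCore_u (j X i l : ℕ) : ℕ := l * X + (i + j - (l * X) % j) % j

theorem PureCore_u_spec {j X i l : ℕ} (hi : i < j) (hX : X ≤ j) (hW : InW j ((l * X) % j) X i) :
    PureCore_u j X i l % j = i ∧ PureCore_u j X i l / X = l ∧ PureCore_u j X i l < (l + 1) * X := by
  have hp : (l * X) % j < j := Nat.mod_lt _ (by omega)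
  unfold PureCore_u
  generalize hpe : (l * X) % j = p at *
  have key : ∀ r, r < X → (p + r = i ∨ p + r = i + j) → (i + j - p) % j = r →
      (l * X + (i + j - p) % j) % j = i ∧ (l * X + (i + j - p) % j) / X = l ∧
        l * X + (i + j - p) % j < (l + 1) * X := by
    intro r hr hpr he
    rw [he]
    refine ⟨?_, ?_, ?_⟩
    · rw [← Nat.mod_add_mod, hpe]
      rcases hpr with h | h
      · rw [h, Nat.mod_eq_of_lt hi]
      · rw [h, Nat.add_mod_right, Nat.mod_eq_of_lt hi]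
    · rw [Nat.add_comm, Nat.add_mul_div_right _ _ (by omega), Nat.div_eq_of_lt hr, Nat.zero_add]
    · rw [Nat.add_mul, Nat.one_mul]; omega
  rcases hW with ⟨h1, h2⟩ | h
  · refine key (i - p) (by omega) (Or.inl (by omega)) ?_
    rw [show i + j - p = (i - p) + j by omega, Nat.add_mod_right, Nat.mod_eq_of_lt (by omega)]
  · refine key (i + j - p) (by omega) (Or.inr (by omega)) ?_
    exact Nat.mod_eq_of_lt (by omega)

theorem PureCore_rowcount {j k nB X : ℕ} (hX : X ≤ j) (i : Fin j) :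
    {l : Fin k | InW j ((l * X) % j) X i ∧ PureCore_u j X i l < j * nB}.ncard ≤ nB := by
  have hj : 0 < j := lt_of_le_of_lt (Nat.zero_le _) i.2
  have h := Set.ncard_le_ncard_of_injOn
    (s := {l : Fin k | InW j ((l * X) % j) X i ∧ PureCore_u j X i l < j * nB})
    (t := (↑(Finset.range nB) : Set ℕ)) (fun l : Fin k => PureCore_u j X i l / j)
    (fun l hl => by
      have := hl.2
      simp only [Finset.coe_range, Set.mem_Iio]
      exact (Nat.div_lt_iff_lt_mul hj).2 (by rwa [Nat.mul_comm] at this))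
    (fun l hl l' hl' he => by
      obtain ⟨h1, h2, -⟩ := PureCore_u_spec i.2 hX hl.1
      obtain ⟨h1', h2', -⟩ := PureCore_u_spec i.2 hX hl'.1
      have e1 := Nat.div_add_mod (PureCore_u j X i l) j
      have e2 := Nat.div_add_mod (PureCore_u j X i l') j
      have he' : PureCore_u j X i l / j = PureCore_u j X i l' / j := he
      have : PureCore_u j X i l = PureCore_u j X i l' := by
        rw [← e1, ← e2, he', h1, h1']
      apply Fin.ext
      rw [← h2, ← h2', this])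
    (Finset.finite_toSet _)
  rwa [Set.ncard_coe_finset, Finset.card_range] at h

/-- the family of gadgets -/
def PureCore_g (j k nB N X : ℕ) : Fin k ⊕ Fin nB ⊕ Fin j ⊕ Fin (j - X) ⊕ Fin N → Gad :=
  Sum.elim (fun _ => BP 0) (Sum.elim (fun _ => BP 0) (Sum.elim (fun _ => CP 1)
    (Sum.elim (fun _ => CP 1) (fun _ => PT))))

theorem PureCore_map (j k nB N X : ℕ) (hX : X ≤ j) :
    Finset.univ.val.map (PureCore_g j k nB N X) =
      replicate (k + nB) (BP 0) + replicate (2 * j - X) (CP 1) + replicate N PT := by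
  unfold PureCore_g
  rw [map_univ_sum, map_univ_sum, map_univ_sum, map_univ_sum]
  simp only [map_univ_const, Fintype.card_fin]
  rw [show 2 * j - X = j + (j - X) by omega, replicate_add, replicate_add]
  simp only [add_assoc]

theorem PureCore_gen (j k nB N X : ℕ) (hj : 0 < j) (x x' : Fin j → ℂ) (z z' : Fin k → ℂ)
    (H : ∀ v w : Fin j → Fin k → ℂ, (∀ i l, v i l * (x i - z l) + w i l * (x' i - z' l) = 0) →
      (∀ (i : Fin j) (l : Fin k) (n : ℕ), n < N → (j * nB + n) % j = i → (j * nB + n) / X = l →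
        v i l = 0) →
      (∀ i, ∀ g < nB, ∑ l : Fin k, ((l : ℕ) : ℂ) ^ g * w i l = 0) →
      (∀ l, ∀ g < j - X, ∑ i : Fin j, ((i : ℕ) : ℂ) ^ g * v i l = 0) →
      ∀ i l, v i l = 0 ∧ w i l = 0) :
    Gen (Fin 3) (Fin j) (Fin k) (fam (PureCore_g j k nB N X)) := by
  classical
  let a : (Fin k ⊕ Fin nB ⊕ Fin j ⊕ Fin (j - X) ⊕ Fin N) × ℕ → Fin 3 → ℂ := fun p =>
    Sum.elim (fun l => ![1, z l, z' l]) (Sum.elim (fun _ => ![0, 0, 1])
      (Sum.elim (fun i => ![1, x i, x' i]) (Sum.elim (fun _ => ![0, 1, 0])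
        (fun _ => ![0, 1, 0])))) p.1
  let b : (Fin k ⊕ Fin nB ⊕ Fin j ⊕ Fin (j - X) ⊕ Fin N) × ℕ → Fin j → ℂ := fun p =>
    Sum.elim (fun _ => 0) (Sum.elim (fun _ => 0)
      (Sum.elim (fun i => Pi.single i 1) (Sum.elim (fun (g : Fin (j - X)) i => ((i : ℕ) : ℂ) ^ (g : ℕ))
        (fun n : Fin N => Pi.single (⟨(j * nB + n) % j, Nat.mod_lt _ hj⟩ : Fin j) 1)))) p.1
  let c : (Fin k ⊕ Fin nB ⊕ Fin j ⊕ Fin (j - X) ⊕ Fin N) × ℕ → Fin k → ℂ := fun p =>
    Sum.elim (fun l => Pi.single l 1) (Sum.elim (fun (g : Fin nB) l => ((l : ℕ) : ℂ) ^ (g : ℕ))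
      (Sum.elim (fun _ => 0) (Sum.elim (fun _ => 0)
        (fun (n : Fin N) l => if (l : ℕ) = (j * nB + n) / X then 1 else 0)))) p.1
  refine ⟨a, b, c, top_of_ann _ fun Φ hΦ => ?_⟩
  have hcol : ∀ i l, Φ (0, i, l) + Φ (1, i, l) * z l + Φ (2, i, l) * z' l = 0 := by
    intro i l
    have h := hΦ _ (Cfg.memB (X := fam (PureCore_g j k nB N X)) (a := a) (b := b) (c := c)
      (ia := (Sum.inl l, 0)) (ic := (Sum.inl l, 0)) ⟨rfl, rfl⟩ (Pi.single i 1))
    have h' := PureCore_cell Φ ![1, z l, z' l] i l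
    simpa using h'.symm.trans h
  have hrow : ∀ i l, Φ (0, i, l) + Φ (1, i, l) * x i + Φ (2, i, l) * x' i = 0 := by
    intro i l
    have h := hΦ _ (Cfg.memC (X := fam (PureCore_g j k nB N X)) (a := a) (b := b) (c := c)
      (ia := (Sum.inr (Sum.inr (Sum.inl i)), 0)) (ib := (Sum.inr (Sum.inr (Sum.inl i)), 0))
      ⟨rfl, Nat.zero_lt_one, rfl⟩ (Pi.single l 1))
    have h' := PureCore_cell Φ ![1, x i, x' i] i l
    simpa using h'.symm.trans h
  have key := H (fun i l => Φ (1, i, l)) (fun i l => Φ (2, i, l))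
    (fun i l => by linear_combination hrow i l - hcol i l)
    (fun i l n hn hi hl => by
      have h := hΦ _ (Cfg.memP (X := fam (PureCore_g j k nB N X)) (a := a) (b := b) (c := c)
        (ia := (Sum.inr (Sum.inr (Sum.inr (Sum.inr ⟨n, hn⟩))), 0))
        (ib := (Sum.inr (Sum.inr (Sum.inr (Sum.inr ⟨n, hn⟩))), 0))
        (ic := (Sum.inr (Sum.inr (Sum.inr (Sum.inr ⟨n, hn⟩))), 0)) ⟨rfl, rfl, rfl⟩)
      have e1 : b (Sum.inr (Sum.inr (Sum.inr (Sum.inr ⟨n, hn⟩))), 0) = Pi.single i 1 := by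
        have : (⟨(j * nB + n) % j, Nat.mod_lt _ hj⟩ : Fin j) = i := Fin.ext hi
        rw [← this]
        rfl
      have e2 : c (Sum.inr (Sum.inr (Sum.inr (Sum.inr ⟨n, hn⟩))), 0) = Pi.single l 1 := by
        funext l'
        show (if (l' : ℕ) = (j * nB + n) / X then (1 : ℂ) else 0) = _
        rw [hl, Pi.single_apply]
        simp only [Fin.ext_iff]
      rw [e1, e2] at h
      have h' := PureCore_cell Φ ![0, 1, 0] i l
      simpa using h'.symm.trans h)
    (fun i g hg => by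
      have h := hΦ _ (Cfg.memB (X := fam (PureCore_g j k nB N X)) (a := a) (b := b) (c := c)
        (ia := (Sum.inr (Sum.inl ⟨g, hg⟩), 0)) (ic := (Sum.inr (Sum.inl ⟨g, hg⟩), 0)) ⟨rfl, rfl⟩
        (Pi.single i 1))
      have h' := PureCore_row Φ ![0, 0, 1] i (fun l => ((l : ℕ) : ℂ) ^ g)
      simpa using h'.symm.trans h)
    (fun l g hg => by
      have h := hΦ _ (Cfg.memC (X := fam (PureCore_g j k nB N X)) (a := a) (b := b) (c := c)
        (ia := (Sum.inr (Sum.inr (Sum.inr (Sum.inl ⟨g, hg⟩))), 0))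
        (ib := (Sum.inr (Sum.inr (Sum.inr (Sum.inl ⟨g, hg⟩))), 0))
        ⟨rfl, Nat.zero_lt_one, rfl⟩ (Pi.single l 1))
      have h' := PureCore_col Φ ![0, 1, 0] (fun i => ((i : ℕ) : ℂ) ^ g) l
      simpa using h'.symm.trans h)
  funext n
  obtain ⟨s, i, l⟩ := n
  obtain ⟨h1, h2⟩ := key i l
  have h0 := hrow i l
  rw [h1, h2] at h0
  fin_cases s
  · simpa using h0
  · exact h1
  · exact h2

theorem S_pc (j k nB N X : ℕ) (hX : X ≤ j) (h : k * X ≤ j * nB + N) :
    S 3 j k (replicate (k + nB) (BP 0) + replicate (2 * j - X) (CP 1) + replicate N PT) := by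
  rcases Nat.eq_zero_or_pos j with rfl | hj
  · exact S_zeroB _ _ _
  have hw := fun l : Fin k => window j ((l * X) % j) X (Nat.mod_lt _ hj) hX
  choose θ η η' hη hη' hin hout _ using hw
  have hD : ∀ (i : Fin j) (l : Fin k),
      Val (fun t : ℝ => (t : ℂ) ^ (8 * ((i : ℕ) : ℤ)) - (t : ℂ) ^ (η l)) (min (8 * ((i : ℕ) : ℤ)) (η l)) ∧
      Val (fun t : ℝ => (t : ℂ) ^ (-8 * ((i : ℕ) : ℤ)) - (t : ℂ) ^ (η' l))
        (min (-8 * ((i : ℕ) : ℤ)) (η' l)) := fun i l =>
    ⟨Val.sub_ne (Val.zpow _) (Val.zpow _) (by have := hη l; omega),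
      Val.sub_ne (Val.zpow _) (Val.zpow _) (by have := hη' l; omega)⟩
  have htk := tk (R := Fin j) (L := Fin k) nB (j - X) (fun i => ((i : ℕ) : ℂ))
    (fun i i' h => Fin.ext (Nat.cast_injective (R := ℂ) h)) (fun l => ((l : ℕ) : ℂ))
    (fun l l' h => Fin.ext (Nat.cast_injective (R := ℂ) h))
    (fun i l => InW j ((l * X) % j) X i ∧ PureCore_u j X i l < j * nB)
    (fun i l => ¬ InW j ((l * X) % j) X i) (fun i => PureCore_rowcount hX i)
    (fun l => (ncard_not_InW j _ X (Nat.mod_lt _ hj) hX).le)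
    (fun i l t => (t : ℂ) ^ (8 * ((i : ℕ) : ℤ)) - (t : ℂ) ^ (η l))
    (fun i l t => (t : ℂ) ^ (-8 * ((i : ℕ) : ℤ)) - (t : ℂ) ^ (η' l))
    (fun i l => min (8 * ((i : ℕ) : ℤ)) (η l)) (fun i l => min (-8 * ((i : ℕ) : ℤ)) (η' l))
    (fun i l _ => hD i l) (fun i => 12 * ((i : ℕ) : ℤ)) θ
    (fun i l hb => hin l i i.2 hb.1) (fun i l hc => hout l i i.2 hc)
  have hne : ∀ᶠ t : ℝ in nhdsWithin 0 (Set.Ioi 0), ∀ (i : Fin j) (l : Fin k),
      (t : ℂ) ^ (-8 * ((i : ℕ) : ℤ)) - (t : ℂ) ^ (η' l) ≠ 0 :=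
    Filter.eventually_all.2 fun i => Filter.eventually_all.2 fun l => (hD i l).2.ne_zero
  obtain ⟨t, ht, ht'⟩ := (htk.and hne).exists
  refine S_of_fam (PureCore_g j k nB N X) (PureCore_map j k nB N X hX).le
    (PureCore_gen j k nB N X hj (fun i => (t : ℂ) ^ (8 * ((i : ℕ) : ℤ)))
      (fun i => (t : ℂ) ^ (-8 * ((i : ℕ) : ℤ))) (fun l => (t : ℂ) ^ (η l))
      (fun l => (t : ℂ) ^ (η' l)) fun v w hvw hfree hr hc => ?_)
  refine ht v w (fun i l _ => hvw i l) (fun i l hb hc' => ?_) hr hc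
  have hW : InW j ((l * X) % j) X i := not_not.1 hc'
  have hu : j * nB ≤ PureCore_u j X i l := not_lt.1 fun h' => hb ⟨hW, h'⟩
  obtain ⟨h1, h2, h3⟩ := PureCore_u_spec i.2 hX hW
  have h4 : ((l : ℕ) + 1) * X ≤ k * X := Nat.mul_le_mul_right _ l.2
  have e : j * nB + (PureCore_u j X i l - j * nB) = PureCore_u j X i l := by omega
  have hv : v i l = 0 := hfree i l (PureCore_u j X i l - j * nB) (by omega) (by rw [e, h1])
    (by rw [e, h2])
  refine ⟨hv, ?_⟩
  have h5 := hvw i l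
  rw [hv, zero_mul, zero_add] at h5
  exact (mul_eq_zero.1 h5).resolve_right (ht' i l)

end Pool.Agent.Work.MP_f4b644_ag.Big
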