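import Pool.Agent.Work.MP_f4b644_ag.Big.Defs

/-!
The splitting rules and reductions of single gadgets. `CP 0` is the empty gadget.
Every proof: give the set U and the index maps (stated in the comment), then
`simp only [Gad.cfg, Cfg.res, Set.mem_setOf_eq]`, `rintro`, exhibit the atom, `omega`.
Subtraction of indices is truncated subtraction.
-/

set_option autoImplicit false

namespace Pool.Agent.Work.MP_f4b644_ag.Big

open Gad

theorem Rules_red {X Y : Cfg ℕ} (μa μb μc νa νb νc : ℕ → ℕ)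
    (h : (∀ i j, (i, j) ∈ X.fA → (νb i, νc j) ∈ Y.fA ∧ μb (νb i) = i ∧ μc (νc j) = j) ∧
      (∀ i j, (i, j) ∈ X.fB → (νa i, νc j) ∈ Y.fB ∧ μa (νa i) = i ∧ μc (νc j) = j) ∧
      (∀ i j, (i, j) ∈ X.fC → (νa i, νb j) ∈ Y.fC ∧ μa (νa i) = i ∧ μb (νb j) = j) ∧
      ∀ i j l, (i, j, l) ∈ X.pt → (νa i, νb j, νc l) ∈ Y.pt ∧ μa (νa i) = i ∧ μb (νb j) = j ∧
        μc (νc l) = l) : Red X Y :=
  ⟨μa, μb, μc, fun q hq => ⟨_, h.1 q.1 q.2 hq⟩, fun q hq => ⟨_, h.2.1 q.1 q.2 hq⟩,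
    fun q hq => ⟨_, h.2.2.1 q.1 q.2 hq⟩, fun q hq => ⟨_, h.2.2.2 q.1 q.2.1 q.2.2 hq⟩⟩

/-- the transposition of `0` and `1` -/
def Rules_sw (i : ℕ) : ℕ := if i = 0 then 1 else if i = 1 then 0 else i

/-- U = {i ≤ y1}; second part: μa i = i - (y1 + 1) -/
theorem ruleA_T (y1 y2 : ℕ) : Rule Dir.A (T (y1 + y2) 0) (T y1 0) (AF y2) := by
  refine ⟨{i | i ≤ y1}, Rules_red id id id id id id ?_,
    Rules_red (· - (y1 + 1)) id id (· + (y1 + 1)) id id ?_⟩ <;>
    refine ⟨?_, ?_, ?_, ?_⟩ <;>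
    simp only [Gad.cfg, Cfg.res, Set.mem_ofPred_eq, Set.mem_compl_iff, Set.mem_univ,
      Set.mem_empty_iff_false, Prod.mk.injEq, id, Rules_sw] <;> intros <;>
    first | omega | grind

/-- U = {i < y1}; second part: μa i = i - y1 -/
theorem ruleA_AF (y1 y2 : ℕ) : Rule Dir.A (AF (y1 + y2)) (AF y1) (AF y2) := by
  refine ⟨{i | i < y1}, Rules_red id id id id id id ?_,
    Rules_red (· - y1) id id (· + y1) id id ?_⟩ <;>
    refine ⟨?_, ?_, ?_, ?_⟩ <;>
    simp only [Gad.cfg, Cfg.res, Set.mem_ofPred_eq, Set.mem_compl_iff, Set.mem_univ,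
      Set.mem_empty_iff_false, Prod.mk.injEq, id, Rules_sw] <;> intros <;>
    first | omega | grind

theorem ruleA_CP (z1 z2 : ℕ) : Rule Dir.A (CP (z1 + z2)) (CP z1) (CP z2) := by
  refine ⟨{i | i < z1}, Rules_red id id id id id id ?_,
    Rules_red (· - z1) id id (· + z1) id id ?_⟩ <;>
    refine ⟨?_, ?_, ?_, ?_⟩ <;>
    simp only [Gad.cfg, Cfg.res, Set.mem_ofPred_eq, Set.mem_compl_iff, Set.mem_univ,
      Set.mem_empty_iff_false, Prod.mk.injEq, id, Rules_sw] <;> intros <;>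
    first | omega | grind

/-- U = univ -/
theorem ruleA_BP (e : ℕ) : Rule Dir.A (BP e) (BP e) (CP 0) := by
  refine ⟨Set.univ, Rules_red id id id id id id ?_,
    Rules_red id id id id id id ?_⟩ <;>
    refine ⟨?_, ?_, ?_, ?_⟩ <;>
    simp only [Gad.cfg, Cfg.res, Set.mem_ofPred_eq, Set.mem_compl_iff, Set.mem_univ,
      Set.mem_empty_iff_false, Prod.mk.injEq, id, Rules_sw] <;> intros <;>
    first | omega | grind

theorem ruleA_PT : Rule Dir.A PT PT (CP 0) := by
  refine ⟨Set.univ, Rules_red id id id id id id ?_,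
    Rules_red id id id id id id ?_⟩ <;>
    refine ⟨?_, ?_, ?_, ?_⟩ <;>
    simp only [Gad.cfg, Cfg.res, Set.mem_ofPred_eq, Set.mem_compl_iff, Set.mem_univ,
      Set.mem_empty_iff_false, Prod.mk.injEq, id, Rules_sw] <;> intros <;>
    first | omega | grind

/-- U = {i = 0 ∨ y + z2 < i}; second part: μa i = μb i = i - y -/
theorem ruleB_T (y z1 z2 : ℕ) : Rule Dir.B (T y (z1 + z2)) (T (y + z2) z1) (BP z2) := by
  refine ⟨{i | i = 0 ∨ y + z2 < i}, Rules_red id id id id id id ?_,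
    Rules_red (· - y) (· - y) id (fun i => if i = 0 then 0 else i + y) (· + y) id ?_⟩ <;>
    refine ⟨?_, ?_, ?_, ?_⟩ <;>
    simp only [Gad.cfg, Cfg.res, Set.mem_ofPred_eq, Set.mem_compl_iff, Set.mem_univ,
      Set.mem_empty_iff_false, Prod.mk.injEq, id, Rules_sw] <;> intros <;>
    first | omega | grind

/-- U = {i ≤ e1}; second part: μa i = μb i = i - e1 -/
theorem ruleB_BP (e1 e2 : ℕ) : Rule Dir.B (BP (e1 + e2)) (BP e1) (BP e2) := by
  refine ⟨{i | i ≤ e1}, Rules_red id id id id id id ?_,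
    Rules_red (· - e1) (· - e1) id (fun i => if i = 0 then 0 else i + e1) (· + e1) id ?_⟩ <;>
    refine ⟨?_, ?_, ?_, ?_⟩ <;>
    simp only [Gad.cfg, Cfg.res, Set.mem_ofPred_eq, Set.mem_compl_iff, Set.mem_univ,
      Set.mem_empty_iff_false, Prod.mk.injEq, id, Rules_sw] <;> intros <;>
    first | omega | grind

theorem ruleB_CP (z : ℕ) : Rule Dir.B (CP z) (CP z) (CP 0) := by
  refine ⟨Set.univ, Rules_red id id id id id id ?_,
    Rules_red id id id id id id ?_⟩ <;>
    refine ⟨?_, ?_, ?_, ?_⟩ <;>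
    simp only [Gad.cfg, Cfg.res, Set.mem_ofPred_eq, Set.mem_compl_iff, Set.mem_univ,
      Set.mem_empty_iff_false, Prod.mk.injEq, id, Rules_sw] <;> intros <;>
    first | omega | grind

theorem ruleB_AF (y : ℕ) : Rule Dir.B (AF y) (AF y) (CP 0) := by
  refine ⟨Set.univ, Rules_red id id id id id id ?_,
    Rules_red id id id id id id ?_⟩ <;>
    refine ⟨?_, ?_, ?_, ?_⟩ <;>
    simp only [Gad.cfg, Cfg.res, Set.mem_ofPred_eq, Set.mem_compl_iff, Set.mem_univ,
      Set.mem_empty_iff_false, Prod.mk.injEq, id, Rules_sw] <;> intros <;>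
    first | omega | grind

/-- U = {0} -/
theorem ruleB_PP (w : ℕ) : Rule Dir.B (PP w) (TT w) (PB w true) := by
  refine ⟨{i | i = 0}, Rules_red id id id id id id ?_,
    Rules_red id id id id id id ?_⟩ <;>
    refine ⟨?_, ?_, ?_, ?_⟩ <;>
    simp only [Gad.cfg, Cfg.res, Set.mem_ofPred_eq, Set.mem_compl_iff, Set.mem_univ,
      Set.mem_empty_iff_false, Prod.mk.injEq, id, Rules_sw] <;> intros <;>
    first | omega | grind

/-- U = {i < s1 + 2}; second part: μa i = μb i = if i < 2 then i else i - s1 -/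
theorem ruleB_PB (s1 s2 : ℕ) (χ : Bool) :
    Rule Dir.B (PB (s1 + s2) χ) (PB s1 χ) (PB s2 false) := by
  refine ⟨{i | i < s1 + 2}, Rules_red id id id id id id ?_,
    Rules_red (fun i => if i < 2 then i else i - s1) (· - s1) id
      (fun i => if i < 2 then i else i + s1) (· + s1) id ?_⟩ <;>
    refine ⟨?_, ?_, ?_, ?_⟩ <;>
    simp only [Gad.cfg, Cfg.res, Set.mem_ofPred_eq, Set.mem_compl_iff, Set.mem_univ,
      Set.mem_empty_iff_false, Prod.mk.injEq, id, Rules_sw] <;> intros <;>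
    first | omega | grind

/-- U = univ -/
theorem ruleC_T (y : ℕ) : Rule Dir.C (T y 0) (T y 0) (CP (y + 1)) := by
  refine ⟨Set.univ, Rules_red id id id id id id ?_,
    Rules_red id id id id id id ?_⟩ <;>
    refine ⟨?_, ?_, ?_, ?_⟩ <;>
    simp only [Gad.cfg, Cfg.res, Set.mem_ofPred_eq, Set.mem_compl_iff, Set.mem_univ,
      Set.mem_empty_iff_false, Prod.mk.injEq, id, Rules_sw] <;> intros <;>
    first | omega | grind

theorem ruleC_AF (y : ℕ) : Rule Dir.C (AF y) (AF y) (CP y) := by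
  refine ⟨Set.univ, Rules_red id id id id id id ?_,
    Rules_red id id id id id id ?_⟩ <;>
    refine ⟨?_, ?_, ?_, ?_⟩ <;>
    simp only [Gad.cfg, Cfg.res, Set.mem_ofPred_eq, Set.mem_compl_iff, Set.mem_univ,
      Set.mem_empty_iff_false, Prod.mk.injEq, id, Rules_sw] <;> intros <;>
    first | omega | grind

theorem ruleC_BP (e : ℕ) : Rule Dir.C (BP e) (BP e) (CP 0) := by
  refine ⟨Set.univ, Rules_red id id id id id id ?_,
    Rules_red id id id id id id ?_⟩ <;>
    refine ⟨?_, ?_, ?_, ?_⟩ <;>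
    simp only [Gad.cfg, Cfg.res, Set.mem_ofPred_eq, Set.mem_compl_iff, Set.mem_univ,
      Set.mem_empty_iff_false, Prod.mk.injEq, id, Rules_sw] <;> intros <;>
    first | omega | grind

theorem ruleC_CP (z : ℕ) : Rule Dir.C (CP z) (CP z) (CP z) := by
  refine ⟨Set.univ, Rules_red id id id id id id ?_,
    Rules_red id id id id id id ?_⟩ <;>
    refine ⟨?_, ?_, ?_, ?_⟩ <;>
    simp only [Gad.cfg, Cfg.res, Set.mem_ofPred_eq, Set.mem_compl_iff, Set.mem_univ,
      Set.mem_empty_iff_false, Prod.mk.injEq, id, Rules_sw] <;> intros <;>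
    first | omega | grind

theorem ruleC_PT : Rule Dir.C PT PT (CP 0) := by
  refine ⟨Set.univ, Rules_red id id id id id id ?_,
    Rules_red id id id id id id ?_⟩ <;>
    refine ⟨?_, ?_, ?_, ?_⟩ <;>
    simp only [Gad.cfg, Cfg.res, Set.mem_ofPred_eq, Set.mem_compl_iff, Set.mem_univ,
      Set.mem_empty_iff_false, Prod.mk.injEq, id, Rules_sw] <;> intros <;>
    first | omega | grind

/-- U = {0}; second part: μa swaps 0 and 1, μc i = 0 -/
theorem ruleC_TT (w : ℕ) : Rule Dir.C (TT w) (T (w + 1) 0) (T (w + 1) 0) := by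
  refine ⟨{i | i = 0}, Rules_red id id id id id id ?_,
    Rules_red Rules_sw id (fun _ => 0) Rules_sw id (fun _ => 1) ?_⟩ <;>
    refine ⟨?_, ?_, ?_, ?_⟩ <;>
    simp only [Gad.cfg, Cfg.res, Set.mem_ofPred_eq, Set.mem_compl_iff, Set.mem_univ,
      Set.mem_empty_iff_false, Prod.mk.injEq, id, Rules_sw] <;> intros <;>
    first | omega | grind

/-- U = univ -/
theorem ruleC_TT' (w : ℕ) : Rule Dir.C (TT w) (TT w) (CP (w + 2)) := by
  refine ⟨Set.univ, Rules_red id id id id id id ?_,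
    Rules_red id id id id id id ?_⟩ <;>
    refine ⟨?_, ?_, ?_, ?_⟩ <;>
    simp only [Gad.cfg, Cfg.res, Set.mem_ofPred_eq, Set.mem_compl_iff, Set.mem_univ,
      Set.mem_empty_iff_false, Prod.mk.injEq, id, Rules_sw] <;> intros <;>
    first | omega | grind

/-- U = {0}; first part identity; second part: μa swaps 0 and 1, μb = id, μc i = 0 -/
theorem ruleC_PBt (s : ℕ) : Rule Dir.C (PB s true) (BP (s + 1)) (BP (s + 1)) := by
  refine ⟨{i | i = 0}, Rules_red id id id id id id ?_,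
    Rules_red Rules_sw id (fun _ => 0) Rules_sw id (fun _ => 1) ?_⟩ <;>
    refine ⟨?_, ?_, ?_, ?_⟩ <;>
    simp only [Gad.cfg, Cfg.res, Set.mem_ofPred_eq, Set.mem_compl_iff, Set.mem_univ,
      Set.mem_empty_iff_false, Prod.mk.injEq, id, Rules_sw] <;> intros <;>
    first | omega | grind

/-- U = {0}; both parts μa i = μb i = i - 1, μc i = 0 -/
theorem ruleC_PBf (s : ℕ) : Rule Dir.C (PB s false) (BP s) (BP s) := by
  refine ⟨{i | i = 0}, Rules_red (· - 1) (· - 1) id (fun i => if i = 0 then 0 else i + 1) (· + 1) id ?_,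
    Rules_red (· - 1) (· - 1) (fun _ => 0) (· + 1) (· + 1) (fun _ => 1) ?_⟩ <;>
    refine ⟨?_, ?_, ?_, ?_⟩ <;>
    simp only [Gad.cfg, Cfg.res, Set.mem_ofPred_eq, Set.mem_compl_iff, Set.mem_univ,
      Set.mem_empty_iff_false, Prod.mk.injEq, id, Rules_sw] <;> intros <;>
    first | omega | grind

/-- U = univ -/
theorem ruleC_PB' (s : ℕ) (χ : Bool) : Rule Dir.C (PB s χ) (PB s χ) (CP 0) := by
  refine ⟨Set.univ, Rules_red id id id id id id ?_,
    Rules_red id id id id id id ?_⟩ <;>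
    refine ⟨?_, ?_, ?_, ?_⟩ <;>
    simp only [Gad.cfg, Cfg.res, Set.mem_ofPred_eq, Set.mem_compl_iff, Set.mem_univ,
      Set.mem_empty_iff_false, Prod.mk.injEq, id, Rules_sw] <;> intros <;>
    first | omega | grind

theorem red_CP_T : Red (CP 1).cfg (T 0 0).cfg := by
  refine Rules_red id id id id id id ⟨?_, ?_, ?_, ?_⟩ <;>
    simp only [Gad.cfg, Set.mem_ofPred_eq, Set.mem_empty_iff_false, Prod.mk.injEq, id] <;>
    intros <;> first | omega | grind

theorem red_BP {e e' : ℕ} (h : e ≤ e') : Red (BP e).cfg (BP e').cfg := by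
  refine Rules_red id id id id id id ⟨?_, ?_, ?_, ?_⟩ <;>
    simp only [Gad.cfg, Set.mem_ofPred_eq, Set.mem_empty_iff_false, Prod.mk.injEq, id] <;>
    intros <;> first | omega | grind

end Pool.Agent.Work.MP_f4b644_ag.Big
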