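import Pool.Agent.Work.MP_f4b644_ag.Big.Split
import Pool.Agent.Work.MP_f4b644_ag.Big.Rules

/-!
Trivial leaves and two elementary reductions.

Direct leaves: `S_of_fam` with an explicit family (index Unit or Fin n, `map_univ_const`), explicit
vectors (all-one vectors in one-dimensional factors, `Pi.single` vectors otherwise), `top_of_single`.
`S_full`: token number 1 + finProdFinEquiv (i, l) gets a = Pi.single i 1, b = Pi.single l 1.
`S_Blev`: induction on k (`S.splitC`, rule `ruleC_BP`, q fibres go to the new column), the single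
column by induction on q (`S.splitA`, `ruleA_BP`, `S_BP1`).
`S.pt_of_cp`: one C-fibre a ⊗ b ⊗ C is spanned by the k points a ⊗ b ⊗ Pi.single l 1; families on
Fin y ⊕ Fin n and (Fin y × Fin k) ⊕ Fin n.
`S.drop`: let c0 be the third vector of the tangent; choose a surjective linear map
π : (Fin (K+1) → ℂ) → (Fin K → ℂ) with π c0 = 0 (if c0 = 0 forget the last coordinate, otherwise use a
coordinate l0 with c0 l0 ≠ 0: π v l = v (l0.succAbove l) - v l0 / c0 l0 * c0 (l0.succAbove l)). Apply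
id ⊗ id ⊗ π (the linear map T ↦ fun n => π (fun k => T (n.1, n.2.1, k)) n.2.2, surjective, sends
tp a b c to tp a b (π c)): the A-fibre and B-fibre of the tangent go to 0, its C-fibre to a C-fibre,
the atoms of M to atoms of M with c replaced by π ∘ c.
-/

set_option autoImplicit false

namespace Pool.Agent.Work.MP_f4b644_ag.Big

open Multiset Gad

theorem Small_one {I J K : ℕ} (g : Gad)
    (H : Gen (Fin I) (Fin J) (Fin K) (fam fun _ : Unit => g)) : S I J K {g} :=
  S_of_fam _ (by rw [map_univ_const]; exact le_rfl) H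

theorem Small_single (j : Fin 1) : (Pi.single j 1 : Fin 1 → ℂ) = fun _ => 1 := by
  funext x
  rw [Subsingleton.elim x j, Pi.single_eq_same]

theorem Small_spl {d : Dir} {g h : Gad} (H : Rule d g g h) (m n : ℕ) :
    Spl d (replicate (m + n) g) (replicate m g) (replicate n g) :=
  ((Spl.repL H m).add (Spl.repR H.symm n)).of_eq (replicate_add _ _ _) (add_zero _).symm
    (zero_add _).symm

theorem Small_sum {α β γ : Type} [Fintype γ] [DecidableEq γ] (a : α → ℂ) (b : β → ℂ) (u : γ → ℂ) :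
    tp a b u = ∑ l, u l • tp a b (Pi.single l 1) := by
  funext n
  simp [tp, Finset.sum_apply, Pi.single_apply, mul_comm]

theorem Small_proj {K : ℕ} (c : Fin (K + 1) → ℂ) :
    ∃ π : (Fin (K + 1) → ℂ) →ₗ[ℂ] (Fin K → ℂ), Function.Surjective π ∧ π c = 0 := by
  obtain ⟨l0, h0⟩ : ∃ l0, c l0 ≠ 0 ∨ c = 0 := by
    by_cases h : c = 0
    · exact ⟨0, Or.inr h⟩
    · obtain ⟨l, hl⟩ := Function.ne_iff.1 h
      exact ⟨l, Or.inl hl⟩
  refine ⟨LinearMap.pi fun l => LinearMap.proj (l0.succAbove l) -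
    (c (l0.succAbove l) / c l0) • LinearMap.proj l0, fun w => ⟨Fin.insertNth l0 0 w, ?_⟩, ?_⟩
  · funext l
    simp
  · rcases h0 with h0 | h0
    · funext l
      simp [div_mul_cancel₀ _ h0]
    · subst h0
      exact map_zero _

theorem Small_lin {α β γ δ : Type} (π : (γ → ℂ) →ₗ[ℂ] (δ → ℂ)) :
    ∃ Φ : (α × β × γ → ℂ) →ₗ[ℂ] (α × β × δ → ℂ), ∀ a b c, Φ (tp a b c) = tp a b (π c) := by
  refine ⟨LinearMap.pi fun n => LinearMap.proj n.2.2 ∘ₗ π ∘ₗ
    LinearMap.funLeft ℂ ℂ fun k => (n.1, n.2.1, k), fun a b c => ?_⟩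
  funext n
  have h : LinearMap.funLeft ℂ ℂ (fun k => (n.1, n.2.1, k)) (tp a b c) = (a n.1 * b n.2.1) • c :=
    rfl
  simp only [LinearMap.pi_apply, LinearMap.comp_apply, h, map_smul]
  rfl

theorem Small_zero {α β γ : Type} (a : α → ℂ) (b : β → ℂ) : tp a b (0 : γ → ℂ) = 0 := by
  funext n
  simp [tp]

section
variable {ι α β γ : Type} {g : ι → Gad} {a : ι × ℕ → α → ℂ} {b : ι × ℕ → β → ℂ}
  {c : ι × ℕ → γ → ℂ}

theorem Small_A (i : ι) (m m' : ℕ) (h : (m, m') ∈ (g i).cfg.fA) (u : α → ℂ) :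
    tp u (b (i, m)) (c (i, m')) ∈ (fam g).sp a b c :=
  Cfg.memA (X := fam g) (ib := (i, m)) (ic := (i, m')) ⟨rfl, h⟩ u

theorem Small_B (i : ι) (m m' : ℕ) (h : (m, m') ∈ (g i).cfg.fB) (u : β → ℂ) :
    tp (a (i, m)) u (c (i, m')) ∈ (fam g).sp a b c :=
  Cfg.memB (X := fam g) (ia := (i, m)) (ic := (i, m')) ⟨rfl, h⟩ u

theorem Small_C (i : ι) (m m' : ℕ) (h : (m, m') ∈ (g i).cfg.fC) (u : γ → ℂ) :
    tp (a (i, m)) (b (i, m')) u ∈ (fam g).sp a b c :=
  Cfg.memC (X := fam g) (ia := (i, m)) (ib := (i, m')) ⟨rfl, h⟩ u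

theorem Small_P (i : ι) (m m' m'' : ℕ) (h : (m, m', m'') ∈ (g i).cfg.pt) :
    tp (a (i, m)) (b (i, m')) (c (i, m'')) ∈ (fam g).sp a b c :=
  Cfg.memP (X := fam g) ⟨rfl, rfl, h⟩

theorem Small_le {W : Submodule ℂ (α × β × γ → ℂ)}
    (hA : ∀ i m m', (m, m') ∈ (g i).cfg.fA → ∀ u, tp u (b (i, m)) (c (i, m')) ∈ W)
    (hB : ∀ i m m', (m, m') ∈ (g i).cfg.fB → ∀ u, tp (a (i, m)) u (c (i, m')) ∈ W)
    (hC : ∀ i m m', (m, m') ∈ (g i).cfg.fC → ∀ u, tp (a (i, m)) (b (i, m')) u ∈ W)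
    (hP : ∀ i m m' m'', (m, m', m'') ∈ (g i).cfg.pt →
      tp (a (i, m)) (b (i, m')) (c (i, m'')) ∈ W) : (fam g).sp a b c ≤ W := by
  refine Cfg.sp_le ?_ ?_ ?_ ?_
  · rintro ⟨i, m⟩ ⟨i', m'⟩ ⟨h1, h2⟩
    obtain rfl : i' = i := h1
    exact hA _ _ _ h2
  · rintro ⟨i, m⟩ ⟨i', m'⟩ ⟨h1, h2⟩
    obtain rfl : i' = i := h1
    exact hB _ _ _ h2
  · rintro ⟨i, m⟩ ⟨i', m'⟩ ⟨h1, h2⟩
    obtain rfl : i' = i := h1
    exact hC _ _ _ h2
  · rintro ⟨i, m⟩ ⟨i', m'⟩ ⟨i'', m''⟩ ⟨h0, h1, h2⟩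
    obtain rfl : i' = i := h0
    obtain rfl : i'' = i' := h1
    exact hP _ _ _ _ h2

end

theorem S_T1 (I y z : ℕ) : S I 1 1 {T y z} := by
  refine Small_one _ ⟨0, fun _ _ => 1, fun _ _ => 1, top_of_single _ fun i j k => ?_⟩
  rw [Small_single j, Small_single k]
  exact Small_A () 0 0 (by rfl) _

theorem S_AF1 (I y : ℕ) : S I 1 1 {AF y} := by
  refine Small_one _ ⟨0, fun _ _ => 1, fun _ _ => 1, top_of_single _ fun i j k => ?_⟩
  rw [Small_single j, Small_single k]
  exact Small_A () 0 0 (by rfl) _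

theorem S_BP1 (j e : ℕ) : S 1 j 1 {BP e} := by
  refine Small_one _ ⟨fun _ _ => 1, 0, fun _ _ => 1, top_of_single _ fun i l k => ?_⟩
  rw [Small_single i, Small_single k]
  exact Small_B () 0 0 (by rfl) _

theorem S_CP1 (j k : ℕ) : S 1 j k (replicate j (CP 1)) := by
  refine S_of_fam (fun _ : Fin j => CP 1) (by rw [map_univ_const, Fintype.card_fin])
    ⟨fun _ _ => 1, fun p => Pi.single p.1 1, 0, top_of_single _ fun i l m => ?_⟩
  rw [Small_single i]
  exact Small_C l 0 0 (by exact ⟨Nat.one_pos, rfl⟩) _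

theorem S_full (I j : ℕ) : S I j 1 {BP (I * j)} := by
  refine Small_one _ ⟨fun p i => if (p.2 - 1) / j = i then 1 else 0,
    fun p l => if (p.2 - 1) % j = l then 1 else 0, fun _ _ => 1, top_of_single _ fun i l k => ?_⟩
  have h1 : (l + j * i + 1 - 1) / j = i := by
    rw [Nat.add_sub_cancel, Nat.add_mul_div_left _ _ l.pos, Nat.div_eq_of_lt l.2, zero_add]
  have h2 : (l + j * i + 1 - 1) % j = l := by
    rw [Nat.add_sub_cancel, Nat.add_mul_mod_self_left, Nat.mod_eq_of_lt l.2]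
  have h3 : l + j * i + 1 ≤ I * j := by
    have h4 := Nat.mul_le_mul_left j (Nat.succ_le_of_lt i.2)
    have h5 := l.2
    rw [Nat.mul_succ, mul_comm j I] at h4
    omega
  have h := Cfg.memP (X := fam fun _ : Unit => BP (I * j))
    (a := fun p (i : Fin I) => if (p.2 - 1) / j = i then (1 : ℂ) else 0)
    (b := fun p (l : Fin j) => if (p.2 - 1) % j = l then (1 : ℂ) else 0)
    (c := fun _ (_ : Fin 1) => (1 : ℂ)) (ia := ((), l + j * i + 1)) (ib := ((), l + j * i + 1))
    (ic := ((), 0)) ⟨rfl, rfl, Nat.succ_pos _, h3, rfl, rfl⟩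
  simp only [h1, h2] at h
  rw [Small_single k]
  convert h using 2 <;> funext x <;> simp [Pi.single_apply, Fin.ext_iff, eq_comm]

theorem S_fulls (I j k : ℕ) : S I j k (replicate k (BP (I * j))) := by
  induction k with
  | zero => exact S_zeroC _ _ _
  | succ k ih => exact S.splitC (Small_spl (ruleC_BP _) k 1) ih (S_full I j)

theorem S_Blev (q j k : ℕ) : S q j k (replicate (q * k) (BP 0)) := by
  have h : S q j 1 (replicate q (BP 0)) := by
    induction q with
    | zero => exact S_zeroA _ _ _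
    | succ q ih => exact S.splitA (Small_spl (ruleA_BP _) q 1) ih (S_BP1 j 0)
  induction k with
  | zero => exact S_zeroC _ _ _
  | succ k ih => exact S.splitC (Small_spl (ruleC_BP _) (q * k) q) ih h

theorem S.pt_of_cp {I j k : ℕ} (y : ℕ) (M : Multiset Gad) (H : S I j k (replicate y (CP 1) + M)) :
    S I j k (replicate (y * k) PT + M) := by
  obtain ⟨n, g, rfl⟩ := exists_fam Gad M
  obtain ⟨a, b, c, h⟩ := fam_of_S (Sum.elim (fun _ : Fin y => CP 1) g)
    (by rw [map_univ_sum, map_univ_const, Fintype.card_fin]) H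
  refine S_of_fam (Sum.elim (fun _ : Fin y × Fin k => PT) g)
    (by rw [map_univ_sum, map_univ_const, Fintype.card_prod, Fintype.card_fin, Fintype.card_fin])
    ⟨fun p => a (p.1.map Prod.fst id, p.2), fun p => b (p.1.map Prod.fst id, p.2),
      fun p => p.1.elim (fun q => Pi.single q.2 1) fun t => c (Sum.inr t, p.2),
      top_unique (h.ge.trans (Small_le ?_ ?_ ?_ ?_))⟩
  · rintro (s | t) m m' h2 u
    · exact h2.elim
    · exact Small_A (Sum.inr t) m m' (by exact h2) u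
  · rintro (s | t) m m' h2 u
    · exact h2.elim
    · exact Small_B (Sum.inr t) m m' (by exact h2) u
  · rintro (s | t) m m' h2 u
    · obtain rfl : m = 0 := Nat.lt_one_iff.1 h2.1
      obtain rfl : m' = 0 := h2.2
      rw [Small_sum]
      exact Submodule.sum_mem _ fun l _ => Submodule.smul_mem _ _
        (Small_P (Sum.inl (s, l)) 0 0 0 (by rfl))
    · exact Small_C (Sum.inr t) m m' (by exact h2) u
  · rintro (s | t) m m' m'' h2
    · exact h2.elim
    · exact Small_P (Sum.inr t) m m' m'' (by exact h2)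

theorem S.drop {I J K : ℕ} {M : Multiset Gad} (H : S I J (K + 1) (T 0 0 ::ₘ M)) :
    S I J K (CP 1 ::ₘ M) := by
  obtain ⟨n, g, rfl⟩ := exists_fam Gad M
  obtain ⟨a, b, c, h⟩ := fam_of_S (Sum.elim (fun _ : Unit => T 0 0) g)
    (by rw [map_univ_sum, map_univ_const, ← singleton_add]; exact le_rfl) H
  obtain ⟨π, hπ, h0⟩ := Small_proj (c (Sum.inl (), 0))
  obtain ⟨Φ, hΦ⟩ := Small_lin (α := Fin I) (β := Fin J) π
  refine S_of_fam (Sum.elim (fun _ : Unit => CP 1) g)
    (by rw [map_univ_sum, map_univ_const, ← singleton_add]; exact le_rfl)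
    ⟨a, b, fun p => π (c p), top_of_single _ fun i j k => ?_⟩
  obtain ⟨v, hv⟩ := hπ (Pi.single k 1)
  rw [← hv, ← hΦ, ← Submodule.mem_comap]
  refine h.ge.trans (Small_le ?_ ?_ ?_ ?_) Submodule.mem_top
  · rintro (s | t) m m' h2 u <;> rw [Submodule.mem_comap, hΦ]
    · obtain rfl : m' = 0 := congrArg Prod.snd h2
      rw [h0, Small_zero]
      exact zero_mem _
    · exact Small_A (Sum.inr t) m m' (by exact h2) u
  · rintro (s | t) m m' h2 u <;> rw [Submodule.mem_comap, hΦ]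
    · obtain rfl : m' = 0 := congrArg Prod.snd h2
      rw [h0, Small_zero]
      exact zero_mem _
    · exact Small_B (Sum.inr t) m m' (by exact h2) u
  · rintro (s | t) m m' h2 u <;> rw [Submodule.mem_comap, hΦ]
    · exact Small_C (Sum.inl s) m m' (by exact ⟨Nat.lt_succ_of_le h2.1, h2.2⟩) _
    · exact Small_C (Sum.inr t) m m' (by exact h2) _
  · rintro (s | t) m m' m'' h2 <;> rw [Submodule.mem_comap, hΦ]
    · exact absurd h2.1 (not_lt.2 h2.2.1)
    · exact Small_P (Sum.inr t) m m' m'' (by exact h2)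

theorem Blk.drop {I J r K B : ℕ} (n : ℕ) (H : Blk I J r (K + n) (B + n)) : Blk I J r K B := by
  induction n with
  | zero => exact H
  | succ n ih =>
    obtain ⟨h1, h2⟩ := H
    refine ih ⟨by omega, S.of_eq ?_ (S.drop (M := replicate (B + n) (T 0 0) +
      replicate (r - (B + (n + 1))) (CP 1)) (S.of_eq ?_ h2))⟩
    · rw [show r - (B + n) = r - (B + (n + 1)) + 1 by omega, replicate_succ, add_cons]
    · rw [← add_assoc, replicate_succ, cons_add]

/-- blocks add (C-splitting; tangents of one block are C-fibres in the other one) -/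
theorem Blk.add {I J r K1 K2 B1 B2 : ℕ} (h : B1 + B2 ≤ r) (H1 : Blk I J r K1 B1)
    (H2 : Blk I J r K2 B2) : Blk I J r (K1 + K2) (B1 + B2) := by
  obtain ⟨F, rfl⟩ := Nat.exists_eq_add_of_le h
  refine ⟨h, S.splitC ((((Spl.rep (ruleC_T 0) B1).add (Spl.rep (ruleC_T 0).symm B2)).add
    (Spl.rep (ruleC_CP 1) F)).of_eq ?_ ?_ ?_) H1.2 H2.2⟩
  · rw [Nat.add_sub_cancel_left, replicate_add]
  · rw [show B1 + B2 + F - B1 = B2 + F by omega, replicate_add, add_assoc]
  · rw [show B1 + B2 + F - B2 = B1 + F by omega, replicate_add, ← add_assoc,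
      add_comm (replicate B2 _)]

theorem Blk.mul {I J r K1 K2 B1 B2 : ℕ} (a : ℕ) (h : a * B1 + B2 ≤ r) (H1 : Blk I J r K1 B1)
    (H2 : Blk I J r K2 B2) : Blk I J r (a * K1 + K2) (a * B1 + B2) := by
  induction a with
  | zero => simpa using H2
  | succ a ih =>
    have e : (a + 1) * B1 + B2 = B1 + (a * B1 + B2) := by ring
    rw [e] at h
    rw [e, show (a + 1) * K1 + K2 = K1 + (a * K1 + K2) by ring]
    exact Blk.add h H1 (ih (by omega))

theorem Blk.zero (I J r : ℕ) : Blk I J r 0 0 :=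
  ⟨Nat.zero_le _, S_zeroC _ _ _⟩

theorem Blk.toS {I J r K B : ℕ} (H : Blk I J r K B) : S I J K (replicate r (T 0 0)) := by
  refine S.of_eq ?_ (S.rep red_CP_T (r - B) (replicate B (T 0 0)) (S.of_eq (add_comm _ _) H.2))
  rw [← replicate_add, Nat.sub_add_cancel H.1]

end Pool.Agent.Work.MP_f4b644_ag.Big
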