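import Pool.Agent.Work.MP_f4b644_ag.Big.Basic

/-!
The hinge (differential Horace step).

`Gen.hinge`: let a b c span `X.hinge i0 i1`. For t put b_t = Function.update b i1 (b i0 + t • b i1) and
S t = X.sp a b_t c. Show `Lim S = ⊤` (then `exists_top_of_Lim`): every atom of the hinge configuration
is in `Lim S`. Fibres and old points: the curve t ↦ tp u (b_t ib) v is polynomial (of the form
tp u (v0 + t • v1) w; prove a variant of `mem_Lim_tp` for the middle factor), lies in S t, and its value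
at 0 is tp u (b (if ib = i1 then i0 else ib)) v. Tokens: if (ia, i1) ∈ fC and (i0, ic) ∈ fA then the
constant curve tp (a ia) (b i1) (c ic) = t⁻¹ • (tp (a ia) (b_t i1) (c ic) - tp (a ia) (b_t i0) (c ic))
lies in S t for t ≠ 0 (b_t i0 = b i0 as i0 ≠ i1); the other case is the same.

`S.hinge`: take a family g on Fin n for M (`exists_fam`); use the index types Unit ⊕ Fin n (for h ::ₘ M)
and Bool ⊕ Fin n (for g1 ::ₘ g2 ::ₘ M). With the maps μ of the hypothesis define on (Bool ⊕ Fin n) × ℕ: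
(inl β, i) ↦ (inl (), μ (β, i)), (inr l, i) ↦ (inr l, i). This is a `Red` from the first family to the
hinge of the second at (inl false, 0), (inl true, 0). Then `Gen.red`, `Gen.hinge`, `S_of_fam`.

The three rules: maps (false, i) ↦ i and (true, _) ↦ y + z + 1 for a and b, c ↦ 0 (rule T);
(false, _) ↦ 0, (true, _) ↦ 1 for a, b, c (rule TT); (false, i) ↦ i, (true, _) ↦ w + 2 for a, b and
c : (β, i) ↦ i (rule PP). The iterated versions are inductions.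
-/

set_option autoImplicit false

namespace Pool.Agent.Work.MP_f4b644_ag.Big

open Multiset Gad

theorem Hinge_lim {α β γ : Type} {S : ℂ → Submodule ℂ (α × β × γ → ℂ)} (u : α → ℂ)
    (v₀ v₁ : β → ℂ) (z : γ → ℂ) (h : ∀ t : ℂ, t ≠ 0 → tp u (v₀ + t • v₁) z ∈ S t) :
    tp u v₀ z ∈ Lim S := by
  refine ⟨fun t => tp u (v₀ + t • v₁) z, fun n => ?_, by simp, h⟩
  refine mem_PF.2 ⟨MvPolynomial.C (u n.1) * (MvPolynomial.C (v₀ n.2.1) + MvPolynomial.X () *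
    MvPolynomial.C (v₁ n.2.1)) * MvPolynomial.C (z n.2.2), fun x => ?_⟩
  simp [tp]

theorem Gen.hinge {P α β γ : Type} [Fintype α] [Fintype β] [Fintype γ] {X : Cfg P} {i0 i1 : P}
    (h01 : i0 ≠ i1) (h : Gen α β γ (X.hinge i0 i1)) : Gen α β γ X := by
  classical
  obtain ⟨a, b, c, h⟩ := h
  let bt : ℂ → P → β → ℂ := fun t => Function.update b i1 (b i0 + t • b i1)
  have key : ∀ (ib : P) (u : α → ℂ) (z : γ → ℂ),
      (∀ t : ℂ, tp u (bt t ib) z ∈ X.sp a (bt t) c) → ∀ ib', (ib = i1 → ib' = i0) →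
      (ib ≠ i1 → ib' = ib) → tp u (b ib') z ∈ Lim fun t => X.sp a (bt t) c := by
    intro ib u z hu ib' h1 h2
    by_cases hi : ib = i1
    · rw [h1 hi]
      refine Hinge_lim u (b i0) (b i1) z fun t _ => ?_
      simpa [bt, hi] using hu t
    · rw [h2 hi]
      refine Hinge_lim u (b ib) 0 z fun t _ => ?_
      simpa [bt, hi] using hu t
  have tok : ∀ (u : α → ℂ) (z : γ → ℂ), (∀ t : ℂ, tp u (bt t i1) z ∈ X.sp a (bt t) c) →
      (∀ t : ℂ, tp u (bt t i0) z ∈ X.sp a (bt t) c) →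
      tp u (b i1) z ∈ Lim fun t => X.sp a (bt t) c := by
    intro u z h1 h0
    refine Hinge_lim u (b i1) 0 z fun t ht => ?_
    have := Submodule.smul_mem _ t⁻¹ (Submodule.sub_mem _ (h1 t) (h0 t))
    convert this using 1
    funext n
    simp only [bt, tp, Function.update_self, Function.update_of_ne h01, mul_zero, add_zero,
      Pi.smul_apply, Pi.sub_apply, Pi.add_apply, smul_eq_mul, Pi.zero_apply]
    field_simp
    ring
  have hL : Lim (fun t => X.sp a (bt t) c) = ⊤ := by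
    refine top_le_iff.1 (h ▸ Cfg.sp_le ?_ ?_ ?_ ?_)
    · rintro ib ic ⟨q, hq, e⟩ u
      obtain ⟨e1, rfl⟩ := Prod.ext_iff.1 e
      exact key q.1 u _ (fun t => Cfg.memA hq u) ib (fun hi => by simpa [hi] using e1)
        fun hi => by simpa [hi] using e1
    · intro ia ic hq u
      exact Hinge_lim _ u 0 _ fun t _ => Cfg.memB (X := X) hq _
    · rintro ia ib ⟨q, hq, e⟩ u
      obtain ⟨rfl, e1⟩ := Prod.ext_iff.1 e
      exact key q.2 _ u (fun t => Cfg.memC hq u) ib (fun hi => by simpa [hi] using e1)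
        fun hi => by simpa [hi] using e1
    · rintro ia ib ic (⟨q, hq, e⟩ | ⟨rfl, ⟨h1, h2⟩ | ⟨h1, h2⟩⟩)
      · obtain ⟨rfl, e⟩ := Prod.ext_iff.1 e
        obtain ⟨e1, rfl⟩ := Prod.ext_iff.1 e
        exact key q.2.1 _ _ (fun t => Cfg.memP hq) ib (fun hi => by simpa [hi] using e1)
          fun hi => by simpa [hi] using e1
      · exact tok _ _ (fun t => Cfg.memC h1 _) fun t => Cfg.memA h2 _
      · exact tok _ _ (fun t => Cfg.memA h2 _) fun t => Cfg.memC h1 _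
  obtain ⟨t, -, ht⟩ := exists_top_of_Lim _ hL
  exact ⟨a, bt t, c, ht⟩

/-- the configuration of a pair of gadgets -/
def pr (g1 g2 : Gad) : Cfg (Bool × ℕ) := fam (fun β : Bool => if β then g2 else g1)

/-- the inclusion of the index set of a pair -/
def Hinge_emb (ι : Type) (q : Bool × ℕ) : (Bool ⊕ ι) × ℕ := (Sum.inl q.1, q.2)

/-- the extension of a map on the index set of a pair -/
def Hinge_ext (ι : Type) (μ : Bool × ℕ → ℕ) : (Bool ⊕ ι) × ℕ → (Unit ⊕ ι) × ℕ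
  | (Sum.inl β, i) => (Sum.inl (), μ (β, i))
  | (Sum.inr l, i) => (Sum.inr l, i)

theorem Hinge_red {ι : Type} {g1 g2 h : Gad} (g : ι → Gad)
    (hr : Red h.cfg ((pr g1 g2).hinge (false, 0) (true, 0))) :
    Red (fam (Sum.elim (fun _ : Unit => h) g))
      ((fam (Sum.elim (fun β : Bool => if β then g2 else g1) g)).hinge (Sum.inl false, 0)
        (Sum.inl true, 0)) := by
  classical
  obtain ⟨μa, μb, μc, hA, hB, hC, hP⟩ := hr
  have inj : ∀ q q' : Bool × ℕ, Hinge_emb ι q = Hinge_emb ι q' ↔ q = q' := by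
    rintro ⟨a, b⟩ ⟨c, d⟩
    simp [Hinge_emb]
  have ite' : ∀ (q : Bool × ℕ),
      Hinge_emb ι (@ite _ (q = (true, 0)) (Classical.propDecidable _) (false, 0) q) =
      @ite _ (Hinge_emb ι q = (Sum.inl true, 0)) (Classical.propDecidable _) (Sum.inl false, 0)
        (Hinge_emb ι q) := by
    intro q
    by_cases hq : q = (true, 0)
    · subst hq
      simp [Hinge_emb]
    · have hq' : ¬ Hinge_emb ι q = (Sum.inl true, 0) := fun h' => hq ((inj q (true, 0)).1 h')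
      rw [if_neg hq, if_neg hq']
  have eA : ∀ p q : Bool × ℕ, (p, q) ∈ (pr g1 g2).fA → (Hinge_emb ι p, Hinge_emb ι q) ∈
      (fam (Sum.elim (fun β : Bool => if β then g2 else g1) g)).fA :=
    fun p q h => ⟨congrArg Sum.inl h.1, h.2⟩
  have eC : ∀ p q : Bool × ℕ, (p, q) ∈ (pr g1 g2).fC → (Hinge_emb ι p, Hinge_emb ι q) ∈
      (fam (Sum.elim (fun β : Bool => if β then g2 else g1) g)).fC :=
    fun p q h => ⟨congrArg Sum.inl h.1, h.2⟩
  refine ⟨Hinge_ext ι μa, Hinge_ext ι μb, Hinge_ext ι μc, ?_, ?_, ?_, ?_⟩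
  · rintro ⟨⟨⟨⟨⟩⟩ | l, i⟩, m, j⟩ ⟨e, hq⟩ <;> dsimp only at e <;> subst e
    · obtain ⟨_, ⟨q, hq, rfl⟩, e1, e2⟩ := hA (i, j) hq
      refine ⟨(Hinge_emb ι _, Hinge_emb ι _), ⟨(_, _), eA _ _ hq, Prod.ext (ite' q.1) rfl⟩,
        Prod.ext rfl e1, Prod.ext rfl e2⟩
    · exact ⟨((Sum.inr l, i), (Sum.inr l, j)), ⟨((Sum.inr l, i), (Sum.inr l, j)), ⟨rfl, hq⟩,
        by simp⟩, rfl, rfl⟩
  · rintro ⟨⟨⟨⟨⟩⟩ | l, i⟩, m, j⟩ ⟨e, hq⟩ <;> dsimp only at e <;> subst e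
    · obtain ⟨q, hq, e1, e2⟩ := hB (i, j) hq
      exact ⟨(Hinge_emb ι q.1, Hinge_emb ι q.2), ⟨congrArg Sum.inl hq.1, hq.2⟩,
        Prod.ext rfl e1, Prod.ext rfl e2⟩
    · exact ⟨((Sum.inr l, i), (Sum.inr l, j)), ⟨rfl, hq⟩, rfl, rfl⟩
  · rintro ⟨⟨⟨⟨⟩⟩ | l, i⟩, m, j⟩ ⟨e, hq⟩ <;> dsimp only at e <;> subst e
    · obtain ⟨_, ⟨q, hq, rfl⟩, e1, e2⟩ := hC (i, j) hq
      refine ⟨(Hinge_emb ι _, Hinge_emb ι _), ⟨(_, _), eC _ _ hq, Prod.ext rfl (ite' q.2)⟩,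
        Prod.ext rfl e1, Prod.ext rfl e2⟩
    · exact ⟨((Sum.inr l, i), (Sum.inr l, j)), ⟨((Sum.inr l, i), (Sum.inr l, j)), ⟨rfl, hq⟩,
        by simp⟩, rfl, rfl⟩
  · rintro ⟨⟨⟨⟨⟩⟩ | l, i⟩, ⟨m, j⟩, m', k⟩ ⟨e, e', hq⟩ <;> dsimp only at e e' <;>
      subst e e'
    · obtain ⟨q, hq, e1, e2, e3⟩ := hP (i, j, k) hq
      refine ⟨(Hinge_emb ι q.1, Hinge_emb ι q.2.1, Hinge_emb ι q.2.2), ?_,
        Prod.ext rfl e1, Prod.ext rfl e2, Prod.ext rfl e3⟩
      rcases hq with ⟨q, hq, rfl⟩ | ⟨e, hq⟩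
      · exact Or.inl ⟨(Hinge_emb ι q.1, Hinge_emb ι q.2.1, Hinge_emb ι q.2.2),
          ⟨congrArg Sum.inl hq.1, congrArg Sum.inl hq.2.1, hq.2.2⟩,
          Prod.ext rfl (Prod.ext (ite' q.2.1) rfl)⟩
      · exact Or.inr ⟨congrArg (Hinge_emb ι) e, hq.imp
          (fun h => ⟨eC _ (true, 0) h.1, eA (false, 0) _ h.2⟩)
          fun h => ⟨eC _ (false, 0) h.1, eA (true, 0) _ h.2⟩⟩
    · exact ⟨((Sum.inr l, i), (Sum.inr l, j), (Sum.inr l, k)), Or.inl
        ⟨((Sum.inr l, i), (Sum.inr l, j), (Sum.inr l, k)), ⟨rfl, rfl, hq⟩, by simp⟩, rfl, rfl, rfl⟩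

theorem S.hinge {I J K : ℕ} {g1 g2 h : Gad} {M : Multiset Gad}
    (hr : Red h.cfg ((pr g1 g2).hinge (false, 0) (true, 0))) (H : S I J K (h ::ₘ M)) :
    S I J K (g1 ::ₘ g2 ::ₘ M) := by
  obtain ⟨n, g, rfl⟩ := exists_fam Gad M
  have h1 := fam_of_S (Sum.elim (fun _ : Unit => h) g) (by
    rw [map_univ_sum, map_univ_const]
    simp) H
  refine S_of_fam _ (le_of_eq ?_) (Gen.hinge (by simp) (Gen.red (Hinge_red g hr) h1))
  rw [map_univ_sum]
  have : Finset.univ.val.map (fun β : Bool => if β then g2 else g1) = g1 ::ₘ {g2} := by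
    rw [Fintype.univ_bool]
    simp [Multiset.cons_swap, ← Multiset.cons_zero]
  rw [this]
  simp

theorem Hinge_fA {P : Type} {X : Cfg P} {i0 i1 : P} {p q : P} (h : (p, q) ∈ X.fA) (hp : p ≠ i1) :
    (p, q) ∈ (X.hinge i0 i1).fA := ⟨(p, q), h, by simp [hp]⟩

theorem Hinge_fA' {P : Type} {X : Cfg P} {i0 i1 : P} {q : P} (h : (i1, q) ∈ X.fA) :
    (i0, q) ∈ (X.hinge i0 i1).fA := ⟨(i1, q), h, by simp⟩

theorem Hinge_fC {P : Type} {X : Cfg P} {i0 i1 : P} {p q : P} (h : (p, q) ∈ X.fC) (hq : q ≠ i1) :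
    (p, q) ∈ (X.hinge i0 i1).fC := ⟨(p, q), h, by simp [hq]⟩

theorem Hinge_fC' {P : Type} {X : Cfg P} {i0 i1 : P} {p : P} (h : (p, i1) ∈ X.fC) :
    (p, i0) ∈ (X.hinge i0 i1).fC := ⟨(p, i1), h, by simp⟩

theorem Hinge_pt {P : Type} {X : Cfg P} {i0 i1 : P} {p q r : P} (h : (p, q, r) ∈ X.pt)
    (hq : q ≠ i1) : (p, q, r) ∈ (X.hinge i0 i1).pt := Or.inl ⟨(p, q, r), h, by simp [hq]⟩

theorem hinge_T (y z : ℕ) :
    Red (T y (z + 1)).cfg ((pr (T y z) (CP 1)).hinge (false, 0) (true, 0)) := by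
  refine ⟨fun q => if q.1 then y + z + 1 else q.2, fun q => if q.1 then y + z + 1 else q.2,
    fun _ => 0, ?_, ?_, ?_, ?_⟩
  · rintro _ rfl
    exact ⟨((false, 0), (false, 0)), Hinge_fA ⟨rfl, rfl⟩ (by simp), rfl, rfl⟩
  · rintro _ rfl
    exact ⟨((false, 0), (false, 0)), ⟨rfl, rfl⟩, rfl, rfl⟩
  · rintro ⟨i, _⟩ ⟨hi, rfl⟩
    by_cases h : i ≤ y + z
    · exact ⟨((false, i), (false, 0)), Hinge_fC ⟨rfl, h, rfl⟩ (by simp), rfl, rfl⟩
    · exact ⟨((true, 0), (false, 0)), Hinge_fC' ⟨rfl, one_pos, rfl⟩,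
        by simp only [if_true] at hi ⊢; omega, rfl⟩
  · rintro ⟨j, i, _⟩ ⟨h1, hi, e, rfl⟩
    obtain rfl : i = j := e
    by_cases h : i ≤ y + z
    · exact ⟨((false, i), (false, i), (false, 0)), Hinge_pt ⟨rfl, rfl, h1, h, rfl, rfl⟩ (by simp),
        rfl, rfl, rfl⟩
    · exact ⟨((true, 0), (true, 0), (false, 0)), Or.inr ⟨rfl, Or.inl ⟨⟨rfl, one_pos, rfl⟩,
        rfl, rfl⟩⟩, by simp only [if_true] at hi ⊢; omega, by simp only [if_true] at hi ⊢; omega,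
        rfl⟩

theorem hinge_TT : Red (PP 0).cfg ((pr (T 0 0) (T 0 0)).hinge (false, 0) (true, 0)) := by
  refine ⟨fun q => if q.1 then 1 else 0, fun q => if q.1 then 1 else 0,
    fun q => if q.1 then 1 else 0, ?_, ?_, ?_, ?_⟩
  · rintro ⟨_, i⟩ ⟨rfl, hi⟩
    rcases Nat.le_one_iff_eq_zero_or_eq_one.1 hi with rfl | rfl
    · exact ⟨((false, 0), (false, 0)), Hinge_fA ⟨rfl, rfl⟩ (by simp), rfl, rfl⟩
    · exact ⟨((false, 0), (true, 0)), Hinge_fA' ⟨rfl, rfl⟩, rfl, rfl⟩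
  · rintro ⟨j, i⟩ ⟨e, hi⟩
    obtain rfl : j = i := e
    rcases Nat.le_one_iff_eq_zero_or_eq_one.1 hi with rfl | rfl
    · exact ⟨((false, 0), (false, 0)), ⟨rfl, rfl⟩, rfl, rfl⟩
    · exact ⟨((true, 0), (true, 0)), ⟨rfl, rfl⟩, rfl, rfl⟩
  · rintro ⟨i, _⟩ ⟨hi, rfl⟩
    rcases Nat.le_one_iff_eq_zero_or_eq_one.1 (Nat.lt_succ_iff.1 hi) with rfl | rfl
    · exact ⟨((false, 0), (false, 0)), Hinge_fC ⟨rfl, le_rfl, rfl⟩ (by simp), rfl, rfl⟩
    · exact ⟨((true, 0), (false, 0)), Hinge_fC' ⟨rfl, le_rfl, rfl⟩, rfl, rfl⟩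
  · rintro q (rfl | rfl | ⟨h1, h2, -⟩)
    · exact ⟨((true, 0), (true, 0), (false, 0)), Or.inr ⟨rfl, Or.inl ⟨⟨rfl, le_rfl, rfl⟩,
        rfl, rfl⟩⟩, rfl, rfl, rfl⟩
    · exact ⟨((false, 0), (true, 0), (true, 0)), Or.inr ⟨rfl, Or.inr ⟨⟨rfl, le_rfl, rfl⟩,
        rfl, rfl⟩⟩, rfl, rfl, rfl⟩
    · omega

theorem hinge_PP (w : ℕ) :
    Red (PP (w + 1)).cfg ((pr (PP w) (CP 1)).hinge (false, 0) (true, 0)) := by
  refine ⟨fun q => if q.1 then w + 2 else q.2, fun q => if q.1 then w + 2 else q.2,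
    fun q => q.2, ?_, ?_, ?_, ?_⟩
  · rintro ⟨_, i⟩ ⟨rfl, hi⟩
    exact ⟨((false, 0), (false, i)), Hinge_fA ⟨rfl, rfl, hi⟩ (by simp), rfl, rfl⟩
  · rintro ⟨j, i⟩ ⟨e, hi⟩
    exact ⟨((false, j), (false, i)), ⟨rfl, e, hi⟩, rfl, rfl⟩
  · rintro ⟨i, _⟩ ⟨hi, rfl⟩
    by_cases h : i < w + 2
    · exact ⟨((false, i), (false, 0)), Hinge_fC ⟨rfl, h, rfl⟩ (by simp), rfl, rfl⟩
    · exact ⟨((true, 0), (false, 0)), Hinge_fC' ⟨rfl, one_pos, rfl⟩,
        by simp only [if_true] at hi ⊢; omega, rfl⟩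
  · rintro ⟨i, j, k⟩ (e | e | ⟨h1, hi, e, hk⟩)
    · exact ⟨((false, i), (false, j), (false, k)), Hinge_pt ⟨rfl, rfl, Or.inl e⟩ (by simp),
        rfl, rfl, rfl⟩
    · exact ⟨((false, i), (false, j), (false, k)), Hinge_pt ⟨rfl, rfl, Or.inr (Or.inl e)⟩
        (by simp), rfl, rfl, rfl⟩
    · obtain rfl : j = i := e
      by_cases h : j < w + 2
      · exact ⟨((false, j), (false, j), (false, k)), Hinge_pt
          ⟨rfl, rfl, Or.inr (Or.inr ⟨h1, h, rfl, hk⟩)⟩ (by simp), rfl, rfl, rfl⟩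
      · exact ⟨((true, 0), (true, 0), (false, k)), Or.inr ⟨rfl, Or.inl ⟨⟨rfl, one_pos, rfl⟩,
          rfl, rfl, hk⟩⟩, by simp only [if_true] at hi ⊢; omega,
          by simp only [if_true] at hi ⊢; omega, rfl⟩

theorem Hinge_rep {I J K : ℕ} {g1 g2 h : Gad}
    (hr : Red h.cfg ((pr g1 g2).hinge (false, 0) (true, 0))) (n : ℕ) (M : Multiset Gad)
    (H : S I J K (replicate n h + M)) : S I J K (replicate n g1 + replicate n g2 + M) := by
  induction n generalizing M with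
  | zero => simpa using H
  | succ n ih =>
    have h1 := ih (h ::ₘ M) (H.of_eq (by simp [replicate_succ]))
    have h2 := S.hinge hr (h1.of_eq (Multiset.add_cons _ _ _))
    refine h2.of_eq ?_
    simp only [replicate_succ, ← Multiset.singleton_add]
    abel

theorem S.hingeT {I J K : ℕ} (n u y : ℕ) (M : Multiset Gad)
    (H : S I J K (replicate n (T u y) + M)) :
    S I J K (replicate n (T u 0) + replicate (n * y) (CP 1) + M) := by
  induction y generalizing M with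
  | zero => simpa using H
  | succ y ih =>
    have h1 := Hinge_rep (hinge_T u y) n M H
    rw [add_assoc] at h1
    refine (ih _ h1).of_eq ?_
    rw [Nat.mul_succ, replicate_add]
    abel

theorem S.hingePP {I J K : ℕ} (n w : ℕ) (M : Multiset Gad)
    (H : S I J K (replicate n (PP w) + M)) :
    S I J K (replicate (2 * n) (T 0 0) + replicate (n * w) (CP 1) + M) := by
  induction w generalizing M with
  | zero => simpa [two_mul, replicate_add] using Hinge_rep hinge_TT n M H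
  | succ w ih =>
    have h1 := Hinge_rep (hinge_PP w) n M H
    rw [add_assoc] at h1
    refine (ih _ h1).of_eq ?_
    rw [Nat.mul_succ, replicate_add]
    abel

end Pool.Agent.Work.MP_f4b644_ag.Big
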