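import Pool.Agent.Work.MP_f4b644_ag.Big.Small
import Pool.Agent.Work.MP_f4b644_ag.Big.Hinge

/-!
The two top levels for formats with K ≤ 2 * 10^6 * J: two super-strips joined by pairs, and blocks.

`S_level1`: `S.hingePP π 0`, then `S.splitB`: PP 0 gives TT 0 | PB 0 true, a1 tangents T 0 (0 + 0) give
T 0 0 | BP 0, S2 tangents give BP 0 | T 0 0.
`S_blocks`: prove by induction on n, for all p w with 2 p + w = n u + uL, p + w ≤ π, p ≤ n u,
(1 ≤ n → u ≤ p + w), n ≤ nb:
S I J (n Ka + KL) ((n sa + sL) T 0 0 + (n ba + bL) BP 0 + p Pi + w U + (π - p - w) O +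
(nb sa + sL - (n sa + sL)) CP 1). Step: u' = min u p, u'' = u - u' ≤ w; `S.splitC` (Ka | rest): u' of the Pi
give U | U, the other Pi give O | Pi, u'' of the U give U | O, the other U give O | U, O gives O | O, sa
tangents give T 0 0 | CP 1, the others CP 1 | T 0 0, ba BP 0 go left, the others right, CP 1 to both.
New values p - u', w - u'' + u'. Start with p = π, w = 0.
-/

set_option autoImplicit false

namespace Pool.Agent.Work.MP_f4b644_ag.Big

open Multiset Gad

theorem S_level1 (I J1 J2 K a1 S2 π : ℕ)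
    (h1 : S I J1 K (replicate a1 (T 0 0) + replicate S2 (BP 0) + replicate π (TT 0)))
    (h2 : S I J2 K (replicate S2 (T 0 0) + replicate a1 (BP 0) + replicate π (PB 0 true))) :
    S I (J1 + J2) K (replicate (2 * π + a1 + S2) (T 0 0)) := by
  have rT : Rule Dir.B (T 0 0) (T 0 0) (BP 0) := ruleB_T 0 0 0
  have hs : Spl Dir.B (replicate π (PP 0) + (replicate a1 (T 0 0) + replicate S2 (T 0 0)))
      (replicate a1 (T 0 0) + replicate S2 (BP 0) + replicate π (TT 0))
      (replicate S2 (T 0 0) + replicate a1 (BP 0) + replicate π (PB 0 true)) :=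
    ((Spl.rep (ruleB_PP 0) π).add ((Spl.rep rT a1).add (Spl.rep rT.symm S2))).of_eq rfl
      (by abel) (by abel)
  have h3 := S.hingePP π 0 _ (S.splitB hs h1 h2)
  refine h3.of_eq ?_
  rw [Nat.mul_zero, replicate_zero, add_zero, replicate_add, replicate_add, add_assoc]

theorem Levels_ind (I J Ka KL sa sL ba bL u uL π nb : ℕ) (Pi U O : Gad)
    (r1 : Rule Dir.C Pi U U) (r2 : Rule Dir.C Pi Pi O) (r3 : Rule Dir.C U U O)
    (r4 : Rule Dir.C O O O)
    (ha : S I J Ka (replicate sa (T 0 0) + replicate ba (BP 0) + replicate u U +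
      replicate (π - u) O + replicate (nb * sa + sL - sa) (CP 1)))
    (hL : S I J KL (replicate sL (T 0 0) + replicate bL (BP 0) + replicate uL U +
      replicate (π - uL) O + replicate (nb * sa) (CP 1))) (n : ℕ) :
    ∀ p w : ℕ, 2 * p + w = n * u + uL → p + w ≤ π → p ≤ n * u → (1 ≤ n → u ≤ p + w) → n ≤ nb →
      S I J (n * Ka + KL) (replicate (n * sa + sL) (T 0 0) + replicate (n * ba + bL) (BP 0) +
        replicate p Pi + replicate w U + replicate (π - p - w) O +
        replicate (nb * sa - n * sa) (CP 1)) := by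
  induction n with
  | zero =>
    intro p w h1 _ h3 _ _
    have hp : p = 0 := by omega
    have hw : w = uL := by omega
    subst hp hw
    simpa using hL
  | succ n ih =>
    intro p w h1 h2 h3 h4 h5
    have h4' := h4 (by omega)
    rw [add_mul, one_mul] at h1 h3
    obtain ⟨d, hd⟩ := Nat.exists_eq_add_of_le h5
    obtain ⟨u1, u2, p1, w1, o, hu, hp, hw, ho, hc⟩ : ∃ u1 u2 p1 w1 o : ℕ, u = u1 + u2 ∧
        p = u1 + p1 ∧ w = u2 + w1 ∧ π = p + w + o ∧ (u2 = 0 ∨ p1 = 0) := by
      by_cases hup : u ≤ p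
      · exact ⟨u, 0, p - u, w, π - p - w, by omega, by omega, by omega, by omega, Or.inl rfl⟩
      · exact ⟨p, u - p, 0, w - (u - p), π - p - w, by omega, by omega, by omega, by omega,
          Or.inr rfl⟩
    have hnu : 1 ≤ n → u ≤ n * u := fun h => Nat.le_mul_of_pos_left u h
    have hrec := ih p1 (u1 + w1) (by omega) (by omega) (by omega)
      (fun h => by have := hnu h; omega) (by omega)
    have e1 : nb * sa = n * sa + sa + d * sa := by rw [hd]; ring
    have rT : Rule Dir.C (T 0 0) (T 0 0) (CP 1) := ruleC_T 0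
    have hs := (((((((((Spl.rep rT sa).add (Spl.rep rT.symm (n * sa + sL))).add
      (Spl.repL (ruleC_BP 0) ba)).add (Spl.repR (ruleC_BP 0).symm (n * ba + bL))).add
      (Spl.rep r1 u1)).add (Spl.rep r2.symm p1)).add (Spl.rep r3 u2)).add
      (Spl.rep r3.symm w1)).add (Spl.rep r4 o)).add (Spl.rep (ruleC_CP 1) (d * sa))
    have f1 : π - u = p1 + w1 + o := by omega
    have f2 : nb * sa + sL - sa = n * sa + sL + d * sa := by omega
    have f3 : π - p1 - (u1 + w1) = u2 + o := by omega
    have f4 : nb * sa - n * sa = sa + d * sa := by omega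
    have f5 : π - p - w = o := by omega
    have f6 : nb * sa - (n + 1) * sa = d * sa := by rw [add_mul, one_mul]; omega
    have f7 : (n + 1) * sa + sL = sa + (n * sa + sL) := by ring
    have f8 : (n + 1) * ba + bL = ba + (n * ba + bL) := by ring
    have f9 : (n + 1) * Ka + KL = Ka + (n * Ka + KL) := by ring
    rw [f1, f2] at ha
    rw [f3, f4] at hrec
    rw [f5, f6, f7, f8, f9]
    refine S.splitC (hs.of_eq ?_ ?_ ?_) ha hrec
    · rw [hp, hw]
      simp only [replicate_add]
      abel
    · rw [hu]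
      simp only [replicate_add]
      abel
    · simp only [replicate_add]
      abel

theorem S_blocks (I J Ka KL sa sL ba bL u uL π nb : ℕ) (Pi U O : Gad)
    (r1 : Rule Dir.C Pi U U) (r2 : Rule Dir.C Pi Pi O) (r3 : Rule Dir.C U U O)
    (r4 : Rule Dir.C O O O) (hu : u ≤ π) (huL : uL ≤ π) (hπ : nb * u + uL = 2 * π)
    (ha : S I J Ka (replicate sa (T 0 0) + replicate ba (BP 0) + replicate u U +
      replicate (π - u) O + replicate (nb * sa + sL - sa) (CP 1)))
    (hL : S I J KL (replicate sL (T 0 0) + replicate bL (BP 0) + replicate uL U +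
      replicate (π - uL) O + replicate (nb * sa) (CP 1))) (hnb : 1 ≤ nb) :
    S I J (nb * Ka + KL) (replicate (nb * sa + sL) (T 0 0) + replicate (nb * ba + bL) (BP 0) +
      replicate π Pi) := by
  have _ := hnb
  have h := Levels_ind I J Ka KL sa sL ba bL u uL π nb Pi U O r1 r2 r3 r4 ha hL nb π 0
    (by omega) (by omega) (by omega) (fun _ => by omega) le_rfl
  simpa using h

end Pool.Agent.Work.MP_f4b644_ag.Big
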