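import Pool.Agent.Work.MP_f4b644_ag.Big.Strip

/-!
Bands of square-type strips, 60 mates per tangent. Notation: B = K + t, m' = I - 62.

`band_strip` (pure arithmetic, one strip of height j with μ j tangents): x is the ceiling of
(j t + μ j m') / K, E = x K - (j t + μ j m') < K. From hb and h ≤ j: m' K ≤ j t + μ j m' ≤ x K, so m' ≤ x,
b = x - m'. k = K - μ j ≥ K / 3 (ha, j < 2 h). The identity k (j + x) = j (B - μ j - μ b) + E holds over ℤ;
since k x ≥ K > E it gives j np ≥ k j, so np = B - μ j - μ b is a natural number ≥ k ≥ 1.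
x K < j (t + μ I + K) so 10 x ≤ 7 I j (hc). R = I - 3 - (x - 1) / j ≥ 3 I / 10 - 3.
b / (j - 1) ≤ x / (j - 1) ≤ 8 I / 10 as j ≥ 8. Tokens: E (np + μ b) ≤ K B, and
(TT + E - 60 μ j) np ≥ (TT - 40 K) K / 3 ≥ B K by he.
`band`: strong induction on H; if H < 2 h one strip of height H, else peel a strip of height h from the
band of height H - h (`St_step` with u = j, ν = μ). The bound E h ≤ H K is additive.
-/

set_option autoImplicit false

namespace Pool.Agent.Work.MP_f4b644_ag.Big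

theorem band_strip (I K t m' μ h j TL : ℕ) (hm : m' + 62 = I) (hI : 1000 ≤ I) (hh : 8 ≤ h)
    (hj1 : h ≤ j) (hj2 : j < 2 * h) (hμ : 1 ≤ μ) (ha : 3 * μ * h ≤ K)
    (hb : m' * K ≤ h * (t + μ * m')) (hc : 10 * (t + μ * I + K) ≤ 7 * I * K) (hd : 610 * μ ≤ I)
    (he : 9 * (K + t) + 120 * K ≤ 3 * TL) :
    ∃ x b k np E R : ℕ, x * K = j * t + μ * j * m' + E ∧ E < K ∧ j * μ + k = K ∧
      np + μ * b + j * μ = K + t ∧ 1 ≤ np ∧ k * (j + x) ≤ j * np + E ∧ 60 ≤ x ∧
      (∀ TT, TL ≤ TT → E * (np + μ * b) ≤ (TT + E - 60 * (j * μ)) * np) ∧ 61 ≤ R ∧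
      R + 3 + (x - 1) / j ≤ I ∧ j * μ * 60 ≤ R * j ∧ x + 62 = I + b ∧ 65 + b / (j - 1) ≤ I ∧
      61 * (j * μ) + x + 3 * j ≤ I * j := by
  have hK0 : 0 < K := by nlinarith
  obtain ⟨x, E, hx, hE⟩ : ∃ x E : ℕ, x * K = j * t + μ * j * m' + E ∧ E < K := by
    refine ⟨(j * t + μ * j * m' + K - 1) / K,
      (j * t + μ * j * m' + K - 1) / K * K - (j * t + μ * j * m'), ?_, ?_⟩
    · have h1 := Nat.div_add_mod (j * t + μ * j * m' + K - 1) K
      have h2 := Nat.mod_lt (j * t + μ * j * m' + K - 1) hK0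
      rw [mul_comm] at h1
      omega
    · have h1 := Nat.div_mul_le_self (j * t + μ * j * m' + K - 1) K
      omega
  have hmx : m' ≤ x := by
    have h1 : h * (t + μ * m') ≤ j * (t + μ * m') := Nat.mul_le_mul_right _ hj1
    have h2 : m' * K ≤ x * K := by
      calc m' * K ≤ j * (t + μ * m') := hb.trans h1
        _ = j * t + μ * j * m' := by ring
        _ ≤ x * K := by omega
    exact Nat.le_of_mul_le_mul_right h2 hK0
  obtain ⟨b, rfl⟩ : ∃ b, x = m' + b := ⟨x - m', by omega⟩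
  have hjμ : 3 * (j * μ) ≤ 2 * K := by
    have h1 : j * μ ≤ 2 * h * μ := Nat.mul_le_mul_right _ hj2.le
    nlinarith
  obtain ⟨k, hk⟩ : ∃ k, j * μ + k = K := ⟨K - j * μ, by omega⟩
  have hk3 : K ≤ 3 * k := by omega
  have hid : k * (m' + b) + j * (μ * b) = j * t + E := by
    have e1 : (m' + b) * K = k * (m' + b) + j * (μ * b) + μ * j * m' := by
      rw [← hk]; ring
    omega
  have hkx : K ≤ k * (m' + b) := by
    have h1 : k * 3 ≤ k * (m' + b) := Nat.mul_le_mul_left _ (by omega)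
    omega
  have hj0 : 0 < j := by omega
  have hμb : μ * b ≤ t := by
    have h1 : j * (μ * b) ≤ j * t := by omega
    exact Nat.le_of_mul_le_mul_left h1 hj0
  obtain ⟨u, rfl⟩ : ∃ u, t = μ * b + u := ⟨t - μ * b, by omega⟩
  have hx7 : 10 * (m' + b) ≤ 7 * I * j := by
    have h1 : μ * j * m' ≤ μ * j * I := Nat.mul_le_mul_left _ (by omega)
    have h2 : K ≤ j * K := Nat.le_mul_of_pos_left _ hj0
    have h3 : (m' + b) * K ≤ j * (μ * b + u + μ * I + K) := by
      have e : j * (μ * b + u + μ * I + K) = j * (μ * b + u) + μ * j * I + j * K := by ring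
      omega
    have h4 : j * (10 * (μ * b + u + μ * I + K)) ≤ j * (7 * I * K) := Nat.mul_le_mul_left _ hc
    have h5 : 10 * (m' + b) * K ≤ 7 * I * j * K := by
      calc 10 * (m' + b) * K = 10 * ((m' + b) * K) := by ring
        _ ≤ 10 * (j * (μ * b + u + μ * I + K)) := by omega
        _ = j * (10 * (μ * b + u + μ * I + K)) := by ring
        _ ≤ j * (7 * I * K) := h4
        _ = 7 * I * j * K := by ring
    exact Nat.le_of_mul_le_mul_right h5 hK0
  obtain ⟨q, hq⟩ : ∃ q, q = (m' + b - 1) / j := ⟨_, rfl⟩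
  have hq7 : 10 * q ≤ 7 * I := by
    have h1 : q * j ≤ m' + b - 1 := by rw [hq]; exact Nat.div_mul_le_self _ _
    have h2 : 10 * q * j ≤ 7 * I * j := by
      have e : 10 * q * j = 10 * (q * j) := by ring
      omega
    exact Nat.le_of_mul_le_mul_right h2 hj0
  obtain ⟨q', hq'⟩ : ∃ q', q' = b / (j - 1) := ⟨_, rfl⟩
  have hq8 : 10 * q' ≤ 8 * I := by
    obtain ⟨i, rfl⟩ : ∃ i, j = i + 1 := ⟨j - 1, by omega⟩
    have h1 : q' * i ≤ b := by
      rw [hq', Nat.add_sub_cancel]; exact Nat.div_mul_le_self _ _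
    have h2 : I * 7 ≤ I * i := Nat.mul_le_mul_left _ (by omega)
    have h3 : 10 * q' * i ≤ 8 * I * i := by
      have e1 : 10 * q' * i = 10 * (q' * i) := by ring
      have e2 : 7 * I * (i + 1) = 7 * (I * i) + 7 * I := by ring
      have e3 : 8 * I * i = 8 * (I * i) := by ring
      omega
    exact Nat.le_of_mul_le_mul_right h3 (by omega)
  refine ⟨m' + b, b, k, k + u, E, I - 3 - q, hx, hE, hk, by omega, by omega, ?_, by omega, ?_,
    by omega, by omega, ?_, by omega, by omega, ?_⟩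
  · have e1 : k * (j + (m' + b)) = j * k + k * (m' + b) := by ring
    have e2 : j * (k + u) = j * k + j * u := by ring
    have e3 : j * (μ * b + u) = j * (μ * b) + j * u := by ring
    omega
  · intro TT hT
    have h1 : 3 * (K + (μ * b + u)) ≤ TT + E - 60 * (j * μ) := by omega
    have h2 : E * (k + u + μ * b) ≤ K * (K + (μ * b + u)) :=
      Nat.mul_le_mul hE.le (by omega)
    calc E * (k + u + μ * b) ≤ K * (K + (μ * b + u)) := h2
      _ ≤ 3 * (k + u) * (K + (μ * b + u)) := Nat.mul_le_mul_right _ (by omega)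
      _ = 3 * (K + (μ * b + u)) * (k + u) := by ring
      _ ≤ (TT + E - 60 * (j * μ)) * (k + u) := Nat.mul_le_mul_right _ h1
  · have h1 : μ * 60 ≤ I - 3 - q := by omega
    calc j * μ * 60 = μ * 60 * j := by ring
      _ ≤ (I - 3 - q) * j := Nat.mul_le_mul_right _ h1
  · have h1 : 610 * μ * j ≤ I * j := Nat.mul_le_mul_right _ hd
    have h2 : 1000 * j ≤ I * j := Nat.mul_le_mul_right _ hI
    have e1 : 610 * μ * j = 610 * (j * μ) := by ring
    have e2 : 7 * I * j = 7 * (I * j) := by ring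
    omega

theorem band (I K t m' μ h TL : ℕ) (hm : m' + 62 = I) (hI : 1000 ≤ I) (hh : 8 ≤ h)
    (hμ : 1 ≤ μ) (ha : 3 * μ * h ≤ K)
    (hb : m' * K ≤ h * (t + μ * m')) (hc : 10 * (t + μ * I + K) ≤ 7 * I * K) (hd : 610 * μ ≤ I)
    (he : 9 * (K + t) + 120 * K ≤ 3 * TL) (H : ℕ) (hH : h ≤ H) :
    ∃ Xb Eb : ℕ, Xb * K = H * t + μ * H * m' + Eb ∧ Eb * h ≤ H * K ∧
      ∀ J X s TT G : ℕ, St I K (K + t) 60 J X s TT G → TL ≤ TT → s + μ * H ≤ K + t →
        St I K (K + t) 60 (H + J) (Xb + X) (μ * H + s) (Eb + TT) G := by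
  induction H using Nat.strong_induction_on with
  | _ H ih =>
    by_cases hc2 : H < 2 * h
    · obtain ⟨x, b, k, np, E, R, hx, hE, hk, hnp, hnp1, hcc, hyx, htok, hR, hRI, hU, hxb, hbI, hF⟩ :=
        band_strip I K t m' μ h H TL hm hI hh hH hc2 hμ ha hb hc hd he
      refine ⟨x, E, hx, ?_, fun J X s TT G hS hT hs => ?_⟩
      · rw [mul_comm H K]
        exact Nat.mul_le_mul hE.le hH
      · rw [mul_comm μ H] at hs ⊢
        exact St_step hS H x H μ b k np E R hk (by rw [← hnp, mul_comm H μ]) hnp1 (by omega) hcc hyx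
          (htok TT hT) (by omega) (by omega) hR hRI hU (by omega)
          (Or.inr ⟨rfl, by omega, by omega, by omega, by omega⟩)
    · obtain ⟨H', rfl⟩ : ∃ H', H = h + H' := ⟨H - h, by omega⟩
      obtain ⟨Xb, Eb, hXb, hEb, hS'⟩ := ih H' (by omega) (by omega)
      obtain ⟨x, b, k, np, E, R, hx, hE, hk, hnp, hnp1, hcc, hyx, htok, hR, hRI, hU, hxb, hbI, hF⟩ :=
        band_strip I K t m' μ h h TL hm hI hh le_rfl (by omega) hμ ha hb hc hd he
      refine ⟨x + Xb, E + Eb, ?_, ?_, fun J X s TT G hS hT hs => ?_⟩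
      · calc (x + Xb) * K = x * K + Xb * K := by ring
          _ = (h + H') * t + μ * (h + H') * m' + (E + Eb) := by rw [hx, hXb]; ring
      · have h1 : E * h ≤ K * h := Nat.mul_le_mul_right _ hE.le
        calc (E + Eb) * h = E * h + Eb * h := by ring
          _ ≤ K * h + H' * K := Nat.add_le_add h1 hEb
          _ = (h + H') * K := by ring
      · have e0 : μ * (h + H') = h * μ + μ * H' := by ring
        have H1 := hS' J X s TT G hS hT (by omega)
        have H2 := St_step H1 h x h μ b k np E R hk (by rw [← hnp, mul_comm h μ]) hnp1 (by omega)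
          hcc hyx (htok (Eb + TT) (by omega)) (by omega) (by omega) hR hRI hU (by omega)
          (Or.inr ⟨rfl, by omega, by omega, by omega, by omega⟩)
        rw [e0, add_assoc h H' J, add_assoc x Xb X, add_assoc (h * μ) (μ * H') s, add_assoc E Eb TT]
        exact H2

end Pool.Agent.Work.MP_f4b644_ag.Big
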