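import Pool.Agent.Work.MP_f4b644_ag.Big.Defs

/-!
Basic API for `Gen`, `Red`, `fam`, `S`.

Hints.
* `Gen.red`: given parameters a b c for X take a ∘ μa, b ∘ μb, c ∘ μc for Y; every atom of X is an
  atom of Y.
* `Gen.equiv`: compose the vectors with the inverse equivalences; map the span by the linear
  equivalence of function spaces `LinearEquiv.funCongrLeft` (tp goes to tp).
* `Red.fam`: choose the maps for every i and use `fun p => (p.1, μ p.1 p.2)`.
* `Red.fam_inj`: for an injective e use a left inverse on the index: if ι is nonempty take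
  `Function.invFun e`; if ι is empty all four sets of `fam h` are empty, but one needs a map
  κ × ℕ → ι × ℕ, so this lemma is stated for `Gen` only (`Gen.fam_inj`): define the parameters by
  `Function.extend (Prod.map e id) a 0`.
* `fam_of_S`, `S_of_fam`: two finite families with the same multiset differ by an equivalence of the
  index types commuting with the families (fibres have equal cardinality = `Multiset.count`;
  `Equiv.ofFiberEquiv`, `Fintype.equivOfCardEq`); then `Gen.fam_inj`. More generally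
  `exists_inj_of_le`: if the multiset of h is `≤` the multiset of g there is an injection e with
  g ∘ e = h (fibrewise `Function.Embedding.nonempty_of_card_le`, `Multiset.le_iff_count`).
* `S.rel`: induction on `Multiset.Rel` is awkward; use instead: from `Multiset.Rel r (univ.val.map h) M'`
  obtain (lemma `exists_fam_of_rel`, induction on n or via `Multiset.rel_map_left` and lists) a family g
  on the same index type with `univ.val.map g = M'` and `r (h i) (g i)`.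
* `top_of_ann`: if W ≠ ⊤ there is a nonzero functional vanishing on W
  (`Submodule.exists_le_ker_of_lt_top` or `Submodule.exists_dual_forall_apply_eq_zero`), write it as
  `w ↦ ∑ n, Φ n * w n` with `Φ n = φ (Pi.single n 1)` (`LinearMap.pi_apply_eq_sum_univ`).
* `dense_of_S`: `fam_of_S` with ι = Fin r and the constant family, then `dense_of_TS_univ` with the
  vectors of index (l, 0).
-/

set_option autoImplicit false

namespace Pool.Agent.Work.MP_f4b644_ag.Big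

open Multiset

section
variable {P Q α β γ : Type} {X : Cfg P} {a : P → α → ℂ} {b : P → β → ℂ} {c : P → γ → ℂ}

theorem Cfg.memA {ib ic : P} (h : (ib, ic) ∈ X.fA) (u : α → ℂ) :
    tp u (b ib) (c ic) ∈ X.sp a b c := by
  exact Submodule.subset_span (Or.inl ⟨_, h, u, rfl⟩)

theorem Cfg.memB {ia ic : P} (h : (ia, ic) ∈ X.fB) (u : β → ℂ) :
    tp (a ia) u (c ic) ∈ X.sp a b c := by
  exact Submodule.subset_span (Or.inr (Or.inl ⟨_, h, u, rfl⟩))

theorem Cfg.memC {ia ib : P} (h : (ia, ib) ∈ X.fC) (u : γ → ℂ) :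
    tp (a ia) (b ib) u ∈ X.sp a b c := by
  exact Submodule.subset_span (Or.inr (Or.inr (Or.inl ⟨_, h, u, rfl⟩)))

theorem Cfg.memP {ia ib ic : P} (h : (ia, ib, ic) ∈ X.pt) :
    tp (a ia) (b ib) (c ic) ∈ X.sp a b c := by
  exact Submodule.subset_span (Or.inr (Or.inr (Or.inr ⟨_, h, rfl⟩)))

/-- to bound the span it suffices to check the four kinds of atoms -/
theorem Cfg.sp_le {W : Submodule ℂ (α × β × γ → ℂ)}
    (hA : ∀ ib ic, (ib, ic) ∈ X.fA → ∀ u, tp u (b ib) (c ic) ∈ W)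
    (hB : ∀ ia ic, (ia, ic) ∈ X.fB → ∀ u, tp (a ia) u (c ic) ∈ W)
    (hC : ∀ ia ib, (ia, ib) ∈ X.fC → ∀ u, tp (a ia) (b ib) u ∈ W)
    (hP : ∀ ia ib ic, (ia, ib, ic) ∈ X.pt → tp (a ia) (b ib) (c ic) ∈ W) : X.sp a b c ≤ W := by
  refine Submodule.span_le.2 ?_
  rintro w (⟨q, hq, u, rfl⟩ | ⟨q, hq, u, rfl⟩ | ⟨q, hq, u, rfl⟩ | ⟨q, hq, rfl⟩)
  · exact hA _ _ hq u
  · exact hB _ _ hq u
  · exact hC _ _ hq u
  · exact hP _ _ _ hq

theorem Red.refl (X : Cfg P) : Red X X := by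
  exact ⟨id, id, id, fun q hq => ⟨q, hq, rfl, rfl⟩, fun q hq => ⟨q, hq, rfl, rfl⟩,
    fun q hq => ⟨q, hq, rfl, rfl⟩, fun q hq => ⟨q, hq, rfl, rfl, rfl⟩⟩

theorem Red.trans {R : Type} {Y : Cfg Q} {Z : Cfg R} (h1 : Red X Y) (h2 : Red Y Z) : Red X Z := by
  obtain ⟨μa, μb, μc, hA, hB, hC, hP⟩ := h1
  obtain ⟨νa, νb, νc, kA, kB, kC, kP⟩ := h2
  refine ⟨μa ∘ νa, μb ∘ νb, μc ∘ νc, fun q hq => ?_, fun q hq => ?_, fun q hq => ?_, fun q hq => ?_⟩
  · obtain ⟨q', hq', e1, e2⟩ := hA q hq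
    obtain ⟨q'', hq'', f1, f2⟩ := kA q' hq'
    exact ⟨q'', hq'', (congrArg μb f1).trans e1, (congrArg μc f2).trans e2⟩
  · obtain ⟨q', hq', e1, e2⟩ := hB q hq
    obtain ⟨q'', hq'', f1, f2⟩ := kB q' hq'
    exact ⟨q'', hq'', (congrArg μa f1).trans e1, (congrArg μc f2).trans e2⟩
  · obtain ⟨q', hq', e1, e2⟩ := hC q hq
    obtain ⟨q'', hq'', f1, f2⟩ := kC q' hq'
    exact ⟨q'', hq'', (congrArg μa f1).trans e1, (congrArg μb f2).trans e2⟩
  · obtain ⟨q', hq', e1, e2, e3⟩ := hP q hq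
    obtain ⟨q'', hq'', f1, f2, f3⟩ := kP q' hq'
    exact ⟨q'', hq'', (congrArg μa f1).trans e1, (congrArg μb f2).trans e2,
      (congrArg μc f3).trans e3⟩

theorem Gen.red {Y : Cfg Q} (h : Red X Y) (hX : Gen α β γ X) : Gen α β γ Y := by
  obtain ⟨μa, μb, μc, hA, hB, hC, hP⟩ := h
  obtain ⟨a, b, c, e⟩ := hX
  refine ⟨a ∘ μa, b ∘ μb, c ∘ μc, eq_top_iff.2 (e ▸ Cfg.sp_le ?_ ?_ ?_ ?_)⟩
  · intro i j hq u
    obtain ⟨q', hq', rfl, rfl⟩ := hA _ hq
    exact Cfg.memA (a := a ∘ μa) (b := b ∘ μb) (c := c ∘ μc) hq' u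
  · intro i j hq u
    obtain ⟨q', hq', rfl, rfl⟩ := hB _ hq
    exact Cfg.memB (a := a ∘ μa) (b := b ∘ μb) (c := c ∘ μc) hq' u
  · intro i j hq u
    obtain ⟨q', hq', rfl, rfl⟩ := hC _ hq
    exact Cfg.memC (a := a ∘ μa) (b := b ∘ μb) (c := c ∘ μc) hq' u
  · intro i j k hq
    obtain ⟨q', hq', rfl, rfl, rfl⟩ := hP _ hq
    exact Cfg.memP (a := a ∘ μa) (b := b ∘ μb) (c := c ∘ μc) hq'

theorem Gen.equiv {α' β' γ' : Type} (ea : α ≃ α') (eb : β ≃ β') (ec : γ ≃ γ')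
    (h : Gen α β γ X) : Gen α' β' γ' X := by
  obtain ⟨a, b, c, e⟩ := h
  refine ⟨fun p => a p ∘ ea.symm, fun p => b p ∘ eb.symm, fun p => c p ∘ ec.symm, ?_⟩
  let L := LinearEquiv.funCongrLeft ℂ ℂ (ea.prodCongr (eb.prodCongr ec)).symm
  have hL : ∀ u v w, L (tp u v w) = tp (u ∘ ea.symm) (v ∘ eb.symm) (w ∘ ec.symm) := fun u v w => rfl
  have : X.sp a b c ≤ (X.sp (fun p => a p ∘ ea.symm) (fun p => b p ∘ eb.symm)
      (fun p => c p ∘ ec.symm)).comap L.toLinearMap := by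
    refine Cfg.sp_le (fun i j hq u => ?_) (fun i j hq u => ?_) (fun i j hq u => ?_)
      (fun i j k hq => ?_) <;> rw [Submodule.mem_comap, LinearEquiv.coe_coe, hL]
    · exact Cfg.memA hq _
    · exact Cfg.memB hq _
    · exact Cfg.memC hq _
    · exact Cfg.memP hq
  rw [eq_top_iff]
  rintro w -
  obtain ⟨w, rfl⟩ := L.surjective w
  exact this (e ▸ Submodule.mem_top)

end

theorem Red.fam {ι : Type} {h g : ι → Gad} (H : ∀ i, Red (h i).cfg (g i).cfg) :
    Red (fam h) (fam g) := by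
  choose μa μb μc hA hB hC hP using H
  refine ⟨fun p => (p.1, μa p.1 p.2), fun p => (p.1, μb p.1 p.2), fun p => (p.1, μc p.1 p.2),
    ?_, ?_, ?_, ?_⟩
  · rintro ⟨⟨i, m⟩, ⟨j, n⟩⟩ ⟨(rfl : j = i), hq⟩
    obtain ⟨q', hq', e1, e2⟩ := hA _ _ hq
    exact ⟨((_, q'.1), (_, q'.2)), ⟨rfl, hq'⟩, Prod.ext rfl e1, Prod.ext rfl e2⟩
  · rintro ⟨⟨i, m⟩, ⟨j, n⟩⟩ ⟨(rfl : j = i), hq⟩
    obtain ⟨q', hq', e1, e2⟩ := hB _ _ hq
    exact ⟨((_, q'.1), (_, q'.2)), ⟨rfl, hq'⟩, Prod.ext rfl e1, Prod.ext rfl e2⟩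
  · rintro ⟨⟨i, m⟩, ⟨j, n⟩⟩ ⟨(rfl : j = i), hq⟩
    obtain ⟨q', hq', e1, e2⟩ := hC _ _ hq
    exact ⟨((_, q'.1), (_, q'.2)), ⟨rfl, hq'⟩, Prod.ext rfl e1, Prod.ext rfl e2⟩
  · rintro ⟨⟨i, m⟩, ⟨j, n⟩, ⟨k, l⟩⟩ ⟨(rfl : j = i), (rfl : k = j), hq⟩
    obtain ⟨q', hq', e1, e2, e3⟩ := hP _ _ hq
    exact ⟨((_, q'.1), (_, q'.2.1), (_, q'.2.2)), ⟨rfl, rfl, hq'⟩, Prod.ext rfl e1, Prod.ext rfl e2,
      Prod.ext rfl e3⟩

/-- familywise reduction to restricted gadgets -/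
theorem Red.fam_res {ι : Type} (d : Dir) {h g : ι → Gad} (U : ι → Set ℕ)
    (H : ∀ i, Red (h i).cfg ((g i).cfg.res d (U i))) :
    Red (Big.fam h) ((Big.fam g).res d {p | p.2 ∈ U p.1}) := by
  choose μa μb μc hA hB hC hP using H
  refine ⟨fun p => (p.1, μa p.1 p.2), fun p => (p.1, μb p.1 p.2), fun p => (p.1, μc p.1 p.2),
    ?_, ?_, ?_, ?_⟩
  · rintro ⟨⟨i, m⟩, ⟨j, n⟩⟩ ⟨(rfl : j = i), hq⟩
    obtain ⟨q', hq', e1, e2⟩ := hA _ _ hq
    refine ⟨((_, q'.1), (_, q'.2)), ?_, Prod.ext rfl e1, Prod.ext rfl e2⟩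
    cases d
    · exact ⟨rfl, hq'⟩
    · exact ⟨⟨rfl, hq'.1⟩, hq'.2⟩
    · exact ⟨⟨rfl, hq'.1⟩, hq'.2⟩
  · rintro ⟨⟨i, m⟩, ⟨j, n⟩⟩ ⟨(rfl : j = i), hq⟩
    obtain ⟨q', hq', e1, e2⟩ := hB _ _ hq
    refine ⟨((_, q'.1), (_, q'.2)), ?_, Prod.ext rfl e1, Prod.ext rfl e2⟩
    cases d
    · exact ⟨⟨rfl, hq'.1⟩, hq'.2⟩
    · exact ⟨rfl, hq'⟩
    · exact ⟨⟨rfl, hq'.1⟩, hq'.2⟩
  · rintro ⟨⟨i, m⟩, ⟨j, n⟩⟩ ⟨(rfl : j = i), hq⟩
    obtain ⟨q', hq', e1, e2⟩ := hC _ _ hq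
    refine ⟨((_, q'.1), (_, q'.2)), ?_, Prod.ext rfl e1, Prod.ext rfl e2⟩
    cases d
    · exact ⟨⟨rfl, hq'.1⟩, hq'.2⟩
    · exact ⟨⟨rfl, hq'.1⟩, hq'.2⟩
    · exact ⟨rfl, hq'⟩
  · rintro ⟨⟨i, m⟩, ⟨j, n⟩, ⟨k, l⟩⟩ ⟨(rfl : j = i), (rfl : k = j), hq⟩
    obtain ⟨q', hq', e1, e2, e3⟩ := hP _ _ hq
    refine ⟨((_, q'.1), (_, q'.2.1), (_, q'.2.2)), ?_, Prod.ext rfl e1, Prod.ext rfl e2,
      Prod.ext rfl e3⟩
    cases d <;> exact ⟨⟨rfl, rfl, hq'.1⟩, hq'.2⟩

theorem Gen.fam_inj {ι κ α β γ : Type} {h : ι → Gad} {g : κ → Gad} (e : ι → κ)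
    (he : Function.Injective e) (hg : ∀ i, g (e i) = h i) (H : Gen α β γ (fam h)) :
    Gen α β γ (fam g) := by
  obtain ⟨a, b, c, E⟩ := H
  have hi : Function.Injective (Prod.map e (id : ℕ → ℕ)) := he.prodMap Function.injective_id
  have ha : ∀ p, a p = Function.extend (Prod.map e id) a 0 (Prod.map e id p) :=
    fun p => (hi.extend_apply _ _ _).symm
  have hb : ∀ p, b p = Function.extend (Prod.map e id) b 0 (Prod.map e id p) :=
    fun p => (hi.extend_apply _ _ _).symm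
  have hc : ∀ p, c p = Function.extend (Prod.map e id) c 0 (Prod.map e id p) :=
    fun p => (hi.extend_apply _ _ _).symm
  refine ⟨Function.extend (Prod.map e id) a 0, Function.extend (Prod.map e id) b 0,
    Function.extend (Prod.map e id) c 0, eq_top_iff.2 (E ▸ Cfg.sp_le ?_ ?_ ?_ ?_)⟩
  · rintro p q ⟨h1, h2⟩ u
    rw [hb p, hc q]
    exact Cfg.memA (X := fam g) ⟨congrArg e h1, (hg p.1).symm ▸ h2⟩ u
  · rintro p q ⟨h1, h2⟩ u
    rw [ha p, hc q]
    exact Cfg.memB (X := fam g) ⟨congrArg e h1, (hg p.1).symm ▸ h2⟩ u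
  · rintro p q ⟨h1, h2⟩ u
    rw [ha p, hb q]
    exact Cfg.memC (X := fam g) ⟨congrArg e h1, (hg p.1).symm ▸ h2⟩ u
  · rintro p q r ⟨h1, h2, h3⟩
    rw [ha p, hb q, hc r]
    exact Cfg.memP (X := fam g) ⟨congrArg e h1, congrArg e h2, (hg p.1).symm ▸ h3⟩

theorem exists_inj_of_le {ι κ δ : Type} [Fintype ι] [Fintype κ] (h : ι → δ) (g : κ → δ)
    (H : Finset.univ.val.map h ≤ Finset.univ.val.map g) :
    ∃ e : ι → κ, Function.Injective e ∧ ∀ i, g (e i) = h i := by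
  classical
  have hc : ∀ x : δ, Nonempty ({i // h i = x} ↪ {k // g k = x}) := fun x => by
    refine Function.Embedding.nonempty_of_card_le ?_
    have := Multiset.le_iff_count.1 H x
    rw [Multiset.count_map, Multiset.count_map] at this
    rw [Fintype.card_subtype, Fintype.card_subtype]
    simpa only [eq_comm, Finset.card, Finset.filter_val] using this
  refine ⟨fun i => ((hc (h i)).some ⟨i, rfl⟩).1, fun i j hij => ?_,
    fun i => ((hc (h i)).some ⟨i, rfl⟩).2⟩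
  have key : ∀ (x y : δ) (hi : h i = x) (hj : h j = y),
      ((hc x).some ⟨i, hi⟩).1 = ((hc y).some ⟨j, hj⟩).1 → i = j := fun x y hi hj e => by
    have : x = y := by rw [← ((hc x).some ⟨i, hi⟩).2, e, ((hc y).some ⟨j, hj⟩).2]
    subst this
    exact congrArg Subtype.val ((hc x).some.injective (Subtype.ext e))
  exact key _ _ rfl rfl hij

theorem exists_fam (δ : Type) (M : Multiset δ) :
    ∃ (n : ℕ) (g : Fin n → δ), Finset.univ.val.map g = M := by
  induction M using Quotient.inductionOn with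
  | h l => exact ⟨l.length, l.get, by rw [Fin.univ_val_map, List.ofFn_get]; rfl⟩

theorem exists_fam_of_rel {ι δ ε : Type} [Fintype ι] (r : δ → ε → Prop) (h : ι → δ)
    (M : Multiset ε) (H : Multiset.Rel r (Finset.univ.val.map h) M) :
    ∃ g : ι → ε, Finset.univ.val.map g = M ∧ ∀ i, r (h i) (g i) := by
  classical
  rw [Multiset.rel_map_left] at H
  have key : ∀ (s : Multiset ι) (M : Multiset ε), Multiset.Rel (fun i y => r (h i) y) s M →
      s.Nodup → ∃ g : ι → Option ε, s.map g = M.map some ∧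
        ∀ i ∈ s, ∃ y, g i = some y ∧ r (h i) y := fun s M H => by
    induction H with
    | zero => exact fun _ => ⟨fun _ => none, rfl, fun _ hi => absurd hi (Multiset.notMem_zero _)⟩
    | @cons i y s M hr _ ih =>
      intro hn
      rw [Multiset.nodup_cons] at hn
      obtain ⟨g, e, hg⟩ := ih hn.2
      have hne : ∀ j ∈ s, Function.update g i (some y) j = g j := fun j hj =>
        Function.update_of_ne (fun hji : j = i => hn.1 (hji ▸ hj)) _ _
      refine ⟨Function.update g i (some y), ?_, fun j hj => ?_⟩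
      · rw [Multiset.map_cons, Multiset.map_cons, Function.update_self, ← e,
          Multiset.map_congr rfl hne]
      · rcases Multiset.mem_cons.1 hj with rfl | hj
        · exact ⟨y, Function.update_self .., hr⟩
        · rw [hne j hj]
          exact hg j hj
  obtain ⟨g, e, hg⟩ := key _ _ H Finset.univ.nodup
  choose g' e' hg' using fun i => hg i (Finset.mem_univ i)
  refine ⟨g', Multiset.map_injective (Option.some_injective ε) ?_, hg'⟩
  rw [← e, Multiset.map_map]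
  exact Multiset.map_congr rfl fun i _ => (e' i).symm

/-- the multiset of a family on a sum type -/
theorem map_univ_sum {ι κ δ : Type} [Fintype ι] [Fintype κ] (f : ι → δ) (g : κ → δ) :
    Finset.univ.val.map (Sum.elim f g) = Finset.univ.val.map f + Finset.univ.val.map g := by
  rw [← Finset.univ_disjSum_univ, Finset.val_disjSum, Multiset.disjSum, Multiset.map_add,
    Multiset.map_map, Multiset.map_map]
  rfl

theorem map_univ_const {ι δ : Type} [Fintype ι] (x : δ) :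
    Finset.univ.val.map (fun _ : ι => x) = replicate (Fintype.card ι) x := by
  rw [Multiset.map_const']
  rfl

variable {I J K : ℕ}

theorem S_of_fam {ι : Type} [Fintype ι] (g : ι → Gad) {M : Multiset Gad}
    (h : Finset.univ.val.map g ≤ M) (H : Gen (Fin I) (Fin J) (Fin K) (fam g)) : S I J K M := by
  obtain ⟨n, g', e⟩ := exists_fam _ M
  obtain ⟨f, hf, hg⟩ := exists_inj_of_le g g' (e ▸ h)
  exact ⟨n, g', e, Gen.fam_inj f hf hg H⟩

theorem fam_of_S {ι : Type} [Fintype ι] (g : ι → Gad) {M : Multiset Gad}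
    (h : M ≤ Finset.univ.val.map g) (H : S I J K M) : Gen (Fin I) (Fin J) (Fin K) (fam g) := by
  obtain ⟨n, g', e, H⟩ := H
  obtain ⟨f, hf, hg⟩ := exists_inj_of_le g' g (e ▸ h)
  exact Gen.fam_inj f hf hg H

theorem S.mono {M M' : Multiset Gad} (h : M ≤ M') (H : S I J K M) : S I J K M' := by
  obtain ⟨n, g, e, H⟩ := H
  exact S_of_fam g (e ▸ h) H

theorem S.of_eq {M M' : Multiset Gad} (h : M = M') (H : S I J K M) : S I J K M' := h ▸ H

theorem S.rel {M M' : Multiset Gad} (h : Multiset.Rel (fun h g : Gad => Red h.cfg g.cfg) M M')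
    (H : S I J K M) : S I J K M' := by
  obtain ⟨n, g, rfl, H⟩ := H
  obtain ⟨g', e, hg⟩ := exists_fam_of_rel _ g M' h
  exact ⟨n, g', e, Gen.red (Red.fam hg) H⟩

theorem S.rep {h g : Gad} (hr : Red h.cfg g.cfg) (n : ℕ) (M : Multiset Gad)
    (H : S I J K (replicate n h + M)) : S I J K (replicate n g + M) := by
  refine S.rel (Multiset.Rel.add ?_ (Multiset.rel_refl_of_refl_on fun x _ => Red.refl _)) H
  induction n with
  | zero => exact Multiset.Rel.zero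
  | succ n ih =>
    clear ih
    exact Multiset.rel_replicate_left.2 ⟨by simp, fun x hx => (Multiset.eq_of_mem_replicate hx) ▸ hr⟩

theorem S_zeroA (J K : ℕ) (M : Multiset Gad) : S 0 J K M := by
  obtain ⟨n, g, e⟩ := exists_fam _ M
  exact ⟨n, g, e, 0, 0, 0, Subsingleton.elim _ _⟩

theorem S_zeroB (I K : ℕ) (M : Multiset Gad) : S I 0 K M := by
  obtain ⟨n, g, e⟩ := exists_fam _ M
  exact ⟨n, g, e, 0, 0, 0, Subsingleton.elim _ _⟩

theorem S_zeroC (I J : ℕ) (M : Multiset Gad) : S I J 0 M := by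
  obtain ⟨n, g, e⟩ := exists_fam _ M
  exact ⟨n, g, e, 0, 0, 0, Subsingleton.elim _ _⟩

theorem top_of_single {α β γ : Type} [Fintype α] [Fintype β] [Fintype γ] [DecidableEq α]
    [DecidableEq β] [DecidableEq γ] (W : Submodule ℂ (α × β × γ → ℂ))
    (h : ∀ i j k, tp (Pi.single i 1) (Pi.single j 1) (Pi.single k 1) ∈ W) : W = ⊤ := by
  rw [eq_top_iff]
  rintro w -
  rw [← Finset.univ_sum_single w]
  refine W.sum_mem fun n _ => ?_
  have : (Pi.single n (w n) : α × β × γ → ℂ) =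
      w n • tp (Pi.single n.1 1) (Pi.single n.2.1 1) (Pi.single n.2.2 1) := by
    funext m
    obtain ⟨i, j, k⟩ := n
    obtain ⟨i', j', k'⟩ := m
    simp only [tp, Pi.single_apply, Prod.mk.injEq, Pi.smul_apply, smul_eq_mul]
    by_cases h1 : i' = i <;> by_cases h2 : j' = j <;> by_cases h3 : k' = k <;> simp [h1, h2, h3]
  rw [this]
  exact W.smul_mem _ (h _ _ _)

theorem top_of_ann {N : Type} [Fintype N] (W : Submodule ℂ (N → ℂ))
    (h : ∀ Φ : N → ℂ, (∀ w ∈ W, ∑ n, Φ n * w n = 0) → Φ = 0) : W = ⊤ := by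
  classical
  by_contra hW
  obtain ⟨φ, h0, hφ⟩ := Submodule.exists_le_ker_of_lt_top W (lt_top_iff_ne_top.2 hW)
  have e : ∀ w, φ w = ∑ n, φ (Pi.single n 1) * w n := fun w => by
    conv_lhs => rw [← Finset.univ_sum_single w, map_sum]
    refine Finset.sum_congr rfl fun n _ => ?_
    rw [mul_comm, ← smul_eq_mul, ← map_smul, ← Pi.single_smul, smul_eq_mul, mul_one]
  have := h (fun n => φ (Pi.single n 1)) fun w hw => (e w).symm.trans (hφ hw)
  refine h0 (LinearMap.ext fun w => ?_)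
  rw [e]
  exact Finset.sum_eq_zero fun n _ => by rw [congrFun this n, Pi.zero_apply, zero_mul]

theorem dense_of_S {r : ℕ} (H : S I J K (replicate r (Gad.T 0 0))) : Dense (RankSet I J K r) := by
  obtain ⟨a, b, c, e⟩ := fam_of_S (fun _ : Fin r => Gad.T 0 0)
    (by rw [map_univ_const, Fintype.card_fin]) H
  refine dense_of_TS_univ (fun l => a (l, 0)) (fun l => b (l, 0)) (fun l => c (l, 0))
    (eq_top_iff.2 (e ▸ Cfg.sp_le ?_ ?_ ?_ ?_))
  · rintro ⟨i, m⟩ ⟨j, n⟩ ⟨(rfl : j = i), hq⟩ u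
    obtain ⟨rfl, rfl⟩ := Prod.mk.inj hq
    exact TS_mem1 (Set.mem_univ _) u
  · rintro ⟨i, m⟩ ⟨j, n⟩ ⟨(rfl : j = i), hq⟩ u
    obtain ⟨rfl, rfl⟩ := Prod.mk.inj hq
    exact TS_mem2 (Set.mem_univ _) u
  · rintro ⟨i, m⟩ ⟨j, n⟩ ⟨(rfl : j = i), hq, (rfl : n = 0)⟩ u
    obtain rfl : m = 0 := Nat.le_zero.1 hq
    exact TS_mem3 (Set.mem_univ _) u
  · rintro ⟨i, m⟩ ⟨_, n⟩ ⟨_, l⟩ ⟨-, -, h1, h2, -⟩
    exact absurd (h1.trans_le h2) (lt_irrefl _)

end Pool.Agent.Work.MP_f4b644_ag.Big
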