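import Pool.Agent.Work.MP_f4b644_ag.Cert

/-!
Configurations of fibres and points in a threefold tensor product, gadgets, and the statement
`S I J K M` (the multiset of gadgets `M` spans for a suitable choice of parameters).
See PROOF.md in this folder for the whole proof.
-/

set_option autoImplicit false

namespace Pool.Agent.Work.MP_f4b644_ag.Big

/-- A configuration. Vectors `a i`, `b i`, `c i` are indexed by `P`.
`(ib, ic) ∈ fA` is the fibre `A ⊗ b ib ⊗ c ic`, `(ia, ic) ∈ fB` the fibre `a ia ⊗ B ⊗ c ic`,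
`(ia, ib) ∈ fC` the fibre `a ia ⊗ b ib ⊗ C`, `(ia, ib, ic) ∈ pt` one decomposable tensor. -/
structure Cfg (P : Type) where
  fA : Set (P × P)
  fB : Set (P × P)
  fC : Set (P × P)
  pt : Set (P × P × P)

/-- the tensors of a configuration -/
def Cfg.atoms {P α β γ : Type} (X : Cfg P) (a : P → α → ℂ) (b : P → β → ℂ) (c : P → γ → ℂ) :
    Set (α × β × γ → ℂ) :=
  {w | (∃ q ∈ X.fA, ∃ u, w = tp u (b q.1) (c q.2)) ∨ (∃ q ∈ X.fB, ∃ u, w = tp (a q.1) u (c q.2)) ∨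
    (∃ q ∈ X.fC, ∃ u, w = tp (a q.1) (b q.2) u) ∨
    (∃ q ∈ X.pt, w = tp (a q.1) (b q.2.1) (c q.2.2))}

/-- the span of a configuration -/
def Cfg.sp {P α β γ : Type} (X : Cfg P) (a : P → α → ℂ) (b : P → β → ℂ) (c : P → γ → ℂ) :
    Submodule ℂ (α × β × γ → ℂ) := Submodule.span ℂ (X.atoms a b c)

/-- the configuration spans for some parameters -/
def Gen (α β γ : Type) {P : Type} (X : Cfg P) : Prop :=
  ∃ (a : P → α → ℂ) (b : P → β → ℂ) (c : P → γ → ℂ), X.sp a b c = ⊤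

/-- `Y` specialises to a configuration containing `X` -/
def Red {P Q : Type} (X : Cfg P) (Y : Cfg Q) : Prop :=
  ∃ μa μb μc : Q → P,
    (∀ q ∈ X.fA, ∃ q' ∈ Y.fA, μb q'.1 = q.1 ∧ μc q'.2 = q.2) ∧
    (∀ q ∈ X.fB, ∃ q' ∈ Y.fB, μa q'.1 = q.1 ∧ μc q'.2 = q.2) ∧
    (∀ q ∈ X.fC, ∃ q' ∈ Y.fC, μa q'.1 = q.1 ∧ μb q'.2 = q.2) ∧
    (∀ q ∈ X.pt, ∃ q' ∈ Y.pt, μa q'.1 = q.1 ∧ μb q'.2.1 = q.2.1 ∧ μc q'.2.2 = q.2.2)

/-- the three tensor directions -/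
inductive Dir : Type
  | A | B | C

/-- the part of a configuration living in one summand when one factor is split and the vectors
with index in `U` are put into that summand -/
def Cfg.res {P : Type} (X : Cfg P) : Dir → Set P → Cfg P
  | Dir.A, U => ⟨X.fA, {q | q ∈ X.fB ∧ q.1 ∈ U}, {q | q ∈ X.fC ∧ q.1 ∈ U}, {q | q ∈ X.pt ∧ q.1 ∈ U}⟩
  | Dir.B, U => ⟨{q | q ∈ X.fA ∧ q.1 ∈ U}, X.fB, {q | q ∈ X.fC ∧ q.2 ∈ U},
      {q | q ∈ X.pt ∧ q.2.1 ∈ U}⟩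
  | Dir.C, U => ⟨{q | q ∈ X.fA ∧ q.2 ∈ U}, {q | q ∈ X.fB ∧ q.2 ∈ U}, X.fC,
      {q | q ∈ X.pt ∧ q.2.2 ∈ U}⟩

open Classical in
/-- the limit configuration when `b i1 = b i0 + t * (new vector called b i1)` and `t → 0` -/
noncomputable def Cfg.hinge {P : Type} (X : Cfg P) (i0 i1 : P) : Cfg P where
  fA := {q | ∃ q' ∈ X.fA, q = (if q'.1 = i1 then i0 else q'.1, q'.2)}
  fB := X.fB
  fC := {q | ∃ q' ∈ X.fC, q = (q'.1, if q'.2 = i1 then i0 else q'.2)}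
  pt := {q | (∃ q' ∈ X.pt, q = (q'.1, if q'.2.1 = i1 then i0 else q'.2.1, q'.2.2)) ∨
    (q.2.1 = i1 ∧ (((q.1, i1) ∈ X.fC ∧ (i0, q.2.2) ∈ X.fA) ∨
      ((q.1, i0) ∈ X.fC ∧ (i1, q.2.2) ∈ X.fA)))}

/-- Gadgets.
`T y z`: tangent space with `y + z` further C-fibres sharing its `b` (mates), the last `z` of which
carry a token (a point with the `a` of the mate, a free `b`, the `c` of the tangent).
`BP e`: B-fibre with `e` tokens. `CP z`: `z` C-fibres sharing `b`. `AF y`: A-fibre with `y` mates.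
`PT`: a free point. `PP w`: two tangents sharing `b` with `w` common mates and all tokens.
`TT w`: the same without tokens. `PB s χ`: two B-fibres with `s` shared tokens (and the two cross
tokens if `χ`). -/
inductive Gad : Type
  | T (y z : ℕ)
  | BP (e : ℕ)
  | CP (z : ℕ)
  | AF (y : ℕ)
  | PT
  | PP (w : ℕ)
  | TT (w : ℕ)
  | PB (s : ℕ) (χ : Bool)
  deriving DecidableEq

/-- the configuration of a gadget -/
def Gad.cfg : Gad → Cfg ℕ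
  | .T y z => ⟨{q | q = (0, 0)}, {q | q = (0, 0)}, {q | q.1 ≤ y + z ∧ q.2 = 0},
      {q | y < q.1 ∧ q.1 ≤ y + z ∧ q.2.1 = q.1 ∧ q.2.2 = 0}⟩
  | .BP e => ⟨∅, {q | q = (0, 0)}, ∅, {q | 0 < q.1 ∧ q.1 ≤ e ∧ q.2.1 = q.1 ∧ q.2.2 = 0}⟩
  | .CP z => ⟨∅, ∅, {q | q.1 < z ∧ q.2 = 0}, ∅⟩
  | .AF y => ⟨{q | q = (0, 0)}, ∅, {q | q.1 < y ∧ q.2 = 0}, ∅⟩
  | .PT => ⟨∅, ∅, ∅, {q | q = (0, 0, 0)}⟩
  | .PP w => ⟨{q | q.1 = 0 ∧ q.2 ≤ 1}, {q | q.1 = q.2 ∧ q.2 ≤ 1}, {q | q.1 < w + 2 ∧ q.2 = 0},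
      {q | q = (1, 1, 0) ∨ q = (0, 1, 1) ∨ (2 ≤ q.1 ∧ q.1 < w + 2 ∧ q.2.1 = q.1 ∧ q.2.2 ≤ 1)}⟩
  | .TT w => ⟨{q | q.1 = 0 ∧ q.2 ≤ 1}, {q | q.1 = q.2 ∧ q.2 ≤ 1}, {q | q.1 < w + 2 ∧ q.2 = 0}, ∅⟩
  | .PB s χ => ⟨∅, {q | q.1 = q.2 ∧ q.2 ≤ 1}, ∅,
      {q | (χ = true ∧ (q = (1, 1, 0) ∨ q = (0, 1, 1))) ∨
        (2 ≤ q.1 ∧ q.1 < s + 2 ∧ q.2.1 = q.1 ∧ q.2.2 ≤ 1)}⟩

/-- the disjoint union of a family of gadgets -/
def fam {ι : Type} (g : ι → Gad) : Cfg (ι × ℕ) where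
  fA := {q | q.2.1 = q.1.1 ∧ (q.1.2, q.2.2) ∈ (g q.1.1).cfg.fA}
  fB := {q | q.2.1 = q.1.1 ∧ (q.1.2, q.2.2) ∈ (g q.1.1).cfg.fB}
  fC := {q | q.2.1 = q.1.1 ∧ (q.1.2, q.2.2) ∈ (g q.1.1).cfg.fC}
  pt := {q | q.2.1.1 = q.1.1 ∧ q.2.2.1 = q.1.1 ∧ (q.1.2, q.2.1.2, q.2.2.2) ∈ (g q.1.1).cfg.pt}

/-- the multiset of gadgets `M` spans `ℂ^I ⊗ ℂ^J ⊗ ℂ^K` for suitable parameters -/
def S (I J K : ℕ) (M : Multiset Gad) : Prop :=
  ∃ (n : ℕ) (g : Fin n → Gad), Finset.univ.val.map g = M ∧ Gen (Fin I) (Fin J) (Fin K) (fam g)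

/-- splitting rule for one gadget -/
def Rule (d : Dir) (g h1 h2 : Gad) : Prop :=
  ∃ U : Set ℕ, Red h1.cfg (g.cfg.res d U) ∧ Red h2.cfg (g.cfg.res d Uᶜ)

/-- splitting of a multiset of gadgets in direction `d` -/
def Spl (d : Dir) (M M1 M2 : Multiset Gad) : Prop :=
  ∃ R : Multiset (Gad × Gad × Gad), (∀ r ∈ R, Rule d r.1 r.2.1 r.2.2) ∧
    R.map (fun r => r.1) ≤ M ∧ M1 ≤ R.map (fun r => r.2.1) ∧ M2 ≤ R.map (fun r => r.2.2)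

/-- Admissible multiset `Gr` of group sizes of C-points in a piece of height `j` and excess `x`. -/
def GrOK (I j x : ℕ) (Gr : Multiset ℕ) : Prop :=
  1 ≤ j ∧ Gr.sum + x + j = I * j ∧ ∃ R, 1 ≤ R ∧ R + 3 + (x - 1) / j ≤ I ∧
    (∀ z ∈ Gr, 1 ≤ z ∧ z ≤ R + 1) ∧ Gr.count (R + 1) ≤ j ∧ Gr.sum ≤ Gr.card + R * j

/-- State of the strip recursion in a block with `K` columns and `B` B-points: height `J`,
excess `X`, `s` tangents (each with `y` mates), at least `TT` unspent tokens, `G` pairs. -/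
def St (I K B y J X s TT G : ℕ) : Prop :=
  (y + 1) * s + 2 * G + J + X ≤ I * J ∧
  ∀ (Z N : Multiset ℕ) (F : ℕ), Z.card = s → N.card + s = B → (∀ z ∈ Z, z ≤ y) →
    (∀ e ∈ N, e ≤ y) → TT ≤ Z.sum + N.sum → F + (y + 1) * s + 2 * G + J + X = I * J →
    S I J K (Z.map (fun z => Gad.T (y - z) z) + N.map Gad.BP + Multiset.replicate G (Gad.CP 2) +
      Multiset.replicate F (Gad.CP 1))

/-- a block: `B` of the `r` points are tangents, the others are C-fibres -/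
def Blk (I J r K B : ℕ) : Prop :=
  B ≤ r ∧ S I J K (Multiset.replicate B (Gad.T 0 0) + Multiset.replicate (r - B) (Gad.CP 1))

end Pool.Agent.Work.MP_f4b644_ag.Big
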