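import Pool.Agent.Work.MP_f4b644_ag.Big.Small

/-!
Groups of C-fibres sharing their second vector; single columns; multiset selection lemmas.

`sel`: D consists of all elements equal to R + 1 and further nonzero elements up to cardinality c
(`Multiset.exists_le_card_eq`-style: take a sub-multiset of `Gr.filter (fun z => 1 ≤ z ∧ z ≤ R)` of the
missing cardinality; lists: `List.take`), E the rest.
`spl_sel`: CP z = CP (1 + (z - 1)) splits by `ruleA_CP` on D, and CP z = CP (0 + z) on E.
`S_tg`: induction on R generalizing Gr. For R + 1: count (R+1) * (R+1) ≤ sum gives count ≤ j, and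
sum ≤ (number of nonzero elements) * (R + 1) gives at least j nonzero elements; `sel` with c = j,
`S.splitA` as 1 + R with `S_CP1`.
`S_cola`: h = 1 + (h - 1), `S.splitB`: AF y goes to the first row (`S_AF1`), the groups to the rest.
`S_col`: j = 1 + (j - 1), `S.splitB` with `ruleB_T y 0 0`; the rest is BP 0 and the groups;
I = 1 + (I - 1), `S.splitA`: `S_BP1` and `S_tg`.
`tok_take`: induction; every element is split as e = e1 + e2.
`avg_take`: remove a minimal element n times (induction on n): if m is minimal in P then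
m * card ≤ sum.
-/

set_option autoImplicit false

namespace Pool.Agent.Work.MP_f4b644_ag.Big

open Multiset Gad

theorem Groups_split {δ : Type} (P : Multiset δ) (n : ℕ) (h : n ≤ P.card) :
    ∃ P1 P2 : Multiset δ, P = P1 + P2 ∧ P1.card = n := by
  induction P using Quotient.inductionOn with
  | h l =>
    refine ⟨(l.take n : List δ), (l.drop n : List δ), ?_, ?_⟩
    · simp [Multiset.coe_add]
    · simpa using h

theorem Groups_count_mul (Gr : Multiset ℕ) (a : ℕ) : Gr.count a * a ≤ Gr.sum := by
  induction Gr using Multiset.induction_on with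
  | empty => simp
  | cons b s ih =>
    rw [Multiset.count_cons, Multiset.sum_cons]
    split_ifs with hab
    · subst hab
      nlinarith
    · simp only [add_zero]
      omega

theorem Groups_sum_le (Gr : Multiset ℕ) (m : ℕ) (h : ∀ z ∈ Gr, z ≤ m) :
    Gr.sum ≤ (Gr.filter (fun z => 1 ≤ z)).card * m := by
  induction Gr using Multiset.induction_on with
  | empty => simp
  | cons b s ih =>
    have hb : b ≤ m := h b (Multiset.mem_cons_self _ _)
    have ih' := ih (fun z hz => h z (Multiset.mem_cons_of_mem hz))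
    rw [Multiset.sum_cons]
    by_cases h1 : 1 ≤ b
    · rw [Multiset.filter_cons_of_pos _ h1, Multiset.card_cons]
      nlinarith
    · rw [Multiset.filter_cons_of_neg _ h1]
      have hb0 : b = 0 := by omega
      rw [hb0, zero_add]
      exact ih'

theorem sel (Gr : Multiset ℕ) (R c : ℕ) (h1 : ∀ z ∈ Gr, z ≤ R + 1) (h2 : Gr.count (R + 1) ≤ c)
    (h3 : c ≤ (Gr.filter (fun z => 1 ≤ z)).card) :
    ∃ D E : Multiset ℕ, Gr = D + E ∧ D.card = c ∧ (∀ z ∈ D, 1 ≤ z) ∧ ∀ z ∈ E, z ≤ R := by
  have e1 : Gr = Gr.filter (fun z => z = R + 1) + Gr.filter (fun z => ¬ z = R + 1) :=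
    (Multiset.filter_add_not _ _).symm
  set A := Gr.filter (fun z => z = R + 1) with hA
  set Rs := Gr.filter (fun z => ¬ z = R + 1) with hRs
  have hAm : ∀ z ∈ A, z = R + 1 := fun z hz => (Multiset.mem_filter.1 hz).2
  have hRm : ∀ z ∈ Rs, z ≤ R := by
    intro z hz
    have h4 := Multiset.mem_filter.1 hz
    have h5 := h1 z h4.1
    have h6 := h4.2
    omega
  have hAc : A.card = Gr.count (R + 1) := by
    rw [hA, Multiset.count_eq_card_filter_eq]
    congr 1
    exact Multiset.filter_congr (fun x _ => eq_comm)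
  have e2 : Rs = Rs.filter (fun z => 1 ≤ z) + Rs.filter (fun z => ¬ 1 ≤ z) :=
    (Multiset.filter_add_not _ _).symm
  have e3 : (Gr.filter (fun z => 1 ≤ z)).card = A.card + (Rs.filter (fun z => 1 ≤ z)).card := by
    conv_lhs => rw [e1]
    rw [Multiset.filter_add, Multiset.card_add]
    congr 2
    exact Multiset.filter_eq_self.2 (fun z hz => by rw [hAm z hz]; omega)
  obtain ⟨B1, B2, hB, hB1⟩ := Groups_split (Rs.filter (fun z => 1 ≤ z)) (c - A.card) (by omega)
  refine ⟨A + B1, B2 + Rs.filter (fun z => ¬ 1 ≤ z), ?_, ?_, ?_, ?_⟩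
  · conv_lhs => rw [e1, e2, hB]
    abel
  · rw [Multiset.card_add]
    omega
  · intro z hz
    rcases Multiset.mem_add.1 hz with hz | hz
    · rw [hAm z hz]
      omega
    · have h7 : z ∈ Rs.filter (fun z => 1 ≤ z) := by
        rw [hB]
        exact Multiset.mem_add.2 (Or.inl hz)
      exact (Multiset.mem_filter.1 h7).2
  · intro z hz
    rcases Multiset.mem_add.1 hz with hz | hz
    · have h7 : z ∈ Rs.filter (fun z => 1 ≤ z) := by
        rw [hB]
        exact Multiset.mem_add.2 (Or.inr hz)
      exact hRm z (Multiset.mem_filter.1 h7).1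
    · exact hRm z (Multiset.mem_filter.1 hz).1

theorem spl_sel (D E : Multiset ℕ) (h : ∀ z ∈ D, 1 ≤ z) :
    Spl Dir.A ((D + E).map CP) (replicate D.card (CP 1)) ((D.map (fun z => z - 1) + E).map CP) := by
  have s1 := Spl.map (d := Dir.A) D CP (fun _ => CP 1) (fun z => CP (z - 1)) (fun z hz => by
    have h2 := ruleA_CP 1 (z - 1)
    have h3 : 1 + (z - 1) = z := by
      have := h z hz
      omega
    rwa [h3] at h2)
  have s2 := Spl.mapR (d := Dir.A) E CP (fun _ => CP 0) CP (fun z _ => by
    have h2 := ruleA_CP 0 z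
    rwa [zero_add] at h2)
  refine (s1.add s2).of_eq ?_ ?_ ?_
  · rw [Multiset.map_add]
  · simp
  · rw [Multiset.map_add, Multiset.map_map]
    rfl

theorem sum_pred (D : Multiset ℕ) (h : ∀ z ∈ D, 1 ≤ z) :
    (D.map (fun z => z - 1)).sum + D.card = D.sum := by
  induction D using Multiset.induction_on with
  | empty => simp
  | cons b s ih =>
    have hb : 1 ≤ b := h b (Multiset.mem_cons_self _ _)
    have ih' := ih (fun z hz => h z (Multiset.mem_cons_of_mem hz))
    rw [Multiset.map_cons, Multiset.sum_cons, Multiset.sum_cons, Multiset.card_cons]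
    omega

theorem S_tg (R j k : ℕ) (Gr : Multiset ℕ) (h1 : ∀ z ∈ Gr, z ≤ R) (h2 : Gr.sum = R * j) :
    S R j k (Gr.map CP) := by
  induction R generalizing Gr with
  | zero => exact S_zeroA _ _ _
  | succ R ih =>
    have c1 : Gr.count (R + 1) ≤ j := by
      have h3 := Groups_count_mul Gr (R + 1)
      rw [h2, mul_comm (R + 1) j] at h3
      exact Nat.le_of_mul_le_mul_right h3 (Nat.succ_pos R)
    have c2 : j ≤ (Gr.filter (fun z => 1 ≤ z)).card := by
      have h3 := Groups_sum_le Gr (R + 1) h1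
      rw [h2, mul_comm (R + 1) j] at h3
      exact Nat.le_of_mul_le_mul_right h3 (Nat.succ_pos R)
    obtain ⟨D, E, hG, hD, hD1, hE⟩ := sel Gr R j h1 c1 c2
    have sp := spl_sel D E hD1
    rw [← hG, hD] at sp
    have h4 := sum_pred D hD1
    have h5 : D.sum + E.sum = (R + 1) * j := by rw [← Multiset.sum_add, ← hG, h2]
    have h6 := ih (D.map (fun z => z - 1) + E) (by
      intro z hz
      rcases Multiset.mem_add.1 hz with hz | hz
      · obtain ⟨w, hw, rfl⟩ := Multiset.mem_map.1 hz
        have h7 := h1 w (by rw [hG]; exact Multiset.mem_add.2 (Or.inl hw))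
        omega
      · exact hE z hz) (by
      rw [Multiset.sum_add]
      have h8 : (R + 1) * j = R * j + j := by ring
      omega)
    have h9 := S.splitA sp (S_CP1 j k) h6
    rwa [add_comm 1 R] at h9

theorem S_cola (R h y : ℕ) (hh : 1 ≤ h) (Gr : Multiset ℕ) (h1 : ∀ z ∈ Gr, z ≤ R)
    (h2 : Gr.sum = R * (h - 1)) : S R h 1 ({AF y} + Gr.map CP) := by
  have s1 := Spl.repL (ruleB_AF y) 1
  have s2 := Spl.mapR (d := Dir.B) Gr CP (fun _ => CP 0) CP (fun z _ => (ruleB_CP z).symm)
  have s3 : Spl Dir.B ({AF y} + Gr.map CP) {AF y} (Gr.map CP) :=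
    (s1.add s2).of_eq (by simp) (by simp) (by simp)
  have h9 := S.splitB s3 (S_AF1 R y) (S_tg R (h - 1) 1 Gr h1 h2)
  have e : 1 + (h - 1) = h := by omega
  rwa [e] at h9

theorem S_col (I j y : ℕ) (hI : 1 ≤ I) (hj : 1 ≤ j) (Gr : Multiset ℕ) (h1 : ∀ z ∈ Gr, z + 1 ≤ I)
    (h2 : Gr.sum = (I - 1) * (j - 1)) : S I j 1 ({T y 0} + Gr.map CP) := by
  have s1 := Spl.rep (ruleB_T y 0 0) 1
  have s2 := Spl.mapR (d := Dir.B) Gr CP (fun _ => CP 0) CP (fun z _ => (ruleB_CP z).symm)
  have s3 : Spl Dir.B ({T y 0} + Gr.map CP) {T y 0} ({BP 0} + Gr.map CP) :=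
    (s1.add s2).of_eq (by simp) (by simp) (by simp)
  have t1 := Spl.repL (ruleA_BP 0) 1
  have t2 := Spl.mapR (d := Dir.A) Gr CP (fun _ => CP 0) CP (fun z _ => by
    have h3 := ruleA_CP 0 z
    rwa [zero_add] at h3)
  have t3 : Spl Dir.A ({BP 0} + Gr.map CP) {BP 0} (Gr.map CP) :=
    (t1.add t2).of_eq (by simp) (by simp) (by simp)
  have h8 := S.splitA t3 (S_BP1 (j - 1) 0)
    (S_tg (I - 1) (j - 1) 1 Gr (fun z hz => by have := h1 z hz; omega) h2)
  have e1 : 1 + (I - 1) = I := by omega
  rw [e1] at h8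
  have h9 := S.splitB s3 (S_T1 I y 0) h8
  have e : 1 + (j - 1) = j := by omega
  rwa [e] at h9

/-- take `E` tokens out of a multiset of token numbers -/
theorem tok_take (P : Multiset ℕ) (E : ℕ) (h : E ≤ P.sum) :
    ∃ Q : Multiset (ℕ × ℕ), Q.map (fun q => q.1 + q.2) = P ∧ (Q.map (fun q => q.1)).sum = E := by
  induction P using Multiset.induction_on generalizing E with
  | empty =>
    refine ⟨0, by simp, ?_⟩
    simp at h
    simp [h]
  | cons a s ih =>
    rw [Multiset.sum_cons] at h
    by_cases hE : E ≤ s.sum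
    · obtain ⟨Q, hQ1, hQ2⟩ := ih E hE
      refine ⟨(0, a) ::ₘ Q, ?_, ?_⟩
      · rw [Multiset.map_cons, hQ1]
        simp
      · rw [Multiset.map_cons, Multiset.sum_cons, hQ2]
        simp
    · obtain ⟨Q, hQ1, hQ2⟩ := ih s.sum le_rfl
      refine ⟨(E - s.sum, a - (E - s.sum)) ::ₘ Q, ?_, ?_⟩
      · rw [Multiset.map_cons, hQ1]
        congr 1
        show E - s.sum + (a - (E - s.sum)) = a
        omega
      · rw [Multiset.map_cons, Multiset.sum_cons, hQ2]
        show E - s.sum + s.sum = E
        omega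

/-- remove the `n` smallest elements -/
theorem avg_take (P : Multiset ℕ) (n : ℕ) (h : n ≤ P.card) :
    ∃ P1 P2 : Multiset ℕ, P = P1 + P2 ∧ P1.card = n ∧ P.sum * P2.card ≤ P2.sum * P.card := by
  induction n with
  | zero => exact ⟨0, P, by simp, by simp, le_rfl⟩
  | succ n ih =>
    obtain ⟨P1, P2, hP, h1, h2⟩ := ih (by omega)
    have hc : P.card = n + P2.card := by rw [hP, Multiset.card_add, h1]
    have hne : P2 ≠ 0 := by
      intro h0
      rw [h0] at hc
      simp at hc
      omega
    obtain ⟨m, hm, hmin⟩ := Multiset.exists_min_image (fun z : ℕ => z) hne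
    obtain ⟨P3, rfl⟩ := Multiset.exists_cons_of_mem hm
    have h3 : P3.card * m ≤ P3.sum := by
      have h4 := Multiset.card_nsmul_le_sum (s := P3) (a := m)
        (fun x hx => hmin x (Multiset.mem_cons_of_mem hx))
      simpa using h4
    refine ⟨m ::ₘ P1, P3, ?_, ?_, ?_⟩
    · rw [hP]
      simp
    · rw [Multiset.card_cons, h1]
    · rw [Multiset.card_cons, Multiset.sum_cons] at h2
      generalize P.sum = T at *
      generalize P.card = N at *
      generalize P3.card = c at *
      generalize P3.sum = s at *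
      have h5 : T * c * (c + 1) ≤ s * N * (c + 1) := by
        calc T * c * (c + 1) = T * (c + 1) * c := by ring
          _ ≤ (m + s) * N * c := Nat.mul_le_mul_right _ h2
          _ = (c * m + s * c) * N := by ring
          _ ≤ (s + s * c) * N := Nat.mul_le_mul_right _ (by omega)
          _ = s * N * (c + 1) := by ring
      exact Nat.le_of_mul_le_mul_right h5 (Nat.succ_pos c)

theorem exists_split_card {δ : Type} (P : Multiset δ) (n : ℕ) (h : n ≤ P.card) :
    ∃ P1 P2 : Multiset δ, P = P1 + P2 ∧ P1.card = n := by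
  exact Groups_split P n h

theorem grOK_std (I j x s z g f R : ℕ) (hj : 1 ≤ j) (hsum : s * z + 2 * g + f + x + j = I * j)
    (hR : 2 ≤ R) (hRI : R + 3 + (x - 1) / j ≤ I) (hz : 1 ≤ z)
    (hzR : z ≤ R ∨ (z = R + 1 ∧ s ≤ j)) (hU : s * (z - 1) + g ≤ R * j) :
    GrOK I j x (replicate s z + replicate g 2 + replicate f 1) := by
  have hs : (replicate s z + replicate g 2 + replicate f 1 : Multiset ℕ).sum = s * z + 2 * g + f := by
    simp [mul_comm]
  have hc : (replicate s z + replicate g 2 + replicate f 1 : Multiset ℕ).card = s + g + f := by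
    simp
  refine ⟨hj, by rw [hs]; exact hsum, R, by omega, hRI, ?_, ?_, ?_⟩
  · intro w hw
    simp only [Multiset.mem_add, Multiset.mem_replicate] at hw
    rcases hw with (⟨-, rfl⟩ | ⟨-, rfl⟩) | ⟨-, rfl⟩ <;> omega
  · rw [Multiset.count_add, Multiset.count_add, Multiset.count_replicate, Multiset.count_replicate,
      Multiset.count_replicate]
    split_ifs <;> omega
  · rw [hs, hc]
    obtain ⟨w, rfl⟩ : ∃ w, z = w + 1 := ⟨z - 1, by omega⟩
    simp only [Nat.add_sub_cancel] at hU
    have e : s * (w + 1) = s * w + s := by ring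
    omega

end Pool.Agent.Work.MP_f4b644_ag.Big
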