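import Pool.Agent.Work.MP_f4b644_ag.Big.Strip

/-!
The block theorem of type A: n strips whose tangents (y mates each) fill their own columns, and a
final strip without tangents. Notation: B = K + t, x + y + 2 = I, total excess X = n x + x0,
Tk = (n - 1) K - t, kk j = (j t + x - 1) / x (ceiling of j t / x).

`optA_par` (pure arithmetic): let j be maximal with n * kk j ≤ Tk (`Nat.findGreatest` or `Nat.find` of the
negation; kk 0 = 0, kk is unbounded since t ≥ 1). k1 = kk j, k2 = kk (j + 1), n k1 ≤ Tk < n k2,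
n2 = (Tk - n k1) / (k2 - k1) ≤ n - 1, n1 = n - 1 - n2, k3 = Tk - n1 k1 - n2 k2 ∈ [k1, k2).
E1 = k1 x - j t < x, E2 = k2 x - (j + 1) t < x, E3 = k3 x - j t < t (k3 ≤ k2 - 1 gives k3 x < (j + 1) t).
x (k2 - k1) < t + x, so n x k2 ≤ n x k1 + n (t + x) ≤ x Tk + x B = x n K, k2 ≤ K. Also
n (K - k1) ≤ 2 B (n x k1 ≥ n x k2 - n (t + x) > x Tk - x B). From Tk < n k2 and k2 x < (j + 1) t + x:
x (Tk - n) < n (j + 1) t, and hA gives 8 (y + 1) B + 2 n I < I n j, so j ≥ 2 and 4 (y + 1) (K - k1) ≤ I j.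
H = n1 j + n2 (j + 1) + j satisfies H t + Eall = Tk x with Eall = n1 E1 + n2 E2 + E3 ≤ (n - 1) x + t ≤ 2 t.
From hc: J t + x B + y B ≥ X K = n x K + x0 K, and n K = Tk + B, so (J - H) t ≥ x0 K - y B + Eall ≥ 2 B, whence
H + 2 ≤ J, and x0 K + Eall ≤ (J - H) t + y B.
`optA`: `St_final` (height J - H ≥ 2, excess x0, TT0 = y B - Eall ≥ y K, R = 2 is enough since G = 0), then
`St_step` with u = 1, b = 0, ν = K - k, np = B - ν, R = I / 2 - 3 for the strip (j, k3, E3), then n1 times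
for (j, k1, E1) and n2 times for (j + 1, k2, E2) (lemma `St_rep`; htok holds because y ν ≤ y K ≤ TT).
The numbers of tangents add up to n K - Tk = B, the tokens to y B.
-/

set_option autoImplicit false

namespace Pool.Agent.Work.MP_f4b644_ag.Big

open Multiset Gad

theorem OptA_find (t n x Tk : ℕ) (hx : 1 ≤ x) (hn : 2 ≤ n) (ht : 1 ≤ t) :
    ∃ j k1 k2 : ℕ, j * t ≤ k1 * x ∧ k1 * x + 1 ≤ j * t + x ∧ (j + 1) * t ≤ k2 * x ∧
      k2 * x + 1 ≤ (j + 1) * t + x ∧ n * k1 ≤ Tk ∧ Tk < n * k2 := by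
  have hk : ∀ j : ℕ, j * t ≤ ((j * t + x - 1) / x) * x ∧
      ((j * t + x - 1) / x) * x + 1 ≤ j * t + x := by
    intro j
    have h1 := Nat.div_add_mod' (j * t + x - 1) x
    have h2 := Nat.mod_lt (j * t + x - 1) (show 0 < x by omega)
    omega
  have hex : ∃ j : ℕ, Tk < n * (((j + 1) * t + x - 1) / x) := by
    refine ⟨x * (Tk + 1), ?_⟩
    have h1 := (hk (x * (Tk + 1) + 1)).1
    set q := ((x * (Tk + 1) + 1) * t + x - 1) / x
    have h2 : x * (Tk + 1) ≤ x * q := by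
      have : (x * (Tk + 1) + 1) * 1 ≤ (x * (Tk + 1) + 1) * t := Nat.mul_le_mul_left _ ht
      rw [mul_comm x q]; omega
    have h3 : Tk + 1 ≤ q := Nat.le_of_mul_le_mul_left h2 (by omega)
    nlinarith
  classical
  refine ⟨Nat.find hex, _, _, (hk _).1, (hk _).2, (hk _).1, (hk _).2, ?_, Nat.find_spec hex⟩
  rcases h : Nat.find hex with _ | j
  · have : (0 * t + x - 1) / x = 0 := Nat.div_eq_of_lt (by omega)
    rw [this]; simp
  · have := Nat.find_min hex (show j < Nat.find hex by omega)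
    omega

theorem OptA_le (K t n x Tk k1 d : ℕ) (hx : 1 ≤ x) (hn : 2 ≤ n) (hTk : Tk + t + K = n * K)
    (hnB : n * (t + x) ≤ x * (K + t)) (hd : d * x ≤ t + x) (h1 : n * k1 ≤ Tk)
    (h2 : Tk < n * (k1 + d)) : k1 + d ≤ K ∧ n * (K - k1) ≤ 2 * (K + t) := by
  have h3 : x * (n * d) ≤ x * (K + t) := by
    calc x * (n * d) = n * (d * x) := by ring
      _ ≤ n * (t + x) := Nat.mul_le_mul_left _ hd
      _ ≤ _ := hnB
  have h4 : n * d ≤ K + t := Nat.le_of_mul_le_mul_left h3 (by omega)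
  have h5 : n * (k1 + d) ≤ n * K := by rw [mul_add]; omega
  have h6 : k1 + d ≤ K := Nat.le_of_mul_le_mul_left h5 (by omega)
  refine ⟨h6, ?_⟩
  rw [Nat.mul_sub, mul_add] at *
  omega

theorem OptA_j (I B t n x y Tk j k2 : ℕ) (ht : 1 ≤ t) (h2 : Tk < n * k2)
    (hk : k2 * x + 1 ≤ (j + 1) * t + x)
    (hA : 8 * (y + 1) * B * t + 3 * n * t * I + I * x * n ≤ I * x * Tk) :
    8 * (y + 1) * B + 2 * (n * I) ≤ n * I * j := by
  have h3 : x * Tk ≤ n * ((j + 1) * t + x) := by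
    calc x * Tk ≤ x * (n * k2) := Nat.mul_le_mul_left _ h2.le
      _ = n * (k2 * x) := by ring
      _ ≤ _ := Nat.mul_le_mul_left _ (by omega)
  have h4 : I * x * Tk ≤ I * (n * ((j + 1) * t + x)) := by
    rw [mul_assoc]; exact Nat.mul_le_mul_left _ h3
  have h5 : t * (8 * (y + 1) * B + 2 * (n * I)) ≤ t * (n * I * j) := by
    have e1 : I * (n * ((j + 1) * t + x)) = t * (n * I * j) + t * (n * I) + I * x * n := by ring
    have e2 : 8 * (y + 1) * B * t + 3 * n * t * I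
        = t * (8 * (y + 1) * B + 2 * (n * I)) + t * (n * I) := by ring
    omega
  exact Nat.le_of_mul_le_mul_left h5 (by omega)

theorem optA_par (I J K t n x y x0 Tk : ℕ) (hI : 1000 ≤ I) (hx : x + y + 2 = I) (hy : 2 ≤ y)
    (hyI : 10 * y ≤ I) (hn : 2 ≤ n) (ht : 1 ≤ t) (hTk : Tk + t + K = n * K)
    (hc : (n * x + x0) * K ≤ J * t + (x + y) * (K + t)) (hnx : (n - 1) * x ≤ t)
    (h0 : (y + 2) * (K + t) ≤ x0 * K) (hnB : n * (t + x) ≤ x * (K + t))
    (hA : 8 * (y + 1) * (K + t) * t + 3 * n * t * I + I * x * n ≤ I * x * Tk) :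
    ∃ j n1 n2 k1 k2 k3 E1 E2 E3 J0 : ℕ, n1 + n2 + 1 = n ∧ 2 ≤ j ∧ k1 ≤ k3 ∧ k3 ≤ k2 ∧ k2 ≤ K ∧
      n1 * k1 + n2 * k2 + k3 = Tk ∧ k1 * x = j * t + E1 ∧ k2 * x = (j + 1) * t + E2 ∧
      k3 * x = j * t + E3 ∧ n1 * E1 + n2 * E2 + E3 ≤ 2 * t ∧ 4 * (y + 1) * (K - k1) ≤ I * j ∧
      n1 * j + n2 * (j + 1) + j + J0 = J ∧ 2 ≤ J0 ∧
      x0 * K + (n1 * E1 + n2 * E2 + E3) ≤ J0 * t + y * (K + t) := by
  have hx1 : 1 ≤ x := by omega
  obtain ⟨j, k1, k2, a1, a2, b1, b2, c1, c2⟩ := OptA_find t n x Tk hx1 hn ht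
  have hlt : k1 < k2 := by
    by_contra h
    have : n * k2 ≤ n * k1 := Nat.mul_le_mul_left _ (by omega)
    omega
  obtain ⟨d, rfl⟩ := Nat.exists_eq_add_of_le hlt.le
  have hd1 : 1 ≤ d := by omega
  have hd : d * x ≤ t + x := by
    rw [add_mul, add_mul] at b2
    omega
  obtain ⟨hK, hnK⟩ := OptA_le K t n x Tk k1 d hx1 hn hTk hnB hd c1 c2
  have hj := OptA_j I (K + t) t n x y Tk j (k1 + d) ht c2 b2 hA
  have hnI : 0 < n * I := Nat.mul_pos (by omega) (by omega)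
  have hj2 : 2 ≤ j := by
    by_contra h
    have : n * I * j ≤ n * I * 1 := Nat.mul_le_mul_left _ (by omega)
    omega
  have hF : 4 * (y + 1) * (K - k1) ≤ I * j := by
    have h1 : n * (4 * (y + 1) * (K - k1)) ≤ n * (I * j) := by
      calc n * (4 * (y + 1) * (K - k1)) = 4 * (y + 1) * (n * (K - k1)) := by ring
        _ ≤ 4 * (y + 1) * (2 * (K + t)) := Nat.mul_le_mul_left _ hnK
        _ = 8 * (y + 1) * (K + t) := by ring
        _ ≤ n * I * j := by omega
        _ = _ := by ring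
    exact Nat.le_of_mul_le_mul_left h1 (by omega)
  obtain ⟨w, hw⟩ := Nat.exists_eq_add_of_le c1
  have hwd : w < n * d := by rw [mul_add] at c2; omega
  have hq := Nat.div_add_mod' w d
  have hr := Nat.mod_lt w (show 0 < d by omega)
  set n2 := w / d
  set r := w % d
  have hn2 : n2 < n := by
    by_contra h
    have : n * d ≤ n2 * d := Nat.mul_le_mul_right _ (by omega)
    omega
  obtain ⟨n1, hn1⟩ : ∃ n1, n1 + n2 + 1 = n := ⟨n - 1 - n2, by omega⟩
  obtain ⟨E1, hE1⟩ := Nat.exists_eq_add_of_le a1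
  obtain ⟨E2, hE2⟩ := Nat.exists_eq_add_of_le b1
  have a3 : j * t ≤ (k1 + r) * x := a1.trans (Nat.mul_le_mul_right _ (by omega))
  obtain ⟨E3, hE3⟩ := Nat.exists_eq_add_of_le a3
  have hE3t : E3 ≤ t := by
    have : (k1 + r + 1) * x ≤ (k1 + d) * x := Nat.mul_le_mul_right _ (by omega)
    rw [add_mul (k1 + r), one_mul] at this
    rw [add_mul j, one_mul] at b2
    omega
  have hEall : n1 * E1 + n2 * E2 + E3 ≤ 2 * t := by
    have h1 : n1 * E1 ≤ n1 * x := Nat.mul_le_mul_left _ (by omega)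
    have h2 : n2 * E2 ≤ n2 * x := Nat.mul_le_mul_left _ (by omega)
    have h3 : n - 1 = n1 + n2 := by omega
    rw [h3, add_mul] at hnx
    omega
  have hsum : n1 * k1 + n2 * (k1 + d) + (k1 + r) = Tk := by
    rw [hw, ← hq, ← hn1]; ring
  have hH : (n1 * j + n2 * (j + 1) + j) * t + (n1 * E1 + n2 * E2 + E3) = Tk * x := by
    calc _ = n1 * (j * t + E1) + n2 * ((j + 1) * t + E2) + (j * t + E3) := by ring
      _ = n1 * (k1 * x) + n2 * ((k1 + d) * x) + (k1 + r) * x := by rw [← hE1, ← hE2, ← hE3]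
      _ = (n1 * k1 + n2 * (k1 + d) + (k1 + r)) * x := by ring
      _ = _ := by rw [hsum]
  set H := n1 * j + n2 * (j + 1) + j
  set Eall := n1 * E1 + n2 * E2 + E3
  have hc' : H * t + Eall + x0 * K ≤ J * t + y * (K + t) := by
    have e1 : (n * x + x0) * K = x * (n * K) + x0 * K := by ring
    have e2 : x * (Tk + t + K) = Tk * x + x * (K + t) := by ring
    rw [e1, ← hTk, e2, add_mul x y] at hc
    omega
  have hHJ : H + 2 ≤ J := by
    have h1 : (H + 2) * t ≤ J * t := by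
      rw [add_mul y 2] at h0
      rw [add_mul H 2]
      omega
    exact Nat.le_of_mul_le_mul_right h1 (by omega)
  obtain ⟨J0, hJ0⟩ := Nat.exists_eq_add_of_le (show H ≤ J by omega)
  refine ⟨j, n1, n2, k1, k1 + d, k1 + r, E1, E2, E3, J0, hn1, hj2, by omega, by omega, hK, hsum,
    hE1, hE2, hE3, hEall, hF, hJ0.symm, by omega, ?_⟩
  rw [hJ0, add_mul H] at hc'
  omega

/-- repeating a strip whose tangents fill their columns -/
theorem St_rep {I K t y J X s TT : ℕ} (H : St I K (K + t) y J X s TT 0) (a j x k E : ℕ)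
    (hI : 1000 ≤ I) (hx : x + y + 2 = I) (hyI : 10 * y ≤ I) (ht : 1 ≤ t) (hj : 2 ≤ j) (hk : k ≤ K)
    (hE : k * x = j * t + E) (hF : 4 * (y + 1) * (K - k) ≤ I * j) (hT : y * K ≤ TT)
    (hs : a * (K - k) + s ≤ K + t) :
    St I K (K + t) y (a * j + J) (a * x + X) (a * (K - k) + s) (a * E + TT) 0 := by
  induction a with
  | zero => simpa using H
  | succ a ih =>
    have hs' : a * (K - k) + s + 1 * (K - k) ≤ K + t := by rw [add_mul] at hs; omega
    have H1 := ih (by omega)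
    have hdiv : (x - 1) / j ≤ (x - 1) / 2 := Nat.div_le_div_left hj (by omega)
    have hy1 : y * (1 * (K - k)) ≤ y * K := Nat.mul_le_mul_left _ (by omega)
    have hI2 : I * 2 ≤ I * j := Nat.mul_le_mul_left _ hj
    have hI4 : 4 * j ≤ I * j := Nat.mul_le_mul_right _ (by omega)
    have hRj : I * j ≤ 4 * ((I / 2 - 3) * j) := by
      rw [← mul_assoc]; exact Nat.mul_le_mul_right _ (by omega)
    have e1 : 4 * (y + 1) * (K - k) = 4 * (1 * (K - k) * y) + 4 * (K - k) := by ring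
    have e2 : 4 * (y + 1) * (K - k) = 4 * ((y + 1) * (1 * (K - k))) := by ring
    have H2 := St_step H1 j x 1 (K - k) 0 k (k + t) E (I / 2 - 3) (by omega) (by omega) (by omega)
      hs' (by rw [mul_add, mul_add, hE, mul_comm k j]; omega) (by omega)
      (by rw [mul_zero, add_zero]; exact Nat.mul_le_mul_right _ (by omega))
      (by omega) (by omega) (by omega) (by omega) (by omega) (by omega) (Or.inl ⟨rfl, rfl, hx⟩)
    convert H2 using 1 <;> ring

theorem optA (I J K t n x y x0 Tk : ℕ) (hI : 1000 ≤ I) (hx : x + y + 2 = I) (hy : 2 ≤ y)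
    (hyI : 10 * y ≤ I) (hn : 2 ≤ n) (ht : 1 ≤ t) (hTk : Tk + t + K = n * K)
    (hc : (n * x + x0) * K ≤ J * t + (x + y) * (K + t)) (hnx : (n - 1) * x ≤ t)
    (h0 : (y + 2) * (K + t) ≤ x0 * K) (h0' : x0 + 12 ≤ 2 * I) (hnB : n * (t + x) ≤ x * (K + t))
    (hA : 8 * (y + 1) * (K + t) * t + 3 * n * t * I + I * x * n ≤ I * x * Tk) :
    St I K (K + t) y J (n * x + x0) (K + t) (y * (K + t)) 0 := by
  obtain ⟨j, n1, n2, k1, k2, k3, E1, E2, E3, J0, h1, h2, h3, h4, h5, h6, h7, h8, h9, h10, h11, h12,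
    h13, h14⟩ := optA_par I J K t n x y x0 Tk hI hx hy hyI hn ht hTk hc hnx h0 hnB hA
  have hyt : 2 * t ≤ y * t := Nat.mul_le_mul_right _ hy
  obtain ⟨TT, hTT⟩ : ∃ TT, TT + (n1 * E1 + n2 * E2 + E3) = y * (K + t) :=
    ⟨y * (K + t) - (n1 * E1 + n2 * E2 + E3), by rw [mul_add]; omega⟩
  have hT : y * K ≤ TT := by rw [mul_add] at hTT; omega
  have hy0 : y ≤ x0 := by
    by_contra h
    have h' : x0 * K ≤ y * K := Nat.mul_le_mul_right _ (by omega)
    have e : (y + 2) * (K + t) = y * K + y * t + 2 * K + 2 * t := by ring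
    omega
  have hdiv : (x0 - 1) / J0 ≤ (x0 - 1) / 2 := Nat.div_le_div_left h13 (by omega)
  have hIJ : J0 + x0 ≤ I * J0 := by
    obtain ⟨I', rfl⟩ : ∃ I', I = I' + 1 := ⟨I - 1, by omega⟩
    have : I' * 2 ≤ I' * J0 := Nat.mul_le_mul_left _ h13
    rw [add_mul]; omega
  have H0 : St I K (K + t) y J0 x0 0 TT 0 :=
    St_final 2 (by omega) hy0 (by rw [mul_add, mul_add, mul_comm K J0, mul_comm K x0]; omega)
      le_rfl (by omega) (by omega) (by omega)
  have hs : n2 * (K - k2) + (n1 * (K - k1) + (1 * (K - k3) + 0)) = K + t := by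
    have a1 : n1 * k1 ≤ n1 * K := Nat.mul_le_mul_left _ (by omega)
    have a2 : n2 * k2 ≤ n2 * K := Nat.mul_le_mul_left _ h5
    have e : n * K = n1 * K + n2 * K + K := by rw [← h1]; ring
    rw [Nat.mul_sub, Nat.mul_sub]
    omega
  have hF3 : 4 * (y + 1) * (K - k3) ≤ I * j :=
    (Nat.mul_le_mul_left _ (by omega)).trans h11
  have hF2 : 4 * (y + 1) * (K - k2) ≤ I * (j + 1) :=
    ((Nat.mul_le_mul_left _ (by omega)).trans h11).trans (Nat.mul_le_mul_left _ (by omega))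
  have H1 := St_rep H0 1 j x k3 E3 hI hx hyI ht h2 (by omega) h9 hF3 hT (by omega)
  have H2 := St_rep H1 n1 j x k1 E1 hI hx hyI ht h2 (by omega) h7 h11 (by omega) (by omega)
  have H3 := St_rep H2 n2 (j + 1) x k2 E2 hI hx hyI ht (by omega) h5 h8 hF2 (by omega) hs.le
  rw [hs] at H3
  convert H3 using 1
  · omega
  · rw [← h1]; ring
  · omega

end Pool.Agent.Work.MP_f4b644_ag.Big
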