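import Pool.Agent.Work.MP_f4b644_ag.Big.Basic

/-!
A single row with coupled pairs (cover argument).

`Gen_row`: a ia = Pi.single (lab ia) 1, b = 1, c ic = vdm k (node ic). For every label u either a C-fibre
gives all tp (single u) 1 f, or `vdm_span` applied to the comap of the span under the linear map
f ↦ tp (single u) 1 f (use the subtype of T, or the image of T under node, to get injectivity).
Then `top_of_single`. Use `Gen.equiv` to pass from an arbitrary label type to Fin I.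

`S_pbrow`: ε = π (ω + 1), labels Λ = (Fin π × Fin (ω + 1)) ⊕ Fin (I - ε) (cardinality I). Put
mult u = if u ≤ 1 then 1 else 2 for u : Fin (ω + 1). Family index
Fin π ⊕ ((e : Fin π × Fin (ω + 1)) × Fin (t - mult e.2)) ⊕ Fin N0 ⊕ Fin (I - ε); the second summand has
N1 elements (∑ over e of t - mult = t ε - 2 π ω; t ≥ mult by the hypothesis on t, ω).
Labels: pair j: index 0 ↦ (j, 0), index 1 ↦ (j, 1), the indices 2 .. ε - ω enumerate the ε - ω - 1
labels (j', u) with j' ≠ j. Point of the second kind attached to e: the indices 0 .. ε - 2 enumerate the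
labels ≠ e. Point of the third kind: the indices 0 .. ε - 1 enumerate all labels of the first summand.
C-fibre n: label inr n. (Enumerations: `Finset.equivFin`, or a surjection from ℕ obtained from
`Finite.equivFinOfCardEq`.) The c-indices in use are ((pair j), 0), ((pair j), 1), ((other point), 0);
there are 2 π + N1 + N0 = k + t of them, give them distinct nodes. The label (j, u) is missed by
mult u of the two c-indices of pair j (index 0 sees only (j, 0), index 1 only (j, 1) among the labels of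
its own block) and by the t - mult u points attached to it, so it is seen by exactly k c-indices.
-/

set_option autoImplicit false

namespace Pool.Agent.Work.MP_f4b644_ag.Big

open Multiset Gad

/-- the last slot of a decomposable tensor as a linear map -/
def PBRow_L {α β γ : Type} (a : α → ℂ) (b : β → ℂ) : (γ → ℂ) →ₗ[ℂ] (α × β × γ → ℂ) where
  toFun f := tp a b f
  map_add' f g := by
    funext n
    simp only [tp, Pi.add_apply]
    ring
  map_smul' r f := by
    funext n
    simp only [tp, Pi.smul_apply, smul_eq_mul, RingHom.id_apply]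
    ring

theorem Gen_row {P Λ : Type} [Fintype Λ] (X : Cfg P) (k : ℕ) (lab : P → Λ) (node : P → ℂ)
    (h : ∀ u : Λ, (∃ q ∈ X.fC, lab q.1 = u) ∨ ∃ T : Finset P, k ≤ T.card ∧ Set.InjOn node T ∧
      ∀ ic ∈ T, ∃ ia, lab ia = u ∧ ((ia, ic) ∈ X.fB ∨ ∃ ib, (ia, ib, ic) ∈ X.pt)) :
    Gen Λ (Fin 1) (Fin k) X := by
  classical
  refine ⟨fun ia => Pi.single (lab ia) 1, fun _ _ => 1, fun ic => vdm k (node ic), ?_⟩
  apply top_of_single
  intro u j l
  have e : (Pi.single j 1 : Fin 1 → ℂ) = fun _ => 1 := by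
    funext x
    rw [Subsingleton.elim x j, Pi.single_eq_same]
  rw [e]
  rcases h u with ⟨q, hq, rfl⟩ | ⟨T, hT, hn, hs⟩
  · exact Cfg.memC (X := X) (a := fun ia => Pi.single (lab ia) 1) (b := fun _ _ => 1)
      (c := fun ic => vdm k (node ic)) (ia := q.1) (ib := q.2) hq _
  · have key := vdm_span (J := k) (fun q : T => node q)
      (fun p q hpq => Subtype.ext (hn p.2 q.2 hpq)) Finset.univ (by simpa using hT)
      ((X.sp (fun ia => Pi.single (lab ia) 1) (fun _ _ => 1) (fun ic => vdm k (node ic))).comap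
        (PBRow_L (Pi.single u 1 : Λ → ℂ) (fun _ : Fin 1 => (1 : ℂ)))) (by
        intro q _
        obtain ⟨ia, rfl, h1 | ⟨ib, h1⟩⟩ := hs q q.2
        · exact Cfg.memB (X := X) (a := fun ia => Pi.single (lab ia) 1) (b := fun _ _ => 1)
            (c := fun ic => vdm k (node ic)) h1 (fun _ => 1)
        · exact Cfg.memP (X := X) (a := fun ia => Pi.single (lab ia) 1) (b := fun _ _ => 1)
            (c := fun ic => vdm k (node ic)) h1)
    have h2 : (Pi.single l 1 : Fin k → ℂ) ∈ (⊤ : Submodule ℂ (Fin k → ℂ)) := Submodule.mem_top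
    rw [← key] at h2
    exact h2

theorem PBRow_enum {A : Type} (d : A) (s : Finset A) :
    ∃ f : ℕ → A, ∀ x ∈ s, ∃ n < s.card, f n = x := by
  refine ⟨fun n => if h : n < s.card then (s.equivFin.symm ⟨n, h⟩ : A) else d, fun x hx => ?_⟩
  refine ⟨s.equivFin ⟨x, hx⟩, (s.equivFin ⟨x, hx⟩).2, ?_⟩
  simp

/-- how many of the two indices of a pair miss a label of its block -/
def PBRow_mult (u : ℕ) : ℕ := if u ≤ 1 then 1 else 2

theorem PBRow_sum {ω : ℕ} (hω : 1 ≤ ω) : ∑ u : Fin (ω + 1), PBRow_mult u = 2 * ω := by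
  obtain ⟨w, rfl⟩ : ∃ w, ω = w + 1 := ⟨ω - 1, by omega⟩
  rw [Fin.sum_univ_succ, Fin.sum_univ_succ]
  have : ∀ i : Fin w, PBRow_mult (i.succ.succ : Fin (w + 1 + 1)) = 2 := by
    intro i
    simp [PBRow_mult]
  simp only [this]
  simp [PBRow_mult]
  ring

theorem PBRow_le {ω t : ℕ} (ht : 1 ≤ t) (ht2 : 2 ≤ t ∨ ω = 1) (u : Fin (ω + 1)) :
    PBRow_mult u ≤ t := by
  unfold PBRow_mult
  have := u.2
  split_ifs <;> omega

theorem PBRow_card {π ω t N1 : ℕ} (hω : 1 ≤ ω) (ht : 1 ≤ t) (ht2 : 2 ≤ t ∨ ω = 1)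
    (hN1 : N1 + 2 * π * ω = t * (π * (ω + 1))) :
    Fintype.card ((e : Fin π × Fin (ω + 1)) × Fin (t - PBRow_mult e.2)) = N1 := by
  rw [Fintype.card_sigma]
  simp only [Fintype.card_fin]
  have h1 : ∑ e : Fin π × Fin (ω + 1), (t - PBRow_mult e.2) +
      ∑ e : Fin π × Fin (ω + 1), PBRow_mult e.2 = t * (π * (ω + 1)) := by
    rw [← Finset.sum_add_distrib,
      Finset.sum_congr rfl fun e _ => Nat.sub_add_cancel (PBRow_le ht ht2 e.2)]
    simp [mul_comm]
  have h2 : ∑ e : Fin π × Fin (ω + 1), PBRow_mult e.2 = 2 * π * ω := by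
    rw [Fintype.sum_prod_type]
    simp only [PBRow_sum hω]
    simp
    ring
  omega

/-- the indices which miss the label `e` -/
def PBRow_miss {π ω t N0 : ℕ} (e : Fin π × Fin (ω + 1)) :
    ((Fin π × Fin 2) ⊕ ((e : Fin π × Fin (ω + 1)) × Fin (t - PBRow_mult e.2))) ⊕ Fin N0 → Prop
  | .inl (.inl p) => p.1 = e.1 ∧ (p.2 : ℕ) ≠ e.2
  | .inl (.inr p) => p.1 = e
  | .inr _ => False

open Classical in
theorem PBRow_miss_card {π ω t N0 : ℕ} (ht : 1 ≤ t) (ht2 : 2 ≤ t ∨ ω = 1)
    (e : Fin π × Fin (ω + 1)) :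
    (Finset.univ.filter (PBRow_miss (t := t) (N0 := N0) e)).card = t := by
  rw [Finset.card_filter, Fintype.sum_sum_type, Fintype.sum_sum_type, Fintype.sum_prod_type,
    Fintype.sum_sigma]
  have h1 : ∑ j : Fin π, ∑ i : Fin 2, (if PBRow_miss (t := t) (N0 := N0) e (.inl (.inl (j, i)))
      then 1 else 0) = PBRow_mult e.2 := by
    rw [Finset.sum_eq_single e.1]
    · rw [Fin.sum_univ_two]
      simp only [PBRow_miss, PBRow_mult, true_and, Fin.val_zero, Fin.val_one]
      split_ifs <;> omega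
    · intro j _ hj
      simp [PBRow_miss, hj]
    · simp
  have h2 : ∑ x : Fin π × Fin (ω + 1), ∑ y : Fin (t - PBRow_mult x.2),
      (if PBRow_miss (t := t) (N0 := N0) e (.inl (.inr ⟨x, y⟩)) then 1 else 0) =
      t - PBRow_mult e.2 := by
    rw [Finset.sum_eq_single e]
    · simp [PBRow_miss]
    · intro j _ hj
      simp [PBRow_miss, hj]
    · simp
  rw [h1, h2]
  have := PBRow_le ht ht2 e.2
  simp [PBRow_miss]
  omega

theorem S_pbrow (I k π ω t ε N1 N0 : ℕ) (hε : ε = π * (ω + 1)) (hI : ε ≤ I) (hπ : 1 ≤ π)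
    (hω : 1 ≤ ω) (ht : 1 ≤ t) (ht2 : 2 ≤ t ∨ ω = 1) (hN1 : N1 + 2 * π * ω = t * ε)
    (hk : k + t = 2 * π + N1 + N0) :
    S I 1 k (replicate π (PB (ε - ω - 1) false) + replicate N1 (BP (ε - 2)) +
      replicate N0 (BP (ε - 1)) + replicate (I - ε) (CP 1)) := by
  classical
  subst hε
  have c1 := PBRow_card hω ht ht2 hN1
  let B := (e : Fin π × Fin (ω + 1)) × Fin (t - PBRow_mult e.2)
  let g : ((Fin π ⊕ B) ⊕ Fin N0) ⊕ Fin (I - π * (ω + 1)) → Gad :=
    Sum.elim (Sum.elim (Sum.elim (fun _ => PB (π * (ω + 1) - ω - 1) false)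
      (fun _ => BP (π * (ω + 1) - 2))) (fun _ => BP (π * (ω + 1) - 1))) (fun _ => CP 1)
  refine S_of_fam g (le_of_eq ?_) ?_
  · simp only [g, map_univ_sum, map_univ_const, Fintype.card_fin, B, c1]
  refine Gen.equiv (α := (Fin π × Fin (ω + 1)) ⊕ Fin (I - π * (ω + 1)))
    (Fintype.equivFinOfCardEq (by simp; omega)) (Equiv.refl _) (Equiv.refl _) ?_
  let d : Fin π × Fin (ω + 1) := (⟨0, hπ⟩, 0)
  choose f1 hf1 using fun j : Fin π => PBRow_enum d (Finset.univ.filter fun e => e.1 ≠ j)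
  choose f2 hf2 using fun x : Fin π × Fin (ω + 1) => PBRow_enum d (Finset.univ.erase x)
  obtain ⟨f3, hf3⟩ := PBRow_enum d Finset.univ
  obtain ⟨nd, hnd⟩ :=
    exists_injective_nat ((((Fin π ⊕ B) ⊕ Fin N0) ⊕ Fin (I - π * (ω + 1))) × ℕ)
  let lab : (((Fin π ⊕ B) ⊕ Fin N0) ⊕ Fin (I - π * (ω + 1))) × ℕ →
      (Fin π × Fin (ω + 1)) ⊕ Fin (I - π * (ω + 1)) := fun p =>
    Sum.elim (Sum.elim (Sum.elim
      (fun j => Sum.inl (if h : p.2 ≤ 1 then (j, ⟨p.2, by omega⟩) else f1 j (p.2 - 2)))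
      (fun x => Sum.inl (f2 x.1 p.2))) (fun _ => Sum.inl (f3 p.2))) (fun n => Sum.inr n) p.1
  refine Gen_row _ k lab (fun p => (nd p : ℂ)) ?_
  rintro (e | n)
  swap
  · exact Or.inl ⟨((.inr n, 0), (.inr n, 0)), ⟨rfl, by simp [g, Gad.cfg]⟩, rfl⟩
  right
  let φ : ((Fin π × Fin 2) ⊕ B) ⊕ Fin N0 →
      (((Fin π ⊕ B) ⊕ Fin N0) ⊕ Fin (I - π * (ω + 1))) × ℕ :=
    Sum.elim (Sum.elim (fun p => (.inl (.inl (.inl p.1)), p.2)) (fun x => (.inl (.inl (.inr x)), 0)))
      (fun n => (.inl (.inr n), 0))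
  have hφ : Function.Injective φ := by
    rintro ((⟨a, b⟩ | a) | a) ((⟨a', b'⟩ | a') | a') h <;>
      simp only [φ, Sum.elim_inl, Sum.elim_inr, Prod.mk.injEq, Sum.inl.injEq, Sum.inr.injEq,
        reduceCtorEq, false_and, and_true] at h
    · rw [h.1, Fin.ext h.2]
    · rw [h]
    · rw [h]
  refine ⟨(Finset.univ.filter fun x => ¬ PBRow_miss e x).image φ, ?_,
    fun p _ q _ h => hnd (Nat.cast_injective (R := ℂ) h), ?_⟩
  · rw [Finset.card_image_of_injective _ hφ]
    have h1 := Finset.card_filter_add_card_filter_not (s := Finset.univ)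
      (PBRow_miss (t := t) (N0 := N0) e)
    rw [PBRow_miss_card ht ht2, Finset.card_univ, Fintype.card_sum, Fintype.card_sum, c1] at h1
    simp only [Fintype.card_prod, Fintype.card_fin] at h1
    omega
  · intro ic hic
    obtain ⟨x, hx, rfl⟩ := Finset.mem_image.1 hic
    have hx := (Finset.mem_filter.1 hx).2
    have hb : ∀ (i : ((Fin π ⊕ B) ⊕ Fin N0) ⊕ Fin (I - π * (ω + 1))) (m n : ℕ), g i = BP m →
        n ≤ m → ((i, n), (i, 0)) ∈ (fam g).fB ∨ ∃ ib, ((i, n), ib, (i, 0)) ∈ (fam g).pt := by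
      intro i m n hi hn
      rcases Nat.eq_zero_or_pos n with rfl | h0
      · exact Or.inl ⟨rfl, by simp [hi, Gad.cfg]⟩
      · exact Or.inr ⟨(i, n), rfl, rfl, by simp [hi, Gad.cfg, h0, hn]⟩
    rcases x with (⟨j, i⟩ | x) | x
    · have hi := i.2
      by_cases hj : j = e.1
      · have h1 : (i : ℕ) = e.2 := by simpa [PBRow_miss, hj] using hx
        refine ⟨(.inl (.inl (.inl j)), i), ?_, Or.inl ⟨rfl, ?_⟩⟩
        · simp only [lab, Sum.elim_inl]
          rw [dif_pos (by omega)]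
          exact congrArg _ (Prod.ext hj (Fin.ext h1))
        · simp only [g, φ, Gad.cfg, Sum.elim_inl, Set.mem_ofPred_eq, true_and]
          omega
      · obtain ⟨n, hn, h1⟩ := hf1 j e (by simpa using fun h => hj h.symm)
        have h2 : (Finset.univ.filter fun e : Fin π × Fin (ω + 1) => e.1 ≠ j).card + (ω + 1) =
            π * (ω + 1) := by
          have h3 := Finset.card_filter_add_card_filter_not (s := Finset.univ)
            (fun e : Fin π × Fin (ω + 1) => e.1 ≠ j)
          have h4 : (Finset.univ.filter fun e : Fin π × Fin (ω + 1) => ¬ e.1 ≠ j) =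
              {j} ×ˢ Finset.univ := by
            ext y
            simp only [Finset.mem_filter, Finset.mem_univ, true_and, Finset.mem_product,
              Finset.mem_singleton, and_true, ne_eq, not_not]
          rw [h4] at h3
          simpa using h3
        refine ⟨(.inl (.inl (.inl j)), n + 2), ?_,
          Or.inr ⟨(.inl (.inl (.inl j)), n + 2), rfl, rfl, ?_⟩⟩
        · simp only [lab, Sum.elim_inl]
          rw [dif_neg (by omega), Nat.add_sub_cancel, h1]
        · simp only [g, φ, Gad.cfg, Sum.elim_inl, Set.mem_ofPred_eq, true_and]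
          right
          omega
    · obtain ⟨n, hn, h1⟩ := hf2 x.1 e (by simpa [PBRow_miss, eq_comm] using hx)
      rw [Finset.card_erase_of_mem (Finset.mem_univ _)] at hn
      simp only [Finset.card_univ, Fintype.card_prod, Fintype.card_fin] at hn
      exact ⟨(.inl (.inl (.inr x)), n), congrArg _ h1, hb _ _ n rfl (by omega)⟩
    · obtain ⟨n, hn, h1⟩ := hf3 e (Finset.mem_univ _)
      simp only [Finset.card_univ, Fintype.card_prod, Fintype.card_fin] at hn
      exact ⟨(.inl (.inr x), n), congrArg _ h1, hb _ _ n rfl (by omega)⟩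

end Pool.Agent.Work.MP_f4b644_ag.Big
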