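import Pool.Agent.Work.MP_f4b644_ag.Big.Basic

/-!
Rado theorem (defect version) and its use for tokens.

`rado`: strengthen to all finsets T of tokens and all U (induction on T, generalizing U). Write
cod W = finrank V - finrank W and L s = U ⊔ ⨆ t ∈ s, span (F t). Hypothesis: cod (L s) ≤ #T - #s for all
s ⊆ T. Step T = insert t0 T'. Call s ⊆ T' tight if cod (L s) = #T - #s. By submodularity
(`Submodule.finrank_sup_add_finrank_inf_eq`, L (s ∩ s') ≤ L s ⊓ L s', L (s ∪ s') = L s ⊔ L s') the union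
of two tight sets is tight. If there is no tight set take any f ∈ F t0. Otherwise let s* be the union
of all tight sets (a tight set of maximal cardinality contains all tight sets); span (F t0) is not
contained in L s* (else insert t0 s* violates the hypothesis), so some f ∈ F t0 is not in L s*, hence
in no L s with s tight. Then U ⊔ span {f} and T' satisfy the hypothesis.

`S.rado`: take families e : Fin n → ℕ for N and g : Fin m → Gad for M. Parameter space
σ = ((Fin n ⊕ Fin m) × ℕ) × (Fin I ⊕ Fin j ⊕ Fin k). Base family g0 = Sum.elim (fun _ => BP 0) g.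
For s : Finset (Fin n) use the hypothesis with N1 = s.val.map e, N2 = sᶜ.val.map e and the family
Sum.elim (Sum.elim (fun p => if p ∈ s then BP (I * j) else BP 0) g) (fun _ : Fin N2.sum => PT).
Its parameters give a point x_s of σ and vectors w_1 .. w_(N2.sum) (the free points) such that the set
G_s = base atoms (functions of x) ∪ {x ↦ tp u v (c x (inl p, 0)) | p ∈ s, u v constant} ∪ {constants w_i}
spans at x_s. `generic_span` and `PF_exists_forall` (over `Finset.univ` of finsets) give one z for all s.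
Apply `rado` with U = span of the base atoms at z, tokens τ = (p : Fin n) × Fin (e p),
F ⟨p, _⟩ = {tp u v (c z (inl p, 0))}; for a set s' of tokens use s = image of the first component
(finrank of W ⊔ span of N vectors ≤ finrank W + N, and the tokens of the p ∉ s lie outside s').
Finally change the parameters a, b at the indices (inl p, i + 1), i < e p, to the chosen u, v
(base atoms only use the index (inl p, 0)).
-/

set_option autoImplicit false

namespace Pool.Agent.Work.MP_f4b644_ag.Big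

open Multiset Gad Module

section
variable {V τ : Type} [AddCommGroup V] [Module ℂ V]

/-- the span of `U` and of the sets with index in `s` -/
def Rado_L (F : τ → Set V) (U : Submodule ℂ V) (s : Finset τ) : Submodule ℂ V :=
  U ⊔ ⨆ t ∈ s, Submodule.span ℂ (F t)

theorem Rado_le {F : τ → Set V} {U W : Submodule ℂ V} {s : Finset τ} :
    Rado_L F U s ≤ W ↔ U ≤ W ∧ ∀ t ∈ s, F t ⊆ W := by
  simp only [Rado_L, sup_le_iff, iSup_le_iff, Submodule.span_le]

theorem Rado_U {F : τ → Set V} {U : Submodule ℂ V} {s : Finset τ} : U ≤ Rado_L F U s :=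
  le_sup_left

theorem Rado_t {F : τ → Set V} {U : Submodule ℂ V} {s : Finset τ} :
    ∀ t ∈ s, F t ⊆ Rado_L F U s := (Rado_le (W := Rado_L F U s).1 le_rfl).2

theorem Rado_mono (F : τ → Set V) {U U' : Submodule ℂ V} {s s' : Finset τ} (h : U ≤ U')
    (h' : s ⊆ s') : Rado_L F U s ≤ Rado_L F U' s' :=
  sup_le_sup h (biSup_mono fun _ ht => h' ht)

variable [FiniteDimensional ℂ V] [DecidableEq τ]

theorem Rado_sub (F : τ → Set V) (U : Submodule ℂ V) (s s' : Finset τ) :
    finrank ℂ (Rado_L F U (s ∪ s')) + finrank ℂ (Rado_L F U (s ∩ s')) ≤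
      finrank ℂ (Rado_L F U s) + finrank ℂ (Rado_L F U s') := by
  rw [← Submodule.finrank_sup_add_finrank_inf_eq (Rado_L F U s)]
  refine add_le_add (Submodule.finrank_mono (Rado_le.2 ⟨le_sup_of_le_left Rado_U,
    fun t ht x hx => ?_⟩)) (Submodule.finrank_mono (le_inf
      (Rado_mono F le_rfl Finset.inter_subset_left) (Rado_mono F le_rfl Finset.inter_subset_right)))
  exact (Finset.mem_union.1 ht).elim
    (fun ht => Submodule.mem_sup_left (Rado_t t ht hx))
    fun ht => Submodule.mem_sup_right (Rado_t t ht hx)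

theorem Rado_pick (F : τ → Set V) (U : Submodule ℂ V) {T : Finset τ} {t0 : τ} (h0 : t0 ∉ T)
    (hF : (F t0).Nonempty) (h : ∀ s ⊆ insert t0 T,
      finrank ℂ V + s.card ≤ finrank ℂ (Rado_L F U s) + (T.card + 1)) :
    ∃ f ∈ F t0, ∀ s ⊆ T, finrank ℂ V + s.card = finrank ℂ (Rado_L F U s) + (T.card + 1) →
      f ∉ Rado_L F U s := by
  by_cases e : (T.powerset.filter fun s =>
    finrank ℂ V + s.card = finrank ℂ (Rado_L F U s) + (T.card + 1)).Nonempty
  · obtain ⟨s0, h1, h2⟩ := Finset.exists_max_image _ Finset.card e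
    simp only [Finset.mem_filter, Finset.mem_powerset] at h1 h2
    have h3 : ¬ F t0 ⊆ Rado_L F U s0 := fun e => by
      have a1 := h (insert t0 s0) (Finset.insert_subset_insert _ h1.1)
      have a2 : finrank ℂ (Rado_L F U (insert t0 s0)) ≤ finrank ℂ (Rado_L F U s0) :=
        Submodule.finrank_mono (Rado_le.2 ⟨Rado_U,
          Finset.forall_mem_insert .. |>.2 ⟨e, Rado_t⟩⟩)
      rw [Finset.card_insert_of_notMem fun e => h0 (h1.1 e)] at a1
      omega
    obtain ⟨f, h4, h5⟩ := Set.not_subset.1 h3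
    refine ⟨f, h4, fun s hs e hf => h5 (Rado_mono F le_rfl ?_ hf)⟩
    have a1 := Rado_sub F U s s0
    have a2 := Finset.card_union_add_card_inter s s0
    have a3 := Finset.union_subset hs h1.1
    have a4 := h _ (a3.trans (Finset.subset_insert _ _))
    have a5 := h _ ((Finset.inter_subset_left (s₂ := s0)).trans
      (hs.trans (Finset.subset_insert _ _)))
    rw [Finset.eq_of_subset_of_card_le Finset.subset_union_right (h2 _ ⟨a3, by omega⟩)]
    exact Finset.subset_union_left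
  · obtain ⟨f, hf⟩ := hF
    exact ⟨f, hf, fun s hs e' => absurd
      ⟨s, Finset.mem_filter.2 ⟨Finset.mem_powerset.2 hs, e'⟩⟩ e⟩

theorem Rado_aux (F : τ → Set V) (hF : ∀ t, (F t).Nonempty) (T : Finset τ) :
    ∀ U : Submodule ℂ V, (∀ s ⊆ T, finrank ℂ V + s.card ≤ finrank ℂ (Rado_L F U s) + T.card) →
      ∃ f : τ → V, (∀ t, f t ∈ F t) ∧ ∀ W, U ≤ W → (∀ t ∈ T, f t ∈ W) → W = ⊤ := by
  induction T using Finset.induction_on with
  | empty =>
    intro U h
    refine ⟨fun t => (hF t).some, fun t => (hF t).some_mem, fun W h1 _ => ?_⟩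
    exact Submodule.eq_top_of_finrank_eq ((Submodule.finrank_le W).antisymm
      ((h ∅ subset_rfl).trans (Submodule.finrank_mono (Rado_le.2 ⟨h1, by simp⟩))))
  | insert t0 T h0 ih =>
    intro U h
    rw [Finset.card_insert_of_notMem h0] at h
    obtain ⟨f0, h1, h2⟩ := Rado_pick F U h0 (hF t0) h
    obtain ⟨f, h3, h4⟩ := ih (U ⊔ Submodule.span ℂ {f0}) fun s hs => by
      have a1 := h s (hs.trans (Finset.subset_insert _ _))
      have a2 : Rado_L F U s ≤ Rado_L F (U ⊔ Submodule.span ℂ {f0}) s :=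
        Rado_mono F le_sup_left subset_rfl
      have a3 := Submodule.finrank_mono a2
      rcases a1.eq_or_lt with e | e
      · have a4 := Submodule.finrank_lt_finrank_of_lt (a2.lt_of_ne fun e' => h2 s hs e (e' ▸
          Rado_U (Submodule.mem_sup_right (Submodule.mem_span_singleton_self f0))))
        omega
      · omega
    refine ⟨Function.update f t0 f0, fun t => ?_, fun W a1 a2 => h4 W (sup_le a1 ?_) fun t ht => ?_⟩
    · rcases eq_or_ne t t0 with rfl | e
      · rwa [Function.update_self]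
      · rw [Function.update_of_ne e]
        exact h3 t
    · simpa using a2 t0 (Finset.mem_insert_self _ _)
    · have a3 := a2 t (Finset.mem_insert_of_mem ht)
      rwa [Function.update_of_ne fun e : t = t0 => h0 (e ▸ ht)] at a3

end

theorem rado {V τ : Type} [AddCommGroup V] [Module ℂ V] [FiniteDimensional ℂ V] [Fintype τ]
    [DecidableEq τ] (U : Submodule ℂ V) (F : τ → Set V) (hF : ∀ t, (F t).Nonempty)
    (h : ∀ s : Finset τ, finrank ℂ V + s.card ≤
      finrank ℂ (U ⊔ ⨆ t ∈ s, Submodule.span ℂ (F t) : Submodule ℂ V) + Fintype.card τ) :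
    ∃ f : τ → V, (∀ t, f t ∈ F t) ∧ U ⊔ Submodule.span ℂ (Set.range f) = ⊤ := by
  obtain ⟨f, h1, h2⟩ := Rado_aux F hF Finset.univ U fun s _ => h s
  exact ⟨f, h1, h2 _ le_sup_left fun t _ =>
    Submodule.mem_sup_right (Submodule.subset_span ⟨t, rfl⟩)⟩

section
variable {P α β γ : Type}

/-- the first vectors of a parameter -/
def Rado_a (x : P × (α ⊕ β ⊕ γ) → ℂ) (p : P) (i : α) : ℂ := x (p, Sum.inl i)

/-- the second vectors of a parameter -/
def Rado_b (x : P × (α ⊕ β ⊕ γ) → ℂ) (p : P) (i : β) : ℂ := x (p, Sum.inr (Sum.inl i))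

/-- the third vectors of a parameter -/
def Rado_c (x : P × (α ⊕ β ⊕ γ) → ℂ) (p : P) (i : γ) : ℂ := x (p, Sum.inr (Sum.inr i))

/-- the possible tokens -/
def Rado_F {ι κ : Type} (x : ((ι ⊕ κ) × ℕ) × (α ⊕ β ⊕ γ) → ℂ) (p : ι) : Set (α × β × γ → ℂ) :=
  {w | ∃ u v, w = tp u v (Rado_c x (Sum.inl p, 0))}

/-- change of the token parameters -/
def Rado_upd {ι κ δ : Type} {e : ι → ℕ} (u : (Σ p, Fin (e p)) → δ) (a : (ι ⊕ κ) × ℕ → δ) :
    (ι ⊕ κ) × ℕ → δ
  | (Sum.inl p, i + 1) => if h : i < e p then u ⟨p, i, h⟩ else a (Sum.inl p, 0)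
  | (Sum.inl p, 0) => a (Sum.inl p, 0)
  | (Sum.inr p, i) => a (Sum.inr p, i)

theorem Rado_sp {ι : Type} {g : ι → Gad} {a : ι × ℕ → α → ℂ} {b : ι × ℕ → β → ℂ}
    {c : ι × ℕ → γ → ℂ} {W : Submodule ℂ (α × β × γ → ℂ)}
    (hA : ∀ l i i', (i, i') ∈ (g l).cfg.fA → ∀ u, tp u (b (l, i)) (c (l, i')) ∈ W)
    (hB : ∀ l i i', (i, i') ∈ (g l).cfg.fB → ∀ u, tp (a (l, i)) u (c (l, i')) ∈ W)
    (hC : ∀ l i i', (i, i') ∈ (g l).cfg.fC → ∀ u, tp (a (l, i)) (b (l, i')) u ∈ W)
    (hP : ∀ l i i' i'', (i, i', i'') ∈ (g l).cfg.pt →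
      tp (a (l, i)) (b (l, i')) (c (l, i'')) ∈ W) : (fam g).sp a b c ≤ W := by
  refine Cfg.sp_le ?_ ?_ ?_ ?_
  · rintro ⟨l, i⟩ ⟨l', i'⟩ ⟨e, hq⟩
    obtain rfl : l' = l := e
    exact hA _ _ _ hq
  · rintro ⟨l, i⟩ ⟨l', i'⟩ ⟨e, hq⟩
    obtain rfl : l' = l := e
    exact hB _ _ _ hq
  · rintro ⟨l, i⟩ ⟨l', i'⟩ ⟨e, hq⟩
    obtain rfl : l' = l := e
    exact hC _ _ _ hq
  · rintro ⟨l, i⟩ ⟨l', i'⟩ ⟨l'', i''⟩ ⟨e, e', hq⟩
    obtain rfl : l' = l := e
    obtain rfl : l'' = l' := e'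
    exact hP _ _ _ _ hq

theorem Rado_pv {σ : Type} {a : (σ → ℂ) → α → ℂ} {b : (σ → ℂ) → β → ℂ} {c : (σ → ℂ) → γ → ℂ}
    (ha : IsPV a) (hb : IsPV b) (hc : IsPV c) : IsPV fun x => tp (a x) (b x) (c x) :=
  fun n => PF_mul (PF_mul (ha n.1) (hb n.2.1)) (hc n.2.2)

theorem Rado_one [Fintype α] [Fintype β] [Fintype γ] {ι κ : Type} [DecidableEq ι] (g : κ → Gad)
    (s : Finset ι) {r E : ℕ} (h : Gen α β γ (fam (Sum.elim (Sum.elim
      (fun p => if p ∈ s then BP E else BP 0) g) fun _ : Fin r => PT))) :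
    ∃ Φ ∈ PF (((ι ⊕ κ) × ℕ) × (α ⊕ β ⊕ γ)), (∃ x, Φ x ≠ 0) ∧ ∀ x, Φ x ≠ 0 →
      finrank ℂ (α × β × γ → ℂ) ≤ finrank ℂ (Rado_L (Rado_F x) ((fam (Sum.elim
        (fun _ => BP 0) g)).sp (Rado_a x) (Rado_b x) (Rado_c x)) s) + r := by
  obtain ⟨a, b, c, h⟩ := h
  let w : Fin r → α × β × γ → ℂ := fun i =>
    tp (a (Sum.inr i, 0)) (b (Sum.inr i, 0)) (c (Sum.inr i, 0))
  let R := fun x : ((ι ⊕ κ) × ℕ) × (α ⊕ β ⊕ γ) → ℂ => Rado_L (Rado_F x) ((fam (Sum.elim
    (fun _ => BP 0) g)).sp (Rado_a x) (Rado_b x) (Rado_c x)) s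
  let x0 : ((ι ⊕ κ) × ℕ) × (α ⊕ β ⊕ γ) → ℂ := fun q => Sum.elim (a (Sum.inl q.1.1, q.1.2))
    (Sum.elim (b (Sum.inl q.1.1, q.1.2)) (c (Sum.inl q.1.1, q.1.2))) q.2
  have k0 : ∀ {N : Type} (u : N → ℂ), IsPV fun _ : ((ι ⊕ κ) × ℕ) × (α ⊕ β ⊕ γ) → ℂ => u :=
    fun u n => const_mem_PF _
  have ka : ∀ p, IsPV fun x : ((ι ⊕ κ) × ℕ) × (α ⊕ β ⊕ γ) → ℂ => Rado_a x p :=
    fun p n => coord_mem_PF _
  have kb : ∀ p, IsPV fun x : ((ι ⊕ κ) × ℕ) × (α ⊕ β ⊕ γ) → ℂ => Rado_b x p :=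
    fun p n => coord_mem_PF _
  have kc : ∀ p, IsPV fun x : ((ι ⊕ κ) × ℕ) × (α ⊕ β ⊕ γ) → ℂ => Rado_c x p :=
    fun p n => coord_mem_PF _
  have hR : ∀ x, ∀ y ∈ (fam (Sum.elim (fun _ : ι => BP 0) g)).sp (Rado_a x) (Rado_b x) (Rado_c x),
      y ∈ R x ⊔ Submodule.span ℂ (Set.range w) :=
    fun x y hy => Submodule.mem_sup_left (Rado_U hy)
  obtain ⟨Φ, h1, h2, h3⟩ := generic_span
    {y | IsPV y ∧ ∀ x, y x ∈ R x ⊔ Submodule.span ℂ (Set.range w)} (fun _ hy => hy.1) x0 (by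
      rw [eq_top_iff, ← h]
      refine Rado_sp ?_ ?_ ?_ ?_
      · rintro ((l | l) | l) i i' hq u
        · simp only [Sum.elim_inl] at hq
          split_ifs at hq <;> exact hq.elim
        · exact Submodule.subset_span ⟨_, ⟨Rado_pv (k0 u) (kb (Sum.inr l, i)) (kc (Sum.inr l, i')),
            fun x => hR x _ (Cfg.memA (by exact ⟨rfl, hq⟩) u)⟩, rfl⟩
        · exact hq.elim
      · rintro ((l | l) | l) i i' hq u
        · refine Submodule.subset_span ⟨_, ⟨Rado_pv (ka (Sum.inl l, i)) (k0 u) (kc (Sum.inl l, i')),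
            fun x => hR x _ (Cfg.memB ?_ u)⟩, rfl⟩
          refine ⟨rfl, ?_⟩
          simp only [Sum.elim_inl] at hq
          split_ifs at hq <;> exact hq
        · exact Submodule.subset_span ⟨_, ⟨Rado_pv (ka (Sum.inr l, i)) (k0 u) (kc (Sum.inr l, i')),
            fun x => hR x _ (Cfg.memB (by exact ⟨rfl, hq⟩) u)⟩, rfl⟩
        · exact hq.elim
      · rintro ((l | l) | l) i i' hq u
        · simp only [Sum.elim_inl] at hq
          split_ifs at hq <;> exact hq.elim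
        · exact Submodule.subset_span ⟨_, ⟨Rado_pv (ka (Sum.inr l, i)) (kb (Sum.inr l, i')) (k0 u),
            fun x => hR x _ (Cfg.memC (by exact ⟨rfl, hq⟩) u)⟩, rfl⟩
        · exact hq.elim
      · rintro ((l | l) | l) i i' i'' hq
        · simp only [Sum.elim_inl] at hq
          split_ifs at hq with e
          · obtain rfl : i'' = 0 := hq.2.2.2
            exact Submodule.subset_span ⟨_, ⟨Rado_pv (k0 _) (k0 _) (kc (Sum.inl l, 0)), fun x =>
              Submodule.mem_sup_left (Rado_t l e ⟨_, _, rfl⟩)⟩, rfl⟩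
          · exact absurd hq.1 (not_lt.2 hq.2.1)
        · exact Submodule.subset_span ⟨_, ⟨Rado_pv (ka (Sum.inr l, i)) (kb (Sum.inr l, i'))
            (kc (Sum.inr l, i'')), fun x => hR x _ (Cfg.memP (by exact ⟨rfl, rfl, hq⟩))⟩, rfl⟩
        · obtain ⟨rfl, rfl, rfl⟩ : i = 0 ∧ i' = 0 ∧ i'' = 0 := by simpa [Gad.cfg] using hq
          exact Submodule.subset_span ⟨_, ⟨k0 (w l), fun x =>
            Submodule.mem_sup_right (Submodule.subset_span ⟨l, rfl⟩)⟩, rfl⟩)
  refine ⟨Φ, h1, ⟨x0, h2⟩, fun x hx => ?_⟩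
  have h4 : R x ⊔ Submodule.span ℂ (Set.range w) = ⊤ := by
    rw [eq_top_iff, ← h3 x hx, Submodule.span_le]
    rintro _ ⟨y, hy, rfl⟩
    exact hy.2 x
  have h5 := Submodule.finrank_add_le_finrank_add_finrank (R x) (Submodule.span ℂ (Set.range w))
  have h6 : finrank ℂ (Submodule.span ℂ (Set.range w)) ≤ r :=
    (finrank_range_le_card w).trans_eq (Fintype.card_fin r)
  rw [h4, finrank_top] at h5
  exact h5.trans (add_le_add le_rfl h6)

end

theorem S.rado {I j k : ℕ} (N : Multiset ℕ) (M : Multiset Gad)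
    (h : ∀ N1 N2 : Multiset ℕ, N = N1 + N2 → S I j k (replicate N1.card (BP (I * j)) +
      replicate N2.card (BP 0) + replicate N2.sum PT + M)) : S I j k (N.map BP + M) := by
  classical
  obtain ⟨n, e, rfl⟩ := exists_fam ℕ N
  obtain ⟨m, g, rfl⟩ := exists_fam Gad M
  choose Φ h1 h2 h3 using fun s : Finset (Fin n) => Rado_one g s (r := ∑ p ∈ sᶜ, e p)
      (E := I * j) (by
    have hu : (Finset.univ : Finset (Fin n)).val = s.val + sᶜ.val :=
      congrArg Finset.val (show _ = s.disjUnion sᶜ disjoint_compl_right by simp)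
    refine fam_of_S _ (le_of_eq ?_) (h (s.val.map e) (sᶜ.val.map e) (by rw [hu, map_add]))
    rw [map_univ_sum, map_univ_sum, map_univ_const, hu, map_add,
      Multiset.map_congr rfl fun p (hp : p ∈ s.val) => if_pos (show p ∈ s from hp),
      Multiset.map_congr rfl fun p (hp : p ∈ sᶜ.val) => if_neg (Finset.mem_compl.1 hp), map_const',
      map_const', card_map, card_map, Fintype.card_fin, add_right_comm]
    rfl)
  obtain ⟨z, hz⟩ := PF_exists_forall Finset.univ Φ (fun s _ => h1 s) fun s _ => h2 s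
  obtain ⟨f, f1, f2⟩ := Big.rado (τ := Σ p : Fin n, Fin (e p))
    ((fam (Sum.elim (fun _ => BP 0) g)).sp (Rado_a z) (Rado_b z) (Rado_c z))
    (fun t => Rado_F z t.1) (fun t => ⟨_, 0, 0, rfl⟩) fun s => by
      have a1 := h3 (s.image Sigma.fst) z (hz _ (Finset.mem_univ _))
      have a2 := Finset.card_le_card (show s ⊆ (s.image Sigma.fst).sigma fun _ => Finset.univ from
        fun t ht => Finset.mem_sigma.2 ⟨Finset.mem_image_of_mem _ ht, Finset.mem_univ _⟩)
      have a3 := Finset.sum_add_sum_compl (s.image Sigma.fst) e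
      rw [Rado_L, Finset.iSup_finset_image] at a1
      simp only [Finset.card_sigma, Finset.card_univ, Fintype.card_fin, Fintype.card_sigma] at a2 ⊢
      omega
  choose u v huv using f1
  refine S_of_fam (Sum.elim (fun p => BP (e p)) g) (le_of_eq ?_)
    ⟨Rado_upd u (Rado_a z), Rado_upd v (Rado_b z), Rado_c z, ?_⟩
  · rw [map_univ_sum, Multiset.map_map]
    rfl
  rw [eq_top_iff, ← f2]
  refine sup_le (Rado_sp ?_ ?_ ?_ ?_) (Submodule.span_le.2 ?_)
  · rintro (l | l) i i' hq w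
    · exact hq.elim
    · exact Cfg.memA (ib := (Sum.inr l, i)) (by exact ⟨rfl, hq⟩) w
  · rintro (l | l) i i' hq w
    · obtain ⟨rfl, rfl⟩ := Prod.mk.inj hq
      exact Cfg.memB (X := fam (Sum.elim (fun p => BP (e p)) g)) (a := Rado_upd u (Rado_a z))
        (ia := (Sum.inl l, 0)) (ic := (Sum.inl l, 0)) ⟨rfl, rfl⟩ w
    · exact Cfg.memB (ia := (Sum.inr l, i)) (by exact ⟨rfl, hq⟩) w
  · rintro (l | l) i i' hq w
    · exact hq.elim
    · exact Cfg.memC (ia := (Sum.inr l, i)) (ib := (Sum.inr l, i')) (by exact ⟨rfl, hq⟩) w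
  · rintro (l | l) i i' i'' hq
    · exact absurd hq.1 (not_lt.2 hq.2.1)
    · exact Cfg.memP (ia := (Sum.inr l, i)) (ib := (Sum.inr l, i')) (by exact ⟨rfl, rfl, hq⟩)
  · rintro _ ⟨⟨p, i⟩, rfl⟩
    have a1 := Cfg.memP (X := fam (Sum.elim (fun p => BP (e p)) g)) (a := Rado_upd u (Rado_a z))
      (b := Rado_upd v (Rado_b z)) (c := Rado_c z) (ia := (Sum.inl p, i + 1))
      (ib := (Sum.inl p, i + 1)) (ic := (Sum.inl p, 0)) ⟨rfl, rfl, Nat.succ_pos _, i.2, rfl, rfl⟩
    simp only [Rado_upd, i.2, dif_pos] at a1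
    rw [huv]
    exact a1

end Pool.Agent.Work.MP_f4b644_ag.Big
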