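import Pool.Agent.Work.MP_f4b644_ag.Big.Groups
import Pool.Agent.Work.MP_f4b644_ag.Big.PureCore
import Pool.Agent.Work.MP_f4b644_ag.Big.Rado

/-!
The general pure lemma.

`S_pure1` (case k (x - 1) ≤ j t). Let q = (x - 1) / j, X = x - q j ≤ j, R' = I - 3 - q ≥ R. Then q k ≤ t
(j q k ≤ k (x - 1) ≤ j t). `sel` with R' and c = 2 j - X: all sizes ≤ R' + 1; count (R' + 1) ≤ j ≤ c (zero
if R' > R); the filter is all of Gr and card ≥ sum - R' j = 2 j - X. Split I = 3 + (q + R') by
`S.splitA` twice: first part (k + (t - q k)) BP 0, c CP 1, N PT (`S_pc`, k X ≤ j (t - q k) + N), second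
part q k BP 0 (`S_Blev`), third part the reduced groups (`S_tg`, sum = R' j by `sum_pred`; elements of
D.map pred are ≤ R').
`S_pure0`: k = 0 by `S_zeroC`. Otherwise x' = min x ((j t + k - 1) / k), y' = x - x'. Then k (x' - 1) ≤ j t,
GrOK I j x' (Gr + replicate y' 1) with the same R (R ≥ 1 so 1 ≠ R + 1; (x' - 1) / j ≤ (x - 1) / j), and
with n1 = k x' - j t (truncated) one has y' k + n1 ≤ N (if y' > 0 then j t ≤ k x'). `S_pure1` with n1
free points, `S.pt_of_cp y'`, `S.mono`.
`S_gpl`: k ≤ N.card (N.sum ≤ N.card * x, j ≥ 1). `S.rado`: for N = N1 + N2: if k ≤ N1.card use `S_fulls`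
and `S.mono`; otherwise k = N1.card + k', `S.splitC` with `S_fulls` and `S_pure0` for k' columns,
t = N.card - k, N2.card = k' + t, k' x ≤ j t + N2.sum because N1.sum ≤ N1.card * x.
-/

set_option autoImplicit false

namespace Pool.Agent.Work.MP_f4b644_ag.Big

open Multiset Gad

theorem S_pure1 {I j x : ℕ} {Gr : Multiset ℕ} (hG : GrOK I j x Gr) (k t N : ℕ)
    (h1 : k * (x - 1) ≤ j * t) (h2 : k * x ≤ j * t + N) :
    S I j k (replicate (k + t) (BP 0) + Gr.map CP + replicate N PT) := by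
  obtain ⟨hj, hs, R, -, hI, hz, hc, hU⟩ := hG
  have hq := Nat.div_add_mod (x - 1) j
  have hr := Nat.mod_lt (x - 1) hj
  generalize (x - 1) / j = q at hq hI
  obtain ⟨X, hX⟩ : ∃ X, x = j * q + X := ⟨x - j * q, by omega⟩
  obtain ⟨d, rfl⟩ : ∃ d, I = 3 + (q + (R + d)) := ⟨I - (R + 3 + q), by omega⟩
  have hXj : X ≤ j := by omega
  obtain ⟨t', rfl⟩ : ∃ t', t = q * k + t' := by
    refine Nat.exists_eq_add_of_le (Nat.le_of_mul_le_mul_left (le_trans ?_ h1) hj)
    rw [← mul_assoc, mul_comm]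
    exact Nat.mul_le_mul_left _ (by omega)
  have e1 : Gr.sum = (2 * j - X) + (R + d) * j := by
    have : (3 + (q + (R + d))) * j = 3 * j + j * q + (R + d) * j := by ring
    omega
  obtain ⟨D, E, rfl, hD, hD1, hE⟩ := sel Gr (R + d) (2 * j - X)
    (fun z h => by have := (hz z h).2; omega)
    (by
      rcases d with _ | d
      · exact hc.trans (by omega)
      · rw [count_eq_zero.2 fun h => by have := (hz _ h).2; omega]
        exact Nat.zero_le _)
    (by
      rw [filter_eq_self.2 fun z h => (hz z h).1]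
      have : (R + d) * j = R * j + d * j := by ring
      omega)
  have p1 := S_pc j k t' N X hXj (by rw [hX] at h2; nlinarith)
  have p3 := S_tg (R + d) j k (D.map (fun z => z - 1) + E) (fun z h => by
    rcases mem_add.1 h with h | h
    · obtain ⟨w, hw, rfl⟩ := mem_map.1 h
      have := (hz w (mem_add.2 (Or.inl hw))).2
      omega
    · exact hE z h) (by
    have := sum_pred D hD1
    rw [sum_add] at e1 ⊢
    omega)
  have p2 := S.splitA ((Spl.repL (ruleA_BP 0) (q * k)).add
    (Spl.mapR (D.map (fun z => z - 1) + E) CP (fun _ => CP 0) CP fun z _ => by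
      simpa using ruleA_CP 0 z)) (by rw [add_zero]; exact S_Blev q j k)
    (by rw [zero_add]; exact p3)
  refine S.splitA (((((Spl.repL (ruleA_BP 0) (k + t')).add
    (Spl.repR (ruleA_BP 0).symm (q * k))).add (spl_sel D E hD1)).add
    (Spl.repL ruleA_PT N)).of_eq ?_ ?_ ?_) p1 p2
  · rw [← replicate_add, add_comm (q * k), add_assoc k]
  · rw [hD, add_zero]
  · rw [zero_add, add_zero]

theorem S_pure0 {I j x : ℕ} {Gr : Multiset ℕ} (hG : GrOK I j x Gr) (k t N : ℕ)
    (h2 : k * x ≤ j * t + N) :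
    S I j k (replicate (k + t) (BP 0) + Gr.map CP + replicate N PT) := by
  induction x generalizing Gr N with
  | zero => exact S_pure1 hG k t N (by simp) h2
  | succ x ih =>
    rcases le_or_gt (k * x) (j * t) with h1 | h1
    · exact S_pure1 hG k t N h1 h2
    rw [mul_add, mul_one] at h2
    obtain ⟨N', rfl⟩ : ∃ N', N = k + N' := ⟨N - k, by omega⟩
    obtain ⟨hj, hs, R, hR, hI, hz, hc, hU⟩ := hG
    have hd : (x - 1) / j ≤ (x + 1 - 1) / j := Nat.div_le_div_right (by omega)
    have p := ih (Gr := 1 ::ₘ Gr) ⟨hj, by rw [sum_cons]; omega, R, hR, by omega,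
      fun z h => (mem_cons.1 h).elim (fun e => by omega) (hz z),
      by rwa [count_cons_of_ne (by omega)], by rw [sum_cons, card_cons]; omega⟩ N' (by omega)
    refine (S.pt_of_cp 1 (replicate (k + t) (BP 0) + Gr.map CP + replicate N' PT)
      (p.of_eq ?_)).of_eq ?_
    · rw [map_cons, ← singleton_add, replicate_one]; abel
    · rw [one_mul, replicate_add k N']; abel

theorem S_gpl {I j x : ℕ} {Gr : Multiset ℕ} (hG : GrOK I j x Gr) (k : ℕ) (N : Multiset ℕ)
    (h1 : ∀ e ∈ N, e ≤ x) (h2 : k * (j + x) ≤ j * N.card + N.sum) :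
    S I j k (N.map BP + Gr.map CP) := by
  have hk : k ≤ N.card := by
    have h3 := sum_le_card_nsmul N x h1
    have hj := hG.1
    rw [smul_eq_mul] at h3
    exact Nat.le_of_mul_le_mul_right (by nlinarith) (by omega : 0 < j + x)
  refine S.rado N _ ?_
  rintro N1 N2 rfl
  rcases le_total k N1.card with h | h
  · exact (S_fulls I j k).mono (((replicate_le_replicate _).2 h).trans
      (by rw [add_assoc, add_assoc]; exact Multiset.le_add_right _ _))
  obtain ⟨k', rfl⟩ := Nat.exists_eq_add_of_le h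
  rw [card_add] at hk h2
  obtain ⟨t, ht⟩ : ∃ t, N2.card = k' + t := Nat.exists_eq_add_of_le (by omega)
  have h3 := sum_le_card_nsmul N1 x fun e he => h1 e (mem_add.2 (Or.inl he))
  rw [smul_eq_mul] at h3
  rw [sum_add, ht] at h2
  refine S.splitC (((((Spl.repL (ruleC_BP (I * j)) N1.card).add
    (Spl.repR (ruleC_BP 0).symm N2.card)).add (Spl.repR ruleC_PT.symm N2.sum)).add
    (Spl.mapR Gr CP CP CP fun z _ => ruleC_CP z)).of_eq rfl ?_ ?_) (S_fulls I j _)
    (S_pure0 hG k' t N2.sum (by nlinarith))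
  · simp
  · rw [ht]; abel

end Pool.Agent.Work.MP_f4b644_ag.Big
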