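import Pool.Agent.Work.MP_f4b644_ag.Big.Basic

/-!
Splitting one tensor factor as a direct sum.

Proof of `Gen.splitC` (the other two are the same with the roles of the factors permuted).
Let c1, c2 be the third vectors given by the two hypotheses. Parameter space σ = P × (α ⊕ β), a point x
gives a x p i = x (p, inl i), b x p j = x (p, inr j). Let G1 be the set of the functions
x ↦ atom of (X.res C U) for (a x, b x, c1) (four kinds; each is `IsPV` by `PF_mul`, `coord_mem_PF`,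
`const_mem_PF`); `generic_span` gives a polynomial F1 with F1 x₁ ≠ 0, similarly F2; `PF_domain` gives
a common z. Put c p = Sum.elim (c1 p) 0 for p ∈ U and Sum.elim 0 (c2 p) otherwise. The linear map
extending a tensor on α × β × γ1 by zero sends every atom of (X.res C U) for (a z, b z, c1) to an
atom of X for (a z, b z, c); hence the span of X contains both summands.
See `cert` in Cert.lean for a similar use of `generic_span`.

`S.splitC`: take the multiset R of triples, `exists_fam` gives a family r : Fin n → triples; choose the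
sets U i; `fam_of_S` for the families of second and third components, `Red.fam_res`, `Gen.red`,
note that the complement of {p | p.2 ∈ U p.1} is {p | p.2 ∈ (U p.1)ᶜ}, `Gen.splitC`,
`Gen.equiv` with `finSumFinEquiv`, `S_of_fam`.
-/

set_option autoImplicit false

namespace Pool.Agent.Work.MP_f4b644_ag.Big

open Multiset

theorem Split_generic {P σ α β γ : Type} [Fintype α] [Fintype β] [Fintype γ] (X : Cfg P)
    (A : (σ → ℂ) → P → α → ℂ) (B : (σ → ℂ) → P → β → ℂ) (C : (σ → ℂ) → P → γ → ℂ)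
    (hA : ∀ p i, (fun x => A x p i) ∈ PF σ) (hB : ∀ p i, (fun x => B x p i) ∈ PF σ)
    (hC : ∀ p i, (fun x => C x p i) ∈ PF σ) (x₀ : σ → ℂ)
    (h : X.sp (A x₀) (B x₀) (C x₀) = ⊤) :
    ∃ F ∈ PF σ, F x₀ ≠ 0 ∧ ∀ x, F x ≠ 0 → X.sp (A x) (B x) (C x) = ⊤ := by
  let G : Set ((σ → ℂ) → α × β × γ → ℂ) :=
    {w | (∃ q ∈ X.fA, ∃ u, w = fun x => tp u (B x q.1) (C x q.2)) ∨
      (∃ q ∈ X.fB, ∃ u, w = fun x => tp (A x q.1) u (C x q.2)) ∨
      (∃ q ∈ X.fC, ∃ u, w = fun x => tp (A x q.1) (B x q.2) u) ∨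
      (∃ q ∈ X.pt, w = fun x => tp (A x q.1) (B x q.2.1) (C x q.2.2))}
  have hG : ∀ w ∈ G, IsPV w := by
    rintro w (⟨q, -, u, rfl⟩ | ⟨q, -, u, rfl⟩ | ⟨q, -, u, rfl⟩ | ⟨q, -, rfl⟩) n
    · exact PF_mul (PF_mul (const_mem_PF _) (hB _ _)) (hC _ _)
    · exact PF_mul (PF_mul (hA _ _) (const_mem_PF _)) (hC _ _)
    · exact PF_mul (PF_mul (hA _ _) (hB _ _)) (const_mem_PF _)
    · exact PF_mul (PF_mul (hA _ _) (hB _ _)) (hC _ _)
  have himg : ∀ x, (fun w => w x) '' G = X.atoms (A x) (B x) (C x) := by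
    intro x
    ext w
    constructor
    · rintro ⟨w, (⟨q, hq, u, rfl⟩ | ⟨q, hq, u, rfl⟩ | ⟨q, hq, u, rfl⟩ | ⟨q, hq, rfl⟩), rfl⟩
      · exact Or.inl ⟨q, hq, u, rfl⟩
      · exact Or.inr (Or.inl ⟨q, hq, u, rfl⟩)
      · exact Or.inr (Or.inr (Or.inl ⟨q, hq, u, rfl⟩))
      · exact Or.inr (Or.inr (Or.inr ⟨q, hq, rfl⟩))
    · rintro (⟨q, hq, u, rfl⟩ | ⟨q, hq, u, rfl⟩ | ⟨q, hq, u, rfl⟩ | ⟨q, hq, rfl⟩)
      · exact ⟨_, Or.inl ⟨q, hq, u, rfl⟩, rfl⟩
      · exact ⟨_, Or.inr (Or.inl ⟨q, hq, u, rfl⟩), rfl⟩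
      · exact ⟨_, Or.inr (Or.inr (Or.inl ⟨q, hq, u, rfl⟩)), rfl⟩
      · exact ⟨_, Or.inr (Or.inr (Or.inr ⟨q, hq, rfl⟩)), rfl⟩
  obtain ⟨F, hF, hF0, hFx⟩ := generic_span G hG x₀ (by rw [himg]; exact h)
  refine ⟨F, hF, hF0, fun x hx => ?_⟩
  have := hFx x hx
  rwa [himg] at this

theorem Split_common {P σ α β γ α' β' γ' : Type} [Fintype α] [Fintype β] [Fintype γ]
    [Fintype α'] [Fintype β'] [Fintype γ'] (X Y : Cfg P)
    (A : (σ → ℂ) → P → α → ℂ) (B : (σ → ℂ) → P → β → ℂ) (C : (σ → ℂ) → P → γ → ℂ)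
    (A' : (σ → ℂ) → P → α' → ℂ) (B' : (σ → ℂ) → P → β' → ℂ) (C' : (σ → ℂ) → P → γ' → ℂ)
    (hA : ∀ p i, (fun x => A x p i) ∈ PF σ) (hB : ∀ p i, (fun x => B x p i) ∈ PF σ)
    (hC : ∀ p i, (fun x => C x p i) ∈ PF σ)
    (hA' : ∀ p i, (fun x => A' x p i) ∈ PF σ) (hB' : ∀ p i, (fun x => B' x p i) ∈ PF σ)
    (hC' : ∀ p i, (fun x => C' x p i) ∈ PF σ) (x y : σ → ℂ)
    (hx : X.sp (A x) (B x) (C x) = ⊤) (hy : Y.sp (A' y) (B' y) (C' y) = ⊤) :
    ∃ z, X.sp (A z) (B z) (C z) = ⊤ ∧ Y.sp (A' z) (B' z) (C' z) = ⊤ := by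
  obtain ⟨F, hF, hF0, hFx⟩ := Split_generic X A B C hA hB hC x hx
  obtain ⟨F', hF', hF0', hFx'⟩ := Split_generic Y A' B' C' hA' hB' hC' y hy
  obtain ⟨z, hz, hz'⟩ := PF_domain hF hF' x y hF0 hF0'
  exact ⟨z, hFx z hz, hFx' z hz'⟩

/-- extension by zero along an optional map of the index sets -/
def Split_L {N N' : Type} (φ : N' → Option N) : (N → ℂ) →ₗ[ℂ] (N' → ℂ) where
  toFun w n := (φ n).elim 0 w
  map_add' u v := by
    funext n
    cases h : φ n <;> simp [h]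
  map_smul' c v := by
    funext n
    cases h : φ n <;> simp [h]

theorem Split_L_apply {N N' : Type} (φ : N' → Option N) (w : N → ℂ) (n : N') :
    Split_L φ w n = (φ n).elim 0 w := rfl

theorem Split_push {P α β γ α' β' γ' : Type} {X Y : Cfg P}
    (L : (α × β × γ → ℂ) →ₗ[ℂ] (α' × β' × γ' → ℂ))
    (fa : (α → ℂ) → α' → ℂ) (fb : (β → ℂ) → β' → ℂ) (fc : (γ → ℂ) → γ' → ℂ)
    (hL : ∀ u v w, L (tp u v w) = tp (fa u) (fb v) (fc w))
    {a : P → α → ℂ} {b : P → β → ℂ} {c : P → γ → ℂ}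
    {a' : P → α' → ℂ} {b' : P → β' → ℂ} {c' : P → γ' → ℂ}
    (hA : ∀ i j, (i, j) ∈ Y.fA → (i, j) ∈ X.fA ∧ fb (b i) = b' i ∧ fc (c j) = c' j)
    (hB : ∀ i j, (i, j) ∈ Y.fB → (i, j) ∈ X.fB ∧ fa (a i) = a' i ∧ fc (c j) = c' j)
    (hC : ∀ i j, (i, j) ∈ Y.fC → (i, j) ∈ X.fC ∧ fa (a i) = a' i ∧ fb (b j) = b' j)
    (hP : ∀ i j k, (i, j, k) ∈ Y.pt →
      (i, j, k) ∈ X.pt ∧ fa (a i) = a' i ∧ fb (b j) = b' j ∧ fc (c k) = c' k)
    (h : Y.sp a b c = ⊤) (w : α × β × γ → ℂ) : L w ∈ X.sp a' b' c' := by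
  have hle : Y.sp a b c ≤ (X.sp a' b' c').comap L := by
    apply Cfg.sp_le
    · intro i j hij u
      obtain ⟨h0, h1, h2⟩ := hA i j hij
      rw [Submodule.mem_comap, hL, h1, h2]
      exact Cfg.memA h0 _
    · intro i j hij u
      obtain ⟨h0, h1, h2⟩ := hB i j hij
      rw [Submodule.mem_comap, hL, h1, h2]
      exact Cfg.memB h0 _
    · intro i j hij u
      obtain ⟨h0, h1, h2⟩ := hC i j hij
      rw [Submodule.mem_comap, hL, h1, h2]
      exact Cfg.memC h0 _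
    · intro i j k hij
      obtain ⟨h0, h1, h2, h3⟩ := hP i j k hij
      rw [Submodule.mem_comap, hL, h1, h2, h3]
      exact Cfg.memP h0
  apply hle
  rw [h]
  trivial

section
variable {P : Type} {X : Cfg P}

theorem Gen.splitA {α1 α2 β γ : Type} [Fintype α1] [Fintype α2] [Fintype β] [Fintype γ]
    (U : Set P) (h1 : Gen α1 β γ (X.res Dir.A U)) (h2 : Gen α2 β γ (X.res Dir.A Uᶜ)) :
    Gen (α1 ⊕ α2) β γ X := by
  classical
  obtain ⟨a1, b1, c1, h1⟩ := h1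
  obtain ⟨a2, b2, c2, h2⟩ := h2
  obtain ⟨z, g1, g2⟩ := Split_common (σ := P × (β ⊕ γ)) (X.res Dir.A U) (X.res Dir.A Uᶜ)
    (fun _ => a1) (fun x p j => x (p, Sum.inl j)) (fun x p k => x (p, Sum.inr k))
    (fun _ => a2) (fun x p j => x (p, Sum.inl j)) (fun x p k => x (p, Sum.inr k))
    (fun _ _ => const_mem_PF _) (fun _ _ => coord_mem_PF _) (fun _ _ => coord_mem_PF _)
    (fun _ _ => const_mem_PF _) (fun _ _ => coord_mem_PF _) (fun _ _ => coord_mem_PF _)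
    (fun n => Sum.elim (b1 n.1) (c1 n.1) n.2) (fun n => Sum.elim (b2 n.1) (c2 n.1) n.2) h1 h2
  refine ⟨fun p => if p ∈ U then Sum.elim (a1 p) 0 else Sum.elim 0 (a2 p),
    fun p j => z (p, Sum.inl j), fun p k => z (p, Sum.inr k), ?_⟩
  rw [eq_top_iff]
  intro w _
  let φ1 : (α1 ⊕ α2) × β × γ → Option (α1 × β × γ) :=
    fun n => n.1.getLeft?.map (fun i => (i, n.2.1, n.2.2))
  let φ2 : (α1 ⊕ α2) × β × γ → Option (α2 × β × γ) :=
    fun n => n.1.getRight?.map (fun i => (i, n.2.1, n.2.2))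
  have e : w = Split_L φ1 (fun n => w (Sum.inl n.1, n.2.1, n.2.2)) +
      Split_L φ2 (fun n => w (Sum.inr n.1, n.2.1, n.2.2)) := by
    funext n
    rcases n with ⟨i | i, j, k⟩ <;> simp [Split_L_apply, φ1, φ2]
  rw [e]
  refine Submodule.add_mem _ ?_ ?_
  · refine Split_push (Split_L φ1) (fun u => Sum.elim u 0) id id ?_ ?_ ?_ ?_ ?_ g1 _
    · intro u v w
      funext n
      rcases n with ⟨i | i, j, k⟩ <;> simp [Split_L_apply, φ1, tp]
    · exact fun i j h => ⟨h, rfl, rfl⟩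
    · exact fun i j h => ⟨h.1, (if_pos h.2).symm, rfl⟩
    · exact fun i j h => ⟨h.1, (if_pos h.2).symm, rfl⟩
    · exact fun i j k h => ⟨h.1, (if_pos h.2).symm, rfl, rfl⟩
  · refine Split_push (Split_L φ2) (fun u => Sum.elim 0 u) id id ?_ ?_ ?_ ?_ ?_ g2 _
    · intro u v w
      funext n
      rcases n with ⟨i | i, j, k⟩ <;> simp [Split_L_apply, φ2, tp]
    · exact fun i j h => ⟨h, rfl, rfl⟩
    · exact fun i j h => ⟨h.1, (if_neg h.2).symm, rfl⟩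
    · exact fun i j h => ⟨h.1, (if_neg h.2).symm, rfl⟩
    · exact fun i j k h => ⟨h.1, (if_neg h.2).symm, rfl, rfl⟩

theorem Gen.splitB {α β1 β2 γ : Type} [Fintype α] [Fintype β1] [Fintype β2] [Fintype γ]
    (U : Set P) (h1 : Gen α β1 γ (X.res Dir.B U)) (h2 : Gen α β2 γ (X.res Dir.B Uᶜ)) :
    Gen α (β1 ⊕ β2) γ X := by
  classical
  obtain ⟨a1, b1, c1, h1⟩ := h1
  obtain ⟨a2, b2, c2, h2⟩ := h2
  obtain ⟨z, g1, g2⟩ := Split_common (σ := P × (α ⊕ γ)) (X.res Dir.B U) (X.res Dir.B Uᶜ)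
    (fun x p j => x (p, Sum.inl j)) (fun _ => b1) (fun x p k => x (p, Sum.inr k))
    (fun x p j => x (p, Sum.inl j)) (fun _ => b2) (fun x p k => x (p, Sum.inr k))
    (fun _ _ => coord_mem_PF _) (fun _ _ => const_mem_PF _) (fun _ _ => coord_mem_PF _)
    (fun _ _ => coord_mem_PF _) (fun _ _ => const_mem_PF _) (fun _ _ => coord_mem_PF _)
    (fun n => Sum.elim (a1 n.1) (c1 n.1) n.2) (fun n => Sum.elim (a2 n.1) (c2 n.1) n.2) h1 h2
  refine ⟨fun p j => z (p, Sum.inl j),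
    fun p => if p ∈ U then Sum.elim (b1 p) 0 else Sum.elim 0 (b2 p),
    fun p k => z (p, Sum.inr k), ?_⟩
  rw [eq_top_iff]
  intro w _
  let φ1 : α × (β1 ⊕ β2) × γ → Option (α × β1 × γ) :=
    fun n => n.2.1.getLeft?.map (fun j => (n.1, j, n.2.2))
  let φ2 : α × (β1 ⊕ β2) × γ → Option (α × β2 × γ) :=
    fun n => n.2.1.getRight?.map (fun j => (n.1, j, n.2.2))
  have e : w = Split_L φ1 (fun n => w (n.1, Sum.inl n.2.1, n.2.2)) +
      Split_L φ2 (fun n => w (n.1, Sum.inr n.2.1, n.2.2)) := by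
    funext n
    rcases n with ⟨i, j | j, k⟩ <;> simp [Split_L_apply, φ1, φ2]
  rw [e]
  refine Submodule.add_mem _ ?_ ?_
  · refine Split_push (Split_L φ1) id (fun u => Sum.elim u 0) id ?_ ?_ ?_ ?_ ?_ g1 _
    · intro u v w
      funext n
      rcases n with ⟨i, j | j, k⟩ <;> simp [Split_L_apply, φ1, tp]
    · exact fun i j h => ⟨h.1, (if_pos h.2).symm, rfl⟩
    · exact fun i j h => ⟨h, rfl, rfl⟩
    · exact fun i j h => ⟨h.1, rfl, (if_pos h.2).symm⟩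
    · exact fun i j k h => ⟨h.1, rfl, (if_pos h.2).symm, rfl⟩
  · refine Split_push (Split_L φ2) id (fun u => Sum.elim 0 u) id ?_ ?_ ?_ ?_ ?_ g2 _
    · intro u v w
      funext n
      rcases n with ⟨i, j | j, k⟩ <;> simp [Split_L_apply, φ2, tp]
    · exact fun i j h => ⟨h.1, (if_neg h.2).symm, rfl⟩
    · exact fun i j h => ⟨h, rfl, rfl⟩
    · exact fun i j h => ⟨h.1, rfl, (if_neg h.2).symm⟩
    · exact fun i j k h => ⟨h.1, rfl, (if_neg h.2).symm, rfl⟩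

theorem Gen.splitC {α β γ1 γ2 : Type} [Fintype α] [Fintype β] [Fintype γ1] [Fintype γ2]
    (U : Set P) (h1 : Gen α β γ1 (X.res Dir.C U)) (h2 : Gen α β γ2 (X.res Dir.C Uᶜ)) :
    Gen α β (γ1 ⊕ γ2) X := by
  classical
  obtain ⟨a1, b1, c1, h1⟩ := h1
  obtain ⟨a2, b2, c2, h2⟩ := h2
  obtain ⟨z, g1, g2⟩ := Split_common (σ := P × (α ⊕ β)) (X.res Dir.C U) (X.res Dir.C Uᶜ)
    (fun x p j => x (p, Sum.inl j)) (fun x p k => x (p, Sum.inr k)) (fun _ => c1)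
    (fun x p j => x (p, Sum.inl j)) (fun x p k => x (p, Sum.inr k)) (fun _ => c2)
    (fun _ _ => coord_mem_PF _) (fun _ _ => coord_mem_PF _) (fun _ _ => const_mem_PF _)
    (fun _ _ => coord_mem_PF _) (fun _ _ => coord_mem_PF _) (fun _ _ => const_mem_PF _)
    (fun n => Sum.elim (a1 n.1) (b1 n.1) n.2) (fun n => Sum.elim (a2 n.1) (b2 n.1) n.2) h1 h2
  refine ⟨fun p j => z (p, Sum.inl j), fun p k => z (p, Sum.inr k),
    fun p => if p ∈ U then Sum.elim (c1 p) 0 else Sum.elim 0 (c2 p), ?_⟩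
  rw [eq_top_iff]
  intro w _
  let φ1 : α × β × (γ1 ⊕ γ2) → Option (α × β × γ1) :=
    fun n => n.2.2.getLeft?.map (fun k => (n.1, n.2.1, k))
  let φ2 : α × β × (γ1 ⊕ γ2) → Option (α × β × γ2) :=
    fun n => n.2.2.getRight?.map (fun k => (n.1, n.2.1, k))
  have e : w = Split_L φ1 (fun n => w (n.1, n.2.1, Sum.inl n.2.2)) +
      Split_L φ2 (fun n => w (n.1, n.2.1, Sum.inr n.2.2)) := by
    funext n
    rcases n with ⟨i, j, k | k⟩ <;> simp [Split_L_apply, φ1, φ2]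
  rw [e]
  refine Submodule.add_mem _ ?_ ?_
  · refine Split_push (Split_L φ1) id id (fun u => Sum.elim u 0) ?_ ?_ ?_ ?_ ?_ g1 _
    · intro u v w
      funext n
      rcases n with ⟨i, j, k | k⟩ <;> simp [Split_L_apply, φ1, tp]
    · exact fun i j h => ⟨h.1, rfl, (if_pos h.2).symm⟩
    · exact fun i j h => ⟨h.1, rfl, (if_pos h.2).symm⟩
    · exact fun i j h => ⟨h, rfl, rfl⟩
    · exact fun i j k h => ⟨h.1, rfl, rfl, (if_pos h.2).symm⟩
  · refine Split_push (Split_L φ2) id id (fun u => Sum.elim 0 u) ?_ ?_ ?_ ?_ ?_ g2 _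
    · intro u v w
      funext n
      rcases n with ⟨i, j, k | k⟩ <;> simp [Split_L_apply, φ2, tp]
    · exact fun i j h => ⟨h.1, rfl, (if_neg h.2).symm⟩
    · exact fun i j h => ⟨h.1, rfl, (if_neg h.2).symm⟩
    · exact fun i j h => ⟨h, rfl, rfl⟩
    · exact fun i j k h => ⟨h.1, rfl, rfl, (if_neg h.2).symm⟩

end

theorem S.splitA {I1 I2 J K : ℕ} {M M1 M2 : Multiset Gad} (h : Spl Dir.A M M1 M2)
    (h1 : S I1 J K M1) (h2 : S I2 J K M2) : S (I1 + I2) J K M := by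
  obtain ⟨R, hR, hM, hM1, hM2⟩ := h
  obtain ⟨n, r, rfl⟩ := exists_fam _ R
  have hr : ∀ i, Rule Dir.A (r i).1 (r i).2.1 (r i).2.2 :=
    fun i => hR _ (Multiset.mem_map_of_mem _ (Finset.mem_univ_val _))
  choose U hU1 hU2 using hr
  rw [Multiset.map_map] at hM hM1 hM2
  have g1 := Gen.red (Red.fam_res Dir.A U hU1) (fam_of_S (fun i => (r i).2.1) hM1 h1)
  have g2 := Gen.red (Red.fam_res Dir.A (fun i => (U i)ᶜ) hU2)
    (fam_of_S (fun i => (r i).2.2) hM2 h2)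
  exact S_of_fam (fun i => (r i).1) hM
    (Gen.equiv finSumFinEquiv (Equiv.refl _) (Equiv.refl _) (Gen.splitA _ g1 g2))

theorem S.splitB {I J1 J2 K : ℕ} {M M1 M2 : Multiset Gad} (h : Spl Dir.B M M1 M2)
    (h1 : S I J1 K M1) (h2 : S I J2 K M2) : S I (J1 + J2) K M := by
  obtain ⟨R, hR, hM, hM1, hM2⟩ := h
  obtain ⟨n, r, rfl⟩ := exists_fam _ R
  have hr : ∀ i, Rule Dir.B (r i).1 (r i).2.1 (r i).2.2 :=
    fun i => hR _ (Multiset.mem_map_of_mem _ (Finset.mem_univ_val _))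
  choose U hU1 hU2 using hr
  rw [Multiset.map_map] at hM hM1 hM2
  have g1 := Gen.red (Red.fam_res Dir.B U hU1) (fam_of_S (fun i => (r i).2.1) hM1 h1)
  have g2 := Gen.red (Red.fam_res Dir.B (fun i => (U i)ᶜ) hU2)
    (fam_of_S (fun i => (r i).2.2) hM2 h2)
  exact S_of_fam (fun i => (r i).1) hM
    (Gen.equiv (Equiv.refl _) finSumFinEquiv (Equiv.refl _) (Gen.splitB _ g1 g2))

theorem S.splitC {I J K1 K2 : ℕ} {M M1 M2 : Multiset Gad} (h : Spl Dir.C M M1 M2)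
    (h1 : S I J K1 M1) (h2 : S I J K2 M2) : S I J (K1 + K2) M := by
  obtain ⟨R, hR, hM, hM1, hM2⟩ := h
  obtain ⟨n, r, rfl⟩ := exists_fam _ R
  have hr : ∀ i, Rule Dir.C (r i).1 (r i).2.1 (r i).2.2 :=
    fun i => hR _ (Multiset.mem_map_of_mem _ (Finset.mem_univ_val _))
  choose U hU1 hU2 using hr
  rw [Multiset.map_map] at hM hM1 hM2
  have g1 := Gen.red (Red.fam_res Dir.C U hU1) (fam_of_S (fun i => (r i).2.1) hM1 h1)
  have g2 := Gen.red (Red.fam_res Dir.C (fun i => (U i)ᶜ) hU2)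
    (fam_of_S (fun i => (r i).2.2) hM2 h2)
  exact S_of_fam (fun i => (r i).1) hM
    (Gen.equiv (Equiv.refl _) (Equiv.refl _) finSumFinEquiv (Gen.splitC _ g1 g2))

variable {d : Dir}

theorem Rule.symm {g h1 h2 : Gad} (h : Rule d g h1 h2) : Rule d g h2 h1 := by
  obtain ⟨U, a, b⟩ := h
  exact ⟨Uᶜ, b, by rwa [compl_compl]⟩

theorem Spl.zero : Spl d 0 0 0 := by
  exact ⟨0, by simp, by simp, by simp, by simp⟩

theorem Spl.add {M M1 M2 N N1 N2 : Multiset Gad} (h : Spl d M M1 M2) (h' : Spl d N N1 N2) :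
    Spl d (M + N) (M1 + N1) (M2 + N2) := by
  obtain ⟨R, hR, a, b, c⟩ := h
  obtain ⟨R', hR', a', b', c'⟩ := h'
  refine ⟨R + R', ?_, ?_, ?_, ?_⟩
  · intro r hr
    rcases Multiset.mem_add.1 hr with hr | hr
    · exact hR r hr
    · exact hR' r hr
  · rw [Multiset.map_add]; exact add_le_add a a'
  · rw [Multiset.map_add]; exact add_le_add b b'
  · rw [Multiset.map_add]; exact add_le_add c c'

theorem Spl.symm {M M1 M2 : Multiset Gad} (h : Spl d M M1 M2) : Spl d M M2 M1 := by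
  obtain ⟨R, hR, a, b, c⟩ := h
  refine ⟨R.map (fun r => (r.1, r.2.2, r.2.1)), ?_, ?_, ?_, ?_⟩
  · intro r hr
    obtain ⟨r', hr', rfl⟩ := Multiset.mem_map.1 hr
    exact (hR r' hr').symm
  · rw [Multiset.map_map]; exact a
  · rw [Multiset.map_map]; exact c
  · rw [Multiset.map_map]; exact b

theorem Spl.mono {M M1 M2 N N1 N2 : Multiset Gad} (h : Spl d M M1 M2) (h0 : M ≤ N) (h1 : N1 ≤ M1)
    (h2 : N2 ≤ M2) : Spl d N N1 N2 := by
  obtain ⟨R, hR, a, b, c⟩ := h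
  exact ⟨R, hR, a.trans h0, h1.trans b, h2.trans c⟩

theorem Spl.of_eq {M M1 M2 N N1 N2 : Multiset Gad} (h : Spl d M M1 M2) (h0 : N = M) (h1 : N1 = M1)
    (h2 : N2 = M2) : Spl d N N1 N2 := by
  subst h0 h1 h2; exact h

theorem Spl.rep {g h1 h2 : Gad} (h : Rule d g h1 h2) (n : ℕ) :
    Spl d (replicate n g) (replicate n h1) (replicate n h2) := by
  refine ⟨replicate n (g, h1, h2), ?_, by simp, by simp, by simp⟩
  intro r hr
  rw [Multiset.eq_of_mem_replicate hr]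
  exact h

theorem Spl.repL {g h1 h2 : Gad} (h : Rule d g h1 h2) (n : ℕ) :
    Spl d (replicate n g) (replicate n h1) 0 := by
  exact (Spl.rep h n).mono le_rfl le_rfl (Multiset.zero_le _)

theorem Spl.repR {g h1 h2 : Gad} (h : Rule d g h1 h2) (n : ℕ) :
    Spl d (replicate n g) 0 (replicate n h2) := by
  exact (Spl.rep h n).mono le_rfl (Multiset.zero_le _) le_rfl

theorem Spl.map {δ : Type} (s : Multiset δ) (f f1 f2 : δ → Gad)
    (h : ∀ x ∈ s, Rule d (f x) (f1 x) (f2 x)) : Spl d (s.map f) (s.map f1) (s.map f2) := by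
  refine ⟨s.map (fun x => (f x, f1 x, f2 x)), ?_, ?_, ?_, ?_⟩
  · intro r hr
    obtain ⟨x, hx, rfl⟩ := Multiset.mem_map.1 hr
    exact h x hx
  · rw [Multiset.map_map]; exact le_rfl
  · rw [Multiset.map_map]; exact le_rfl
  · rw [Multiset.map_map]; exact le_rfl

theorem Spl.mapL {δ : Type} (s : Multiset δ) (f f1 f2 : δ → Gad)
    (h : ∀ x ∈ s, Rule d (f x) (f1 x) (f2 x)) : Spl d (s.map f) (s.map f1) 0 := by
  exact (Spl.map s f f1 f2 h).mono le_rfl le_rfl (Multiset.zero_le _)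

theorem Spl.mapR {δ : Type} (s : Multiset δ) (f f1 f2 : δ → Gad)
    (h : ∀ x ∈ s, Rule d (f x) (f1 x) (f2 x)) : Spl d (s.map f) 0 (s.map f2) := by
  exact (Spl.map s f f1 f2 h).mono le_rfl (Multiset.zero_le _) le_rfl

end Pool.Agent.Work.MP_f4b644_ag.Big
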