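import Pool.Agent.Work.MP_f4b644_ag.Big.Basic
import Pool.Agent.Work.MP_f4b644_ag.Big.Trop

/-!
The square core: dimension 4 in the first factor, h tangents with one mate and its token each.

Family index Fin h ⊕ Fin b ⊕ Fin (h - 2 - b) (gadgets T 0 1, BP 0, CP 1). For l : Fin h put
p l = (l + h - b) % h (so p l + b = l or l + h), take θ l, η l, η' l from `window h (p l) b`; the last
clause gives 8 l < η l and -8 l < η' l. Let τ l = (l + 1) % h as an element of Fin h (`finRotate` or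
`Fin.add`), τ l ≠ l, and neither l nor τ l lies in the window InW h (p l) b.
Cells: Bc i l = InW h (p l) b i, Cc i l = ¬ InW ∧ i ≠ l ∧ i ≠ τ l, the cells (l, l), (τ l, l) are dead.
Row count: l ↦ (l + h - i) % h - 1 is injective on {l | Bc i l} with values < b. Column count:
h - b - 2 (`ncard_not_InW` minus two elements).
For t > 0: s i = i + 1 (constant), X i = t ^ (8 i), X' i = t ^ (-8 i), q i = t ^ (η i), q' i = t ^ (η' i),
r i = (q i - X i) / s i, r' i = (q' i - X' i) / s i; y i = ![1, s i, q i, q' i], x i = ![0, 1, r i, r' i].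
D i l = q i - q l - r i * (s i - s l) = (s i)⁻¹ * ((s i - s l) * X i + s l * q i - s i * q l), which for
i ≠ l has valuation min (8 i) (η l) (the first two terms have valuation 8 i because 8 i < η i);
D' the same with primes, valuation min (-8 i) (η' l). ρ i = 12 i.
E l = D (τ l) l * (r' (τ l) - r' l) - D' (τ l) l * (r (τ l) - r l) is eventually nonzero: r i has
valuation 8 i, r' i has valuation -8 i; if τ l = l + 1 the two terms have valuations
min (8 l + 8) (η l) - 8 l - 8 > -8 and -8; if τ l = 0 (l = h - 1 ≥ 1) they have valuations -8 l and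
min 0 (η' l) > -8 l.
Parameters. Tangent l: a (l, 0) = y l, a (l, 1) = x l, b (l, 0) = Pi.single l 1,
b (l, 1) = Pi.single (τ l) 1, c (l, _) = Pi.single l 1. B-slot g: a = ![0, 0, 0, 1], c l = l ^ g.
C-slot g: a = ![0, 0, 1, 0], b i = i ^ g.
`top_of_ann`: v i l = Φ (2, i, l), w i l = Φ (3, i, l). Writing Φ il (a) = ∑ s, Φ (s, i, l) * a s: in every
cell Φ il (x i) = Φ il (y i) = Φ il (y l) = 0, hence v D + w D' = 0 (eliminate Φ0, Φ1); Φ ll = 0 by
the A-fibre; Φ (τ l) l (x l) = 0 by the token, so v (r (τ l) - r l) + w (r' (τ l) - r' l) = 0 and with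
E l ≠ 0 also v = w = 0 there. `tk` gives v = w = 0, then Φ1 = 0, Φ0 = 0.
-/

set_option autoImplicit false

namespace Pool.Agent.Work.MP_f4b644_ag.Big

open Multiset Gad

theorem SqCore_pair {α β γ : Type} [Fintype α] [Fintype β] [Fintype γ] (Φ : α × β × γ → ℂ)
    (a : α → ℂ) (b : β → ℂ) (c : γ → ℂ) :
    ∑ n, Φ n * tp a b c n = ∑ i, ∑ l, b i * c l * ∑ s, Φ (s, i, l) * a s := by
  simp only [Fintype.sum_prod_type, Finset.mul_sum, tp]
  rw [Finset.sum_comm]
  refine Finset.sum_congr rfl fun i _ => ?_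
  rw [Finset.sum_comm]
  exact Finset.sum_congr rfl fun l _ => Finset.sum_congr rfl fun s _ => by ring

/-- the slope -/
noncomputable def SqCore_r {h : ℕ} (m e : Fin h → ℤ) (i : Fin h) (t : ℝ) : ℂ :=
  (((i : ℕ) : ℂ) + 1)⁻¹ * ((t : ℂ) ^ e i - (t : ℂ) ^ m i)

/-- the cell coefficient -/
noncomputable def SqCore_D {h : ℕ} (e : Fin h → ℤ) (r : Fin h → ℝ → ℂ) (i l : Fin h) (t : ℝ) : ℂ :=
  (t : ℂ) ^ e i - (t : ℂ) ^ e l - r i t * (((i : ℕ) : ℂ) - (l : ℕ))

theorem SqCore_val {h : ℕ} (m e : Fin h → ℤ) (h1 : ∀ i, m i < e i) (h2 : ∀ i l, m i ≠ e l) :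
    (∀ i, Val (SqCore_r m e i) (m i)) ∧
      ∀ i l, i ≠ l → Val (SqCore_D e (SqCore_r m e) i l) (min (m i) (e l)) := by
  have h3 : ∀ i : Fin h, ((i : ℕ) : ℂ) + 1 ≠ 0 := fun i => Nat.cast_add_one_ne_zero _
  refine ⟨fun i => ?_, fun i l hil => ?_⟩
  · have := (((Val.zpow (e i)).sub_ne (Val.zpow (m i)) (h1 i).ne').const_mul (inv_ne_zero (h3 i)))
    rwa [min_eq_right (h1 i).le] at this
  · have h4 : ((i : ℕ) : ℂ) - (l : ℕ) ≠ 0 :=
      sub_ne_zero.2 fun e => hil (Fin.ext (Nat.cast_injective (R := ℂ) e))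
    refine (((((Val.zpow (m i)).const_mul h4).add_lt ((Val.zpow (e i)).const_mul (h3 l))
      (h1 i)).sub_ne ((Val.zpow (e l)).const_mul (h3 i)) (h2 i l)).const_mul
        (inv_ne_zero (h3 i))).congr fun t _ => ?_
    have := h3 i
    unfold SqCore_D SqCore_r
    field_simp
    ring

theorem S_sq4 (h b : ℕ) (hb : b + 2 ≤ h) :
    S 4 h h (replicate h (T 0 1) + replicate b (BP 0) + replicate (h - 2 - b) (CP 1)) := by
  classical
  obtain ⟨p, hp⟩ : ∃ p : Fin h → ℕ, ∀ l : Fin h,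
      (b ≤ (l : ℕ) ∧ p l + b = l) ∨ ((l : ℕ) < b ∧ p l + b = l + h) :=
    ⟨fun l : Fin h => if b ≤ (l : ℕ) then (l : ℕ) - b else l + h - b, fun l => by
      dsimp only
      split_ifs <;> omega⟩
  obtain ⟨τ, hτ⟩ : ∃ τ : Fin h → Fin h, ∀ l, (τ l : ℕ) = l + 1 ∨ ((τ l : ℕ) = 0 ∧ l + 1 = h) :=
    ⟨fun l => ⟨if l + 1 < h then l + 1 else 0, by split_ifs <;> omega⟩, fun l => by
      have := l.2
      dsimp only
      split_ifs <;> omega⟩
  have hp' : ∀ l, p l < h := fun l => by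
    have := hp l
    have := l.2
    omega
  choose θ η η' w1 w2 w3 w4 w5 using fun l => window h (p l) b (hp' l) (by omega)
  have w6 := fun l : Fin h => w5 l l l.2 (by omega) (by have := hp l; omega)
  have hτ' : ∀ l, τ l ≠ l := fun l e => by
    have := hτ l
    rw [e] at this
    omega
  have hw : ∀ l, ¬ InW h (p l) b l ∧ ¬ InW h (p l) b (τ l) := fun l => by
    have := hp l
    have := hτ l
    unfold InW
    omega
  have hx : Function.Injective fun i : Fin h => ((i : ℕ) : ℂ) := fun i j e =>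
    Fin.ext (Nat.cast_injective (R := ℂ) e)
  have v1 := SqCore_val (fun i : Fin h => 8 * ((i : ℕ) : ℤ)) η (fun i => (w6 i).1)
    fun i l => by have := w1 l; omega
  have v2 := SqCore_val (fun i : Fin h => -8 * ((i : ℕ) : ℤ)) η' (fun i => (w6 i).2)
    fun i l => by have := w2 l; omega
  generalize SqCore_r (fun i : Fin h => 8 * ((i : ℕ) : ℤ)) η = r at v1
  generalize SqCore_r (fun i : Fin h => -8 * ((i : ℕ) : ℤ)) η' = r' at v2
  have ev := tk b (h - 2 - b) _ hx _ hx (fun i l : Fin h => InW h (p l) b i)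
    (fun i l => ¬ InW h (p l) b i ∧ i ≠ l ∧ i ≠ τ l) (fun i => ?_) (fun l => ?_) _ _ _ _
    (fun i l hil => have : i ≠ l := hil.elim (fun h e => (hw l).1 (e ▸ h)) fun h => h.2.1
      ⟨v1.2 i l this, v2.2 i l this⟩) (fun i => 12 * ((i : ℕ) : ℤ)) θ
    (fun i l h => w3 l i i.2 h) fun i l h => w4 l i i.2 h.1
  rotate_left
  · refine (Set.ncard_le_ncard_of_injOn (t := (Finset.range b : Set ℕ))
      (fun l : Fin h => if i < l then l - i - 1 else l + h - i - 1) (fun l hl => ?_)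
      fun l hl l' hl' e => Fin.ext ?_).trans_eq (by simp)
    · have := hp l
      have := i.2
      simp only [Set.mem_ofPred_eq, InW, Finset.coe_range, Set.mem_Iio, Fin.lt_def] at hl ⊢
      split_ifs <;> omega
    · have := i.2
      have := l.2
      have := l'.2
      simp only [Fin.lt_def] at e
      split_ifs at e <;> omega
  · have h1 := Set.ncard_sdiff (s := {l, τ l}) (t := {i : Fin h | ¬ InW h (p l) b i})
      (Set.pair_subset (hw l).1 (hw l).2)
    rw [ncard_not_InW h (p l) b (hp' l) (by omega), Set.ncard_pair (hτ' l).symm] at h1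
    refine le_trans (Set.ncard_le_ncard (t := {i : Fin h | ¬ InW h (p l) b i} \ {l, τ l})
      fun i hi => ⟨hi.1, not_or.2 hi.2⟩) (h1.le.trans ?_)
    omega
  have ev' := Filter.eventually_all.2 fun l : Fin h =>
    (((v1.2 _ _ (hτ' l)).mul ((v2.1 (τ l)).sub_ne (v2.1 l) (by have := hτ l; omega))).sub_ne
      ((v2.2 _ _ (hτ' l)).mul ((v1.1 (τ l)).sub_ne (v1.1 l) (by have := hτ l; omega)))
      (by have := hτ l; have := w6 l; omega)).ne_zero
  obtain ⟨t, h1, h2⟩ := (ev.and ev').exists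
  let g : Fin h ⊕ Fin b ⊕ Fin (h - 2 - b) → Gad :=
    Sum.elim (fun _ => T 0 1) (Sum.elim (fun _ => BP 0) fun _ => CP 1)
  let a : (Fin h ⊕ Fin b ⊕ Fin (h - 2 - b)) × ℕ → Fin 4 → ℂ := fun P => Sum.elim
    (fun i : Fin h => if P.2 = 0 then ![1, ((i : ℕ) : ℂ) + 1, (t : ℂ) ^ η i, (t : ℂ) ^ η' i]
      else ![0, 1, r i t, r' i t])
    (Sum.elim (fun _ => ![0, 0, 0, 1]) fun _ => ![0, 0, 1, 0]) P.1
  let b' : (Fin h ⊕ Fin b ⊕ Fin (h - 2 - b)) × ℕ → Fin h → ℂ := fun P => Sum.elim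
    (fun l => Pi.single (if P.2 = 0 then l else τ l) 1)
    (Sum.elim 0 fun (g : Fin (h - 2 - b)) (i : Fin h) => ((i : ℕ) : ℂ) ^ (g : ℕ)) P.1
  let c : (Fin h ⊕ Fin b ⊕ Fin (h - 2 - b)) × ℕ → Fin h → ℂ := fun P => Sum.elim
    (fun l => Pi.single l 1)
    (Sum.elim (fun (g : Fin b) (i : Fin h) => ((i : ℕ) : ℂ) ^ (g : ℕ)) 0) P.1
  refine S_of_fam g (by simp only [g, map_univ_sum, map_univ_const, Fintype.card_fin, add_assoc,
    le_refl]) ⟨a, b', c, top_of_ann _ fun Φ hΦ => ?_⟩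
  have e1 : ∀ l s, Φ (s, l, l) = 0 := fun l s => by
    simpa [b', c, SqCore_pair, Pi.single_apply] using hΦ _
      (Cfg.memA (X := fam g) (ib := (Sum.inl l, 0)) (ic := (Sum.inl l, 0)) ⟨rfl, rfl⟩ (Pi.single s 1))
  have e2 : ∀ i l, Φ (0, i, l) + Φ (1, i, l) * ((l : ℕ) + 1) + Φ (2, i, l) * (t : ℂ) ^ η l +
      Φ (3, i, l) * (t : ℂ) ^ η' l = 0 := fun i l => by
    simpa [a, c, SqCore_pair, Pi.single_apply, Fin.sum_univ_four] using hΦ _
      (Cfg.memB (X := fam g) (ia := (Sum.inl l, 0)) (ic := (Sum.inl l, 0)) ⟨rfl, rfl⟩ (Pi.single i 1))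
  have e3 : ∀ i l, Φ (0, i, l) + Φ (1, i, l) * ((i : ℕ) + 1) + Φ (2, i, l) * (t : ℂ) ^ η i +
      Φ (3, i, l) * (t : ℂ) ^ η' i = 0 := fun i l => by
    simpa [a, b', SqCore_pair, Pi.single_apply, Fin.sum_univ_four] using hΦ _
      (Cfg.memC (X := fam g) (ia := (Sum.inl i, 0)) (ib := (Sum.inl i, 0)) ⟨rfl, Nat.zero_le _, rfl⟩
        (Pi.single l 1))
  have e4 : ∀ i l, Φ (1, i, l) + Φ (2, i, l) * r i t + Φ (3, i, l) * r' i t = 0 := fun i l => by
    simpa [a, b', SqCore_pair, Pi.single_apply, Fin.sum_univ_four] using hΦ _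
      (Cfg.memC (X := fam g) (ia := (Sum.inl i, 1)) (ib := (Sum.inl i, 0)) ⟨rfl, le_rfl, rfl⟩ (Pi.single l 1))
  have e5 : ∀ l, Φ (1, τ l, l) + Φ (2, τ l, l) * r l t + Φ (3, τ l, l) * r' l t = 0 := fun l => by
    simpa [a, b', c, SqCore_pair, Pi.single_apply, Fin.sum_univ_four] using hΦ _
      (Cfg.memP (X := fam g) (ia := (Sum.inl l, 1)) (ib := (Sum.inl l, 1)) (ic := (Sum.inl l, 0))
        ⟨rfl, rfl, one_pos, le_rfl, rfl, rfl⟩)
  have e6 : ∀ i l, Φ (2, i, l) * SqCore_D η r i l t + Φ (3, i, l) * SqCore_D η' r' i l t = 0 :=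
    fun i l => by
      unfold SqCore_D
      linear_combination e3 i l - e2 i l - (((i : ℕ) : ℂ) - (l : ℕ)) * e4 i l
  have e7 := h1 (fun i l => Φ (2, i, l)) (fun i l => Φ (3, i, l)) (fun i l _ => e6 i l)
    (fun i l n1 n2 => ?_) (fun i k hk => ?_) fun l k hk => ?_
  · funext ⟨s, i, l⟩
    obtain ⟨h3, h4⟩ := e7 i l
    have h5 : Φ (1, i, l) = 0 := by simpa [h3, h4] using e4 i l
    have h6 : Φ (0, i, l) = 0 := by simpa [h3, h4, h5] using e3 i l
    fin_cases s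
    exacts [h6, h5, h3, h4]
  · rcases eq_or_ne i l with rfl | h3
    · exact ⟨e1 _ _, e1 _ _⟩
    obtain rfl : i = τ l := not_not.1 fun h4 => n2 ⟨n1, h3, h4⟩
    refine ⟨(mul_eq_zero.1 ?_).resolve_right (h2 l), (mul_eq_zero.1 ?_).resolve_right (h2 l)⟩
    · linear_combination (r' (τ l) t - r' l t) * e6 (τ l) l -
        SqCore_D η' r' (τ l) l t * (e4 (τ l) l - e5 l)
    · linear_combination SqCore_D η r (τ l) l t * (e4 (τ l) l - e5 l) -
        (r (τ l) t - r l t) * e6 (τ l) l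
  · simpa [a, c, SqCore_pair, Pi.single_apply, Fin.sum_univ_four] using hΦ _
      (Cfg.memB (X := fam g) (ia := (Sum.inr (Sum.inl ⟨k, hk⟩), 0)) (ic := (Sum.inr (Sum.inl ⟨k, hk⟩), 0))
        ⟨rfl, rfl⟩ (Pi.single i 1))
  · simpa [a, b', SqCore_pair, Pi.single_apply, Fin.sum_univ_four] using hΦ _
      (Cfg.memC (X := fam g) (ia := (Sum.inr (Sum.inr ⟨k, hk⟩), 0)) (ib := (Sum.inr (Sum.inr ⟨k, hk⟩), 0))
        ⟨rfl, one_pos, rfl⟩ (Pi.single l 1))

end Pool.Agent.Work.MP_f4b644_ag.Big
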