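import Pool.Agent.Work.MP_f4b644_ag.Big.Groups
import Pool.Agent.Work.MP_f4b644_ag.Big.SqCore
import Pool.Agent.Work.MP_f4b644_ag.Big.Hinge

/-!
The square leaf with h tangents and an arbitrary number of B-fibres.

`S_afB`: statement for all n ≥ 0 rows: S β n h (n AF 0 + β (h - 1) BP 0), induction on n by `S.splitB`
(one AF 0 goes to the new row, every BP 0 = BP (0 + 0) goes to both parts); one row: h = 1 + (h - 1),
`S.splitC`, `S_AF1` and `S_Blev β 1 (h - 1)`.
`S_afC`: for n ≤ h: S R h n (n AF y + (replicate (h - n) y + Gr).map CP), induction on n by `S.splitC`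
(`ruleC_AF`, `ruleC_CP`); the new column is `S_cola` with groups replicate (h - 1) y + Gr.
`S_sql`: β = b / (h - 1), b' = b % (h - 1) ≤ h - 2, R = I - 4 - β, c' = 2 h - 2 - b' = h * 1 + (h - 2 - b').
`sel` with R and c = c' (count (R + 1) = 0). I = 4 + (β + R). First `S.splitA`: T (0 + y) 0 gives T 0 0 and
AF y; b' BP 0 and c' CP 1 go to the first part, which is `S.hingeT h 0 1` applied to `S_sq4`. Second
`S.splitA`: AF (0 + y) gives AF 0 and AF y; `S_afB`, `S_afC` (the reduced groups have sum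
R (h - 1) - (h - 1) y, from hsum and `sum_pred`).
-/

set_option autoImplicit false

namespace Pool.Agent.Work.MP_f4b644_ag.Big

open Multiset Gad

theorem S_afB (β n h : ℕ) (hh : 1 ≤ h) :
    S β n h (replicate n (AF 0) + replicate (β * (h - 1)) (BP 0)) := by
  obtain ⟨k, rfl⟩ := Nat.exists_eq_add_of_le hh
  rw [Nat.add_sub_cancel_left]
  have h1 : S β 1 (1 + k) (replicate 1 (AF 0) + replicate (β * k) (BP 0)) :=
    S.splitC ((Spl.repL (ruleC_AF 0) 1).add (Spl.repR (ruleC_BP 0).symm (β * k)))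
      (by simpa using S_AF1 β 0) (by simpa using S_Blev β 1 k)
  induction n with
  | zero => exact S_zeroB _ _ _
  | succ n ih =>
    rw [add_comm n 1]
    refine S.splitB ((((Spl.repL (ruleB_AF 0) 1).add (Spl.repR (ruleB_AF 0).symm n)).add
      (Spl.rep (ruleB_BP 0 0) (β * k))).of_eq ?_ ?_ ?_) h1 ih
    · rw [replicate_add]
    · rw [add_zero]
    · rw [zero_add]

theorem S_afC (R h y : ℕ) (hy : y ≤ R) (Gr : Multiset ℕ) (h1 : ∀ z ∈ Gr, z ≤ R)
    (h2 : (h - 1) * y + Gr.sum = R * (h - 1)) : S R h h (replicate h (AF y) + Gr.map CP) := by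
  have key : ∀ n m : ℕ, n + m = h →
      S R h n (replicate n (AF y) + (replicate m y + Gr).map CP) := by
    intro n
    induction n with
    | zero => exact fun m _ => S_zeroC _ _ _
    | succ n ih =>
      intro m hm
      have h3 : h - 1 = n + m := by omega
      have h4 := S_cola R h y (by omega) (replicate (h - 1) y + Gr) (fun z hz => by
        rcases mem_add.1 hz with hz | hz
        · exact (eq_of_mem_replicate hz).le.trans hy
        · exact h1 z hz) (by rw [sum_add, sum_replicate, smul_eq_mul, h2])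
      rw [add_comm n 1]
      refine S.splitC ((((Spl.repL (ruleC_AF y) 0).add (Spl.rep (ruleC_AF y) 1)).add
        ((Spl.rep (ruleC_AF y).symm n).add (Spl.map (replicate m y + Gr) CP CP CP
          fun z _ => ruleC_CP z))).of_eq ?_ ?_ ?_) h4 (ih (1 + m) (by omega))
      · rw [replicate_add, replicate_zero, zero_add, add_assoc]
      · rw [h3, replicate_add, replicate_zero, zero_add, add_assoc, Multiset.map_add (s := replicate n y),
          map_replicate, replicate_one]
      · rw [replicate_add, add_assoc, Multiset.map_add (s := replicate 1 y), map_replicate]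
        abel
  simpa using key h 0 rfl

theorem S_sql (I h y b : ℕ) (Gr : Multiset ℕ) (hh : 2 ≤ h) (hy : y + 4 + b / (h - 1) ≤ I)
    (h1 : ∀ z ∈ Gr, 1 ≤ z ∧ z + 4 + b / (h - 1) ≤ I) (h2 : 2 * h ≤ Gr.card)
    (hsum : h * (y + 1) + Gr.sum + h + I + b = I * h + y + 2) :
    S I h h (replicate h (T y 0) + replicate b (BP 0) + Gr.map CP) := by
  obtain ⟨k, rfl⟩ := Nat.exists_eq_add_of_le' hh
  have e1 : k + 2 - 1 = k + 1 := rfl
  rw [e1] at hy h1
  have hb := Nat.div_add_mod b (k + 1)
  have hb' : b % (k + 1) < k + 1 := Nat.mod_lt _ (Nat.succ_pos k)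
  generalize b / (k + 1) = β at hy h1 hb
  generalize b % (k + 1) = b' at hb hb'
  obtain ⟨R, rfl⟩ : ∃ R, I = 4 + (β + R) := ⟨I - 4 - β, by omega⟩
  obtain ⟨u, rfl⟩ : ∃ u, k = b' + u := ⟨k - b', by omega⟩
  have hR : ∀ z ∈ Gr, z ≤ R := fun z hz => by have := (h1 z hz).2; omega
  obtain ⟨D, E, rfl, hD, hD1, hE⟩ := sel Gr R ((b' + u + 2) * 1 + u)
    (fun z hz => (hR z hz).trans (Nat.le_succ R))
    (by rw [count_eq_zero_of_notMem fun hz => by have := hR _ hz; omega]; exact Nat.zero_le _)
    (by rw [filter_eq_self.2 fun z hz => (h1 z hz).1]; omega)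
  have r1 : Rule Dir.A (T y 0) (T 0 0) (AF y) := by simpa using ruleA_T 0 y
  have r2 : Rule Dir.A (AF y) (AF 0) (AF y) := by simpa using ruleA_AF 0 y
  have r3 : ∀ z, Rule Dir.A (CP z) (CP 0) (CP z) := fun z => by simpa using ruleA_CP 0 z
  have s1 := S.hingeT (b' + u + 2) 0 1 (replicate b' (BP 0) + replicate u (CP 1))
    ((S_sq4 (b' + u + 2) b' (by omega)).of_eq (by
      rw [show b' + u + 2 - 2 - b' = u by omega, add_assoc]))
  have s2 := S_afB β (b' + u + 2) (b' + u + 2) (by omega)
  have s3 := S_afC R (b' + u + 2) y (by omega) (D.map (fun z => z - 1) + E) (fun z hz => by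
    rcases mem_add.1 hz with hz | hz
    · obtain ⟨w, hw, rfl⟩ := mem_map.1 hz
      exact (Nat.sub_le w 1).trans (hR w (mem_add.2 (Or.inl hw)))
    · exact hE z hz) (by
      have h3 := sum_pred D hD1
      rw [sum_add] at hsum ⊢
      rw [e1]
      rw [hD] at h3
      subst hb
      nlinarith)
  rw [e1] at s2
  have s4 := S.splitA (((Spl.rep r2 (b' + u + 2)).add (Spl.repL (ruleA_BP 0) (β * (b' + u + 1)))).add
    (Spl.mapR (D.map (fun z => z - 1) + E) CP (fun _ => CP 0) CP fun z _ => r3 z))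
    (by simpa using s2) (by simpa using s3)
  refine S.splitA ((((Spl.rep r1 (b' + u + 2)).add ((Spl.repL (ruleA_BP 0) b').add
    (Spl.repR (ruleA_BP 0).symm (β * (b' + u + 1))))).add (spl_sel D E hD1)).of_eq ?_ ?_ ?_) s1 s4
  · rw [← replicate_add, ← hb, mul_comm β, add_comm b' (_ * β)]
  · rw [hD, replicate_add ((b' + u + 2) * 1) u]
    abel
  · rw [zero_add]

end Pool.Agent.Work.MP_f4b644_ag.Big
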