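import Pool.Agent.Work.MP_f4b644_ag.Big.Pure
import Pool.Agent.Work.MP_f4b644_ag.Big.SqLeaf

/-!
Strips and the strip recursion.

`S_peel`: induction on n; `S.splitC` peels u columns with u tangents (`ruleC_T`: the peeled tangents
become groups CP (y + 1) in the rest, the other tangents are groups CP (y + 1) in the peeled part) and
b B-fibres (`ruleC_BP`), the groups go to both parts (`ruleC_CP`), N goes to the rest.
`S_stripW`: `S_peel` with u = 1, b = 0, w = 0; unit = `S_col` (groups replicate (s - 1) (y + 1) + Gr,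
sizes ≤ R + 1 ≤ I - 2 by GrOK), pure part `S_gpl`.
`St_final`: Z = 0, `S_gpl` with `grOK_std` (s = 0, z = 1).
`St_step`: split Z = Z1 + Z2 with card Z1 = u ν (`exists_split_card`). The pool of the other points is
Z2.map (fun z => (true, z)) + N.map (fun e => (false, e)) or handle it as follows: P = Z2 + N has
np + ν b elements and sum ≥ TT + E - y u ν; `avg_take` gives P = P1 + P2 with card P1 = ν b and
E ≤ P2.sum; `tok_take` splits the elements of P2. To remember which elements are tangents, apply these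
lemmas to multisets of pairs (prove the versions with a weight function f : δ → ℕ as auxiliary lemmas),
so that every pool element (τ, e) gets e = e1 + e2 with e1 = 0 on P1 and ∑ e1 = E. `S.splitB` with
heights j + J: an element z of Z1: T (y - z) (0 + z) gives T y 0 | BP z (`ruleB_T`); a pool tangent
T (y - z) (e2 + e1) gives BP e1 | T (y - e2) e2 (`Rule.symm`); a pool B-point BP (e1 + e2) gives
BP e1 | BP e2; f = I j - j - x - (y + 1) u ν single C-fibres go to the strip, everything else (all pairs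
CP 2) to the rest. The strip is `S_peel` with unit `S_col` or `S_sql` (groups
replicate (u ν - u) (y + 1) + replicate f 1) and pure part `S_gpl` with `grOK_std` (g = 0); the rest is
the hypothesis (tokens left ≥ TT + E - E).
`S_of_St`: Z = replicate s0 y + replicate u (y - 1), N = replicate b0 0 + replicate e 1,
F' = F - y s0 - (y - 1) u (nonnegative by the first part of St), `S.hingeT` twice.
-/

set_option autoImplicit false

namespace Pool.Agent.Work.MP_f4b644_ag.Big

open Multiset Gad

theorem S_peel (I j y u b k n w : ℕ) (N Gr : Multiset ℕ)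
    (hunit : 1 ≤ n → S I j u (replicate u (T y 0) + replicate b (BP 0) +
      (replicate (u * n + w - u) (y + 1) + Gr).map CP))
    (hpure : S I j k (N.map BP + (replicate (u * n + w) (y + 1) + Gr).map CP)) :
    S I j (u * n + k) (replicate (u * n) (T y 0) + replicate (n * b) (BP 0) + N.map BP +
      (replicate w (y + 1) + Gr).map CP) := by
  induction n generalizing w with
  | zero => simpa using hpure
  | succ n ih =>
    have e1 : u * n + (w + u) = u * (n + 1) + w := by ring
    have e2 : u * (n + 1) + w - u = u * n + w := by rw [← e1]; omega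
    have h2 := ih (w + u) (fun _ => by rw [e1]; exact hunit (by omega)) (by rw [e1]; exact hpure)
    have h1 := hunit (by omega)
    rw [e2] at h1
    have e3 : u * (n + 1) + k = u + (u * n + k) := by ring
    rw [e3]
    refine S.splitC ?_ h1 h2
    have sp := (((((Spl.rep (ruleC_T y) u).add (Spl.rep (ruleC_T y).symm (u * n))).add
      (Spl.repL (ruleC_BP 0) b)).add (Spl.repR (ruleC_BP 0).symm (n * b))).add
      (Spl.mapR N BP (fun _ => CP 0) BP (fun e _ => (ruleC_BP e).symm))).add
      (Spl.map (replicate w (y + 1) + Gr) CP CP CP (fun z _ => ruleC_CP z))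
    refine sp.of_eq ?_ ?_ ?_
    · rw [show u * (n + 1) = u + u * n by ring, show (n + 1) * b = b + n * b by ring,
        replicate_add, replicate_add]
      abel
    · simp only [Multiset.map_add, map_replicate, replicate_add]
      abel
    · simp only [Multiset.map_add, map_replicate, replicate_add]
      abel

/-- a strip whose tangents fill their own columns, pure part given -/
theorem S_stripW' (I j x y s k : ℕ) (M : Multiset Gad) (M' : Multiset Gad) (Gr : Multiset ℕ)
    (hx : x + y + 2 = I) (hG : GrOK I j x (replicate s (y + 1) + Gr))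
    (hM : Spl Dir.C M 0 M')
    (hpure : S I j k (M' + (replicate s (y + 1) + Gr).map CP)) :
    S I j (s + k) (replicate s (T y 0) + M + Gr.map CP) := by
  obtain ⟨hj, hsum, R, hR, hRI, hsz, -, -⟩ := hG
  have hleft : S I j s (replicate s (T y 0) + Gr.map CP) := by
    have h := S_peel I j y 1 0 0 s 0 0 Gr (fun hs => ?_) (S_zeroC I j _)
    · refine S.of_eq ?_ (by simpa using h)
      rfl
    · obtain ⟨s', rfl⟩ : ∃ s', s = s' + 1 := ⟨s - 1, by omega⟩
      have h := S_col I j y (by omega) hj (replicate s' (y + 1) + Gr) (fun z hz => ?_) ?_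
      · refine S.of_eq ?_ h
        simp
      · have hz' : z ∈ replicate (s' + 1) (y + 1) + Gr := by
          rcases mem_add.1 hz with hz | hz
          · exact mem_add.2 (Or.inl (by rw [eq_of_mem_replicate hz]; simp))
          · exact mem_add.2 (Or.inr hz)
        have := (hsz z hz').2
        have h0 : 0 ≤ (x - 1) / j := Nat.zero_le _
        omega
      · simp only [sum_add, sum_replicate, smul_eq_mul] at hsum ⊢
        obtain ⟨j', rfl⟩ : ∃ j', j = j' + 1 := ⟨j - 1, by omega⟩
        subst hx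
        simp only [Nat.add_sub_cancel, show x + y + 2 - 1 = x + y + 1 by omega]
        nlinarith
  refine S.splitC ?_ hleft hpure
  have sp := ((Spl.rep (ruleC_T y) s).add hM).add (Spl.map Gr CP CP CP (fun z _ => ruleC_CP z))
  refine sp.of_eq rfl (by simp) ?_
  simp only [Multiset.map_add, map_replicate]
  abel

theorem S_stripW (I j x y s k : ℕ) (N Gr : Multiset ℕ) (hx : x + y + 2 = I)
    (hG : GrOK I j x (replicate s (y + 1) + Gr)) (h1 : ∀ e ∈ N, e ≤ x)
    (h2 : k * (j + x) ≤ j * N.card + N.sum) :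
    S I j (s + k) (replicate s (T y 0) + N.map BP + Gr.map CP) := by
  exact S_stripW' I j x y s k (N.map BP) (N.map BP) Gr hx hG
    (Spl.mapR N BP (fun _ => CP 0) BP (fun e _ => (ruleC_BP e).symm)) (S_gpl hG k N h1 h2)

theorem St_final {I K B y J X TT G : ℕ} (R : ℕ) (hJ : 1 ≤ J) (hy : y ≤ X)
    (hc : K * (J + X) ≤ J * B + TT) (hR : 2 ≤ R) (hRI : R + 3 + (X - 1) / J ≤ I) (hG : G ≤ R * J)
    (hF : 2 * G + J + X ≤ I * J) : St I K B y J X 0 TT G := by
  refine ⟨by simpa using hF, fun Z N F hZ hN _ hNy hT hFF => ?_⟩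
  have hZ0 : Z = 0 := card_eq_zero.1 hZ
  subst hZ0
  have hg := grOK_std I J X 0 1 G F R hJ (by omega) hR hRI le_rfl (Or.inl (by omega)) (by simpa using hG)
  have hNB : N.card = B := by omega
  have h := S_gpl hg K N (fun e he => (hNy e he).trans hy) (by
    rw [hNB]; simp only [sum_zero, zero_add] at hT; omega)
  refine S.of_eq ?_ h
  simp only [Multiset.map_add, map_replicate, replicate_zero, Multiset.map_zero, zero_add]
  abel

theorem Strip_lift {δ : Type} (f : δ → ℕ) (A : Multiset ℕ) :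
    ∀ (s : Multiset δ) (B : Multiset ℕ), s.map f = A + B →
      ∃ s1 s2, s = s1 + s2 ∧ s1.map f = A ∧ s2.map f = B := by
  classical
  induction A using Multiset.induction_on with
  | empty => exact fun s B h => ⟨0, s, by simp, by simp, by simpa using h⟩
  | cons a A ih =>
    intro s B h
    rw [cons_add] at h
    obtain ⟨c, hc, hfc, hr⟩ := (Multiset.map_eq_cons f s (A + B) a).2 h
    obtain ⟨s1, s2, e, e1, e2⟩ := ih _ B hr
    refine ⟨c ::ₘ s1, s2, ?_, by rw [map_cons, hfc, e1], e2⟩
    rw [cons_add, ← e, cons_erase hc]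

theorem Strip_pool (Z2 N : Multiset ℕ) (n np E : ℕ) (hc : Z2.card + N.card = np + n)
    (hnp : 1 ≤ np) (hE : E * (np + n) ≤ (Z2.sum + N.sum) * np) :
    ∃ (QZ QN : Multiset (ℕ × ℕ)) (N2 : Multiset ℕ), QZ.map (fun q => q.1 + q.2) = Z2 ∧
      QN.map (fun q => q.1 + q.2) = N ∧
      QZ.map Prod.fst + QN.map Prod.fst = replicate n 0 + N2 ∧ N2.card = np ∧ N2.sum = E := by
  obtain ⟨P1, P2, hP, hP1, hav⟩ := avg_take (Z2 + N) n (by rw [card_add]; omega)
  have hP2 : P2.card = np := by
    have := congrArg Multiset.card hP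
    rw [card_add, card_add] at this
    omega
  rw [hP2, card_add, hc, sum_add] at hav
  have hE2 : E ≤ P2.sum := Nat.le_of_mul_le_mul_right (hE.trans hav) (by omega)
  obtain ⟨Q2, hQ2, hQE⟩ := tok_take P2 E hE2
  obtain ⟨QZ, QN, hQ, h1, h2⟩ := Strip_lift (fun q : ℕ × ℕ => q.1 + q.2) Z2
    (P1.map (fun e => (0, e)) + Q2) N (by
      rw [hP, Multiset.map_add, hQ2, Multiset.map_map]; simp)
  refine ⟨QZ, QN, Q2.map Prod.fst, h1, h2, ?_, ?_, hQE⟩
  · rw [← Multiset.map_add, ← hQ, Multiset.map_add, Multiset.map_map, ← hP1]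
    simp
  · rw [card_map, ← hP2, ← hQ2, card_map]

theorem Strip_one (I j x y u ν b k np E R f : ℕ) (N2 : Multiset ℕ)
    (hc : k * (j + x) ≤ j * np + E) (hN2c : N2.card = np) (hN2s : N2.sum = E)
    (hN2y : ∀ e ∈ N2, e ≤ x) (hj : 1 ≤ j) (hR : 2 ≤ R) (hyR : y + 1 ≤ R)
    (hRI : R + 3 + (x - 1) / j ≤ I) (hU : u * ν * y ≤ R * j)
    (hf : f + (y + 1) * (u * ν) + x + j = I * j)
    (hunit : (u = 1 ∧ b = 0 ∧ x + y + 2 = I) ∨ (u = j ∧ 2 ≤ j ∧ x + y + 2 = I + b ∧
      y + 5 + b / (j - 1) ≤ I ∧ (y + 1) * (u * ν) + x + 3 * j ≤ I * j)) :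
    S I j (u * ν + k) (replicate (u * ν) (T y 0) + replicate (ν * b) (BP 0) + N2.map BP +
      replicate f (CP 1)) := by
  have hg := grOK_std I j x (u * ν) (y + 1) 0 f R hj (by rw [mul_comm (u * ν)]; omega) hR hRI
    (by omega) (Or.inl hyR) (by simpa using hU)
  have hp := S_gpl hg k N2 hN2y (by rw [hN2c, hN2s]; exact hc)
  have h := S_peel I j y u b k ν 0 N2 (replicate f 1) (fun hν => ?_) (S.of_eq (by simp) hp)
  · exact S.of_eq (by simp) h
  obtain ⟨ν', rfl⟩ : ∃ ν', ν = ν' + 1 := ⟨ν - 1, by omega⟩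
  rw [show u * (ν' + 1) + 0 - u = u * ν' by rw [mul_add]; omega]
  have h0 : 0 ≤ (x - 1) / j := Nat.zero_le _
  rcases hunit with ⟨rfl, rfl, hx⟩ | ⟨rfl, h2, hx, hb, hF⟩
  · have h := S_col I j y (by omega) hj (replicate (1 * ν') (y + 1) + replicate f 1)
      (fun z hz => by
        rcases mem_add.1 hz with hz | hz <;> rw [eq_of_mem_replicate hz] <;> omega) (by
        simp only [sum_add, sum_replicate, smul_eq_mul]
        obtain ⟨j', rfl⟩ : ∃ j', j = j' + 1 := ⟨j - 1, by omega⟩
        subst hx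
        simp only [Nat.add_sub_cancel, show x + y + 2 - 1 = x + y + 1 by omega]
        nlinarith)
    exact S.of_eq (by simp) h
  · generalize hβ : b / (u - 1) = β at hb
    refine S_sql I u y b (replicate (u * ν') (y + 1) + replicate f 1) h2 (by omega)
      (fun z hz => ?_) ?_ ?_
    · rcases mem_add.1 hz with hz | hz <;> rw [eq_of_mem_replicate hz] <;> omega
    · simp only [card_add, card_replicate]
      omega
    · simp only [sum_add, sum_replicate, smul_eq_mul]
      have : (y + 1) * (u * (ν' + 1)) = u * (y + 1) + u * ν' * (y + 1) := by ring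
      omega

theorem St_step {I K B y J X s TT G : ℕ} (H : St I K B y J X s TT G) (j x u ν b k np E R : ℕ)
    (hk : u * ν + k = K) (hnp : np + ν * b + u * ν = B) (hnp1 : 1 ≤ np) (hsB : s + u * ν ≤ B)
    (hc : k * (j + x) ≤ j * np + E) (hyx : y ≤ x)
    (htok : E * (np + ν * b) ≤ (TT + E - y * (u * ν)) * np)
    (hj : 1 ≤ j) (hR : 2 ≤ R) (hyR : y + 1 ≤ R) (hRI : R + 3 + (x - 1) / j ≤ I)
    (hU : u * ν * y ≤ R * j) (hF : (y + 1) * (u * ν) + x + j ≤ I * j)
    (hunit : (u = 1 ∧ b = 0 ∧ x + y + 2 = I) ∨ (u = j ∧ 2 ≤ j ∧ x + y + 2 = I + b ∧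
      y + 5 + b / (j - 1) ≤ I ∧ (y + 1) * (u * ν) + x + 3 * j ≤ I * j)) :
    St I K B y (j + J) (x + X) (u * ν + s) (E + TT) G := by
  obtain ⟨f, hf⟩ : ∃ f, f + (y + 1) * (u * ν) + x + j = I * j :=
    ⟨I * j - ((y + 1) * (u * ν) + x + j), by omega⟩
  have eI : I * (j + J) = I * j + I * J := by ring
  have eY : (y + 1) * (u * ν + s) = (y + 1) * (u * ν) + (y + 1) * s := by ring
  have H1 := H.1
  refine ⟨by omega, fun Z N F hZ hN hZy hNy hT hFF => ?_⟩
  obtain ⟨Z1, Z2, rfl, hZ1⟩ := exists_split_card Z (u * ν) (by omega)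
  have hZ2 : Z2.card = s := by rw [card_add] at hZ; omega
  have hZ1y : ∀ z ∈ Z1, z ≤ y := fun z hz => hZy z (mem_add.2 (Or.inl hz))
  have hZ2y : ∀ z ∈ Z2, z ≤ y := fun z hz => hZy z (mem_add.2 (Or.inr hz))
  have hZ1s : Z1.sum ≤ y * (u * ν) := by
    have := Multiset.sum_le_card_nsmul Z1 y hZ1y
    rw [hZ1, smul_eq_mul, mul_comm] at this
    exact this
  rw [sum_add] at hT
  obtain ⟨QZ, QN, N2, rfl, rfl, hQ, hN2c, hN2s⟩ := Strip_pool Z2 N (ν * b) np E (by omega) hnp1
    (htok.trans (Nat.mul_le_mul_right _ (by omega)))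
  obtain ⟨F', rfl⟩ : ∃ F', F = f + F' := ⟨F - f, by omega⟩
  have hqZ : ∀ q ∈ QZ, q.1 + q.2 ≤ y := fun q hq => hZ2y _ (mem_map_of_mem _ hq)
  have hqN : ∀ q ∈ QN, q.1 + q.2 ≤ y := fun q hq => hNy _ (mem_map_of_mem _ hq)
  have hN2y : ∀ e ∈ N2, e ≤ x := by
    intro e he
    have he' : e ∈ QZ.map Prod.fst + QN.map Prod.fst := by rw [hQ]; exact mem_add.2 (Or.inr he)
    rcases mem_add.1 he' with h | h
    · obtain ⟨q, hq, rfl⟩ := mem_map.1 h
      have := hqZ q hq
      omega
    · obtain ⟨q, hq, rfl⟩ := mem_map.1 h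
      have := hqN q hq
      omega
  have hstrip := Strip_one I j x y u ν b k np E R f N2 hc hN2c hN2s hN2y hj hR hyR hRI hU hf hunit
  rw [hk] at hstrip
  have hsumQ : (QZ.map Prod.fst).sum + (QN.map Prod.fst).sum = E := by
    rw [← sum_add, hQ, sum_add, hN2s]; simp
  simp only [card_map] at hZ2 hN
  simp only [sum_map_add] at hT
  have hrest := H.2 (QZ.map Prod.snd) (Z1 + QN.map Prod.snd) F' (by simpa using hZ2)
    (by rw [card_add, card_map]; omega)
    (fun z hz => by
      obtain ⟨q, hq, rfl⟩ := mem_map.1 hz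
      have := hqZ q hq
      omega)
    (fun z hz => by
      rcases mem_add.1 hz with hz | hz
      · exact hZ1y z hz
      · obtain ⟨q, hq, rfl⟩ := mem_map.1 hz
        have := hqN q hq
        omega)
    (by
      rw [sum_add]
      change E + TT ≤ Z1.sum + ((QZ.map Prod.fst).sum + (QZ.map Prod.snd).sum) +
        ((QN.map Prod.fst).sum + (QN.map Prod.snd).sum) at hT
      omega)
    (by omega)
  refine S.splitB ?_ hstrip hrest
  have r1 : ∀ z ∈ Z1, Rule Dir.B (T (y - z) z) (T y 0) (BP z) := by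
    intro z hz
    have h := ruleB_T (y - z) 0 z
    rwa [zero_add, Nat.sub_add_cancel (hZ1y z hz)] at h
  have r2 : ∀ q ∈ QZ, Rule Dir.B (T (y - (q.1 + q.2)) (q.1 + q.2)) (BP q.1) (T (y - q.2) q.2) := by
    intro q hq
    have h := (ruleB_T (y - (q.1 + q.2)) q.2 q.1).symm
    have := hqZ q hq
    rwa [add_comm q.2 q.1, show y - (q.1 + q.2) + q.1 = y - q.2 by omega] at h
  have sp := (((((Spl.map Z1 (fun z => T (y - z) z) (fun _ => T y 0) BP r1).add
    (Spl.map QZ (fun q => T (y - (q.1 + q.2)) (q.1 + q.2)) (fun q => BP q.1)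
      (fun q => T (y - q.2) q.2) r2)).add
    (Spl.map QN (fun q => BP (q.1 + q.2)) (fun q => BP q.1) (fun q => BP q.2)
      (fun q _ => ruleB_BP q.1 q.2))).add (Spl.repR (ruleB_CP 2).symm G)).add
    (Spl.repL (ruleB_CP 1) f)).add (Spl.repR (ruleB_CP 1).symm F')
  refine sp.of_eq ?_ ?_ ?_
  · simp only [Multiset.map_add, Multiset.map_map, Function.comp_def, replicate_add]
    abel
  · have hQ' := congrArg (Multiset.map BP) hQ
    simp only [Multiset.map_add, Multiset.map_map, Function.comp_def, map_replicate] at hQ'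
    rw [map_const', hZ1, add_assoc (replicate (u * ν) (T y 0)), ← hQ']
    abel
  · simp only [Multiset.map_add, Multiset.map_map, Function.comp_def]
    abel

theorem St.mono {I K B y J X s TT TT' G : ℕ} (H : St I K B y J X s TT G) (h : TT ≤ TT') :
    St I K B y J X s TT' G := by
  exact ⟨H.1, fun Z N F h1 h2 h3 h4 h5 h6 => H.2 Z N F h1 h2 h3 h4 (h.trans h5) h6⟩

theorem S_of_St {I K B y J X TT G : ℕ} (s0 u b0 e F : ℕ) (H : St I K B y J X (s0 + u) TT G)
    (hy : 1 ≤ y) (hB : s0 + u + b0 + e = B) (hT : TT ≤ y * s0 + (y - 1) * u + e)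
    (hF : F + s0 + 2 * u + 2 * G + J + X = I * J) :
    S I J K (replicate s0 (T 0 0) + replicate u (T 1 0) + replicate b0 (BP 0) +
      replicate e (BP 1) + replicate G (CP 2) + replicate F (CP 1)) := by
  obtain ⟨y', rfl⟩ : ∃ y', y = y' + 1 := ⟨y - 1, by omega⟩
  rw [Nat.add_sub_cancel] at hT
  have H1 := H.1
  have eY : (y' + 1 + 1) * (s0 + u) = s0 * (y' + 1) + u * y' + s0 + 2 * u := by ring
  obtain ⟨F', rfl⟩ : ∃ F', F = s0 * (y' + 1) + u * y' + F' :=
    ⟨F - (s0 * (y' + 1) + u * y'), by omega⟩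
  have h := H.2 (replicate s0 (y' + 1) + replicate u y') (replicate b0 0 + replicate e 1) F'
    (by simp) (by simp; omega)
    (fun z hz => by
      rcases mem_add.1 hz with hz | hz <;> rw [eq_of_mem_replicate hz] <;> omega)
    (fun z hz => by
      rcases mem_add.1 hz with hz | hz <;> rw [eq_of_mem_replicate hz] <;> omega)
    (by
      simp only [sum_add, sum_replicate, smul_eq_mul]
      rw [mul_comm s0, mul_comm u]
      omega)
    (by omega)
  simp only [Multiset.map_add, map_replicate, Nat.sub_self, Nat.add_sub_cancel_left] at h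
  have h1 := S.hingeT s0 0 (y' + 1) (replicate u (T 1 y') + (replicate b0 (BP 0) +
    replicate e (BP 1)) + replicate G (CP 2) + replicate F' (CP 1)) (S.of_eq (by abel) h)
  have h2 := S.hingeT u 1 y' (replicate s0 (T 0 0) + replicate (s0 * (y' + 1)) (CP 1) +
    (replicate b0 (BP 0) + replicate e (BP 1)) + replicate G (CP 2) + replicate F' (CP 1))
    (S.of_eq (by abel) h1)
  refine S.of_eq ?_ h2
  simp only [replicate_add]
  abel

end Pool.Agent.Work.MP_f4b644_ag.Big
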