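import Pool.Agent.Work.MP_f4b644_ag.Big.Levels
import Pool.Agent.Work.MP_f4b644_ag.Big.BlkU

/-!
Formats with 2000 I ≤ J ≤ K ≤ 2 * 10^6 * J.

`u1_block` (arithmetic for one block of a super-strip of height J with S tangents, r points, K columns;
the block has Kb columns, sb tangents, Bb points): S ≥ 0.45 I J, r ≥ 5 S / 3, r ≤ 5 S / 2, and the error terms
(10^7, 10^8 I) are negligible since J ≥ 900 I, I ≥ 10^12. c8 uses Bb J ≤ v Kb + π ≤ 0.55 I J Kb + 10^7 J.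
`u1_par` (both signs at once: c1 = 1, c2 = 0 for the first super-strip, c1 = 0, c2 = 1 for the second):
Ka = K / 3001, sa = S / 3001, u0 = (π + 2999) / 3000, u ∈ [u0, u0 + J) with
v Ka + c1 u ≡ m sa + c2 u mod J, Ba = (v Ka + c1 u - m sa - c2 u) / J (positive: v Ka ≥ m sa + π because
v K ≥ J r + m S - 2 π - 3 K); KL = K - 3000 Ka, sL = S - 3000 sa, uL = 2 π - 3000 u, BL = r - 3000 Ba.
3001 Ba J lies between J r - 3000 v - 3003 π - 3 K and J r + 3003 π + 3000 m, so |3001 Ba - r| ≤ 3001 I and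
|3001 BL - r| ≤ 3000 * 3001 I.
`S_super1`, `S_super2`: `u1_par`, `u1_block` for both kinds of blocks, `S_blkU`, `S_blocks` with
(Pi, U, O) = (TT 0, T 1 0, CP 2), plain tangents sa - u, sL - uL, resp. (PB 0 true, BP 1, CP 0), plain
B-fibres Ba - sa - u, BL - sL - uL (`S.mono` to add the empty gadgets CP 0).
`S_u1`: j = J / 4, J1 = 2 j, J2 = J - J1, π0 = 3000 (J + 1), σ = ceiling of (I j K + π0 - j r) / (m + K),
S1 = 2 σ, π = j r + (m + K) σ - I j K ∈ [π0, π0 + m + K), S2 = r - S1, v1 = I J1 - S1, v2 = I J2 - S2.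
With σ0 = r τ - v K ≤ 3 K one has J (I K - r) = r (m + K) - σ0, hence
J1 r ≤ S1 J + 2 J and S1 J ≤ J1 r + 6100 J; 1000 v ≤ 501 I J from v (τ + K) ≤ I J τ.
-/

set_option autoImplicit false

namespace Pool.Agent.Work.MP_f4b644_ag.Big

open Multiset Gad

theorem u1_block (I J K v S r π Kb sb Bb : ℕ) (hI : 10 ^ 12 ≤ I) (hJ : 900 * I ≤ J)
    (hK0 : 2000 * I ≤ K) (hK1 : J ≤ K) (hK2 : K ≤ 5 * 10 ^ 6 * J) (hv : v + S = I * J)
    (hv2 : 20 * v ≤ 11 * I * J) (hr1 : 2 * r ≤ 5 * S) (hr2 : 5 * S ≤ 3 * r) (hπ : π ≤ 10 ^ 7 * J)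
    (k1 : K ≤ 3001 * Kb + 10 ^ 7) (k2 : 3001 * Kb ≤ K + 10 ^ 7)
    (s1 : S ≤ 3001 * sb + 10 ^ 7) (s2 : 3001 * sb ≤ S + 10 ^ 7)
    (b1 : r ≤ 3001 * Bb + 10 ^ 8 * I) (b2 : 3001 * Bb ≤ r + 10 ^ 8 * I)
    (hc : Bb * J ≤ v * Kb + π + 3 * K) :
    π ≤ sb ∧ sb + π ≤ Bb ∧ Kb ≤ sb ∧ Bb ≤ 3 * sb ∧ J ≤ sb ∧ 2100 * sb ≤ I * J ∧
      1000 * sb ≤ Kb * J ∧ 3 * sb * I + 6 * J * I + Kb * J ≤ Bb * J ∧ 5 * Bb ≤ 3 * I * Kb ∧
      100 * π ≤ I * J ∧ 3 * K ≤ 10 * sb ∧ J ≤ v := by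
  have hP1 : 10 ^ 12 * J ≤ I * J := Nat.mul_le_mul_right J hI
  have hJ0 : 10 ^ 14 ≤ J := by omega
  have hP2 : I * 10 ^ 14 ≤ I * J := Nat.mul_le_mul_left I hJ0
  rw [mul_assoc] at hv2
  have g7 : 1000 * sb ≤ Kb * J := by
    have e1 : K * J ≤ (3001 * Kb + 10 ^ 7) * J := Nat.mul_le_mul_right J k1
    have e2 : 2000 * I * J ≤ K * J := Nat.mul_le_mul_right J hK0
    rw [add_mul, mul_assoc] at e1
    rw [mul_assoc] at e2
    omega
  have g8 : 3 * sb * I + 6 * J * I + Kb * J ≤ Bb * J := by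
    have e1 : 3001 * sb * I ≤ (S + 10 ^ 7) * I := Nat.mul_le_mul_right I s2
    have e2 : 3001 * Kb * J ≤ (5 * 10 ^ 6 * J + 10 ^ 7) * J :=
      Nat.mul_le_mul_right J (by omega)
    have e3 : r * J ≤ (3001 * Bb + 10 ^ 8 * I) * J := Nat.mul_le_mul_right J b1
    have e4 : 5 * S * J ≤ 3 * r * J := Nat.mul_le_mul_right J hr2
    have e5 : S * (900 * I) ≤ S * J := Nat.mul_le_mul_left S hJ
    have e6 : 9 * (I * J) * J ≤ 20 * S * J := Nat.mul_le_mul_right J (by omega)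
    have e7 : 10 ^ 12 * J * J ≤ I * J * J := Nat.mul_le_mul_right J hP1
    have e8 : I * J * 10 ^ 14 ≤ I * J * J := Nat.mul_le_mul_left _ hJ0
    have e9 : 10 ^ 14 * J ≤ J * J := Nat.mul_le_mul_right J hJ0
    have f1 : 3001 * sb * I = 3001 * (sb * I) := by ring
    have f2 : (S + 10 ^ 7) * I = S * I + 10 ^ 7 * I := by ring
    have f3 : 3001 * Kb * J = 3001 * (Kb * J) := by ring
    have f4 : (5 * 10 ^ 6 * J + 10 ^ 7) * J = 5 * 10 ^ 6 * (J * J) + 10 ^ 7 * J := by ring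
    have f5 : (3001 * Bb + 10 ^ 8 * I) * J = 3001 * (Bb * J) + 10 ^ 8 * (I * J) := by ring
    have f6 : 5 * S * J = 5 * (S * J) := by ring
    have f7 : 3 * r * J = 3 * (r * J) := by ring
    have f8 : S * (900 * I) = 900 * (S * I) := by ring
    have f9 : 9 * (I * J) * J = 9 * (I * J * J) := by ring
    have f10 : 20 * S * J = 20 * (S * J) := by ring
    have f11 : 10 ^ 12 * J * J = 10 ^ 12 * (J * J) := by ring
    have f12 : 3 * sb * I = 3 * (sb * I) := by ring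
    have f13 : 6 * J * I = 6 * (I * J) := by ring
    omega
  have hKb : 1 ≤ Kb := by omega
  have g9 : 5 * Bb ≤ 3 * I * Kb := by
    have e1 : 20 * v * Kb ≤ 11 * (I * J) * Kb := Nat.mul_le_mul_right Kb hv2
    have e2 : I * 1 ≤ I * Kb := Nat.mul_le_mul_left I hKb
    have e3 : 20 * Bb * J ≤ (11 * (I * Kb) + 5 * 10 ^ 8) * J := by
      have f1 : 20 * v * Kb = 20 * (v * Kb) := by ring
      have f2 : 11 * (I * J) * Kb = 11 * (I * Kb * J) := by ring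
      have f3 : 20 * Bb * J = 20 * (Bb * J) := by ring
      have f4 : (11 * (I * Kb) + 5 * 10 ^ 8) * J = 11 * (I * Kb * J) + 5 * 10 ^ 8 * J := by ring
      omega
    have e4 := Nat.le_of_mul_le_mul_right e3 (by omega)
    rw [mul_assoc]
    omega
  have g12 : J ≤ v := by
    by_contra hlt
    have e1 : v * Kb ≤ J * Kb := Nat.mul_le_mul_right Kb (by omega)
    have e2 : Bb * J ≤ (Kb + 25 * 10 ^ 6) * J := by
      have f1 : (Kb + 25 * 10 ^ 6) * J = J * Kb + 25 * 10 ^ 6 * J := by ring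
      omega
    have e3 := Nat.le_of_mul_le_mul_right e2 (by omega)
    omega
  refine ⟨by omega, by omega, by omega, by omega, by omega, by omega, g7, g8, g9, by omega,
    by omega, g12⟩

theorem U1_ceil (X N : ℕ) (hN : 1 ≤ N) : ∃ q : ℕ, X ≤ N * q ∧ N * q < X + N := by
  have h1 := Nat.div_add_mod (X + N - 1) N
  have h2 := Nat.mod_lt (X + N - 1) (show 0 < N by omega)
  exact ⟨(X + N - 1) / N, by omega, by omega⟩

theorem u1_par (I J K v S r π m c1 c2 : ℕ) (hI : 10 ^ 12 ≤ I) (hm : m + 2 = I) (hJ : 900 * I ≤ J)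
    (hK1 : J ≤ K) (hK2 : K ≤ 5 * 10 ^ 6 * J) (hv : v + S = I * J)
    (hv2 : 20 * v ≤ 11 * I * J) (hr1 : 2 * r ≤ 5 * S) (hr2 : 5 * S ≤ 3 * r)
    (hπ0 : 3000 * (J + 1) ≤ π) (hπ : π ≤ 10 ^ 7 * J) (hc : c1 + c2 = 1)
    (h1 : v * K + c1 * (2 * π) ≤ J * r + m * S + c2 * (2 * π))
    (h2 : J * r + m * S + c2 * (2 * π) ≤ v * K + c1 * (2 * π) + 3 * K) :
    ∃ Ka KL sa sL u uL Ba BL : ℕ, 3000 * Ka + KL = K ∧ 3000 * sa + sL = S ∧
      3000 * u + uL = 2 * π ∧ 3000 * Ba + BL = r ∧ u ≤ π ∧ uL ≤ π ∧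
      v * Ka + c1 * u = J * Ba + m * sa + c2 * u ∧
      Ka ≤ KL ∧ KL ≤ Ka + 3000 ∧ sa ≤ sL ∧ sL ≤ sa + 3000 ∧
      r ≤ 3001 * Ba + 3001 * I ∧ 3001 * Ba ≤ r + 3001 * I := by
  have hP1 : 10 ^ 12 * J ≤ I * J := Nat.mul_le_mul_right J hI
  have hJ0 : 10 ^ 14 ≤ J := by omega
  have hP2 : I * 10 ^ 14 ≤ I * J := Nat.mul_le_mul_left I hJ0
  rw [mul_assoc] at hv2
  obtain ⟨Ka, ρ, hρ, rfl⟩ : ∃ Ka ρ : ℕ, ρ ≤ 3000 ∧ K = 3001 * Ka + ρ :=
    ⟨K / 3001, K % 3001, by omega, by omega⟩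
  obtain ⟨sa, η, hη, rfl⟩ : ∃ sa η : ℕ, η ≤ 3000 ∧ S = 3001 * sa + η :=
    ⟨S / 3001, S % 3001, by omega, by omega⟩
  obtain ⟨u0, hu0, hu1⟩ : ∃ u0 : ℕ, π ≤ 3000 * u0 ∧ 3000 * u0 ≤ π + 2999 :=
    ⟨(π + 2999) / 3000, by omega, by omega⟩
  have f1 : v * (3001 * Ka + ρ) = 3001 * (v * Ka) + v * ρ := by ring
  have f2 : m * (3001 * sa + η) = 3001 * (m * sa) + m * η := by ring
  have e1 : v * ρ ≤ v * 3000 := Nat.mul_le_mul_left v hρ
  have e2 : m * η ≤ m * 3000 := Nat.mul_le_mul_left m hη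
  have e3 : J * (10 ^ 11 + 2000 * I) ≤ J * r := Nat.mul_le_mul_left J (by omega)
  have f3 : J * (10 ^ 11 + 2000 * I) = 10 ^ 11 * J + 2000 * (I * J) := by ring
  have key : ∃ u Ba : ℕ, u0 ≤ u ∧ u < u0 + J ∧ v * Ka + c1 * u = J * Ba + m * sa + c2 * u ∧
      J * r ≤ 3001 * (J * Ba) + 1650 * (I * J) + 3 * 10 ^ 7 * J ∧
      3001 * (J * Ba) ≤ J * r + 2 * 10 ^ 7 * J := by
    obtain ⟨rfl, rfl⟩ | ⟨rfl, rfl⟩ : (c1 = 1 ∧ c2 = 0) ∨ (c1 = 0 ∧ c2 = 1) := by omega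
    · obtain ⟨X, hX⟩ : ∃ X : ℕ, v * Ka + u0 = m * sa + X := ⟨v * Ka + u0 - m * sa, by omega⟩
      obtain ⟨q, hq1, hq2⟩ := U1_ceil X J (by omega)
      exact ⟨u0 + (J * q - X), q, by omega, by omega, by omega, by omega, by omega⟩
    · obtain ⟨X, hX⟩ : ∃ X : ℕ, v * Ka = m * sa + u0 + X := ⟨v * Ka - m * sa - u0, by omega⟩
      have hq1 := Nat.div_add_mod X J
      have hq2 := Nat.mod_lt X (show 0 < J by omega)
      exact ⟨u0 + X % J, X / J, by omega, by omega, by omega, by omega, by omega⟩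
  obtain ⟨u, Ba, k1, k2, k3, k4, k5⟩ := key
  have b1 : r ≤ 3001 * Ba + 1650 * I + 3 * 10 ^ 7 := by
    refine Nat.le_of_mul_le_mul_left (c := J) ?_ (by omega)
    have f : J * (3001 * Ba + 1650 * I + 3 * 10 ^ 7)
        = 3001 * (J * Ba) + 1650 * (I * J) + 3 * 10 ^ 7 * J := by ring
    omega
  have b2 : 3001 * Ba ≤ r + 2 * 10 ^ 7 := by
    refine Nat.le_of_mul_le_mul_left (c := J) ?_ (by omega)
    have f : J * (3001 * Ba) = 3001 * (J * Ba) := by ring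
    have f' : J * (r + 2 * 10 ^ 7) = J * r + 2 * 10 ^ 7 * J := by ring
    omega
  refine ⟨Ka, Ka + ρ, sa, sa + η, u, 2 * π - 3000 * u, Ba, r - 3000 * Ba, by omega, by omega,
    by omega, by omega, by omega, by omega, k3, by omega, by omega, by omega, by omega, by omega,
    by omega⟩

theorem U1_blk1 (I J Kb v sb u Bb π m F : ℕ) {K : ℕ} (hI : 10 ^ 12 ≤ I) (hm : m + 2 = I)
    (hJ : I ≤ J)
    (c : π ≤ sb ∧ sb + π ≤ Bb ∧ Kb ≤ sb ∧ Bb ≤ 3 * sb ∧ J ≤ sb ∧ 2100 * sb ≤ I * J ∧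
      1000 * sb ≤ Kb * J ∧ 3 * sb * I + 6 * J * I + Kb * J ≤ Bb * J ∧ 5 * Bb ≤ 3 * I * Kb ∧
      100 * π ≤ I * J ∧ 3 * K ≤ 10 * sb ∧ J ≤ v) (hu : u ≤ π)
    (hv : v + F + (sb - u) + 2 * π = I * J) (he : v * Kb + u = J * Bb + m * sb) :
    S I J Kb (replicate (sb - u) (T 0 0) + replicate (Bb - sb) (BP 0) + replicate u (T 1 0) +
      replicate (π - u) (CP 2) + replicate F (CP 1)) := by
  obtain ⟨c1, c2, c3, c4, c5, c6, c7, c8, c9, c10, c11, c12⟩ := c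
  obtain ⟨t, rfl⟩ : ∃ t : ℕ, Bb = Kb + t := ⟨Bb - Kb, by omega⟩
  obtain ⟨s0, rfl⟩ : ∃ s0 : ℕ, sb = s0 + u := ⟨sb - u, by omega⟩
  obtain rfl : m = I - 2 := by omega
  rw [add_mul Kb t J] at c8
  have H := S_blkU I J Kb t v s0 u (Kb + t - (s0 + u)) 0 (π - u) F (by omega) hJ (by omega)
    (by omega) c12 (by omega) (by omega) (by omega) c3 c4 c5 c6 c7 (by omega) (by omega) (by omega)
  rw [Nat.add_sub_cancel]
  refine S.of_eq ?_ H
  rw [replicate_zero]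
  abel

theorem U1_blk2 (I J Kb v sb u Bb π m F : ℕ) {K : ℕ} (hI : 10 ^ 12 ≤ I) (hm : m + 2 = I)
    (hJ : I ≤ J)
    (c : π ≤ sb ∧ sb + π ≤ Bb ∧ Kb ≤ sb ∧ Bb ≤ 3 * sb ∧ J ≤ sb ∧ 2100 * sb ≤ I * J ∧
      1000 * sb ≤ Kb * J ∧ 3 * sb * I + 6 * J * I + Kb * J ≤ Bb * J ∧ 5 * Bb ≤ 3 * I * Kb ∧
      100 * π ≤ I * J ∧ 3 * K ≤ 10 * sb ∧ J ≤ v) (hu : u ≤ π)
    (hv : v + F + sb = I * J) (he : v * Kb ≤ J * Bb + m * sb + u)
    (he' : J * Bb + m * sb + u ≤ v * Kb + 3 * K) :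
    S I J Kb (replicate sb (T 0 0) + replicate (Bb - sb - u) (BP 0) + replicate u (BP 1) +
      replicate (π - u) (CP 0) + replicate F (CP 1)) := by
  obtain ⟨c1, c2, c3, c4, c5, c6, c7, c8, c9, c10, c11, c12⟩ := c
  obtain ⟨t, rfl⟩ : ∃ t : ℕ, Bb = Kb + t := ⟨Bb - Kb, by omega⟩
  obtain rfl : m = I - 2 := by omega
  rw [add_mul Kb t J] at c8
  have H := S_blkU I J Kb t v sb 0 (Kb + t - sb - u) u 0 F (by omega) hJ (by omega)
    (by omega) c12 (by rw [add_zero sb]; omega) (by rw [add_zero sb]; omega) (by omega) c3 c4 c5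
    c6 c7 (by rw [add_zero sb]; omega) (by omega) (by omega)
  refine S.mono ?_ H
  rw [replicate_zero, replicate_zero, add_zero, add_zero]
  exact add_le_add (le_add_right _ _) le_rfl

theorem U1_lin (I K S r Ka KL sa sL Ba BL : ℕ) (q1 : 3000 * Ka + KL = K) (q2 : 3000 * sa + sL = S)
    (q4 : 3000 * Ba + BL = r) (q8 : Ka ≤ KL) (q9 : KL ≤ Ka + 3000) (q10 : sa ≤ sL)
    (q11 : sL ≤ sa + 3000) (q12 : r ≤ 3001 * Ba + 3001 * I) (q13 : 3001 * Ba ≤ r + 3001 * I) :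
    K ≤ 3001 * Ka + 10 ^ 7 ∧ 3001 * Ka ≤ K + 10 ^ 7 ∧ S ≤ 3001 * sa + 10 ^ 7 ∧
      3001 * sa ≤ S + 10 ^ 7 ∧ r ≤ 3001 * Ba + 10 ^ 8 * I ∧ 3001 * Ba ≤ r + 10 ^ 8 * I ∧
      K ≤ 3001 * KL + 10 ^ 7 ∧ 3001 * KL ≤ K + 10 ^ 7 ∧ S ≤ 3001 * sL + 10 ^ 7 ∧
      3001 * sL ≤ S + 10 ^ 7 ∧ r ≤ 3001 * BL + 10 ^ 8 * I ∧ 3001 * BL ≤ r + 10 ^ 8 * I := by
  refine ⟨by omega, by omega, by omega, by omega, by omega, by omega, by omega, by omega, by omega,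
    by omega, by omega, by omega⟩

theorem S_super1 (I J K v a b r π m : ℕ) (hI : 10 ^ 12 ≤ I) (hm : m + 2 = I) (hJ : 900 * I ≤ J)
    (hK0 : 2000 * I ≤ K) (hK1 : J ≤ K) (hK2 : K ≤ 5 * 10 ^ 6 * J) (hv : v + (a + 2 * π) = I * J)
    (hr : a + 2 * π + b = r) (hv2 : 20 * v ≤ 11 * I * J) (hr1 : 2 * r ≤ 5 * (a + 2 * π))
    (hr2 : 5 * (a + 2 * π) ≤ 3 * r) (hπ0 : 3000 * (J + 1) ≤ π) (hπ : π ≤ 10 ^ 7 * J)
    (h1 : v * K + 2 * π = J * r + m * (a + 2 * π)) :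
    S I J K (replicate a (T 0 0) + replicate b (BP 0) + replicate π (TT 0)) := by
  obtain ⟨Ka, KL, sa, sL, u, uL, Ba, BL, q1, q2, q3, q4, q5, q6, q7, q8, q9, q10, q11, q12, q13⟩ :=
    u1_par I J K v (a + 2 * π) r π m 1 0 hI hm hJ hK1 hK2 hv hv2 hr1 hr2 hπ0 hπ rfl
      (by omega) (by omega)
  have qL : v * KL + uL = J * BL + m * sL := by
    have f1 : v * K = 3000 * (v * Ka) + v * KL := by rw [← q1]; ring
    have f2 : J * r = 3000 * (J * Ba) + J * BL := by rw [← q4]; ring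
    have f3 : m * (a + 2 * π) = 3000 * (m * sa) + m * sL := by rw [← q2]; ring
    clear * - f1 f2 f3 q7 q3 h1
    omega
  obtain ⟨z1, z2, z3, z4, z5, z6, z7, z8, z9, z10, z11, z12⟩ :=
    U1_lin I K (a + 2 * π) r Ka KL sa sL Ba BL q1 q2 q4 q8 q9 q10 q11 q12 q13
  rw [one_mul, zero_mul, add_zero] at q7
  have ca := u1_block I J K v (a + 2 * π) r π Ka sa Ba hI hJ hK0 hK1 hK2 hv hv2 hr1 hr2 hπ
    z1 z2 z3 z4 z5 z6 (by rw [mul_comm Ba J]; clear * - q7 q5; omega)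
  have cL := u1_block I J K v (a + 2 * π) r π KL sL BL hI hJ hK0 hK1 hK2 hv hv2 hr1 hr2 hπ
    z7 z8 z9 z10 z11 z12 (by rw [mul_comm BL J]; clear * - qL q6; omega)
  have x1 := ca.1
  have x2 := ca.2.1
  have x3 := cL.1
  have x4 := cL.2.1
  have hIJ : I ≤ J := by clear * - hJ; omega
  have g1 : 3000 * (sa - u) + (sL - uL) = a := by clear * - q2 q3 q5 q6 x1 x3; omega
  have g2 : 3000 * (Ba - sa) + (BL - sL) = b := by clear * - q2 q4 hr x2 x4; omega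
  have ha := U1_blk1 I J Ka v sa u Ba π m (3000 * (sa - u) + (sL - uL) - (sa - u)) hI hm
    hIJ ca q5 (by clear * - g1 hv; omega) q7
  have hL := U1_blk1 I J KL v sL uL BL π m (3000 * (sa - u)) hI hm
    hIJ cL q6 (by clear * - g1 hv; omega) qL
  have H := S_blocks I J Ka KL (sa - u) (sL - uL) (Ba - sa) (BL - sL) u uL π 3000 (TT 0) (T 1 0)
    (CP 2) (ruleC_TT 0) (ruleC_TT' 0) (ruleC_T 1) (ruleC_CP 2) q5 q6 q3 ha hL (by norm_num)
  rw [q1, g1, g2] at H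
  exact H

theorem S_super2 (I J K v a b r π m : ℕ) (hI : 10 ^ 12 ≤ I) (hm : m + 2 = I) (hJ : 900 * I ≤ J)
    (hK0 : 2000 * I ≤ K) (hK1 : J ≤ K) (hK2 : K ≤ 5 * 10 ^ 6 * J) (hv : v + a = I * J)
    (hr : a + 2 * π + b = r) (hv2 : 20 * v ≤ 11 * I * J) (hr1 : 2 * r ≤ 5 * a)
    (hr2 : 5 * a ≤ 3 * r) (hπ0 : 3000 * (J + 1) ≤ π) (hπ : π ≤ 10 ^ 7 * J)
    (h1 : v * K ≤ J * r + m * a + 2 * π) (h2 : J * r + m * a + 2 * π ≤ v * K + 3 * K) :
    S I J K (replicate a (T 0 0) + replicate b (BP 0) + replicate π (PB 0 true)) := by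
  obtain ⟨Ka, KL, sa, sL, u, uL, Ba, BL, q1, q2, q3, q4, q5, q6, q7, q8, q9, q10, q11, q12, q13⟩ :=
    u1_par I J K v a r π m 0 1 hI hm hJ hK1 hK2 hv hv2 hr1 hr2 hπ0 hπ rfl
      (by omega) (by omega)
  have f1 : v * K = 3000 * (v * Ka) + v * KL := by rw [← q1]; ring
  have f2 : J * r = 3000 * (J * Ba) + J * BL := by rw [← q4]; ring
  have f3 : m * a = 3000 * (m * sa) + m * sL := by rw [← q2]; ring
  obtain ⟨z1, z2, z3, z4, z5, z6, z7, z8, z9, z10, z11, z12⟩ :=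
    U1_lin I K a r Ka KL sa sL Ba BL q1 q2 q4 q8 q9 q10 q11 q12 q13
  rw [one_mul, zero_mul, add_zero] at q7
  have qL : v * KL ≤ J * BL + m * sL + uL := by clear * - f1 f2 f3 q7 q3 h1; omega
  have qL' : J * BL + m * sL + uL ≤ v * KL + 3 * K := by clear * - f1 f2 f3 q7 q3 h2; omega
  have ca := u1_block I J K v a r π Ka sa Ba hI hJ hK0 hK1 hK2 hv hv2 hr1 hr2 hπ
    z1 z2 z3 z4 z5 z6 (by rw [mul_comm Ba J]; clear * - q7; omega)
  have cL := u1_block I J K v a r π KL sL BL hI hJ hK0 hK1 hK2 hv hv2 hr1 hr2 hπ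
    z7 z8 z9 z10 z11 z12 (by rw [mul_comm BL J]; clear * - qL'; omega)
  have x2 := ca.2.1
  have x4 := cL.2.1
  have hIJ : I ≤ J := by clear * - hJ; omega
  have ha := U1_blk2 I J Ka v sa u Ba π m (3000 * sa + sL - sa) hI hm
    hIJ ca q5 (by clear * - q2 hv; omega) q7.le (by clear * - q7; omega)
  have hL := U1_blk2 I J KL v sL uL BL π m (3000 * sa) hI hm
    hIJ cL q6 (by clear * - q2 hv; omega) qL qL'
  have H := S_blocks I J Ka KL sa sL (Ba - sa - u) (BL - sL - uL) u uL π 3000 (PB 0 true) (BP 1)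
    (CP 0) (ruleC_PBt 0) (ruleC_PB' 0 true) (ruleC_BP 1) (ruleC_CP 0) q5 q6 q3 ha hL (by norm_num)
  have g2 : 3000 * (Ba - sa - u) + (BL - sL - uL) = b := by
    clear * - q2 q3 q4 q5 q6 hr x2 x4; omega
  rw [q1, q2, g2] at H
  exact H

theorem u1_top (I J K v r m : ℕ) (hI : 10 ^ 12 ≤ I) (hm : m + 2 = I) (hJ : 2000 * I ≤ J)
    (hK1 : J ≤ K) (hK2 : K ≤ 2 * 10 ^ 6 * J) (hv : r + v = I * J)
    (h1 : v * K ≤ r * (J + m)) (h2 : r * (J + m) ≤ v * K + (J + m + K)) :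
    ∃ J1 J2 a1 S2 π v1 v2 : ℕ, J1 + J2 = J ∧ 2 * π + a1 + S2 = r ∧ 900 * I ≤ J1 ∧ 900 * I ≤ J2 ∧
      K ≤ 5 * 10 ^ 6 * J1 ∧ K ≤ 5 * 10 ^ 6 * J2 ∧ v1 + (a1 + 2 * π) = I * J1 ∧ v2 + S2 = I * J2 ∧
      20 * v1 ≤ 11 * I * J1 ∧ 20 * v2 ≤ 11 * I * J2 ∧ 2 * r ≤ 5 * (a1 + 2 * π) ∧
      5 * (a1 + 2 * π) ≤ 3 * r ∧ 2 * r ≤ 5 * S2 ∧ 5 * S2 ≤ 3 * r ∧ 3000 * (J + 1) ≤ π ∧
      π ≤ 10 ^ 7 * J1 ∧ π ≤ 10 ^ 7 * J2 ∧ v1 * K + 2 * π = J1 * r + m * (a1 + 2 * π) ∧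
      v2 * K ≤ J2 * r + m * S2 + 2 * π ∧ J2 * r + m * S2 + 2 * π ≤ v2 * K + 3 * K := by
  have hP1 : 10 ^ 12 * J ≤ I * J := Nat.mul_le_mul_right J hI
  have hvr : 2000 * v ≤ 2001 * r := by
    refine Nat.le_of_mul_le_mul_right (c := K) ?_ (by omega)
    have e1 : r * (2000 * (J + m)) ≤ r * (2001 * K) := Nat.mul_le_mul_left r (by omega)
    have f1 : r * (2000 * (J + m)) = 2000 * (r * (J + m)) := by ring
    have f2 : r * (2001 * K) = 2001 * r * K := by ring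
    have f3 : 2000 * v * K = 2000 * (v * K) := by ring
    omega
  have hJv : J ≤ v := by
    by_contra hlt
    have e1 : v * K ≤ J * K := Nat.mul_le_mul_right K (by omega)
    have e2 : 3 * K ≤ J * K := Nat.mul_le_mul_right K (by omega)
    have e3 : J * r ≤ J * (2 * K) := by
      have f1 : r * (J + m) = J * r + r * m := by ring
      have f2 : J * (2 * K) = 2 * (J * K) := by ring
      omega
    have e4 := Nat.le_of_mul_le_mul_left e3 (by omega)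
    omega
  obtain ⟨j, e, he, hj⟩ : ∃ j e : ℕ, e ≤ 3 ∧ J = 4 * j + e := ⟨J / 4, J % 4, by omega, by omega⟩
  obtain ⟨σ0, hσ0⟩ : ∃ σ0 : ℕ, v * K + σ0 = r * (J + m) := ⟨r * (J + m) - v * K, by omega⟩
  obtain ⟨X, hX⟩ : ∃ X : ℕ, j * r + X = I * j * K + 3000 * (J + 1) := by
    have e1 : I * J ≤ I * K := Nat.mul_le_mul_left I hK1
    have e2 : j * r ≤ j * (I * K) := Nat.mul_le_mul_left j (by omega)
    have f1 : j * (I * K) = I * j * K := by ring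
    exact ⟨I * j * K + 3000 * (J + 1) - j * r, by omega⟩
  obtain ⟨σ, hσ1, hσ2⟩ := U1_ceil X (m + K) (by omega)
  obtain ⟨π, hπ⟩ : ∃ π : ℕ, (m + K) * σ + j * r = I * j * K + π :=
    ⟨(m + K) * σ + j * r - I * j * K, by omega⟩
  have hπ1 : 3000 * (J + 1) ≤ π := by omega
  have hπ2 : π ≤ 3000 * (J + 1) + (m + K) := by omega
  have hmain : (m + K) * (J * σ) + j * σ0 = (m + K) * (j * r) + π * J := by
    have e1 : J * ((m + K) * σ + j * r) = J * (I * j * K + π) := by rw [hπ]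
    have e2 : j * (v * K + σ0) = j * (r * (J + m)) := by rw [hσ0]
    have e3 : j * K * (r + v) = j * K * (I * J) := by rw [hv]
    zify at e1 e2 e3 ⊢
    linear_combination e1 + e2 - e3
  have hup : J * σ ≤ j * r + 3001 * J := by
    refine Nat.le_of_mul_le_mul_left (c := m + K) ?_ (by omega)
    have e1 : π * J ≤ 3001 * (m + K) * J := Nat.mul_le_mul_right J (by omega)
    have f1 : (m + K) * (j * r + 3001 * J) = (m + K) * (j * r) + 3001 * (m + K) * J := by ring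
    omega
  have hlo : j * r ≤ J * σ + J := by
    refine Nat.le_of_mul_le_mul_left (c := m + K) ?_ (by omega)
    have e1 : j * σ0 ≤ j * (2 * (m + K)) := Nat.mul_le_mul_left j (by omega)
    have e2 : (m + K) * (2 * j) ≤ (m + K) * J := Nat.mul_le_mul_left _ (by omega)
    have f1 : j * (2 * (m + K)) = (m + K) * (2 * j) := by ring
    have f2 : (m + K) * (J * σ + J) = (m + K) * (J * σ) + (m + K) * J := by ring
    omega
  have hJr : J * r = 4 * (j * r) + e * r := by rw [hj]; ring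
  have her : e * r ≤ 3 * r := Nat.mul_le_mul_right r he
  have hjr : 10 ^ 6 * r ≤ j * r := Nat.mul_le_mul_right r (by omega)
  have t1 : r ≤ 5 * σ := by
    refine Nat.le_of_mul_le_mul_left (c := J) ?_ (by omega)
    have f1 : J * (5 * σ) = 5 * (J * σ) := by ring
    omega
  have t2 : 10 * σ ≤ 3 * r := by
    refine Nat.le_of_mul_le_mul_left (c := J) ?_ (by omega)
    have f1 : J * (10 * σ) = 10 * (J * σ) := by ring
    have f2 : J * (3 * r) = 3 * (J * r) := by ring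
    omega
  have hIj : 10 ^ 6 * 1 ≤ I * j := Nat.mul_le_mul (by omega) (by omega)
  have t3 : 9 * (I * j) ≤ 20 * σ := by
    have e1 : j * (499 * (I * J)) ≤ j * (1000 * r) := Nat.mul_le_mul_left j (by omega)
    have e2 : J * (499 * (I * j)) ≤ J * (1000 * σ + 1000) := by
      have f1 : j * (499 * (I * J)) = J * (499 * (I * j)) := by ring
      have f2 : j * (1000 * r) = 1000 * (j * r) := by ring
      have f3 : J * (1000 * σ + 1000) = 1000 * (J * σ) + 1000 * J := by ring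
      omega
    have e3 := Nat.le_of_mul_le_mul_left e2 (by omega)
    omega
  have t4 : σ ≤ I * j := by
    refine Nat.le_of_mul_le_mul_left (c := J) ?_ (by omega)
    have e1 : 3001 * J ≤ j * v := Nat.mul_le_mul (by omega) hJv
    have e2 : j * r + j * v = J * (I * j) := by rw [← mul_add, hv]; ring
    omega
  obtain ⟨J2, hJ2⟩ : ∃ J2 : ℕ, 2 * j + J2 = J := ⟨J - 2 * j, by omega⟩
  obtain ⟨S2, hS2⟩ : ∃ S2 : ℕ, 2 * σ + S2 = r := ⟨r - 2 * σ, by omega⟩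
  have hJr2 : J * r = 2 * (j * r) + J2 * r := by rw [← hJ2]; ring
  have hJS : J * r = 2 * (J * σ) + J * S2 := by rw [← hS2]; ring
  have t5 : S2 ≤ I * J2 := by
    refine Nat.le_of_mul_le_mul_left (c := J) ?_ (by omega)
    have e1 : 2 * J ≤ J2 * v := Nat.mul_le_mul (by omega) hJv
    have e2 : J2 * r + J2 * v = J * (I * J2) := by rw [← mul_add, hv]; ring
    omega
  have hIJ2 : 10 ^ 6 * 1 ≤ I * J2 := Nat.mul_le_mul (by omega) (by omega)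
  have t6 : 9 * (I * J2) ≤ 20 * S2 := by
    have e1 : J2 * (499 * (I * J)) ≤ J2 * (1000 * r) := Nat.mul_le_mul_left J2 (by omega)
    have e2 : J * (499 * (I * J2)) ≤ J * (1000 * S2 + 6002000) := by
      have f1 : J2 * (499 * (I * J)) = J * (499 * (I * J2)) := by ring
      have f2 : J2 * (1000 * r) = 1000 * (J2 * r) := by ring
      have f3 : J * (1000 * S2 + 6002000) = 1000 * (J * S2) + 6002000 * J := by ring
      omega
    have e3 := Nat.le_of_mul_le_mul_left e2 (by omega)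
    omega
  obtain ⟨a1, ha1⟩ : ∃ a1 : ℕ, a1 + 2 * π = 2 * σ := ⟨2 * σ - 2 * π, by omega⟩
  obtain ⟨v1, hv1⟩ : ∃ v1 : ℕ, v1 + 2 * σ = 2 * (I * j) := ⟨2 * (I * j) - 2 * σ, by omega⟩
  obtain ⟨v2, hv2⟩ : ∃ v2 : ℕ, v2 + S2 = I * J2 := ⟨I * J2 - S2, by omega⟩
  have hIJ : I * J = 2 * (I * j) + I * J2 := by rw [← hJ2]; ring
  have hvv : v = v1 + v2 := by omega
  have w1 : v1 * K + 2 * π = 2 * j * r + m * (a1 + 2 * π) := by
    have e1 : (v1 + 2 * σ) * K = 2 * (I * j) * K := by rw [hv1]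
    rw [ha1]
    zify at e1 hπ ⊢
    linear_combination e1 - 2 * hπ
  have w2 : v2 * K + σ0 = J2 * r + m * S2 + 2 * π := by
    rw [ha1] at w1
    rw [hvv] at hσ0
    have e1 : m * r = m * (2 * σ) + m * S2 := by rw [← hS2]; ring
    zify at w1 hσ0 e1 hJr2 ⊢
    linear_combination hσ0 - w1 + e1 + hJr2
  have f1 : I * (2 * j) = 2 * (I * j) := by ring
  have f2 : 11 * I * (2 * j) = 22 * (I * j) := by ring
  have f3 : 11 * I * J2 = 11 * (I * J2) := by ring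
  refine ⟨2 * j, J2, a1, S2, π, v1, v2, hJ2, by omega, by omega, by omega, by omega, by omega,
    by omega, hv2, by omega, by omega, by omega, by omega, by omega, by omega, hπ1, by omega,
    by omega, w1, by omega, by omega⟩

theorem S_u1 (I J K v r m : ℕ) (hI : 10 ^ 12 ≤ I) (hm : m + 2 = I) (hJ : 2000 * I ≤ J)
    (hK1 : J ≤ K) (hK2 : K ≤ 2 * 10 ^ 6 * J) (hv : r + v = I * J)
    (h1 : v * K ≤ r * (J + m)) (h2 : r * (J + m) ≤ v * K + (J + m + K)) :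
    S I J K (replicate r (T 0 0)) := by
  obtain ⟨J1, J2, a1, S2, π, v1, v2, q1, q2, q3, q4, q5, q6, q7, q8, q9, q10, q11, q12, q13, q14,
    q15, q16, q17, q18, q19, q20⟩ := u1_top I J K v r m hI hm hJ hK1 hK2 hv h1 h2
  have H1 := S_super1 I J1 K v1 a1 S2 r π m hI hm q3 (by omega) (by omega) q5 q7 (by omega) q9
    q11 q12 (by omega) q16 q18
  have H2 := S_super2 I J2 K v2 S2 a1 r π m hI hm q4 (by omega) (by omega) q6 q8 (by omega) q10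
    q13 q14 (by omega) q17 q19 q20
  have H := S_level1 I J1 J2 K a1 S2 π H1 H2
  rw [q1, q2] at H
  exact H

end Pool.Agent.Work.MP_f4b644_ag.Big
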