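import Pool.Agent.Work.MP_f4b644_ag.Big.Strip
import Pool.Agent.Work.MP_f4b644_ag.Big.PBRow

/-!
The three-strip design for small excess ω. Notation: d + ω + 2 = I. Strip W1 (height j1, excess ω,
s1 tangents with d mates, π pairs of them share their group), strip W2 (height j2, excess I - 3, s2
tangents with one mate) and a single row (excess 1).

`S_vf`: write n1 = s1 - 2 π. By `S.hingePP π (d - 1)`, `S.hingeT n1 0 d`, `S.hingeT s2 0 1` it is enough to
span with π PP (d - 1), n1 T 0 d, s2 T 0 1 and f1 + f2 + (I - 2) CP 1.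
First `S.splitB` (j1 | j2 + 1): PP (d-1) gives TT (d-1) | PB (d-1) true; T 0 (0 + d) gives T d 0 | BP d;
μ2 of the T 0 (0 + 1) give BP 1 | T 1 0 and the other T 0 (1 + 0) give BP 0 | T 0 1 (`Rule.symm`); f1 CP 1
go left. Left part: `S.splitC` (π | s1 - π + (s2 - t)): TT (d-1) gives T d 0 | T d 0 (`ruleC_TT`), the other
tangents give CP (d + 1) | T d 0, all BP go right, CP 1 to both; both parts are `S_stripW` (k = 0, N = 0
for the first; in both the groups are replicate (s1 - π) (d + 1) + replicate f1 1).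
Second `S.splitB` (j2 | 1): T 1 0 gives T 1 0 | BP 0; T 0 1 gives T 1 0 | BP 1; μ1 of the BP d give
BP d | BP 0, the others BP (d - 1) | BP 1; PB (0 + (d-1)) true gives PB (d-1) false | PB 0 true (symm of
`ruleB_PB`); f2 CP 1 left, I - 2 right. Left part: `S_stripW'` with hW2 (M = M', `ruleC_BP`, `ruleC_PB'`
symmetric). The row: `S.splitC` (π | K - π): PB 0 true gives BP 1 | BP 1, `S_gpl` twice with
GrOK I 1 1 (replicate (I - 2) 1) (`grOK_std`, R = 2); counts: 2 π ≤ π + π and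
2 (K - π) ≤ (K + t - π) + (K + t - π - μ1 - μ2).
`S_vfP` (the pure part of W2 with pairs): ε = π (ω + 1), j2 = 1 + j', x' = I - 2 - ε, N0 = n - N1.
`S.splitB` (1 | j'): PB ((ε - ω - 1) + x') false gives PB (ε - ω - 1) false | PB x' false; N1 of the BP (d - 1)
give BP (ε - 2) | BP (d + 1 - ε), the other N0 give BP (ε - 1) | BP (d - ε), the μ1 BP d give
BP (ε - 1) | BP (d + 1 - ε); I - ε singles go to the row, which is `S_pbrow` (with N0 + μ1 full points).
Rest: `S.splitC` (π | k - π), PB x' false gives BP x' | BP x' (`ruleC_PBf`), `S_gpl` twice.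
-/

set_option autoImplicit false

namespace Pool.Agent.Work.MP_f4b644_ag.Big

open Multiset Gad

theorem VF_left (I j ω w π n a μ ν f : ℕ) (hd : ω + (w + 1) + 2 = I) (hω : 1 ≤ ω)
    (hG : GrOK I j ω (replicate (π + n) (w + 1 + 1) + replicate f 1))
    (hc : a * (j + ω) ≤ j * (μ + ν) + μ) :
    S I j (π + (π + n + a)) (replicate π (TT w) + replicate n (T (w + 1) 0) + replicate μ (BP 1) +
      replicate ν (BP 0) + replicate f (CP 1)) := by
  have h1 := S_stripW I j ω (w + 1) π 0 0 (replicate n (w + 1 + 1) + replicate f 1) hd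
    (by rwa [← add_assoc, ← replicate_add]) (by simp) (by simp)
  have h2 := S_stripW I j ω (w + 1) (π + n) a (replicate μ 1 + replicate ν 0) (replicate f 1) hd hG
    (fun e he => by
      simp only [mem_add, mem_replicate] at he
      omega) (by simpa using hc)
  refine S.splitC (((((Spl.rep (ruleC_TT w) π).add (Spl.rep (ruleC_T (w + 1)).symm n)).add
    (Spl.repR (ruleC_BP 1).symm μ)).add (Spl.repR (ruleC_BP 0).symm ν)).add
    (Spl.rep (ruleC_CP 1) f)) (h1.of_eq ?_) (h2.of_eq ?_)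
  · simp only [Multiset.map_add, map_replicate, Multiset.map_zero, add_zero, add_assoc]
  · simp only [Multiset.map_add, map_replicate, replicate_add, add_assoc]

theorem VF_row (I π k μ ν i : ℕ) (hI : 5 ≤ I) (hi : i + 2 = I) (hc : 2 * k ≤ 2 * π + μ + 2 * ν) :
    S I 1 (π + k) (replicate π (PB 0 true) + replicate μ (BP 0) + replicate ν (BP 1) +
      replicate i (CP 1)) := by
  have hG : GrOK I 1 1 (replicate i 1) := by
    simpa using grOK_std I 1 1 0 1 0 i 2 le_rfl (by omega) le_rfl (by omega) le_rfl (by omega)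
      (by omega)
  have h1 := S_gpl hG π (replicate π 1) (fun e he => (eq_of_mem_replicate he).le) (by
    rw [card_replicate, sum_replicate, smul_eq_mul]
    omega)
  have h2 := S_gpl hG k (replicate π 1 + replicate μ 0 + replicate ν 1) (fun e he => by
      simp only [mem_add, mem_replicate] at he
      omega) (by
      simp only [card_add, card_replicate, sum_add, sum_replicate, smul_eq_mul]
      omega)
  refine S.splitC ((((Spl.rep (ruleC_PBt 0) π).add (Spl.repR (ruleC_BP 0).symm μ)).add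
    (Spl.repR (ruleC_BP 1).symm ν)).add (Spl.rep (ruleC_CP 1) i)) (h1.of_eq ?_) (h2.of_eq ?_)
  · simp only [map_replicate, add_zero, zero_add]
  · simp only [Multiset.map_add, map_replicate, zero_add]

theorem VF_right (I j w π k a μ1 ν1 μ2 ν2 f i : ℕ) (hI : 5 ≤ I) (hi : i + 2 = I)
    (hk : μ2 + ν2 + a = π + k) (hc : 2 * k ≤ 2 * π + (μ1 + μ2) + 2 * (ν1 + ν2))
    (hG : GrOK I j (I - 3) (replicate (μ2 + ν2) 2 + replicate f 1))
    (hW : S I j a (replicate π (PB w false) + replicate μ1 (BP (w + 1)) + replicate ν1 (BP w) +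
      (replicate (μ2 + ν2) 2 + replicate f 1).map CP)) :
    S I (j + 1) (π + k) (replicate π (PB w true) + replicate (μ1 + ν1) (BP (w + 1)) +
      replicate μ2 (T 1 0) + replicate ν2 (T 0 1) + replicate (f + i) (CP 1)) := by
  have h1 := S_stripW' I j (I - 3) 1 (μ2 + ν2) a _ _ (replicate f 1) (by omega) hG
    ((((Spl.repR (ruleC_PB' w false).symm π).add (Spl.repR (ruleC_BP (w + 1)).symm μ1)).add
      (Spl.repR (ruleC_BP w).symm ν1)).of_eq rfl (by simp) rfl) hW
  rw [hk] at h1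
  have h2 := VF_row I π k (μ1 + μ2) (ν1 + ν2) i hI hi hc
  refine (S.splitB (((((((Spl.rep (ruleB_PB 0 w true).symm π).add
    (Spl.rep (ruleB_BP (w + 1) 0) μ1)).add (Spl.rep (ruleB_BP w 1) ν1)).add
    (Spl.rep (ruleB_T 1 0 0) μ2)).add (Spl.rep (ruleB_T 0 0 1) ν2)).add
    (Spl.repL (ruleB_CP 1) f)).add (Spl.repR (ruleB_CP 1).symm i))
    (h1.of_eq ?_) (h2.of_eq ?_)).of_eq ?_
  · simp only [map_replicate, zero_add, add_zero]
    simp only [← nsmul_singleton]
    module
  · simp only [← nsmul_singleton]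
    module
  · simp only [zero_add, add_zero]
    simp only [← nsmul_singleton]
    module

theorem S_vf (I J K t ω d j1 j2 s1 s2 μ1 μ2 π f1 f2 F : ℕ) (hI : 5 ≤ I) (hd : d + ω + 2 = I)
    (hω : 1 ≤ ω) (hd1 : 1 ≤ d) (hJ : j1 + j2 + 1 = J) (hs : s1 + s2 = K + t) (ht1 : t ≤ s1)
    (ht2 : t ≤ s2) (hμ1 : 2 * π + μ1 ≤ s1) (hμ2 : μ2 ≤ s2) (hμ : μ1 + μ2 ≤ 2 * t) (hπ : π ≤ K)
    (hc1 : s2 * ω ≤ t * (j1 + ω) + μ2)
    (hG1 : GrOK I j1 ω (replicate (s1 - π) (d + 1) + replicate f1 1))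
    (hG2 : GrOK I j2 (I - 3) (replicate s2 2 + replicate f2 1))
    (hW2 : S I j2 (s1 - t) (replicate π (PB (d - 1) false) + replicate μ1 (BP d) +
      replicate (s1 - 2 * π - μ1) (BP (d - 1)) + (replicate s2 2 + replicate f2 1).map CP))
    (hF : F = π * (d - 1) + (s1 - 2 * π) * d + s2 + f1 + f2 + (I - 2)) :
    S I J K (replicate (K + t) (T 0 0) + replicate F (CP 1)) := by
  obtain ⟨w, rfl⟩ : ∃ w, d = w + 1 := ⟨d - 1, by omega⟩
  obtain ⟨ν1, rfl⟩ := Nat.exists_eq_add_of_le hμ1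
  obtain ⟨ν2, rfl⟩ := Nat.exists_eq_add_of_le hμ2
  obtain ⟨a1, ha1⟩ := Nat.exists_eq_add_of_le ht1
  obtain ⟨a2, ha2⟩ := Nat.exists_eq_add_of_le ht2
  obtain ⟨K', rfl⟩ := Nat.exists_eq_add_of_le hπ
  obtain ⟨i, hi⟩ : ∃ i, I - 2 = i := ⟨_, rfl⟩
  have e1 : 2 * π + μ1 + ν1 - π = π + (μ1 + ν1) := by omega
  have e2 : 2 * π + μ1 + ν1 - 2 * π = μ1 + ν1 := by omega
  have e3 : 2 * π + μ1 + ν1 - t = a1 := by omega
  rw [e1] at hG1
  rw [e2, e3, Nat.add_sub_cancel, Nat.add_sub_cancel_left] at hW2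
  rw [e2, Nat.add_sub_cancel, hi] at hF
  have hL := VF_left I j1 ω w π (μ1 + ν1) a2 μ2 ν2 f1 (by omega) hω hG1 (by
    rw [ha2] at hc1 ⊢
    nlinarith)
  have hR := VF_right I j2 w π K' a1 μ1 ν1 μ2 ν2 f2 i hI (by omega) (by omega) (by omega) hG2 hW2
  rw [show π + (μ1 + ν1) + a2 = K' by omega] at hL
  have h1 := S.splitB (((((Spl.rep (ruleB_PP w) π).add
    (Spl.rep (ruleB_T 0 0 (w + 1)) (μ1 + ν1))).add
    (Spl.rep (ruleB_T 0 0 1).symm μ2)).add (Spl.rep (ruleB_T 0 1 0).symm ν2)).add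
    ((Spl.repL (ruleB_CP 1) f1).add (Spl.repR (ruleB_CP 1).symm (f2 + i))))
    (hL.of_eq (by simp only [zero_add, add_zero])) (hR.of_eq (by simp only [zero_add, add_zero]))
  rw [← hJ, ← hs, hF, add_assoc j1]
  have h2 := S.hingeT (μ2 + ν2) 0 1 (replicate π (PP w) + replicate (μ1 + ν1) (T 0 (w + 1)) +
    replicate (f1 + f2 + i) (CP 1)) (h1.of_eq (by
      simp only [zero_add, add_zero, ← nsmul_singleton]
      module))
  have h3 := S.hingeT (μ1 + ν1) 0 (w + 1) (replicate π (PP w) + replicate (μ2 + ν2) (T 0 0) +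
    replicate (μ2 + ν2 + f1 + f2 + i) (CP 1)) (h2.of_eq (by
      simp only [← nsmul_singleton]
      module))
  have h4 := S.hingePP π w (replicate (μ1 + ν1 + (μ2 + ν2)) (T 0 0) +
    replicate ((μ1 + ν1) * (w + 1) + (μ2 + ν2) + f1 + f2 + i) (CP 1)) (h3.of_eq (by
      simp only [← nsmul_singleton]
      module))
  refine h4.of_eq ?_
  simp only [← nsmul_singleton]
  module

theorem S_vfP (I k t ω d j' π ε μ1 n N1 g f' : ℕ) (hd : d + ω + 2 = I) (hω : 1 ≤ ω) (hπ : 1 ≤ π)
    (hε : ε = π * (ω + 1)) (hεd : ε ≤ d) (ht : 1 ≤ t) (ht2 : 2 ≤ t ∨ ω = 1)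
    (hN1 : N1 + 2 * π * ω = t * ε) (hn : N1 ≤ n) (hk : k + t = 2 * π + μ1 + n) (hπk : π ≤ k)
    (hc : (k + t) * ω ≤ t * (j' + I - 2) + μ1)
    (hG : GrOK I j' (I - 2 - ε) (replicate g 2 + replicate f' 1)) :
    S I (1 + j') k (replicate π (PB (d - 1) false) + replicate μ1 (BP d) +
      replicate n (BP (d - 1)) + (replicate g 2 + replicate (f' + (I - ε)) 1).map CP) := by
  obtain ⟨o, rfl⟩ : ∃ o, ω = o + 1 := ⟨ω - 1, by omega⟩
  obtain ⟨a, ha⟩ : ∃ a, ε = o + 2 + a :=
    Nat.exists_eq_add_of_le (hε ▸ Nat.le_mul_of_pos_left _ hπ)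
  obtain ⟨b, rfl⟩ := Nat.exists_eq_add_of_le hεd
  obtain ⟨N0, rfl⟩ := Nat.exists_eq_add_of_le hn
  obtain ⟨k', rfl⟩ := Nat.exists_eq_add_of_le hπk
  have hrow := S_pbrow I (π + k') π (o + 1) t ε N1 (N0 + μ1) hε (by omega) hπ hω ht ht2 hN1
    (by omega)
  rw [show ε - (o + 1) - 1 = a by omega, show ε - 2 = o + a by omega,
    show ε - 1 = o + a + 1 by omega] at hrow
  rw [show I - 2 - ε = b + o + 1 by omega] at hG
  have h1 := S_gpl hG π (replicate π (b + o + 1)) (fun e he => (eq_of_mem_replicate he).le) (by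
    rw [card_replicate, sum_replicate, smul_eq_mul]
    nlinarith)
  have h2 := S_gpl hG k' (replicate π (b + o + 1) + replicate (N1 + μ1) (b + 1) + replicate N0 b)
    (fun e he => by
      simp only [mem_add, mem_replicate] at he
      omega) (by
      simp only [card_add, card_replicate, sum_add, sum_replicate, smul_eq_mul]
      rw [show j' + I - 2 = j' + ε + b + (o + 1) by omega] at hc
      have e1 : π + (N1 + μ1) + N0 = k' + t := by omega
      have e2 : b * (π + (N1 + μ1) + N0) = b * (k' + t) := by rw [e1]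
      rw [e1]
      nlinarith)
  have h3 := S.splitC ((((Spl.rep (ruleC_PBf (b + o + 1)) π).add
    (Spl.repR (ruleC_BP (b + 1)).symm (N1 + μ1))).add (Spl.repR (ruleC_BP b).symm N0)).add
    (Spl.map (replicate g 2 + replicate f' 1) CP CP CP fun z _ => ruleC_CP z))
    (h1.of_eq (by simp only [map_replicate, add_zero]))
    (h2.of_eq (by simp only [Multiset.map_add, map_replicate]))
  have h4 := S.splitB ((((((Spl.rep (ruleB_PB a (b + o + 1) false) π).add
    (Spl.rep (ruleB_BP (o + a) (b + 1)) N1)).add (Spl.rep (ruleB_BP (o + a + 1) b) N0)).add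
    (Spl.rep (ruleB_BP (o + a + 1) (b + 1)) μ1)).add (Spl.repL (ruleB_CP 1) (I - ε))).add
    (Spl.mapR (replicate g 2 + replicate f' 1) CP (fun _ => CP 0) CP fun z _ => (ruleB_CP z).symm))
    (hrow.of_eq (by
      simp only [← nsmul_singleton]
      module))
    (h3.of_eq (by
      simp only [Multiset.map_add, map_replicate]
      simp only [← nsmul_singleton]
      module))
  refine h4.of_eq ?_
  rw [show ε + b - 1 = o + a + b + 1 by omega, show ε + b = o + a + b + 2 by omega,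
    show a + (b + o + 1) = o + a + b + 1 by omega, show o + a + (b + 1) = o + a + b + 1 by omega,
    show o + a + 1 + b = o + a + b + 1 by omega, show o + a + 1 + (b + 1) = o + a + b + 2 by omega]
  simp only [Multiset.map_add, map_replicate]
  simp only [← nsmul_singleton]
  module

end Pool.Agent.Work.MP_f4b644_ag.Big
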